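import Pool.Agent.L5helper24.KM.Mix

/-!
# Trilinear classes, reflections and determinants
-/

set_option autoImplicit false
set_option linter.unusedSectionVars false
set_option linter.unusedSimpArgs false

open Matrix Finset Module

namespace Pool.Agent.L5helper24.KM

open Pool.Agent Pool.Agent.W544.PG Pool.Agent.L5helper24.KS Pool.Agent.W216.PG.SOI

noncomputable section

variable {n w r : ℕ} {T : HS n} {W : HW w} {c : Fin n → Fin r}
  {𝒜 : ∀ κ : Type, Submodule ℚ ((κ → Fin n ⊕ Fin w) → ℚ)}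

/-! ### Trilinear forms -/

section tri
variable {j : Fin n → Matrix (Fin w) (Fin w) ℚ}

/-- the trilinear form given by a family of bilinear forms on `H_1(A)`, indexed by the basis of
`T` -/
def tri (j : Fin n → Matrix (Fin w) (Fin w) ℚ) : (Fin 3 → Fin n ⊕ Fin w) → ℚ :=
  fun J => Sum.elim (fun a => Sum.elim (fun _ => 0)
    (fun b => Sum.elim (fun _ => 0) (fun d => j a b d) (J 2)) (J 1)) (fun _ => 0) (J 0)

theorem der_tri (j : Fin n → Matrix (Fin w) (Fin w) ℚ) (Z : Matrix (Fin n) (Fin n) ℂ)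
    (V : Matrix (Fin w) (Fin w) ℂ) (a : Fin n) (b d : Fin w) :
    der (fromBlocks Z 0 0 V) (fun J => (tri j J : ℂ)) ![Sum.inl a, Sum.inr b, Sum.inr d] =
      (∑ s, Z s a • mC (j s) + Vᵀ * mC (j a) + mC (j a) * V) b d := by
  simp only [der, Fin.sum_univ_three, Fintype.sum_sum_type, tri, Matrix.cons_val_zero,
    Matrix.cons_val_one, Matrix.add_apply, Matrix.mul_apply, Matrix.transpose_apply, mC,
    Matrix.map_apply, Matrix.sum_apply, Matrix.smul_apply, smul_eq_mul]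
  simp [mul_comm]

theorem hodge_tri (h : IsH T W (tri j)) : IsHodgeMap T W j := by
  intro a
  ext b d
  rw [← der_tri]
  exact congrFun h _

/-- triples as maps -/
def e3 (α : Type) : α × α × α ≃ (Fin 3 → α) where
  toFun x := ![x.1, x.2.1, x.2.2]
  invFun f := (f 0, f 1, f 2)
  left_inv _ := rfl
  right_inv f := by
    funext i
    fin_cases i <;> rfl

theorem pl_tri {a : Matrix (Fin n) (Fin n) ℂ} {h : Matrix (Fin w) (Fin w) ℂ}
    (hf : pl (fromBlocks a 0 0 h) (fun J => (tri j J : ℂ)) = fun J => (tri j J : ℂ))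
    (s : Fin n) : hᵀ * (∑ b, a b s • mC (j b)) * h = mC (j s) := by
  ext x y
  have h1 := congrFun hf ![Sum.inl s, Sum.inr x, Sum.inr y]
  rw [pl, ← Equiv.sum_comp (e3 _)] at h1
  simp only [Fintype.sum_prod_type, Fintype.sum_sum_type, Fin.prod_univ_three, e3,
    Equiv.coe_fn_mk, tri, Matrix.cons_val_zero, Matrix.cons_val_one, Matrix.cons_val,
    Matrix.fromBlocks_apply₁₁, Matrix.fromBlocks_apply₂₁, Matrix.fromBlocks_apply₁₂,
    Matrix.fromBlocks_apply₂₂, Matrix.zero_apply, Sum.elim_inl, Sum.elim_inr, Rat.cast_zero,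
    mul_zero, zero_mul, Finset.sum_const_zero, add_zero, zero_add] at h1
  have h2 : mC (j s) x y = (j s x y : ℂ) := rfl
  rw [h2, ← h1]
  simp only [Matrix.mul_apply, Matrix.transpose_apply, Matrix.sum_apply, Matrix.smul_apply,
    smul_eq_mul, Finset.sum_mul, Finset.mul_sum]
  have h3 : ∀ b p q, mC (j b) p q = (j b p q : ℂ) := fun _ _ _ => rfl
  simp only [h3]
  calc ∑ q, ∑ b, ∑ p, h p x * (a b s * (j b p q : ℂ)) * h q y
      = ∑ b, ∑ q, ∑ p, h p x * (a b s * (j b p q : ℂ)) * h q y := Finset.sum_comm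
    _ = ∑ b, ∑ p, ∑ q, h p x * (a b s * (j b p q : ℂ)) * h q y :=
        Finset.sum_congr rfl fun b _ => Finset.sum_comm
    _ = _ := by
        refine Finset.sum_congr rfl fun b _ => Finset.sum_congr rfl fun p _ =>
          Finset.sum_congr rfl fun q _ => ?_
        ring

theorem pl_Jl {a : Matrix (Fin n) (Fin n) ℂ} {h : Matrix (Fin w) (Fin w) ℂ}
    (hf : pl (fromBlocks a 0 0 h) (fun J => (tri j J : ℂ)) = fun J => (tri j J : ℂ))
    (u : Fin n → ℂ) : hᵀ * Jl j (a *ᵥ u) * h = Jl j u := by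
  change hᵀ * (∑ b, (a *ᵥ u) b • mC (j b)) * h = ∑ s, u s • mC (j s)
  have h2 : ∑ b, (a *ᵥ u) b • mC (j b) = ∑ s, u s • ∑ b, a b s • mC (j b) := by
    simp only [Matrix.mulVec, dotProduct, Finset.sum_smul, Finset.smul_sum, smul_smul]
    rw [Finset.sum_comm]
    refine Finset.sum_congr rfl fun a _ => Finset.sum_congr rfl fun b _ => ?_
    rw [mul_comm]
  rw [h2, Finset.mul_sum, Finset.sum_mul]
  refine Finset.sum_congr rfl fun s _ => ?_
  rw [mul_smul_comm, smul_mul_assoc, pl_tri hf]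

theorem Jl_sel {k : ℕ} (e : Fin k → Fin n) (u : Fin k → ℂ) :
    Jl j (sel e *ᵥ u) = Jl (fun b => j (e b)) u := by
  change ∑ a, (sel e *ᵥ u) a • mC (j a) = ∑ b, u b • mC (j (e b))
  simp only [Matrix.mulVec, dotProduct, Finset.sum_smul, sel, Matrix.of_apply, ite_mul, one_mul,
    zero_mul, ite_smul, zero_smul]
  rw [Finset.sum_comm]
  refine Finset.sum_congr rfl fun b _ => ?_
  rw [Finset.sum_ite_eq]
  simp

end tri

/-- a class for a block -/
structure Cb (𝒜 : ∀ κ : Type, Submodule ℚ ((κ → Fin n ⊕ Fin w) → ℚ)) (c : Fin n → Fin r)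
    (i : Fin r) (j : Fin n → Matrix (Fin w) (Fin w) ℚ) : Prop where
  mem : tri j ∈ 𝒜 (Fin 3)
  supp : ∀ a, c a ≠ i → j a = 0
  ne : j ≠ 0

theorem mC_eq_zero {m : ℕ} {A : Matrix (Fin m) (Fin m) ℚ} (h : mC A = 0) : A = 0 := by
  ext a b
  have h2 := congrFun (congrFun h a) b
  simp only [mC, Matrix.zero_apply, Matrix.map_apply] at h2 ⊢
  exact_mod_cast h2

theorem bk_mulVec {k : ℕ} {e : Fin k → Fin n} (he : Function.Injective e)
    (Z : Matrix (Fin k) (Fin k) ℂ) (u : Fin k → ℂ) :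
    bk e Z *ᵥ (sel e *ᵥ u) = sel e *ᵥ (Z *ᵥ u) := by
  rw [Matrix.mulVec_mulVec, Matrix.mulVec_mulVec, bk, Matrix.mul_assoc, sel_T_sel e he,
    Matrix.mul_one]

theorem Cb.cl (h : IsSys T W 𝒜) {C : Ctx T c W} {i : Fin r}
    {j : Fin n → Matrix (Fin w) (Fin w) ℚ} (hc : Cb 𝒜 c i j)
    (U : Setup (LB T W (C.e i)) (C.T' i) W) : U.Cl (fun b => j (C.e i b)) := by
  have h1 := Jl_eqv (hodge_tri (h.hodge _ _ hc.mem))
  have heqv : Eqv (LB T W (C.e i)) (Jl fun b => j (C.e i b)) := by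
    refine ⟨fun Z V hZ u => ?_⟩
    have h2 := h1.eq _ _ (mem_LB'.1 hZ) (sel (C.e i) *ᵥ u)
    rw [bk_mulVec (C.blk i).en.inj, Jl_sel, Jl_sel] at h2
    exact h2
  refine ⟨heqv, fun h0 => hc.ne ?_⟩
  have h2 : ∀ u, Jl (fun b => j (C.e i b)) u = 0 := by
    intro u
    rw [U.img.J_eq U.fr U.hq U.hs heqv u, h0, zero_mul]
  funext a
  by_cases ha : c a = i
  · obtain ⟨b, rfl⟩ := (C.blk i).en.surj a ha
    have h3 := h2 (Pi.single b 1)
    rw [Jl_single] at h3
    exact mC_eq_zero h3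
  · exact hc.supp a ha

/-! ### The reflection -/

section refl
variable {k : ℕ} {Q : Matrix (Fin k) (Fin k) ℂ}

/-- the reflection in a vector of norm `-2` -/
def rf (Q : Matrix (Fin k) (Fin k) ℂ) (f : Fin k → ℂ) : Matrix (Fin k) (Fin k) ℂ :=
  1 + vecMulVec f (Q *ᵥ f)

theorem rf_mulVec (hQ : Qᵀ = Q) (f u : Fin k → ℂ) : rf Q f *ᵥ u = u + bb Q f u • f := by
  rw [rf, Matrix.add_mulVec, Matrix.one_mulVec, vecMulVec_mulVec, op_smul_eq_smul,
    dotProduct_comm, ← bb, bb_comm hQ u f]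

theorem rf_det (f : Fin k → ℂ) (hf : bb Q f f = -2) : (rf Q f).det = -1 := by
  have h1 : vecMulVec f (Q *ᵥ f) = replicateCol Unit f * replicateRow Unit (Q *ᵥ f) := by
    ext a b
    simp [Matrix.mul_apply, vecMulVec_apply]
  rw [rf, h1, Matrix.det_one_add_replicateCol_mul_replicateRow, dotProduct_comm, ← bb, hf]
  norm_num

theorem rf_orth (hQ : Qᵀ = Q) (f : Fin k → ℂ) (hf : bb Q f f = -2) :
    (rf Q f)ᵀ * Q * rf Q f = Q := by
  obtain ⟨g, hg⟩ : ∃ g, g = Q *ᵥ f := ⟨_, rfl⟩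
  have h1 : (rf Q f)ᵀ = 1 + vecMulVec g f := by
    rw [rf, Matrix.transpose_add, Matrix.transpose_one, transpose_vecMulVec, hg]
  have h2 : f ᵥ* Q = g := by
    rw [← Matrix.mulVec_transpose, hQ, hg]
  have h3 : f ⬝ᵥ g = -2 := by rw [hg]; exact hf
  have h4 : f ᵥ* Q ⬝ᵥ f = -2 := by rw [h2, dotProduct_comm, h3]
  calc (rf Q f)ᵀ * Q * rf Q f = (1 + vecMulVec g f) * Q * (1 + vecMulVec f g) := by
        rw [h1, rf, ← hg]
    _ = Q + vecMulVec (Q *ᵥ f) g + vecMulVec g (f ᵥ* Q) +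
        vecMulVec g (f ᵥ* Q) * vecMulVec f g := by
        rw [add_mul, one_mul, mul_add, mul_one, add_mul, vecMulVec_mul, mul_vecMulVec]
        abel
    _ = Q := by
        rw [vecMulVec_mul_vecMulVec, h4, h2, ← hg, vecMulVec_smul]
        module

theorem det_sq {A : Matrix (Fin k) (Fin k) ℂ} (hQ : Q.det ≠ 0) (h : Aᵀ * Q * A = Q) :
    A.det = 1 ∨ A.det = -1 := by
  have h1 := congrArg Matrix.det h
  rw [Matrix.det_mul, Matrix.det_mul, Matrix.det_transpose] at h1
  have h2 : Q.det * (A.det * A.det - 1) = 0 := by linear_combination h1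
  have h3 : (A.det - 1) * (A.det + 1) = 0 := by
    linear_combination (mul_eq_zero.1 h2).resolve_left hQ
  rcases mul_eq_zero.1 h3 with h4 | h4
  · exact Or.inl (sub_eq_zero.1 h4)
  · exact Or.inr (eq_neg_of_add_eq_zero_left h4)

end refl

/-! ### The determinant -/

/-- the determinant form of a block -/
def dt {k : ℕ} (w : ℕ) (e : Fin k → Fin n) : (Fin k → Fin n ⊕ Fin w) → ℚ :=
  fun J => (Matrix.of fun l m : Fin k => if J l = Sum.inl (e m) then (1 : ℚ) else 0).det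

theorem pl_dt {k : ℕ} {e : Fin k → Fin n} (he : Function.Injective e)
    {a : Matrix (Fin n) (Fin n) ℂ} {h : Matrix (Fin w) (Fin w) ℂ}
    (hf : pl (fromBlocks a 0 0 h) (fun J => (dt w e J : ℂ)) = fun J => (dt w e J : ℂ)) :
    (a.submatrix e e).det = 1 := by
  have h1 := congrFun hf fun l => Sum.inl (e l)
  have h2 : dt w e (fun l => Sum.inl (e l)) = 1 := by
    have h3 : (Matrix.of fun l m : Fin k =>
        if (Sum.inl (e l) : Fin n ⊕ Fin w) = Sum.inl (e m) then (1 : ℚ) else 0) = 1 := by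
      ext l m
      rw [Matrix.of_apply, Matrix.one_apply]
      by_cases hlm : l = m
      · rw [if_pos (by rw [hlm]), if_pos hlm]
      · rw [if_neg (fun h' => hlm (he (Sum.inl_injective h'))), if_neg hlm]
    rw [dt, h3, Matrix.det_one]
  rw [h2, Rat.cast_one, pl] at h1
  rw [← h1, Matrix.det_apply']
  have h4 : ∀ K : Fin k → Fin n ⊕ Fin w, (dt w e K : ℂ) = ∑ σ : Equiv.Perm (Fin k),
      ((Equiv.Perm.sign σ : ℤ) : ℂ) * ∏ l, (if K l = Sum.inl (e (σ l)) then (1 : ℂ) else 0) := by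
    intro K
    rw [dt, ← Matrix.det_transpose, Matrix.det_apply']
    push_cast
    refine Finset.sum_congr rfl fun σ _ => ?_
    congr 1
    refine Finset.prod_congr rfl fun l _ => ?_
    rw [Matrix.transpose_apply, Matrix.of_apply]
    split_ifs <;> simp
  simp only [h4, Finset.mul_sum]
  rw [Finset.sum_comm]
  refine Finset.sum_congr rfl fun σ _ => ?_
  have h5 : ∏ l, (a.submatrix e e) (σ l) l = ∏ l, ∑ x : Fin n ⊕ Fin w,
      (fromBlocks a 0 0 h : Matrix (Fin n ⊕ Fin w) (Fin n ⊕ Fin w) ℂ) x (Sum.inl (e l)) *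
        (if x = Sum.inl (e (σ l)) then (1 : ℂ) else 0) := by
    refine Finset.prod_congr rfl fun l _ => ?_
    rw [Finset.sum_eq_single (Sum.inl (e (σ l)))]
    · rw [if_pos rfl, mul_one]
      rfl
    · intro x _ hx
      rw [if_neg hx, mul_zero]
    · intro h'
      exact absurd (Finset.mem_univ _) h'
  rw [h5, Finset.prod_univ_sum, Finset.mul_sum]
  refine Finset.sum_congr (by ext; simp) fun K _ => ?_
  rw [Finset.prod_mul_distrib]
  ring

end

end Pool.Agent.L5helper24.KM
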