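import Pool.Agent.L5helper24.KM.Asm

/-!
# All Hodge classes
-/

set_option autoImplicit false
set_option linter.unusedSectionVars false
set_option linter.unusedSimpArgs false

open Matrix Finset Module

namespace Pool.Agent.L5helper24.KM

open Pool.Agent Pool.Agent.W544.PG Pool.Agent.L5helper24.KS Pool.Agent.W216.PG.SOI

noncomputable section

variable {n w r : ℕ} {T : HS n} {W : HW w} {c : Fin n → Fin r}
  {𝒜 : ∀ κ : Type, Submodule ℚ ((κ → Fin n ⊕ Fin w) → ℚ)}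

/-- the form of a block -/
def Qb (T : HS n) (c : Fin n → Fin r) (i : Fin r) : Matrix (Fin n) (Fin n) ℚ :=
  Matrix.of fun a b => if c a = i then T.Q a b else 0

/-- the projection to a block -/
def pic (c : Fin n → Fin r) (i : Fin r) : Matrix (Fin n) (Fin n) ℂ :=
  Matrix.diagonal fun a => if c a = i then 1 else 0

theorem mC_Qb (bQ : BD c T.Q) (i : Fin r) : mC (Qb T c i) = mC T.Q * pic c i := by
  ext a b
  rw [pic, Matrix.mul_diagonal]
  have h1 : mC (Qb T c i) a b = if c a = i then (T.Q a b : ℂ) else 0 := by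
    simp only [mC, Qb, Matrix.map_apply, Matrix.of_apply]
    split_ifs <;> simp
  have h2 : mC T.Q a b = (T.Q a b : ℂ) := rfl
  rw [h1, h2]
  by_cases hab : c a = c b
  · rw [hab]
    split_ifs <;> simp
  · rw [bQ a b hab]
    simp

theorem mC1 {m : ℕ} : mC (1 : Matrix (Fin m) (Fin m) ℚ) = 1 := by
  ext i j; simp [mC, Matrix.one_apply]; split_ifs <;> simp

theorem comm_of_form {α : Type} [Fintype α] [DecidableEq α] {Q Q' a D : Matrix α α ℂ}
    (hQ : Q' * Q = 1) (h1 : aᵀ * Q * a = Q) (h2 : aᵀ * (Q * D) * a = Q * D) : a * D = D * a := by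
  have g1 : (Q' * aᵀ * Q) * a = 1 := by
    calc (Q' * aᵀ * Q) * a = Q' * (aᵀ * Q * a) := by simp only [mul_assoc]
      _ = 1 := by rw [h1, hQ]
  have g2 : a * (Q' * aᵀ * Q) = 1 := mul_eq_one_comm.1 g1
  have g3 : (Q' * aᵀ * Q) * D * a = D := by
    calc (Q' * aᵀ * Q) * D * a = Q' * (aᵀ * (Q * D) * a) := by simp only [mul_assoc]
      _ = D := by rw [h2, ← mul_assoc, hQ, one_mul]
  calc a * D = a * ((Q' * aᵀ * Q) * D * a) := by rw [g3]
    _ = (a * (Q' * aᵀ * Q)) * D * a := by simp only [mul_assoc]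
    _ = D * a := by rw [g2, one_mul]

theorem QQ : mC T.Q⁻¹ * mC T.Q = 1 := by rw [← mC_mul, (Q_inv T).1, mC1]

theorem EE : mC W.E⁻¹ * mC W.E = 1 := by rw [← mC_mul, (E_inv W).1, mC1]

theorem FxA.bd (bQ : BD c T.Q)
    (hpol : ∀ i, bf (fromBlocks (Qb T c i) 0 0 0) ∈ 𝒜 (Fin 2)) {a : Matrix (Fin n) (Fin n) ℂ}
    {d : Matrix (Fin w) (Fin w) ℂ} (hP : FxA 𝒜 (fromBlocks a 0 0 d))
    (ha : aᵀ * mC T.Q * a = mC T.Q) : BD c a := by
  intro x y hxy
  have h1 := hP.formT (hpol (c x))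
  rw [mC_Qb bQ] at h1
  have h2 := comm_of_form QQ ha h1
  have h3 := congrFun (congrFun h2 x) y
  rw [pic, Matrix.mul_diagonal, Matrix.diagonal_mul, if_pos rfl, if_neg (Ne.symm hxy),
    mul_zero, one_mul] at h3
  exact h3.symm

theorem sub_orth {k : ℕ} {e : Fin k → Fin n} {i : Fin r} {T' : HS k} (b : Blk T c i e T')
    {a : Matrix (Fin n) (Fin n) ℂ} (hbd : BD c a) (ha : aᵀ * mC T.Q * a = mC T.Q) :
    (a.submatrix e e)ᵀ * mC T'.Q * a.submatrix e e = mC T'.Q := by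
  have h1 : mC T'.Q = (sel e)ᵀ * mC T.Q * sel e := by
    rw [b.Q, ← sub_eq, mC_sub]
  have h2 := b.en.mul_sel hbd
  calc (a.submatrix e e)ᵀ * mC T'.Q * a.submatrix e e
      = (sel e * a.submatrix e e)ᵀ * mC T.Q * (sel e * a.submatrix e e) := by
        rw [h1, Matrix.transpose_mul]; simp only [Matrix.mul_assoc]
    _ = (sel e)ᵀ * (aᵀ * mC T.Q * a) * sel e := by
        rw [← h2, Matrix.transpose_mul]; simp only [Matrix.mul_assoc]
    _ = mC T'.Q := by rw [ha, h1]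

theorem act_block (C : Ctx T c W) {i : Fin r} {j : Fin n → Matrix (Fin w) (Fin w) ℚ}
    (hc : Cb 𝒜 c i j) {a : Matrix (Fin n) (Fin n) ℂ}
    {d : Matrix (Fin w) (Fin w) ℂ} (hP : FxA 𝒜 (fromBlocks a 0 0 d)) (hbd : BD c a)
    (u : Fin (C.k i) → ℂ) :
    dᵀ * Jl (fun b => j (C.e i b)) (a.submatrix (C.e i) (C.e i) *ᵥ u) * d =
      Jl (fun b => j (C.e i b)) u := by
  have h1 := pl_Jl (hP _ _ hc.mem) (sel (C.e i) *ᵥ u)
  rw [Matrix.mulVec_mulVec, (C.blk i).en.mul_sel hbd, ← Matrix.mulVec_mulVec, Jl_sel,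
    Jl_sel] at h1
  exact h1

/-- the hypotheses -/
structure Hyp (C : Ctx T c W) (𝒜 : ∀ κ : Type, Submodule ℚ ((κ → Fin n ⊕ Fin w) → ℚ))
    (P : Fin r → Matrix (Fin w) (Fin w) ℚ) (R : Fin r → Matrix (Fin w) (Fin w) ℂ) : Prop where
  sys : IsSys T W 𝒜
  pol : ∀ i, bf (fromBlocks (Qb T c i) 0 0 0) ∈ 𝒜 (Fin 2)
  endo : ∀ D : Matrix (Fin w) (Fin w) ℚ, mC D * W.y = W.y * mC D →
    bf (fromBlocks 0 0 0 (W.E * D)) ∈ 𝒜 (Fin 2)
  pd : ∀ i, PD C i (P i) (R i)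
  orth : ∀ i j, i ≠ j → mC (P i) * mC (P j) = 0
  cls : ∀ i, (∃ (U : Setup (LB T W (C.e i)) (C.T' i) W) (j : Fin n → Matrix (Fin w) (Fin w) ℚ),
    mC (P i) = U.e ∧ Cb 𝒜 c i j) ∨ (P i = 0 ∧ dt w (C.e i) ∈ 𝒜 (Fin (C.k i)))
  rest : ∀ (κ : Type) [Fintype κ] [DecidableEq κ] (t : (κ → Fin n ⊕ Fin w) → ℚ), IsH T W t →
    plv (fun _ => fromBlocks 0 0 0 (1 - ∑ i, P i)) t ∈ 𝒜 κ

section
variable {C : Ctx T c W} {P : Fin r → Matrix (Fin w) (Fin w) ℚ}
  {R : Fin r → Matrix (Fin w) (Fin w) ℂ} (H : Hyp C 𝒜 P R)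
include H

theorem Hyp.form {a : Matrix (Fin n) (Fin n) ℂ} {d : Matrix (Fin w) (Fin w) ℂ}
    (hP : FxA 𝒜 (fromBlocks a 0 0 d)) : aᵀ * mC T.Q * a = mC T.Q ∧ dᵀ * mC W.E * d = mC W.E :=
  ⟨hP.formT H.sys.polT, hP.formA H.sys.polA⟩

theorem Hyp.comm {a : Matrix (Fin n) (Fin n) ℂ} {d : Matrix (Fin w) (Fin w) ℂ}
    (hP : FxA 𝒜 (fromBlocks a 0 0 d)) {D : Matrix (Fin w) (Fin w) ℚ}
    (hD : mC D * W.y = W.y * mC D) : d * mC D = mC D * d := by
  have h1 := hP.formA (H.endo D hD)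
  rw [mC_mul] at h1
  exact comm_of_form EE (H.form hP).2 h1

theorem Hyp.comm_cm {a : Matrix (Fin n) (Fin n) ℂ} {d : Matrix (Fin w) (Fin w) ℂ}
    (hP : FxA 𝒜 (fromBlocks a 0 0 d)) {i : Fin r} (U : Setup (LB T W (C.e i)) (C.T' i) W)
    (K : Matrix (Fin w) (Fin w) ℂ) (hK : Cm U.e U.a K) : d * K = K * d := by
  have h1 := U.cm_span hK
  clear hK
  induction h1 using Submodule.span_induction with
  | mem x hx =>
    obtain ⟨D, rfl, hD⟩ := hx
    exact H.comm hP hD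
  | zero => rw [mul_zero, zero_mul]
  | add x y _ _ hx hy => rw [mul_add, add_mul, hx, hy]
  | smul z x _ hx => rw [mul_smul_comm, smul_mul_assoc, hx]

theorem Hyp.bd {a : Matrix (Fin n) (Fin n) ℂ} {d : Matrix (Fin w) (Fin w) ℂ}
    (hP : FxA 𝒜 (fromBlocks a 0 0 d)) : BD c a :=
  hP.bd C.bQ H.pol (H.form hP).1

end

theorem bk_sub_ne {k k' : ℕ} {e : Fin k → Fin n} {e' : Fin k' → Fin n} {i i' : Fin r}
    (he : Enum c e i) (he' : Enum c e' i') (h : i ≠ i') (A : Matrix (Fin k) (Fin k) ℂ) :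
    (bk e A).submatrix e' e' = 0 := by
  rw [sub_eq, bk]
  calc (sel e')ᵀ * (sel e * A * (sel e)ᵀ) * sel e' =
      ((sel e')ᵀ * sel e) * A * (sel e)ᵀ * sel e' := by simp only [Matrix.mul_assoc]
    _ = 0 := by rw [selT_sel_ne he' he h.symm]; simp

theorem one_sub {k : ℕ} {e : Fin k → Fin n} (he : Function.Injective e) :
    (1 : Matrix (Fin n) (Fin n) ℂ).submatrix e e = 1 := by
  rw [sub_eq, Matrix.mul_one, sel_T_sel e he]

theorem bk1_sub {k : ℕ} {e : Fin k → Fin n} (he : Function.Injective e)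
    (A : Matrix (Fin k) (Fin k) ℂ) : (bk1 e A).submatrix e e = A := by
  have h1 : (bk1 e A).submatrix e e =
      (1 : Matrix (Fin n) (Fin n) ℂ).submatrix e e + (bk e (A - 1)).submatrix e e := rfl
  rw [h1, one_sub he, bk_submatrix he, add_sub_cancel]

theorem bk1_sub_ne {k k' : ℕ} {e : Fin k → Fin n} {e' : Fin k' → Fin n} {i i' : Fin r}
    (he : Enum c e i) (he' : Enum c e' i') (h : i ≠ i') (A : Matrix (Fin k) (Fin k) ℂ) :
    (bk1 e A).submatrix e' e' = 1 := by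
  have h1 : (bk1 e A).submatrix e' e' =
      (1 : Matrix (Fin n) (Fin n) ℂ).submatrix e' e' + (bk e (A - 1)).submatrix e' e' := rfl
  rw [h1, one_sub he'.inj, bk_sub_ne he he' h, add_zero]

theorem BD_one : BD c (1 : Matrix (Fin n) (Fin n) ℂ) := by
  intro a b h
  exact Matrix.one_apply_ne fun h' => h (by rw [h'])

theorem bd_mul {A B : Matrix (Fin n) (Fin n) ℂ} (hA : BD c A) (hB : BD c B) : BD c (A * B) := by
  intro a b h
  rw [Matrix.mul_apply]
  refine Finset.sum_eq_zero fun x _ => ?_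
  by_cases h1 : c a = c x
  · rw [hB x b (fun h2 => h (h1.trans h2)), mul_zero]
  · rw [hA a x h1, zero_mul]

theorem bk1_BD {k : ℕ} {e : Fin k → Fin n} {i : Fin r} (he : Enum c e i)
    (A : Matrix (Fin k) (Fin k) ℂ) : BD c (bk1 e A) := by
  intro a b h
  have h1 : bk1 e A a b = (1 : Matrix (Fin n) (Fin n) ℂ) a b + bk e (A - 1) a b := rfl
  rw [h1, BD_one a b h, bk_BD he _ a b h, add_zero]

theorem Qdet {k : ℕ} (T' : HS k) : (mC T'.Q).det ≠ 0 := by
  rw [det_mC]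
  exact_mod_cast W74.PG.det_ne T'

theorem inv_orth {k : ℕ} {Q A B : Matrix (Fin k) (Fin k) ℂ} (hAB : A * B = 1)
    (h : Aᵀ * Q * A = Q) : Bᵀ * Q * B = Q := by
  have h1 : Bᵀ * Aᵀ = 1 := by rw [← Matrix.transpose_mul, hAB, Matrix.transpose_one]
  calc Bᵀ * Q * B = (Bᵀ * Aᵀ) * Q * (A * B) := by
        nth_rewrite 1 [← h]; simp only [mul_assoc]
    _ = Q := by rw [h1, hAB, one_mul, mul_one]

theorem mul_orth {k : ℕ} {Q A B : Matrix (Fin k) (Fin k) ℂ}
    (hA : Aᵀ * Q * A = Q) (hB : Bᵀ * Q * B = Q) : (A * B)ᵀ * Q * (A * B) = Q := by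
  calc (A * B)ᵀ * Q * (A * B) = Bᵀ * (Aᵀ * Q * A) * B := by
        rw [Matrix.transpose_mul]; simp only [mul_assoc]
    _ = Q := by rw [hA, hB]

theorem lift_mul (C : Ctx T c W) (h : IsSys T W 𝒜) (i : Fin r)
    {A : Matrix (Fin (C.k i)) (Fin (C.k i)) ℂ}
    (hA : Aᵀ * mC (C.T' i).Q * A = mC (C.T' i).Q) (hdet : A.det = 1)
    {a : Matrix (Fin n) (Fin n) ℂ} {d : Matrix (Fin w) (Fin w) ℂ}
    (hP : FxA 𝒜 (fromBlocks a 0 0 d)) (hbd : BD c a) :
    ∃ a' d', FxA 𝒜 (fromBlocks a' 0 0 d') ∧ BD c a' ∧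
      (∀ (κ : Type) [Fintype κ] [DecidableEq κ] (t : (κ → Fin n ⊕ Fin w) → ℚ), IsH T W t →
        pl (fromBlocks a' 0 0 d') (fun J => (t J : ℂ)) =
          pl (fromBlocks a 0 0 d) (fun J => (t J : ℂ))) ∧
      a'.submatrix (C.e i) (C.e i) = A * a.submatrix (C.e i) (C.e i) ∧
      ∀ j, j ≠ i → a'.submatrix (C.e j) (C.e j) = a.submatrix (C.e j) (C.e j) := by
  obtain ⟨l, hl⟩ := lift_block C i hA hdet
  have h1 : (fromBlocks (bk1 (C.e i) A) 0 0 l * fromBlocks a 0 0 d :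
      Matrix (Fin n ⊕ Fin w) (Fin n ⊕ Fin w) ℂ) =
      fromBlocks (bk1 (C.e i) A * a) 0 0 (l * d) := by
    rw [Matrix.fromBlocks_multiply]
    simp
  refine ⟨bk1 (C.e i) A * a, l * d, ?_, bd_mul (bk1_BD (C.blk i).en A) hbd, ?_, ?_, ?_⟩
  · rw [← h1]
    exact (hl.fxA h).mul hP
  · intro κ _ _ t ht
    rw [← h1, pl_mul, hl κ t ht]
  · rw [(C.blk i).en.sub_mul hbd, bk1_sub (C.blk i).en.inj]
  · intro j hj
    rw [(C.blk j).en.sub_mul hbd, bk1_sub_ne (C.blk i).en (C.blk j).en hj.symm, Matrix.one_mul]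

section
variable {C : Ctx T c W} {P : Fin r → Matrix (Fin w) (Fin w) ℚ}
  {R : Fin r → Matrix (Fin w) (Fin w) ℂ} (H : Hyp C 𝒜 P R)
include H

/-- The determinants of the blocks are one. -/
theorem Hyp.det_one {a : Matrix (Fin n) (Fin n) ℂ} {d : Matrix (Fin w) (Fin w) ℂ}
    (hP : FxA 𝒜 (fromBlocks a 0 0 d)) (i : Fin r) : (a.submatrix (C.e i) (C.e i)).det = 1 := by
  have hbd := H.bd hP
  rcases H.cls i with ⟨U, j, hU, hc⟩ | ⟨-, h1⟩
  · obtain ⟨A, hA⟩ : ∃ A, A = a.submatrix (C.e i) (C.e i) := ⟨_, rfl⟩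
    have hAo := sub_orth (C.blk i) hbd (H.form hP).1
    rw [← hA] at hAo ⊢
    rcases det_sq (Qdet (C.T' i)) hAo with h1 | h1
    · exact h1
    exfalso
    have hcl := hc.cl H.sys U
    -- the reflection
    obtain ⟨f, hf⟩ : ∃ f, f = U.o - star U.o := ⟨_, rfl⟩
    have hsym := U.fr.symm
    have hff : bb (mC (C.T' i).Q) f f = -2 := by
      rw [hf, sub_eq_add_neg, bb_add_left, ← neg_one_smul ℂ (star U.o), bb_smul_left,
        bb_comm hsym U.o, bb_comm hsym (star U.o), bb_add_left, bb_add_left, bb_smul_left,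
        bb_smul_left, U.fr.oo, U.fr.o'o', bb_comm hsym (star U.o) U.o, U.fr.oo']
      norm_num
    have hfe : bb (mC (C.T' i).Q) f (U.o + star U.o) = 0 := by
      rw [hf, sub_eq_add_neg, bb_add_left, ← neg_one_smul ℂ (star U.o), bb_smul_left,
        bb_comm hsym U.o, bb_comm hsym (star U.o), bb_add_left, bb_add_left, U.fr.oo,
        U.fr.o'o', bb_comm hsym (star U.o) U.o, U.fr.oo']
      norm_num
    have hfv : ∀ m, bb (mC (C.T' i).Q) f (U.v m) = 0 := by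
      intro m
      rw [hf, sub_eq_add_neg, bb_add_left, ← neg_one_smul ℂ (star U.o), bb_smul_left,
        U.fr.ov, U.fr.o'v]
      norm_num
    have hu : IsUnit A.det := by rw [h1]; exact isUnit_one.neg
    have hAi : A * A⁻¹ = 1 := Matrix.mul_nonsing_inv A hu
    have hAi' : A⁻¹ * A = 1 := Matrix.nonsing_inv_mul A hu
    have hdi : (rf (mC (C.T' i).Q) f * A⁻¹).det = 1 := by
      have h2 := congrArg Matrix.det hAi
      rw [Matrix.det_mul, Matrix.det_one, h1] at h2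
      rw [Matrix.det_mul, rf_det f hff]
      exact h2
    obtain ⟨a', d', h3, h4, -, h5, -⟩ := lift_mul C H.sys i
      (mul_orth (rf_orth hsym f hff) (inv_orth hAi hAo)) hdi hP hbd
    rw [← hA, mul_assoc, hAi', mul_one] at h5
    have h6 := fun u => act_block C hc h3 h4 u
    rw [h5] at h6
    refine U.no_refl (h := d') hcl (H.form h3).2 (H.comm_cm h3 U) ?_ ?_ ?_
    · have h7 := h6 f
      rw [rf_mulVec hsym, hff] at h7
      have h8 : f + (-2 : ℂ) • f = -f := by module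
      rw [h8, map_neg, mul_neg, neg_mul] at h7
      rw [← hf]
      exact neg_eq_iff_eq_neg.1 h7
    · have h7 := h6 (U.o + star U.o)
      rwa [rf_mulVec hsym, hfe, zero_smul, add_zero] at h7
    · intro m
      have h7 := h6 (U.v m)
      rwa [rf_mulVec hsym, hfv, zero_smul, add_zero] at h7
  · exact pl_dt (C.blk i).en.inj (hP _ _ h1)

/-- the first reduction -/
theorem Hyp.redA {P₀ : Matrix (Fin n ⊕ Fin w) (Fin n ⊕ Fin w) ℂ} (hP : FxA 𝒜 P₀)
    (s : Finset (Fin r)) : ∃ a d, FxA 𝒜 (fromBlocks a 0 0 d) ∧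
      (∀ (κ : Type) [Fintype κ] [DecidableEq κ] (t : (κ → Fin n ⊕ Fin w) → ℚ), IsH T W t →
        pl (fromBlocks a 0 0 d) (fun J => (t J : ℂ)) = pl P₀ (fun J => (t J : ℂ))) ∧
      ∀ i ∈ s, a.submatrix (C.e i) (C.e i) = 1 := by
  induction s using Finset.induction_on with
  | empty =>
    obtain ⟨a, d, rfl, -, -⟩ := hP.shape H.sys
    exact ⟨a, d, hP, fun _ _ _ _ _ => rfl, fun i hi => absurd hi (Finset.notMem_empty i)⟩
  | insert i s hi ih =>
    obtain ⟨a, d, h1, h2, h3⟩ := ih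
    have hbd := H.bd h1
    have hdet := H.det_one h1 i
    obtain ⟨A, hA⟩ : ∃ A, A = a.submatrix (C.e i) (C.e i) := ⟨_, rfl⟩
    have hAo := sub_orth (C.blk i) hbd (H.form h1).1
    rw [← hA] at hAo hdet
    have hu : IsUnit A.det := by rw [hdet]; exact isUnit_one
    have hAi : A * A⁻¹ = 1 := Matrix.mul_nonsing_inv A hu
    have hAi' : A⁻¹ * A = 1 := Matrix.nonsing_inv_mul A hu
    have hdi : (A⁻¹).det = 1 := by
      have h2 := congrArg Matrix.det hAi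
      rwa [Matrix.det_mul, Matrix.det_one, hdet, one_mul] at h2
    obtain ⟨a', d', e1, -, e2, e3, e4⟩ := lift_mul C H.sys i (inv_orth hAi hAo) hdi h1 hbd
    refine ⟨a', d', e1, fun κ _ _ t ht => (e2 κ t ht).trans (h2 κ t ht), fun m hm => ?_⟩
    by_cases hmi : m = i
    · subst hmi
      rw [e3, ← hA, hAi']
    · rw [e4 m hmi]
      exact h3 m (Finset.mem_of_mem_insert_of_ne hm hmi)

theorem Hyp.redA' {P₀ : Matrix (Fin n ⊕ Fin w) (Fin n ⊕ Fin w) ℂ} (hP : FxA 𝒜 P₀) :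
    ∃ d, FxA 𝒜 (fromBlocks 1 0 0 d) ∧
      (∀ (κ : Type) [Fintype κ] [DecidableEq κ] (t : (κ → Fin n ⊕ Fin w) → ℚ), IsH T W t →
        pl (fromBlocks 1 0 0 d) (fun J => (t J : ℂ)) = pl P₀ (fun J => (t J : ℂ))) := by
  obtain ⟨a, d, h1, h2, h3⟩ := H.redA hP univ
  have h4 : a = 1 := by
    refine ext_of_sub (fun i => (C.blk i).en) (H.bd h1) BD_one fun i => ?_
    rw [h3 i (Finset.mem_univ i), one_sub (C.blk i).en.inj]
  subst h4
  exact ⟨d, h1, h2⟩

theorem Hyp.comP (i : Fin r) : mC (P i) * W.y = W.y * mC (P i) := by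
  rw [(H.pd i).ey, (H.pd i).ye]

/-- the second reduction -/
theorem Hyp.redB {d₀ : Matrix (Fin w) (Fin w) ℂ}
    (hP : FxA 𝒜 (fromBlocks 1 0 0 d₀)) (s : Finset (Fin r)) :
    ∃ d, FxA 𝒜 (fromBlocks 1 0 0 d) ∧
      (∀ (κ : Type) [Fintype κ] [DecidableEq κ] (t : (κ → Fin n ⊕ Fin w) → ℚ), IsH T W t →
        pl (fromBlocks 1 0 0 d) (fun J => (t J : ℂ)) =
          pl (fromBlocks 1 0 0 d₀) (fun J => (t J : ℂ))) ∧
      ∀ i ∈ s, d * mC (P i) = mC (P i) := by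
  induction s using Finset.induction_on with
  | empty => exact ⟨d₀, hP, fun _ _ _ _ _ => rfl, fun i hi => absurd hi (Finset.notMem_empty i)⟩
  | insert i s hi ih =>
    obtain ⟨d, h1, h2, h3⟩ := ih
    have key : (∃ z : ℂ, z * z = 1 ∧ d * mC (P i) = z • mC (P i)) := by
      rcases H.cls i with ⟨U, j, hU, hc⟩ | ⟨h0, -⟩
      · have hcl := hc.cl H.sys U
        have h6 := fun u => act_block C hc h1 BD_one u
        rw [one_sub (C.blk i).en.inj] at h6
        simp only [Matrix.one_mulVec] at h6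
        rw [hU]
        exact U.scalar_on hcl (H.form h1).2 (H.comm_cm h1 U) h6
      · exact ⟨1, by norm_num, by rw [h0, mC_zero, mul_zero, smul_zero]⟩
    obtain ⟨z, hz, hz'⟩ := key
    have hz2 : (z - 1) * (z + 1) = 0 := by linear_combination hz
    rcases mul_eq_zero.1 hz2 with h4 | h4
    · have h5 : z = 1 := sub_eq_zero.1 h4
      rw [h5, one_smul] at hz'
      refine ⟨d, h1, h2, fun m hm => ?_⟩
      rcases Finset.mem_insert.1 hm with rfl | hm
      · exact hz'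
      · exact h3 m hm
    · have h5 : z = -1 := eq_neg_of_add_eq_zero_left h4
      rw [h5, neg_one_smul] at hz'
      have hl := lift_central C (H.pd i)
      have e1 : (fromBlocks 1 0 0 (1 - (2 : ℂ) • mC (P i)) * fromBlocks 1 0 0 d :
          Matrix (Fin n ⊕ Fin w) (Fin n ⊕ Fin w) ℂ) =
          fromBlocks 1 0 0 ((1 - (2 : ℂ) • mC (P i)) * d) := by
        rw [Matrix.fromBlocks_multiply]
        simp
      refine ⟨(1 - (2 : ℂ) • mC (P i)) * d, ?_, ?_, fun m hm => ?_⟩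
      · rw [← e1]
        exact (hl.fxA H.sys).mul h1
      · intro κ _ _ t ht
        rw [← e1, pl_mul, hl κ t ht, h2 κ t ht]
      · rcases Finset.mem_insert.1 hm with rfl | hm'
        · rw [mul_assoc, hz', mul_neg, sub_mul, one_mul, smul_mul_assoc, (H.pd m).ee]
          module
        · have hne : i ≠ m := fun h => hi (by rw [h]; exact hm')
          rw [mul_assoc, h3 m hm', sub_mul, one_mul, smul_mul_assoc, H.orth i m hne, smul_zero,
            sub_zero]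

theorem Hyp.redB' {P₀ : Matrix (Fin n ⊕ Fin w) (Fin n ⊕ Fin w) ℂ} (hP : FxA 𝒜 P₀) :
    ∃ d, FxA 𝒜 (fromBlocks 1 0 0 d) ∧ (∀ i, d * mC (P i) = mC (P i)) ∧
      (∀ i, mC (P i) * d = mC (P i)) ∧
      (∀ (κ : Type) [Fintype κ] [DecidableEq κ] (t : (κ → Fin n ⊕ Fin w) → ℚ), IsH T W t →
        pl (fromBlocks 1 0 0 d) (fun J => (t J : ℂ)) = pl P₀ (fun J => (t J : ℂ))) := by
  obtain ⟨d₀, h1, h2⟩ := H.redA' hP
  obtain ⟨d, h3, h4, h5⟩ := H.redB h1 univ
  have h6 : ∀ i, d * mC (P i) = mC (P i) := fun i => h5 i (Finset.mem_univ i)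
  refine ⟨d, h3, h6, fun i => ?_, fun κ _ _ t ht => (h4 κ t ht).trans (h2 κ t ht)⟩
  rw [← H.comm h3 (H.comP i), h6]

end

end

end Pool.Agent.L5helper24.KM
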