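import Pool.Agent.L5helper24.KM.Asm2

/-!
# All Hodge classes, II
-/

set_option autoImplicit false
set_option linter.unusedSectionVars false
set_option linter.unusedSimpArgs false

open Matrix Finset Module

namespace Pool.Agent.L5helper24.KM

open Pool.Agent Pool.Agent.W544.PG Pool.Agent.L5helper24.KS Pool.Agent.W216.PG.SOI

noncomputable section

variable {n w r : ℕ} {T : HS n} {W : HW w} {c : Fin n → Fin r}
  {𝒜 : ∀ κ : Type, Submodule ℚ ((κ → Fin n ⊕ Fin w) → ℚ)}

theorem bk_one_apply {k : ℕ} {e : Fin k → Fin n} {i : Fin r} (he : Enum c e i) (a b : Fin n) :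
    bk e (1 : Matrix (Fin k) (Fin k) ℂ) a b = if a = b ∧ c a = i then 1 else 0 := by
  rw [bk, Matrix.mul_one, Matrix.mul_apply]
  simp only [sel, Matrix.of_apply, Matrix.transpose_apply]
  by_cases h : a = b ∧ c a = i
  · obtain ⟨rfl, h2⟩ := h
    obtain ⟨l, rfl⟩ := he.surj a h2
    rw [Finset.sum_eq_single l, if_pos rfl, if_pos ⟨rfl, h2⟩, mul_one]
    · intro l' _ hl
      rw [if_neg fun h' => hl (he.inj h'), zero_mul]
    · intro h'
      exact absurd (Finset.mem_univ _) h'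
  · rw [if_neg h]
    refine Finset.sum_eq_zero fun l _ => ?_
    by_cases h1 : e l = a
    · by_cases h2 : e l = b
      · exact absurd ⟨h1.symm.trans h2, by rw [← h1, he.col]⟩ h
      · rw [if_neg h2, mul_zero]
    · rw [if_neg h1, zero_mul]

theorem bk_sum_one (C : Ctx T c W) :
    ∑ i, bk (C.e i) (1 : Matrix (Fin (C.k i)) (Fin (C.k i)) ℂ) = 1 := by
  ext a b
  rw [Matrix.sum_apply, Matrix.one_apply]
  simp only [fun i => bk_one_apply (C.blk i).en a b]
  by_cases h : a = b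
  · rw [if_pos h, Finset.sum_eq_single (c a)]
    · rw [if_pos ⟨h, rfl⟩]
    · intro i _ hi
      rw [if_neg fun h' => hi h'.2.symm]
    · intro h'
      exact absurd (Finset.mem_univ _) h'
  · rw [if_neg h]
    exact Finset.sum_eq_zero fun i _ => if_neg fun h' => h h'.1

theorem x_sum (C : Ctx T c W) : T.x = ∑ i, bk (C.e i) (C.T' i).x := by
  calc T.x = T.x * ∑ i, bk (C.e i) (1 : Matrix (Fin (C.k i)) (Fin (C.k i)) ℂ) := by
        rw [bk_sum_one, mul_one]
    _ = ∑ i, bk (C.e i) (C.T' i).x := by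
        rw [Finset.mul_sum]
        refine Finset.sum_congr rfl fun i _ => ?_
        rw [bd_mul_bk (C.blk i).en C.bx, mul_one, (C.blk i).x]

theorem mC_sum {m : ℕ} (P : Fin r → Matrix (Fin m) (Fin m) ℚ) :
    mC (∑ i, P i) = ∑ i, mC (P i) := by
  ext a b
  simp only [mC, Matrix.map_apply, Matrix.sum_apply, Rat.cast_sum]

theorem mC_subt {m : ℕ} (A B : Matrix (Fin m) (Fin m) ℚ) : mC (A - B) = mC A - mC B := by
  ext a b
  simp [mC]

theorem mC_inj {m : ℕ} {A B : Matrix (Fin m) (Fin m) ℚ} (h : mC A = mC B) : A = B := by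
  apply sub_eq_zero.1
  apply mC_eq_zero
  rw [mC_subt, h, sub_self]

theorem map_fb' (A : Matrix (Fin n) (Fin n) ℚ) (B : Matrix (Fin w) (Fin w) ℚ) :
    (fromBlocks A 0 0 B : Matrix (Fin n ⊕ Fin w) (Fin n ⊕ Fin w) ℚ).map (Rat.castHom ℂ) =
      fromBlocks (mC A) 0 0 (mC B) := map_fb A B

section
variable {C : Ctx T c W} {P : Fin r → Matrix (Fin w) (Fin w) ℚ}
  {R : Fin r → Matrix (Fin w) (Fin w) ℂ} (H : Hyp C 𝒜 P R)
include H

/-- the part of the Hodge operator which does not come from the pieces of K3 type -/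
theorem Hyp.y'_mem : ((0 : Matrix (Fin n) (Fin n) ℂ), W.y - ∑ i, R i) ∈ LL T W := by
  have h1 : ∑ i, (bk (C.e i) (C.T' i).x, R i) ∈ LL T W :=
    Submodule.sum_mem _ fun i _ => (mem_orth'.1 (H.pd i).mR).1
  have h2 : (T.x, W.y) - ∑ i, (bk (C.e i) (C.T' i).x, R i) =
      ((0 : Matrix (Fin n) (Fin n) ℂ), W.y - ∑ i, R i) := by
    refine Prod.ext ?_ ?_
    · rw [Prod.fst_sub, Prod.fst_sum, ← x_sum, sub_self]
    · rw [Prod.snd_sub, Prod.snd_sum]
  rw [← h2]
  exact Submodule.sub_mem _ LL_self h1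

theorem Hyp.RP (i j : Fin r) : R i * mC (P j) = if i = j then R i else 0 := by
  by_cases h : i = j
  · subst h
    rw [if_pos rfl]
    exact ((H.pd i).eV _ _ (H.pd i).mR).2
  · rw [if_neg h]
    calc R i * mC (P j) = R i * mC (P i) * mC (P j) := by
          rw [((H.pd i).eV _ _ (H.pd i).mR).2]
      _ = 0 := by rw [mul_assoc, H.orth i j h, mul_zero]

theorem Hyp.NN : mC (∑ i, P i) * mC (∑ i, P i) = mC (∑ i, P i) := by
  rw [mC_sum, Finset.sum_mul]
  refine Finset.sum_congr rfl fun i _ => ?_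
  rw [Finset.mul_sum, Finset.sum_eq_single i]
  · exact (H.pd i).ee
  · intro j _ hj
    exact H.orth i j hj.symm
  · intro h
    exact absurd (Finset.mem_univ _) h

theorem Hyp.yN : W.y * mC (∑ i, P i) = ∑ i, R i := by
  rw [mC_sum, Finset.mul_sum]
  exact Finset.sum_congr rfl fun i _ => (H.pd i).ye

theorem Hyp.Ny : mC (∑ i, P i) * W.y = ∑ i, R i := by
  rw [mC_sum, Finset.sum_mul]
  exact Finset.sum_congr rfl fun i _ => (H.pd i).ey

theorem Hyp.RN : (∑ i, R i) * mC (∑ i, P i) = ∑ i, R i := by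
  rw [mC_sum, Finset.sum_mul]
  refine Finset.sum_congr rfl fun i _ => ?_
  rw [Finset.mul_sum, Finset.sum_eq_single i]
  · rw [H.RP, if_pos rfl]
  · intro j _ hj
    rw [H.RP, if_neg hj.symm]
  · intro h
    exact absurd (Finset.mem_univ _) h

/-- **All Hodge classes belong to the system.** -/
theorem Hyp.all {κ : Type} [Fintype κ] [DecidableEq κ] {t : (κ → Fin n ⊕ Fin w) → ℚ}
    (ht : IsH T W t) : t ∈ 𝒜 κ := by
  refine mem_of_fx H.sys ht fun P₀ hP₀ => ?_
  obtain ⟨d, h1, -, h3, h4⟩ := H.redB' hP₀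
  rw [← h4 κ t ht]
  obtain ⟨N, hN⟩ : ∃ N, N = ∑ i, P i := ⟨_, rfl⟩
  have hNN := H.NN
  have hyN := H.yN
  have hNy := H.Ny
  have hRN := H.RN
  have hrest := H.rest
  rw [← hN] at hNN hyN hNy hRN hrest
  have hNN' : N * N = N := by
    apply mC_inj
    rw [mC_mul, hNN]
  refine mix (F := fromBlocks 0 0 0 (1 - N)) (G := fromBlocks 1 0 0 N) (X := hop T W)
    (Y := fromBlocks 0 0 0 (W.y - ∑ i, R i)) ?_ ?_ ?_ ?_ ?_ ?_ ?_ ?_
  · rw [Matrix.fromBlocks_add, zero_add, add_zero, add_zero, sub_add_cancel,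
      Matrix.fromBlocks_one]
  · rw [Matrix.fromBlocks_multiply]
    simp only [Matrix.mul_zero, Matrix.zero_mul, add_zero, zero_add]
    have h5 : (1 - N) * (1 - N) = 1 - N := by
      rw [sub_mul, one_mul, mul_sub, mul_one, hNN', sub_self, sub_zero]
    rw [h5]
  · rw [Matrix.fromBlocks_multiply]
    simp only [Matrix.mul_zero, Matrix.zero_mul, add_zero, zero_add, Matrix.one_mul]
    rw [hNN']
  · exact LL_kill ht H.y'_mem
  · rw [map_fb', mC_zero, hop, Matrix.fromBlocks_multiply, Matrix.fromBlocks_multiply]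
    simp only [Matrix.mul_zero, Matrix.zero_mul, add_zero, zero_add]
    have h5 : (W.y - ∑ i, R i) * mC (1 - N) = mC (1 - N) * W.y := by
      rw [mC_subt, mC1, mul_sub, mul_one, sub_mul, sub_mul, one_mul, hyN, hNy, hRN]
      abel
    rw [h5]
  · rw [map_fb', mC1, Matrix.fromBlocks_multiply]
    simp only [Matrix.mul_zero, Matrix.zero_mul, add_zero, zero_add]
    rw [sub_mul, hyN, hRN, sub_self, Matrix.fromBlocks_zero]
  · rw [map_fb', mC1, Matrix.fromBlocks_multiply]
    simp only [Matrix.mul_zero, Matrix.zero_mul, add_zero, zero_add, Matrix.one_mul]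
    have h5 : mC N * d = mC N := by
      rw [hN, mC_sum, Finset.sum_mul]
      exact Finset.sum_congr rfl fun i _ => h3 i
    rw [h5]
  · intro l _ _ β hβ
    exact h1 l _ (hrest l β hβ)

end

end

end Pool.Agent.L5helper24.KM
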