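import Pool.Agent.L5helper24.KM.Claims
import Pool.Agent.W437.HD.Fixed

/-!
# Several pieces of K3 type
-/

set_option autoImplicit false
set_option linter.unusedSectionVars false

open Matrix Finset Module

namespace Pool.Agent.L5helper24.KM

open Pool.Agent Pool.Agent.W544.PG Pool.Agent.L5helper24.KS

noncomputable section

variable {n w r k k' : ℕ} {T : HS n} {W : HW w} {c : Fin n → Fin r} {i i' : Fin r}
  {e : Fin k → Fin n} {e' : Fin k' → Fin n}

/-- the matrix on the whole space given by a matrix on a block -/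
def bk (e : Fin k → Fin n) (A : Matrix (Fin k) (Fin k) ℂ) : Matrix (Fin n) (Fin n) ℂ :=
  sel e * A * (sel e)ᵀ

theorem bk_mul (he : Function.Injective e) (A B : Matrix (Fin k) (Fin k) ℂ) :
    bk e A * bk e B = bk e (A * B) := by
  calc bk e A * bk e B = sel e * A * ((sel e)ᵀ * sel e) * B * (sel e)ᵀ := by
        simp only [bk, Matrix.mul_assoc]
    _ = bk e (A * B) := by rw [sel_T_sel e he, Matrix.mul_one, bk]; simp only [Matrix.mul_assoc]

theorem bk_add (A B : Matrix (Fin k) (Fin k) ℂ) : bk e (A + B) = bk e A + bk e B := by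
  rw [bk, Matrix.mul_add, Matrix.add_mul, bk, bk]

theorem bk_sub (A B : Matrix (Fin k) (Fin k) ℂ) : bk e (A - B) = bk e A - bk e B := by
  rw [bk, Matrix.mul_sub, Matrix.sub_mul, bk, bk]

theorem bk_smul (z : ℂ) (A : Matrix (Fin k) (Fin k) ℂ) : bk e (z • A) = z • bk e A := by
  rw [bk, Matrix.mul_smul, Matrix.smul_mul, bk]

theorem bk_zero : bk e 0 = 0 := by rw [bk, Matrix.mul_zero, Matrix.zero_mul]

theorem bk_T (A : Matrix (Fin k) (Fin k) ℂ) : (bk e A)ᵀ = bk e Aᵀ := by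
  rw [bk, bk, Matrix.transpose_mul, Matrix.transpose_mul, Matrix.transpose_transpose, Matrix.mul_assoc]

theorem bk_map (A : Matrix (Fin k) (Fin k) ℂ) (σ : ℂ ≃+* ℂ) :
    (bk e A).map σ = bk e (A.map σ) := by
  have h : (sel e).map σ = sel e := by
    ext a j
    simp only [sel, Matrix.map_apply, Matrix.of_apply]
    split_ifs <;> simp
  have h' : ((sel e)ᵀ).map σ = (sel e)ᵀ := by
    have h0 : ((sel e)ᵀ).map σ = ((sel e).map σ)ᵀ := rfl
    rw [h0, h]
  have h2 := Matrix.map_mul (L := sel e * A) (M := (sel e)ᵀ) (f := (σ : ℂ →+* ℂ))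
  have h3 := Matrix.map_mul (L := sel e) (M := A) (f := (σ : ℂ →+* ℂ))
  change (bk e A).map σ = _ at h2
  rw [h2, h3]
  change (sel e).map σ * A.map σ * ((sel e)ᵀ).map σ = _
  rw [h, h']
  rfl

theorem selT_sel_ne (he : Enum c e i) (he' : Enum c e' i') (h : i ≠ i') :
    (sel e)ᵀ * sel e' = 0 := by
  rw [mul_sel]
  ext a b
  simp only [Matrix.submatrix_apply, Matrix.transpose_apply, sel, Matrix.of_apply, id,
    Matrix.zero_apply]
  rw [if_neg]
  intro h1
  apply h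
  rw [← he.col a, ← he'.col b, h1]

theorem bk_ne (he : Enum c e i) (he' : Enum c e' i') (h : i ≠ i')
    (A : Matrix (Fin k) (Fin k) ℂ) (B : Matrix (Fin k') (Fin k') ℂ) :
    bk e A * bk e' B = 0 := by
  calc bk e A * bk e' B = sel e * A * ((sel e)ᵀ * sel e') * B * (sel e')ᵀ := by
        simp only [bk, Matrix.mul_assoc]
    _ = 0 := by rw [selT_sel_ne he he' h]; simp

theorem bk_BD (he : Enum c e i) (A : Matrix (Fin k) (Fin k) ℂ) : BD c (bk e A) := sel_BD he A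

theorem bk_submatrix (he : Function.Injective e) (A : Matrix (Fin k) (Fin k) ℂ) :
    (bk e A).submatrix e e = A := by
  have h1 : (bk e A).submatrix e e = (sel e)ᵀ * bk e A * sel e := by
    rw [sel_T_mul, mul_sel]; rfl
  rw [h1, bk]
  calc (sel e)ᵀ * (sel e * A * (sel e)ᵀ) * sel e = ((sel e)ᵀ * sel e) * A * ((sel e)ᵀ * sel e) := by
        simp only [Matrix.mul_assoc]
    _ = A := by rw [sel_T_sel e he, Matrix.one_mul, Matrix.mul_one]

theorem bd_mul_bk (he : Enum c e i) {A : Matrix (Fin n) (Fin n) ℂ} (hA : BD c A)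
    (B : Matrix (Fin k) (Fin k) ℂ) : A * bk e B = bk e (A.submatrix e e * B) := by
  rw [bk, ← Matrix.mul_assoc, ← Matrix.mul_assoc, he.mul_sel hA, bk]
  simp only [Matrix.mul_assoc]

theorem bk_mul_bd (he : Enum c e i) {A : Matrix (Fin n) (Fin n) ℂ} (hA : BD c A)
    (B : Matrix (Fin k) (Fin k) ℂ) : bk e B * A = bk e (B * A.submatrix e e) := by
  rw [bk, Matrix.mul_assoc, he.selT_mul hA, bk]
  simp only [Matrix.mul_assoc]

theorem bk_skew {T' : HS k} (bQ : BD c T.Q) (b : Blk T c i e T') {y : Matrix (Fin k) (Fin k) ℂ}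
    (hy : yᵀ * mC T'.Q + mC T'.Q * y = 0) :
    (bk e y)ᵀ * mC T.Q + mC T.Q * bk e y = 0 := by
  have hQ := BD.mC bQ
  rw [bk_T, bk_mul_bd b.en hQ, bd_mul_bk b.en hQ]
  have h1 : (mC T.Q).submatrix e e = mC T'.Q := by rw [b.Q, mC_sub]
  rw [h1, ← bk_add, hy, bk_zero]

theorem of_bk_skew {T' : HS k} (bQ : BD c T.Q) (b : Blk T c i e T')
    {y : Matrix (Fin k) (Fin k) ℂ} (hy : (bk e y)ᵀ * mC T.Q + mC T.Q * bk e y = 0) :
    yᵀ * mC T'.Q + mC T'.Q * y = 0 := by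
  have hQ := BD.mC bQ
  rw [bk_T, bk_mul_bd b.en hQ, bd_mul_bk b.en hQ] at hy
  have h1 : (mC T.Q).submatrix e e = mC T'.Q := by rw [b.Q, mC_sub]
  rw [h1, ← bk_add] at hy
  have h2 := congrArg (fun A : Matrix (Fin n) (Fin n) ℂ => A.submatrix e e) hy
  rw [bk_submatrix b.en.inj] at h2
  exact h2

/-! ### The Lie algebra is defined over the rational numbers and its ideal is stable -/

theorem LL_map {Z : Matrix (Fin n) (Fin n) ℂ} {V : Matrix (Fin w) (Fin w) ℂ}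
    (h : (Z, V) ∈ LL T W) (σ : ℂ ≃+* ℂ) : (Z.map σ, V.map σ) ∈ LL T W := by
  change NN 0 w (Z.map σ) (V.map σ) ∈ hX (xT T W 0)
  rw [← NN_map _ _ _ (map_zero σ)]
  intro m t ht
  have h1 := h m t ht
  funext J
  have h2 := congrArg σ (congrFun h1 J)
  simp only [act, map_sum, map_mul, cx, map_ratCast, Pi.zero_apply, map_zero] at h2 ⊢
  exact h2

theorem orth_ideal {L : Submodule ℂ (Matrix (Fin n) (Fin n) ℂ × Matrix (Fin w) (Fin w) ℂ)}
    (hL : IsLie L) {P P' : Matrix (Fin n) (Fin n) ℂ × Matrix (Fin w) (Fin w) ℂ} (hP : P ∈ L)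
    (hP' : P' ∈ orth L) :
    (P.1 * P'.1 - P'.1 * P.1, P.2 * P'.2 - P'.2 * P.2) ∈ orth L := by
  refine ⟨hL P hP P' hP'.1, fun V hV => ?_⟩
  have h2 : ((0 : Matrix (Fin n) (Fin n) ℂ), V * P.2 - P.2 * V) ∈ L := by
    have := hL _ hV _ hP
    simpa using this
  have h3 := hP'.2 _ h2
  rw [Matrix.mul_sub, Matrix.trace_sub] at h3
  change ((P.2 * P'.2 - P'.2 * P.2) * V).trace = 0
  rw [Matrix.sub_mul, Matrix.trace_sub]
  calc (P.2 * P'.2 * V).trace - (P'.2 * P.2 * V).trace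
      = (P'.2 * (V * P.2)).trace - (P'.2 * (P.2 * V)).trace := by
        rw [Matrix.mul_assoc P.2, Matrix.trace_mul_comm P.2, Matrix.mul_assoc, Matrix.mul_assoc]
    _ = 0 := h3

/-- the embedding of the pairs for a block -/
def bkL (w : ℕ) (e : Fin k → Fin n) : (Matrix (Fin k) (Fin k) ℂ × Matrix (Fin w) (Fin w) ℂ) →ₗ[ℂ]
    (Matrix (Fin n) (Fin n) ℂ × Matrix (Fin w) (Fin w) ℂ) where
  toFun P := (bk e P.1, P.2)
  map_add' P P' := Prod.ext (bk_add P.1 P'.1) rfl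
  map_smul' z P := Prod.ext (bk_smul z P.1) rfl

/-- the elements of the Lie algebra which act on one block only -/
def LB (T : HS n) (W : HW w) (e : Fin k → Fin n) :
    Submodule ℂ (Matrix (Fin k) (Fin k) ℂ × Matrix (Fin w) (Fin w) ℂ) :=
  (LL T W).comap (bkL w e)

theorem mem_LB {P : Matrix (Fin k) (Fin k) ℂ × Matrix (Fin w) (Fin w) ℂ} :
    P ∈ LB T W e ↔ (bk e P.1, P.2) ∈ LL T W := Iff.rfl

theorem mem_orth_LB {P : Matrix (Fin k) (Fin k) ℂ × Matrix (Fin w) (Fin w) ℂ} :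
    P ∈ orth (LB T W e) ↔ (bk e P.1, P.2) ∈ orth (LL T W) := by
  constructor
  · rintro ⟨h1, h2⟩
    refine ⟨h1, fun V' hV' => h2 V' ?_⟩
    rw [mem_LB, bk_zero]
    exact hV'
  · rintro ⟨h1, h2⟩
    refine ⟨h1, fun V' hV' => h2 V' ?_⟩
    rw [mem_LB, bk_zero] at hV'
    exact hV'

theorem LL_lie : IsLie (LL T W) := fun _ hP _ hP' => LL_br hP hP'

theorem map_mul'' {m : ℕ} (σ : ℂ ≃+* ℂ) (A B : Matrix (Fin m) (Fin m) ℂ) :
    (A * B).map σ = A.map σ * B.map σ := by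
  have := Matrix.map_mul (L := A) (M := B) (f := (σ : ℂ →+* ℂ))
  exact this

/-- the ideal is stable under field automorphisms -/
theorem orth_map {P : Matrix (Fin n) (Fin n) ℂ × Matrix (Fin w) (Fin w) ℂ}
    (h : P ∈ orth (LL T W)) (σ : ℂ ≃+* ℂ) : (P.1.map σ, P.2.map σ) ∈ orth (LL T W) := by
  refine ⟨LL_map h.1 σ, fun V hV => ?_⟩
  have h1 := LL_map hV σ.symm
  have h2 : (0 : Matrix (Fin n) (Fin n) ℂ).map σ.symm = 0 := by ext a b; simp
  rw [h2] at h1
  have h3 := h.2 _ h1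
  have h4 := congrArg σ h3
  rw [map_zero] at h4
  rw [← h4]
  have h5 : σ (P.2 * V.map σ.symm).trace = ((P.2 * V.map σ.symm).map σ).trace := by
    simp only [Matrix.trace, map_sum, Matrix.diag_apply, Matrix.map_apply]
  rw [h5, map_mul'']
  congr 2
  ext a b
  simp

theorem LB_lie (he : Function.Injective e) : IsLie (LB T W e) := by
  intro P hP P' hP'
  have h1 := LL_br (mem_LB.1 hP) (mem_LB.1 hP')
  apply mem_LB.2
  have h2 : bk e (P.1 * P'.1 - P'.1 * P.1) = bk e P.1 * bk e P'.1 - bk e P'.1 * bk e P.1 := by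
    rw [bk_sub, ← bk_mul he, ← bk_mul he]
  have h3 : (bk e (P.1 * P'.1 - P'.1 * P.1), P.2 * P'.2 - P'.2 * P.2) =
      (bk e P.1 * bk e P'.1 - bk e P'.1 * bk e P.1, P.2 * P'.2 - P'.2 * P.2) := by rw [h2]
  exact h3 ▸ h1

theorem LB_star {V : Matrix (Fin w) (Fin w) ℂ}
    (hV : ((0 : Matrix (Fin k) (Fin k) ℂ), V) ∈ LB T W e) :
    ((0 : Matrix (Fin k) (Fin k) ℂ), cc W * V.map (starRingEnd ℂ) * cc W) ∈ LB T W e := by
  have h0 : ((0 : Matrix (Fin n) (Fin n) ℂ), V) ∈ LL T W := by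
    have := mem_LB.1 hV
    rwa [bk_zero] at this
  have h1 := LL_star h0
  have h2 : (0 : Matrix (Fin n) (Fin n) ℂ).map (starRingEnd ℂ) = 0 := by
    ext i j; simp
  rw [h2, mul_zero, zero_mul, neg_zero] at h1
  apply mem_LB.2
  have h3 : cc W * V.map (starRingEnd ℂ) * cc W =
      -((-(2 * Complex.I)) • W.y * V.map (starRingEnd ℂ) * ((2 * Complex.I) • W.y)) := by
    rw [cc]
    simp only [neg_smul, smul_mul_assoc, neg_mul, neg_neg]
  rw [h3, bk_zero]
  exact h1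

theorem LB_conj {T' : HS k} (bx : BD c T.x) (b : Blk T c i e T') (σ : ℂ ≃+* ℂ) :
    Nz (LB T W e) (T'.x.map σ) (W.y.map σ) := by
  intro Z V h
  have h0 := mem_orth_LB.1 h
  have h1 := orth_ideal LL_lie (LL_conj (T := T) (W := W) σ) h0
  have hx : BD c (T.x.map σ) := BD.map bx (map_zero σ)
  have h2 : (T.x.map σ).submatrix e e = T'.x.map σ := by rw [b.x]; rfl
  apply mem_orth_LB.2
  have h3 : T.x.map σ * bk e Z - bk e Z * T.x.map σ =
      bk e (T'.x.map σ * Z - Z * T'.x.map σ) := by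
    rw [bd_mul_bk b.en hx, bk_mul_bd b.en hx, h2, ← bk_sub]
  have h4 : (T.x.map σ * bk e Z - bk e Z * T.x.map σ, W.y.map σ * V - V * W.y.map σ) ∈
      orth (LL T W) := h1
  rw [h3] at h4
  exact h4

/-- the properties of the Lie algebra of a block -/
theorem LB_pr {T' : HS k} (bQ : BD c T.Q) (bx : BD c T.x) (b : Blk T c i e T')
    (hs : ∀ Z : Matrix (Fin n) (Fin n) ℂ, Zᵀ * mC T.Q + mC T.Q * Z = 0 → BD c Z →
      ∃ V, (Z, V) ∈ LL T W) : Pr (LB T W e) T' W where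
  lie := LB_lie b.en.inj
  skew P hP := of_bk_skew bQ b (LL_skew (mem_LB.1 hP))
  skewW P hP := LL_skewW (mem_LB.1 hP)
  star V hV := LB_star hV
  surj Z hZ := by
    obtain ⟨V, hV⟩ := hs _ (bk_skew bQ b hZ) (bk_BD b.en Z)
    exact ⟨V, mem_LB.2 hV⟩
  conj σ := LB_conj bx b σ

end

end Pool.Agent.L5helper24.KM
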