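import Pool.Agent.L5helper24.KM.Setup

/-!
# Elements which fix a class
-/

set_option autoImplicit false
set_option linter.unusedSectionVars false

open Matrix Finset Module

namespace Pool.Agent.L5helper24.KM

open Pool.Agent Pool.Agent.W544.PG Pool.Agent.L5helper24.KS

noncomputable section

section
variable {κ ι : Type} [Fintype κ] [DecidableEq κ] [Fintype ι]
  {e : Matrix κ κ ℂ} {a : ι → Matrix κ κ ℂ}

/-- The averaging formula with a nonzero constant. -/
theorem average' (h : Clif e a) {N N₂ : Matrix κ κ ℂ} (hN : Ac e a N) (hN₂ : Ac e a N₂)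
    (ht : (N * N₂).trace ≠ 0) : ∃ (l : List ι) (c : ℂ), (∀ k, k ∈ l) ∧ l.Nodup ∧ c ≠ 0 ∧
    ∑ i, ∑ j, av e a l (Matrix.single j i 1) * (N * N₂ + N₂ * N) *
      av e a l (Matrix.single i j 1) = c • e := by
  classical
  obtain ⟨l, hl⟩ : ∃ l : List ι, l = (Finset.univ : Finset ι).toList := ⟨_, rfl⟩
  have hl1 : ∀ k, k ∈ l := by intro k; rw [hl]; simp
  have hl2 : l.Nodup := by rw [hl]; exact Finset.nodup_toList _
  have h1 := average h hN hN₂ h.cm_e (by rw [hN.l, hN.r]) l hl1 hl2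
  have h5 : e * (N * N₂ + N₂ * N) = N * N₂ + N₂ * N := by
    rw [mul_add, ← mul_assoc, ← mul_assoc, hN.l, hN₂.l]
  have h2 : (N * N₂ + N₂ * N).trace = 2 * (N * N₂).trace := by
    rw [Matrix.trace_add, Matrix.trace_mul_comm N₂ N]
    ring
  rw [h5, h2] at h1
  exact ⟨l, _, hl1, hl2, mul_ne_zero (pow_ne_zero _ (by norm_num))
    (mul_ne_zero (by norm_num) ht), h1⟩

theorem cancel (h : Clif e a) {N N₂ : Matrix κ κ ℂ} (hN : Ac e a N) (hN₂ : Ac e a N₂)
    (ht : (N * N₂).trace ≠ 0) {X : Matrix κ κ ℂ} (h1 : N * X = 0) (h2 : N₂ * X = 0)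
    (hX : e * X = X) (hXc : ∀ C, Cm e a C → X * C = C * X) : X = 0 := by
  obtain ⟨l, c, hl, -, hc, hav⟩ := average' h hN hN₂ ht
  have h3 : c • X = 0 := by
    calc c • X = (c • e) * X := by rw [smul_mul_assoc, hX]
      _ = 0 := by
        rw [← hav, Finset.sum_mul]
        refine Finset.sum_eq_zero fun i _ => ?_
        rw [Finset.sum_mul]
        refine Finset.sum_eq_zero fun j _ => ?_
        rw [mul_assoc, ← hXc _ (av_cm h hl _), mul_assoc, ← mul_assoc (N * N₂ + N₂ * N) X, add_mul,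
          mul_assoc, mul_assoc N₂, h2, h1]
        simp
  rcases smul_eq_zero.1 h3 with h4 | h4
  · exact absurd h4 hc
  · exact h4

theorem scalar_of (h : Clif e a) {N N₂ K : Matrix κ κ ℂ} (hN : Ac e a N) (hN₂ : Ac e a N₂)
    (ht : (N * N₂).trace ≠ 0) (hK : Cm e a K) (hKN : K * N = N * K)
    (hKc : ∀ C, Cm e a C → K * C = C * K) : ∃ z : ℂ, K = z • e := by
  obtain ⟨l, c, hl, hl2, hc, hav⟩ := average' h hN hN₂ ht
  have h1 := average h hN hN₂ hK hKN l hl hl2
  have h2 : ∑ i, ∑ j, av e a l (Matrix.single j i 1) * (K * (N * N₂ + N₂ * N)) *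
      av e a l (Matrix.single i j 1) = c • K := by
    calc _ = K * ∑ i, ∑ j, av e a l (Matrix.single j i 1) * (N * N₂ + N₂ * N) *
        av e a l (Matrix.single i j 1) := by
          rw [Finset.mul_sum]
          refine Finset.sum_congr rfl fun i _ => ?_
          rw [Finset.mul_sum]
          refine Finset.sum_congr rfl fun j _ => ?_
          rw [← mul_assoc, ← hKc _ (av_cm h hl _)]
          simp only [mul_assoc]
      _ = c • K := by rw [hav, mul_smul_comm, hK.r]
  rw [h2] at h1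
  refine ⟨c⁻¹ * ((1 / 2 : ℂ) ^ l.length * (K * (N * N₂ + N₂ * N)).trace), ?_⟩
  rw [mul_smul, ← h1, smul_smul, inv_mul_cancel₀ hc, one_smul]

end

namespace Setup

variable {n w : ℕ} {T : HS n} {W : HW w}
  {L : Submodule ℂ (Matrix (Fin n) (Fin n) ℂ × Matrix (Fin w) (Fin w) ℂ)}
  (U : Setup L T W)

/-- the generators -/
def a (k : Option (Fin (n - 2))) : Matrix (Fin w) (Fin w) ℂ := gen U.s U.R U.E U.F k

/-- the unit -/
def e : Matrix (Fin w) (Fin w) ℂ := proj U.R

theorem clif : Clif U.e U.a := U.img.clif U.hq U.hs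

variable {j : Fin n → Matrix (Fin w) (Fin w) ℚ} {h : Matrix (Fin w) (Fin w) ℂ}

/-- conjugation by an element preserving the Riemann form -/
theorem conj_of (hE : hᵀ * mC W.E * h = mC W.E) {J J' : Matrix (Fin w) (Fin w) ℂ}
    (hJ : hᵀ * J * h = J') : U.Ei * J * h = h * (U.Ei * J') := by
  have h1 : U.Ei * hᵀ * mC W.E * h = 1 := by
    rw [mul_assoc, mul_assoc, ← mul_assoc hᵀ, hE, U.Ei_E]
  have h2 : h * (U.Ei * hᵀ * mC W.E) = 1 := mul_eq_one_comm.1 h1
  calc U.Ei * J * h = h * (U.Ei * hᵀ * mC W.E) * (U.Ei * J * h) := by rw [h2, one_mul]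
    _ = h * (U.Ei * (hᵀ * (mC W.E * U.Ei) * J * h)) := by simp only [mul_assoc]
    _ = h * (U.Ei * J') := by rw [U.E_Ei, mul_one, hJ]

/-- the data on a class which are used -/
structure Cl (U : Setup L T W) (j : Fin n → Matrix (Fin w) (Fin w) ℚ) : Prop where
  eqv : Eqv L (Jl j)
  ne : Jl j (U.o - star U.o) ≠ 0

theorem Cl.ac (c : U.Cl j) : Ac U.e U.a (U.Ei * Jl j (U.o - star U.o)) := U.ac_of c.eqv

theorem Cl.act (c : U.Cl j) : Ac U.e U.a (U.Ei * (Jl j (U.o - star U.o))ᵀ) :=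
  U.ac_of c.eqv.trans

theorem Cl.tr (c : U.Cl j) :
    ((U.Ei * Jl j (U.o - star U.o)) * (U.Ei * (Jl j (U.o - star U.o))ᵀ)).trace ≠ 0 :=
  U.trace_ne c.eqv c.ne

theorem Cl.e_ne (c : U.Cl j) : U.e ≠ 0 := by
  intro h0
  apply c.tr
  rw [← c.ac.l, h0, zero_mul, zero_mul, Matrix.trace_zero]

/-- the relations of the class with the generators -/
theorem Cl.rel (c : U.Cl j) : Jl j (U.o + star U.o) = -(Jl j (U.o - star U.o) * U.a none) ∧
    ∀ i, Jl j (U.v i) = -((1 / U.s) • (Jl j (U.o - star U.o) * U.a (some i))) := by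
  obtain ⟨-, -, -, h1, h2⟩ := U.img.class_rel U.fr U.hq U.hs c.eqv
  exact ⟨h1, h2⟩

theorem Cl.relt (c : U.Cl j) :
    (Jl j (U.o + star U.o))ᵀ = -((Jl j (U.o - star U.o))ᵀ * U.a none) ∧
    ∀ i, (Jl j (U.v i))ᵀ = -((1 / U.s) • ((Jl j (U.o - star U.o))ᵀ * U.a (some i))) := by
  obtain ⟨-, -, -, h1, h2⟩ := U.img.class_rel U.fr U.hq U.hs c.eqv.trans
  exact ⟨h1, h2⟩

theorem s_ne : U.s ≠ 0 := by
  intro h0
  have := U.hs
  rw [h0] at this
  norm_num at this

/-- If `h` maps the class to `z` times itself on `o - o'`, and to itself on the other vectors of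
the frame, then it commutes with the generators up to `z`. -/
theorem gen_comm (c : U.Cl j) (hE : hᵀ * mC W.E * h = mC W.E)
    (hC : ∀ C, Cm U.e U.a C → h * C = C * h) {z : ℂ} (hz : z * z = 1)
    (h0 : hᵀ * Jl j (U.o - star U.o) * h = z • Jl j (U.o - star U.o))
    (h1 : hᵀ * Jl j (U.o + star U.o) * h = Jl j (U.o + star U.o))
    (h2 : ∀ i, hᵀ * Jl j (U.v i) * h = Jl j (U.v i)) (k : Option (Fin (n - 2))) :
    U.a k * h = z • (h * U.a k) := by
  have hs0 := U.s_ne
  have key : ∀ m : Matrix (Fin w) (Fin w) ℂ, Ac U.e U.a (U.Ei * m) →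
      hᵀ * m * h = z • m → hᵀ * (m * U.a k) * h = m * U.a k →
      (U.Ei * m) * (U.a k * h - z • (h * U.a k)) = 0 := by
    intro m _ e1 e2
    have e3 := U.conj_of hE e1
    have e4 := U.conj_of hE e2
    calc (U.Ei * m) * (U.a k * h - z • (h * U.a k))
        = U.Ei * (m * U.a k) * h - z • ((U.Ei * m * h) * U.a k) := by
          rw [mul_sub, mul_smul_comm]; simp only [mul_assoc]
      _ = 0 := by
          rw [e4, e3, mul_smul_comm, mul_smul_comm, smul_mul_assoc, smul_smul, hz, one_smul]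
          simp only [mul_assoc]
          exact sub_self _
  have e5 : hᵀ * (Jl j (U.o - star U.o) * U.a k) * h = Jl j (U.o - star U.o) * U.a k := by
    cases k with
    | none =>
      have := c.rel.1
      rw [this, mul_neg, neg_mul, neg_inj] at h1
      exact h1
    | some i =>
      have h3 := h2 i
      rw [c.rel.2 i, mul_neg, neg_mul, neg_inj, mul_smul_comm, smul_mul_assoc] at h3
      exact (smul_right_injective _ (one_div_ne_zero hs0)) h3
  have t0 : hᵀ * (Jl j (U.o - star U.o))ᵀ * h = z • (Jl j (U.o - star U.o))ᵀ := by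
    have := congrArg Matrix.transpose h0
    rw [Matrix.transpose_mul, Matrix.transpose_mul, Matrix.transpose_transpose,
      Matrix.transpose_smul, ← mul_assoc] at this
    exact this
  have t1 : hᵀ * (Jl j (U.o + star U.o))ᵀ * h = (Jl j (U.o + star U.o))ᵀ := by
    have := congrArg Matrix.transpose h1
    rw [Matrix.transpose_mul, Matrix.transpose_mul, Matrix.transpose_transpose,
      ← mul_assoc] at this
    exact this
  have t2 : ∀ i, hᵀ * (Jl j (U.v i))ᵀ * h = (Jl j (U.v i))ᵀ := by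
    intro i
    have := congrArg Matrix.transpose (h2 i)
    rw [Matrix.transpose_mul, Matrix.transpose_mul, Matrix.transpose_transpose,
      ← mul_assoc] at this
    exact this
  have e6 : hᵀ * ((Jl j (U.o - star U.o))ᵀ * U.a k) * h = (Jl j (U.o - star U.o))ᵀ * U.a k := by
    cases k with
    | none =>
      have := c.relt.1
      rw [this, mul_neg, neg_mul, neg_inj] at t1
      exact t1
    | some i =>
      have h3 := t2 i
      rw [c.relt.2 i, mul_neg, neg_mul, neg_inj, mul_smul_comm, smul_mul_assoc] at h3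
      exact (smul_right_injective _ (one_div_ne_zero hs0)) h3
  have hce : h * U.e = U.e * h := hC _ U.clif.cm_e
  have hX := cancel U.clif c.ac c.act c.tr (X := U.a k * h - z • (h * U.a k))
    (key _ c.ac h0 e5) (key _ c.act t0 e6)
    (by rw [mul_sub, mul_smul_comm, ← mul_assoc, U.clif.ea, ← mul_assoc, ← hce, mul_assoc h,
          U.clif.ea])
    (by
      intro C hCm
      rw [sub_mul, mul_sub, mul_assoc, hC _ hCm, ← mul_assoc, ← hCm.c, smul_mul_assoc,
        mul_smul_comm, mul_assoc h, ← hCm.c, ← mul_assoc, hC _ hCm]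
      simp only [mul_assoc])
  exact sub_eq_zero.1 hX

/-- The case of the identity on `T`. -/
theorem scalar_on (c : U.Cl j) (hE : hᵀ * mC W.E * h = mC W.E)
    (hC : ∀ C, Cm U.e U.a C → h * C = C * h)
    (h0 : ∀ u, hᵀ * Jl j u * h = Jl j u) : ∃ z : ℂ, z * z = 1 ∧ h * U.e = z • U.e := by
  have hce : h * U.e = U.e * h := hC _ U.clif.cm_e
  have hk : ∀ k, U.a k * h = h * U.a k := by
    intro k
    have := U.gen_comm c hE hC (z := 1) (by norm_num) (by rw [one_smul]; exact h0 _) (h0 _)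
      (fun i => h0 _) k
    rwa [one_smul] at this
  have hK : Cm U.e U.a (h * U.e) := by
    refine ⟨by rw [hce, ← mul_assoc, U.clif.ee], by rw [mul_assoc, U.clif.ee], fun k => ?_⟩
    rw [mul_assoc, U.clif.ea, ← hk, ← mul_assoc, hk, mul_assoc, U.clif.ae]
  have hN : U.Ei * Jl j (U.o - star U.o) * h = h * (U.Ei * Jl j (U.o - star U.o)) :=
    U.conj_of hE (h0 _)
  obtain ⟨z, hz⟩ := scalar_of U.clif c.ac c.act c.tr hK
    (by
      calc h * U.e * (U.Ei * Jl j (U.o - star U.o))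
          = h * (U.Ei * Jl j (U.o - star U.o)) := by rw [mul_assoc, c.ac.l]
        _ = U.Ei * Jl j (U.o - star U.o) * h := hN.symm
        _ = U.Ei * Jl j (U.o - star U.o) * U.e * h := by rw [c.ac.r]
        _ = _ := by rw [mul_assoc _ U.e, ← hce])
    (fun C hCm => by rw [mul_assoc, hCm.l, hC _ hCm, hce, ← mul_assoc, hCm.r])
  refine ⟨z, ?_, hz⟩
  have h3 : U.eᵀ * mC W.E = mC W.E * U.e := U.proj_E
  have h4 : (h * U.e)ᵀ * mC W.E * (h * U.e) = mC W.E * U.e := by
    calc (h * U.e)ᵀ * mC W.E * (h * U.e) = U.eᵀ * (hᵀ * mC W.E * h) * U.e := by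
          rw [Matrix.transpose_mul]; simp only [mul_assoc]
      _ = mC W.E * U.e := by rw [hE, h3, mul_assoc, U.clif.ee]
  rw [hz, Matrix.transpose_smul, smul_mul_assoc, h3, smul_mul_assoc, mul_smul_comm, smul_smul,
    mul_assoc, U.clif.ee] at h4
  have h5 : (z * z) • U.e = U.e := by
    calc (z * z) • U.e = U.Ei * ((z * z) • (mC W.E * U.e)) := by
          rw [mul_smul_comm, ← mul_assoc, U.Ei_E, one_mul]
      _ = U.e := by rw [h4, ← mul_assoc, U.Ei_E, one_mul]
  have h6 : (z * z - 1) • U.e = 0 := by rw [sub_smul, h5, one_smul, sub_self]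
  rcases smul_eq_zero.1 h6 with h7 | h7
  · exact sub_eq_zero.1 h7
  · exact absurd h7 c.e_ne

/-- A reflection is impossible. -/
theorem no_refl (c : U.Cl j) (hE : hᵀ * mC W.E * h = mC W.E)
    (hC : ∀ C, Cm U.e U.a C → h * C = C * h)
    (h0 : hᵀ * Jl j (U.o - star U.o) * h = -Jl j (U.o - star U.o))
    (h1 : hᵀ * Jl j (U.o + star U.o) * h = Jl j (U.o + star U.o))
    (h2 : ∀ i, hᵀ * Jl j (U.v i) * h = Jl j (U.v i)) : False := by
  have hce : h * U.e = U.e * h := hC _ U.clif.cm_e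
  have hk : ∀ k, U.a k * h = -(h * U.a k) := by
    intro k
    have := U.gen_comm c hE hC (z := -1) (by norm_num) (by rw [neg_one_smul]; exact h0) h1 h2 k
    rwa [neg_one_smul] at this
  have hK : Ac U.e U.a (h * U.e) := by
    refine ⟨by rw [hce, ← mul_assoc, U.clif.ee], by rw [mul_assoc, U.clif.ee], fun k => ?_⟩
    rw [mul_assoc, U.clif.ea, ← mul_assoc, hk, neg_mul, neg_neg, mul_assoc, U.clif.ae]
  have hN : U.Ei * Jl j (U.o - star U.o) * h = h * (U.Ei * -Jl j (U.o - star U.o)) :=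
    U.conj_of hE h0
  obtain ⟨N, hNd⟩ : ∃ N, N = U.Ei * Jl j (U.o - star U.o) := ⟨_, rfl⟩
  have hac := c.ac
  rw [mul_neg, ← hNd] at hN
  rw [← hNd] at hac
  have h3 := hC _ (hac.mul hK)
  have h4 : N * (h * U.e) = N * h := by rw [hce, ← mul_assoc, hac.r]
  rw [h4, ← mul_assoc] at h3
  have h5 : h * N = -(N * h) := by rw [hN, mul_neg, neg_neg]
  rw [h5, neg_mul] at h3
  have h6 : N * h * h = 0 := by
    have : (2 : ℂ) • (N * h * h) = 0 := by
      rw [two_smul]
      nth_rewrite 1 [← h3]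
      exact neg_add_cancel _
    exact (smul_eq_zero.1 this).resolve_left (by norm_num)
  have h7 : U.Ei * hᵀ * mC W.E * h = 1 := by
    rw [mul_assoc, mul_assoc, ← mul_assoc hᵀ, hE, U.Ei_E]
  have h8 : h * (U.Ei * hᵀ * mC W.E) = 1 := mul_eq_one_comm.1 h7
  have h9 : N = 0 := by
    calc N = N * h * (h * (U.Ei * hᵀ * mC W.E)) * (U.Ei * hᵀ * mC W.E) := by
          rw [h8, mul_one, mul_assoc, h8, mul_one]
      _ = N * h * h * (U.Ei * hᵀ * mC W.E) * (U.Ei * hᵀ * mC W.E) := by simp only [mul_assoc]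
      _ = 0 := by rw [h6, zero_mul, zero_mul]
  apply c.ne
  calc Jl j (U.o - star U.o) = mC W.E * N := by rw [hNd, ← mul_assoc, U.E_Ei, one_mul]
    _ = 0 := by rw [h9, mul_zero]

end Setup

end

end Pool.Agent.L5helper24.KM
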