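import Pool.Agent.L5helper24.KM.Sys

/-!
# The closure theorem for systems of classes
-/

set_option autoImplicit false
set_option linter.unusedSectionVars false

open Matrix Finset Module

namespace Pool.Agent.L5helper24.KM

open Pool.Agent Pool.Agent.W544.PG Pool.Agent.L5helper24.KS Pool.Agent.W216.PG.SOI
open Pool.Agent.N996.BP (RData IsFam cR cR_mul exists_sqrt kp kp_apply kp_reindex kp_sum tens rei
  contr uni arr arr_elim fin_ind mem_of_fixed descent kp_arr)

noncomputable section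

/-! ### Rectangular Kronecker powers -/

section kr
variable {α β γ κ : Type} [Fintype α] [Fintype β] [Fintype γ] [Fintype κ] [DecidableEq κ]
  {R : Type} [CommRing R]

/-- the Kronecker power of a rectangular matrix -/
def kr (κ : Type) [Fintype κ] (M : Matrix α β R) : Matrix (κ → α) (κ → β) R :=
  Matrix.of fun i j => ∏ k, M (i k) (j k)

theorem kr_mul [DecidableEq β] (M : Matrix α β R) (N : Matrix β γ R) :
    kr κ (M * N) = kr κ M * kr κ N := by
  ext i j
  simp only [kr, Matrix.of_apply, Matrix.mul_apply]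
  rw [Finset.prod_univ_sum]
  refine Finset.sum_congr (by ext; simp) fun a _ => ?_
  rw [Finset.prod_mul_distrib]

/-- the inclusion matrix -/
def sm (R : Type) [CommRing R] (ι : Type) [DecidableEq ι] : Matrix (Unit ⊕ ι) ι R :=
  Matrix.of fun x b => if x = Sum.inr b then 1 else 0

/-- the extension of an array by zero -/
def ext {ι : Type} [Fintype ι] [DecidableEq ι] (t : (κ → ι) → R) : (κ → Unit ⊕ ι) → R :=
  kr κ (sm R ι) *ᵥ t

theorem sm_eq {ι : Type} [Fintype ι] [DecidableEq ι] (x : Unit ⊕ ι) (b : ι) :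
    sm R ι x b = if x = Sum.inr b then 1 else 0 := rfl

theorem ext_inr {ι : Type} [Fintype ι] [DecidableEq ι] (t : (κ → ι) → R) (J : κ → ι) :
    ext t (fun k => Sum.inr (J k)) = t J := by
  rw [ext, Matrix.mulVec, dotProduct, Finset.sum_eq_single J]
  · simp [kr, sm]
  · intro K _ hK
    obtain ⟨k, hk⟩ := Function.ne_iff.1 hK
    have h1 : kr κ (sm R ι) (fun k => Sum.inr (J k)) K = 0 := by
      rw [kr, Matrix.of_apply]
      refine Finset.prod_eq_zero (Finset.mem_univ k) ?_
      rw [sm_eq, if_neg]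
      intro h
      exact hk (Sum.inr_injective h).symm
    rw [h1, zero_mul]
  · intro h
    exact absurd (Finset.mem_univ _) h

theorem ext_zero {ι : Type} [Fintype ι] [DecidableEq ι] (t : (κ → ι) → R) {i : κ → Unit ⊕ ι}
    {k : κ} (hk : i k = Sum.inl ()) : ext t i = 0 := by
  rw [ext, Matrix.mulVec, dotProduct]
  refine Finset.sum_eq_zero fun K _ => ?_
  have h1 : kr κ (sm R ι) i K = 0 := by
    rw [kr, Matrix.of_apply]
    refine Finset.prod_eq_zero (Finset.mem_univ k) ?_
    rw [sm_eq, hk, if_neg]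
    simp
  rw [h1, zero_mul]

theorem ext_map {ι : Type} [Fintype ι] [DecidableEq ι] {S : Type} [CommRing S] (f : R →+* S)
    (t : (κ → ι) → R) : ext (fun J => f (t J)) = fun i => f (ext t i) := by
  funext i
  simp only [ext, Matrix.mulVec, dotProduct, map_sum, map_mul]
  refine Finset.sum_congr rfl fun J _ => ?_
  congr 1
  rw [kr, kr, Matrix.of_apply, Matrix.of_apply, map_prod]
  refine Finset.prod_congr rfl fun k _ => ?_
  rw [sm_eq, sm_eq]
  split_ifs <;> simp

theorem kp_ext {ι : Type} [Fintype ι] [DecidableEq ι] (g : Matrix ι ι R) (t : (κ → ι) → R) :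
    kp κ (fromBlocks 1 0 0 g : Matrix (Unit ⊕ ι) (Unit ⊕ ι) R) *ᵥ ext t = ext (kp κ g *ᵥ t) := by
  have h1 : kp κ (fromBlocks 1 0 0 g : Matrix (Unit ⊕ ι) (Unit ⊕ ι) R) =
      kr κ (fromBlocks 1 0 0 g) := rfl
  have h2 : kp κ g = kr κ g := rfl
  rw [h1, h2, ext, ext, Matrix.mulVec_mulVec, Matrix.mulVec_mulVec, ← kr_mul, ← kr_mul]
  congr 2
  ext x b
  rcases x with x | x
  · simp [Matrix.mul_apply, sm_eq, Fintype.sum_sum_type]
  · simp [Matrix.mul_apply, sm_eq, Fintype.sum_sum_type]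

end kr

variable {n w : ℕ} {T : HS n} {W : HW w}
  {𝒜 : ∀ κ : Type, Submodule ℚ ((κ → Fin n ⊕ Fin w) → ℚ)}

section
variable {κ l : Type} [Fintype κ] [DecidableEq κ] [Fintype l] [DecidableEq l]

theorem pl_eq {ι : Type} [Fintype ι] [DecidableEq ι] (P : Matrix ι ι ℂ) (t : (κ → ι) → ℂ) :
    pl P t = kp κ Pᵀ *ᵥ t := by
  funext J
  rw [pl, Matrix.mulVec, dotProduct]
  rfl

theorem isH_rei {t : (κ → Fin n ⊕ Fin w) → ℚ} (ht : IsH T W t) (e : κ ≃ l) :
    IsH T W (fun J : l → Fin n ⊕ Fin w => t fun k => J (e k)) := by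
  funext J
  have h1 := congrFun ht fun k => J (e k)
  rw [Pi.zero_apply] at h1 ⊢
  rw [← h1, der, der, ← Equiv.sum_comp e]
  refine Finset.sum_congr rfl fun k _ => Finset.sum_congr rfl fun b _ => ?_
  congr 2
  show t _ = t _
  congr 1
  funext k'
  by_cases h : k' = k
  · subst h
    simp
  · rw [Function.update_of_ne h, Function.update_of_ne fun h' => h (e.injective h')]

/-- the Hodge operator extended by zero -/
def hopX (T : HS n) (W : HW w) :
    Matrix (Unit ⊕ (Fin n ⊕ Fin w)) (Unit ⊕ (Fin n ⊕ Fin w)) ℂ :=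
  fromBlocks 0 0 0 (hop T W)

theorem der_cmp {a : (κ → Unit ⊕ (Fin n ⊕ Fin w)) → ℚ}
    (ha : ∀ S : κ → Prop, ∀ (_ : Fintype {k // S k}) (_ : DecidableEq {k // S k}),
      IsH T W (cmp a S)) : der (hopX T W) (fun i => (a i : ℂ)) = 0 := by
  classical
  funext i
  obtain ⟨S, hS⟩ : ∃ S : κ → Prop, S = fun k => (i k).isRight = true := ⟨_, rfl⟩
  have hdec : DecidablePred S := Classical.decPred _
  have hSr : ∀ k, S k → (i k).isRight = true := fun k hk => by rw [hS] at hk; exact hk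
  obtain ⟨J, hJ⟩ : ∃ J : {k // S k} → Fin n ⊕ Fin w,
    J = fun k => (i k.1).getRight (hSr k.1 k.2) := ⟨_, rfl⟩
  have hJi : ∀ k : {k // S k}, i k.1 = Sum.inr (J k) := by
    intro k
    rw [hJ]
    simp
  have hnS : ∀ k, ¬ S k → i k = Sum.inl () := by
    intro k hk
    rcases hik : i k with u | b
    · rfl
    · exfalso
      apply hk
      rw [hS]
      simp [hik]
  have h1 := congrFun (ha S inferInstance inferInstance) J
  rw [Pi.zero_apply] at h1 ⊢
  rw [← h1, der, der]
  -- only the variables in `S` contribute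
  have h2 : ∑ k : κ, ∑ x, hopX T W x (i k) * (a (Function.update i k x) : ℂ) =
      ∑ k : {k // S k}, ∑ x, hopX T W x (i k.1) * (a (Function.update i k.1 x) : ℂ) := by
    rw [← Finset.sum_filter_add_sum_filter_not (s := (univ : Finset κ)) (p := S)]
    have h3 : ∑ k ∈ univ.filter (fun k => ¬ S k),
        ∑ x, hopX T W x (i k) * (a (Function.update i k x) : ℂ) = 0 := by
      refine Finset.sum_eq_zero fun k hk => Finset.sum_eq_zero fun x _ => ?_
      rw [hnS k (Finset.mem_filter.1 hk).2]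
      have h4 : hopX T W x (Sum.inl ()) = 0 := by rcases x with x | x <;> rfl
      rw [h4, zero_mul]
    rw [h3, add_zero]
    exact Finset.sum_subtype _ (by simp) _
  rw [h2]
  refine Finset.sum_congr rfl fun k _ => ?_
  rw [Fintype.sum_sum_type]
  have h5 : ∑ x : Unit, hopX T W (Sum.inl x) (i k.1) *
      (a (Function.update i k.1 (Sum.inl x)) : ℂ) = 0 := by
    refine Finset.sum_eq_zero fun x _ => ?_
    rw [hJi k]
    have h4 : hopX T W (Sum.inl x) (Sum.inr (J k)) = 0 := rfl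
    rw [h4, zero_mul]
  rw [h5, zero_add]
  refine Finset.sum_congr rfl fun b _ => ?_
  rw [hJi k]
  congr 2
  rw [cmp]
  congr 1
  funext k'
  by_cases hk' : S k'
  · rw [dif_pos hk']
    by_cases hkk : k' = k.1
    · subst hkk
      rw [Function.update_self, Function.update_self]
    · rw [Function.update_of_ne hkk, Function.update_of_ne (fun h => hkk (congrArg Subtype.val h)),
        ← hJi]
  · rw [dif_neg hk']
    have hkk : k' ≠ k.1 := fun h => hk' (by rw [h]; exact k.2)
    rw [Function.update_of_ne hkk, hnS k' hk']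

theorem der_smul {ι : Type} [Fintype ι] [DecidableEq ι] (z : ℂ) (X : Matrix ι ι ℂ)
    (t : (κ → ι) → ℂ) : der (z • X) t = z • der X t := by
  funext J
  simp only [der, Matrix.smul_apply, smul_eq_mul, Pi.smul_apply, Finset.mul_sum, mul_assoc]

theorem cc_two : ((2 : ℂ) • Complex.I • W.y) = cc W := by
  rw [cc, smul_smul]

theorem Ix3 : (Complex.I • T.x) * (Complex.I • T.x) * (Complex.I • T.x) = -(Complex.I • T.x) := by
  simp only [smul_mul_assoc, mul_smul_comm, smul_smul]
  rw [T.cube]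
  have hI : Complex.I * (Complex.I * Complex.I) = -Complex.I := by
    rw [Complex.I_mul_I]; ring
  rw [hI, neg_smul]

theorem cc3 : cc W * cc W * cc W = -cc W := by rw [cc_sq, neg_one_mul]

theorem rot_pi : rot (Complex.I • T.x) Real.pi = wT T := by
  have h1 : (Complex.I • T.x) * (Complex.I • T.x) = -(T.x * T.x) := by
    simp only [smul_mul_assoc, mul_smul_comm, smul_smul]
    rw [Complex.I_mul_I, neg_one_smul]
  rw [rot, Complex.sin_pi, Complex.cos_pi, h1, wT]
  module

theorem rot_cc : rot (cc W) (Real.pi / 2) = cc W := by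
  rw [rot, Complex.sin_pi_div_two, Complex.cos_pi_div_two, cc_sq]
  module

/-- arrays killed by the Hodge operator are fixed by the Weil operator -/
theorem weil_fix {a : (κ → Unit ⊕ (Fin n ⊕ Fin w)) → ℂ} (ha : der (hopX T W) a = 0) :
    pl (b3 (wT T) (cc W)) a = a := by
  have h := flow_fix (X := Complex.I • hopX T W)
    (R := fun θ => b3 (rot (Complex.I • T.x) θ) (rot (cc W) (θ / 2))) ?_ ?_
    (t := a) (by rw [der_smul, ha, smul_zero]) Real.pi
  · rw [rot_pi, rot_cc] at h
    exact h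
  · intro θ x y
    have h0 : Complex.I • hopX T W * b3 (rot (Complex.I • T.x) θ) (rot (cc W) (θ / 2)) =
        fromBlocks 0 0 0 (fromBlocks ((Complex.I • T.x) * rot (Complex.I • T.x) θ) 0 0
          ((Complex.I • W.y) * rot (cc W) (θ / 2))) := by
      rw [b3, hopX, hop, Matrix.fromBlocks_smul, Matrix.fromBlocks_smul,
        Matrix.fromBlocks_multiply, Matrix.fromBlocks_multiply]
      simp
    rw [h0]
    rcases x with x | x | x <;> rcases y with y | y | y
    all_goals first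
      | exact rot_entry_deriv Ix3 θ x y
      | (have h1 := rot_entry_deriv (cc3 (W := W)) (θ / 2) x y
         have h2 : HasDerivAt (fun θ : ℂ => θ / 2) (1 / 2) θ := (hasDerivAt_id θ).div_const 2
         have h3 := h1.comp θ h2
         refine h3.congr_deriv ?_
         change (cc W * rot (cc W) (θ / 2)) x y * (1 / 2) =
           ((Complex.I • W.y) * rot (cc W) (θ / 2)) x y
         rw [← cc_two, Matrix.smul_mul, Matrix.smul_apply, smul_eq_mul]
         ring)
      | simpa [b3] using hasDerivAt_const θ (0 : ℂ)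
      | simpa [b3] using hasDerivAt_const θ ((1 : Matrix Unit Unit ℂ) x y)
  · rw [rot_zero, zero_div, rot_zero, b3_one]

theorem cR_b3 (A : Matrix (Fin n) (Fin n) ℝ) (B : Matrix (Fin w) (Fin w) ℝ) :
    cR (b3 A B) = b3 (cR A) (cR B) := by
  ext x y
  rcases x with x | x | x <;> rcases y with y | y | y <;> simp [cR, b3, Matrix.one_apply]

/-- arrays killed by the Hodge operator are fixed by the real Weil operator -/
theorem fixC {CT : Matrix (Fin n) (Fin n) ℝ} {CU : Matrix (Fin w) (Fin w) ℝ}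
    (hT : cR CT = wT T) (hU : cR CU = cc W) {a : (κ → Unit ⊕ (Fin n ⊕ Fin w)) → ℚ}
    (ha : der (hopX T W) (fun i => (a i : ℂ)) = 0) :
    kp κ (b3 CTᵀ CUᵀ) *ᵥ (fun i => (a i : ℝ)) = fun i => (a i : ℝ) := by
  have h1 := weil_fix ha
  rw [pl_eq] at h1
  have h2 : (b3 (wT T) (cc W))ᵀ = cR (b3 CTᵀ CUᵀ) := by
    rw [cR_b3, b3_T, ← hT, ← hU]
    rfl
  rw [h2, N996.BP.kp_cR] at h1
  funext i
  have h3 := congrFun h1 i
  rw [Matrix.mulVec, dotProduct] at h3 ⊢
  have h4 : ((∑ j, kp κ (b3 CTᵀ CUᵀ) i j * (a j : ℝ) : ℝ) : ℂ) = (((a i : ℝ)) : ℂ) := by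
    push_cast
    exact h3
  exact_mod_cast h4

theorem cmp_ext_all {t : (κ → Fin n ⊕ Fin w) → ℚ} {S : κ → Prop} (hS : ∀ k, S k) :
    cmp (ext t) S = fun J => t fun k => J ⟨k, hS k⟩ := by
  classical
  funext J
  have h1 : ∀ k, (if h : S k then (Sum.inr (J ⟨k, h⟩) : Unit ⊕ (Fin n ⊕ Fin w))
      else Sum.inl ()) = Sum.inr (J ⟨k, hS k⟩) := fun k => dif_pos (hS k)
  rw [cmp]
  simp only [h1]
  exact ext_inr t _

theorem cmp_ext_zero {t : (κ → Fin n ⊕ Fin w) → ℚ} {S : κ → Prop} (hS : ¬ ∀ k, S k) :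
    cmp (ext t) S = 0 := by
  push Not at hS
  obtain ⟨k, hk⟩ := hS
  funext J
  rw [cmp]
  exact ext_zero t (k := k) (dif_neg hk)

/-- the equivalence with a full subtype -/
def fullE {S : κ → Prop} (hS : ∀ k, S k) : κ ≃ {k // S k} where
  toFun k := ⟨k, hS k⟩
  invFun k := k.1
  left_inv _ := rfl
  right_inv _ := rfl

theorem ext_mem (h : IsSys T W 𝒜) {t : (κ → Fin n ⊕ Fin w) → ℚ} (ht : t ∈ 𝒜 κ) :
    ext t ∈ AA 𝒜 κ := by
  classical
  intro S
  by_cases hS : ∀ k, S k
  · rw [cmp_ext_all hS]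
    exact h.rei _ _ (fullE hS) _ ht
  · rw [cmp_ext_zero hS]
    exact Submodule.zero_mem _

theorem mem_of_ext (h : IsSys T W 𝒜) {t : (κ → Fin n ⊕ Fin w) → ℚ} (ht : ext t ∈ AA 𝒜 κ) :
    t ∈ 𝒜 κ := by
  classical
  have h1 := ht fun _ => True
  rw [cmp_ext_all (fun _ => trivial)] at h1
  have h2 := h.rei _ κ (fullE (κ := κ) (S := fun _ => True) (fun _ => trivial)).symm _ h1
  exact h2

theorem isH_zero : IsH T W (0 : (κ → Fin n ⊕ Fin w) → ℚ) := by
  funext J
  simp [der]

theorem der_ext {t : (κ → Fin n ⊕ Fin w) → ℚ} (ht : IsH T W t) :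
    der (hopX T W) (fun i => ((ext t i : ℚ) : ℂ)) = 0 := by
  apply der_cmp
  intro S _ _
  by_cases hS : ∀ k, S k
  · rw [cmp_ext_all hS]
    exact isH_rei ht (fullE hS)
  · rw [cmp_ext_zero hS]
    exact isH_zero

end

/-- the real span of the extended system -/
def BR (𝒜 : ∀ κ : Type, Submodule ℚ ((κ → Fin n ⊕ Fin w) → ℚ)) (κ : Type) :
    Submodule ℝ ((κ → Unit ⊕ (Fin n ⊕ Fin w)) → ℝ) :=
  Submodule.span ℝ {x | ∃ a ∈ AA 𝒜 κ, x = fun i => (a i : ℝ)}

theorem BR_of {κ : Type} {a : (κ → Unit ⊕ (Fin n ⊕ Fin w)) → ℚ} (ha : a ∈ AA 𝒜 κ) :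
    (fun i => (a i : ℝ)) ∈ BR 𝒜 κ := Submodule.subset_span ⟨a, ha, rfl⟩

theorem BR_ind {κ : Type} {P : ((κ → Unit ⊕ (Fin n ⊕ Fin w)) → ℝ) → Prop}
    (h : ∀ a ∈ AA 𝒜 κ, ∀ c : ℝ, P (c • fun i => (a i : ℝ)))
    (hadd : ∀ x y, P x → P y → P (x + y)) {x : (κ → Unit ⊕ (Fin n ⊕ Fin w)) → ℝ}
    (hx : x ∈ BR 𝒜 κ) : P x := by
  have key : ∀ c : ℝ, P (c • x) := by
    induction hx using Submodule.span_induction with
    | mem x hx => obtain ⟨a, ha, rfl⟩ := hx; exact h a ha
    | zero =>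
      intro c
      have := h 0 (Submodule.zero_mem _) 0
      rw [zero_smul] at this
      rwa [smul_zero]
    | add x y _ _ hx hy => intro c; rw [smul_add]; exact hadd _ _ (hx c) (hy c)
    | smul d x _ hx => intro c; rw [smul_smul]; exact hx _
  have := key 1
  rwa [one_smul] at this

theorem rQ_b3 (A : Matrix (Fin n) (Fin n) ℚ) (B : Matrix (Fin w) (Fin w) ℚ) :
    (b3 A B).map (fun x : ℚ => (x : ℝ)) = b3 (rQ A) (rQ B) := by
  ext x y
  rcases x with x | x | x <;> rcases y with y | y | y <;> simp [rQ, b3, Matrix.one_apply]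

theorem rQ_neg (A : Matrix (Fin n) (Fin n) ℚ) : rQ (-A) = -rQ A := by
  ext x y
  simp [rQ]

/-- The real span is a family. -/
theorem isFam (h : IsSys T W 𝒜) {D : RData (Unit ⊕ (Fin n ⊕ Fin w))}
    {CT : Matrix (Fin n) (Fin n) ℝ} {CU : Matrix (Fin w) (Fin w) ℝ} (hCT : cR CT = wT T)
    (hCU : cR CU = cc W) (ho : D.o = Sum.inl ()) (hC : D.C = b3 CTᵀ CUᵀ)
    (hQ : D.Q = b3 (-rQ T.Q⁻¹) (rQ W.E⁻¹)) (hQi : D.Qi = b3 (-rQ T.Q) (rQ W.E)) :
    IsFam D (fun κ _ => BR 𝒜 κ) := by
  have hQ' : D.Q = (gQ T W).map (fun x : ℚ => (x : ℝ)) := by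
    rw [hQ, gQ, rQ_b3, rQ_neg]
  have hQi' : D.Qi = (gQi T W).map (fun x : ℚ => (x : ℝ)) := by
    rw [hQi, gQi, rQ_b3, rQ_neg]
  have hcast : ∀ {κ l : Type} [Fintype κ] [Fintype l] [DecidableEq κ] [DecidableEq l]
      (c : ℝ) (a : (κ ⊕ (l ⊕ l) → Unit ⊕ (Fin n ⊕ Fin w)) → ℚ),
      contr D.Q (c • fun i => (a i : ℝ)) = c • fun i => ((contr (gQ T W) a) i : ℝ) := by
    intro κ l _ _ _ _ c a
    funext i
    rw [Pi.smul_apply, smul_eq_mul, contr, contr, Rat.cast_sum, Finset.mul_sum]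
    refine Finset.sum_congr rfl fun x _ => ?_
    rw [Rat.cast_sum, Finset.mul_sum]
    refine Finset.sum_congr rfl fun y _ => ?_
    rw [Rat.cast_mul, Pi.smul_apply, smul_eq_mul, hQ', kp_apply, kp_apply, Rat.cast_prod]
    simp only [Matrix.map_apply]
    ring
  refine ⟨?_, ?_, ?_, ?_, ?_, ?_⟩
  · intro κ l _ _ e a ha
    refine BR_ind (P := fun a => rei e a ∈ BR 𝒜 l) ?_ ?_ ha
    · intro a ha c
      exact Submodule.smul_mem _ c (BR_of (AA_rei h e ha))
    · intro x y hx hy
      exact Submodule.add_mem _ hx hy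
  · intro κ l _ _ a b ha hb
    refine BR_ind (P := fun a => tens a b ∈ BR 𝒜 (κ ⊕ l)) ?_ ?_ ha
    · intro a ha c
      refine BR_ind (P := fun b => tens (c • fun i => (a i : ℝ)) b ∈ BR 𝒜 (κ ⊕ l)) ?_ ?_ hb
      · intro b hb d
        have h1 : tens (c • fun i => (a i : ℝ)) (d • fun i => (b i : ℝ)) =
            (c * d) • fun i => ((tens a b) i : ℝ) := by
          funext i
          simp only [tens, Pi.smul_apply, smul_eq_mul, Rat.cast_mul]
          ring
        rw [h1]
        exact Submodule.smul_mem _ _ (BR_of (AA_tens h ha hb))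
      · intro x y hx hy
        have h1 : tens (c • fun i => (a i : ℝ)) (x + y) =
            tens (c • fun i => (a i : ℝ)) x + tens (c • fun i => (a i : ℝ)) y := by
          funext i
          simp only [tens, Pi.add_apply]
          ring
        rw [h1]
        exact Submodule.add_mem _ hx hy
    · intro x y hx hy
      have h1 : tens (x + y) b = tens x b + tens y b := by
        funext i
        simp only [tens, Pi.add_apply]
        ring
      rw [h1]
      exact Submodule.add_mem _ hx hy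
  · intro κ l _ _ _ _ a ha
    refine BR_ind (P := fun a => contr D.Q a ∈ BR 𝒜 κ) ?_ ?_ ha
    · intro a ha c
      rw [hcast]
      exact Submodule.smul_mem _ _ (BR_of (AA_contr h ha))
    · intro x y hx hy
      have h1 : contr D.Q (x + y) = contr D.Q x + contr D.Q y := by
        funext i
        simp only [contr, Pi.add_apply, mul_add, Finset.sum_add_distrib]
      rw [h1]
      exact Submodule.add_mem _ hx hy
  · intro κ _ _ a ha
    refine BR_ind (P := fun a => kp κ D.C *ᵥ a = a) ?_ ?_ ha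
    · intro a ha c
      rw [Matrix.mulVec_smul, hC, fixC hCT hCU (der_cmp fun S _ _ => h.hodge _ _ (ha S))]
    · intro x y hx hy
      rw [Matrix.mulVec_add, hx, hy]
  · intro κ _ _
    have h1 := BR_of (AA_inv h κ)
    convert h1 using 1
    funext i
    rw [arr, arr, kp_apply, kp_apply, Rat.cast_prod, hQi']
    rfl
  · intro κ _
    classical
    have h1 := BR_of (AA_uni h κ)
    convert h1 using 1
    funext i
    rw [uni, uni, Rat.cast_prod, ho]
    refine Finset.prod_congr rfl fun k _ => ?_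
    split_ifs <;> simp

end

end Pool.Agent.L5helper24.KM
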