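import Pool.Agent.L5helper24.KM.Clo

/-!
# The closure theorem for systems of classes, II
-/

set_option autoImplicit false
set_option linter.unusedSectionVars false
set_option linter.unusedSimpArgs false

open Matrix Finset Module

namespace Pool.Agent.L5helper24.KM

open Pool.Agent Pool.Agent.W544.PG Pool.Agent.L5helper24.KS Pool.Agent.W216.PG.SOI
open Pool.Agent.N996.BP (RData IsFam cR cR_mul exists_sqrt kp kp_apply kp_reindex kp_sum kp_mul
  kp_transpose tens rei contr uni arr mat mat_arr arr_elim fin_ind mem_of_fixed descent kp_arr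
  kp_uni)

noncomputable section

variable {n w : ℕ} {T : HS n} {W : HW w}
  {𝒜 : ∀ κ : Type, Submodule ℚ ((κ → Fin n ⊕ Fin w) → ℚ)}

/-- `P` fixes all elements of the system. -/
def FxA (𝒜 : ∀ κ : Type, Submodule ℚ ((κ → Fin n ⊕ Fin w) → ℚ))
    (P : Matrix (Fin n ⊕ Fin w) (Fin n ⊕ Fin w) ℂ) : Prop :=
  ∀ (κ : Type) [Fintype κ] [DecidableEq κ] (t : (κ → Fin n ⊕ Fin w) → ℚ), t ∈ 𝒜 κ →
    pl P (fun J => (t J : ℂ)) = fun J => (t J : ℂ)

theorem Fx.fxA (h : IsSys T W 𝒜) {P : Matrix (Fin n ⊕ Fin w) (Fin n ⊕ Fin w) ℂ}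
    (hP : Fx T W P) : FxA 𝒜 P := fun κ _ _ t ht => hP κ t (h.hodge κ t ht)

theorem FxA.mul {P P' : Matrix (Fin n ⊕ Fin w) (Fin n ⊕ Fin w) ℂ} (h : FxA 𝒜 P)
    (h' : FxA 𝒜 P') : FxA 𝒜 (P * P') := by
  intro κ _ _ t ht
  rw [pl_mul, h κ t ht, h' κ t ht]

/-- the shape of a matrix which fixes the extended system -/
theorem shape {ι : Type} [Fintype ι] [DecidableEq ι] {g : Matrix (Unit ⊕ ι) (Unit ⊕ ι) ℂ}
    {N N' : Matrix ι ι ℂ} (hN : N * N' = 1)
    (h1 : ∀ x, g x (Sum.inl ()) = if x = Sum.inl () then 1 else 0)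
    (h2 : g * fromBlocks 1 0 0 N * gᵀ = fromBlocks 1 0 0 N) :
    g = fromBlocks 1 0 0 g.toBlocks₂₂ := by
  obtain ⟨a, ha⟩ : ∃ a, a = g.toBlocks₁₂ := ⟨_, rfl⟩
  obtain ⟨d, hd⟩ : ∃ d, d = g.toBlocks₂₂ := ⟨_, rfl⟩
  have h3 : g = fromBlocks 1 a 0 d := by
    rw [ha, hd]
    ext x y
    rcases x with x | x <;> rcases y with y | y
    · rw [h1]; simp
    · rfl
    · rw [h1]; simp
    · rfl
  rw [← hd]
  rw [h3, Matrix.fromBlocks_transpose, Matrix.fromBlocks_multiply,
    Matrix.fromBlocks_multiply] at h2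
  simp only [Matrix.mul_one, Matrix.mul_zero, Matrix.zero_mul, add_zero, zero_add,
    Matrix.transpose_zero, Matrix.transpose_one, Matrix.one_mul] at h2
  obtain ⟨-, e2, -, e4⟩ := Matrix.fromBlocks_inj.1 h2
  have e5 : d * (N * dᵀ * N') = 1 := by
    calc d * (N * dᵀ * N') = (d * N * dᵀ) * N' := by simp only [mul_assoc]
      _ = 1 := by rw [e4, hN]
  have e6 : (N * dᵀ * N') * d = 1 := mul_eq_one_comm.1 e5
  have e7 : a = 0 := by
    calc a = a * ((N * dᵀ * N') * d) := by rw [e6, Matrix.mul_one]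
      _ = (a * N * dᵀ) * N' * d := by simp only [Matrix.mul_assoc]
      _ = 0 := by rw [e2, Matrix.zero_mul, Matrix.zero_mul]
  rw [h3, e7]

/-- **The closure theorem**: a Hodge class fixed by all matrices which fix a system belongs to
the system. -/
theorem mem_of_fx (h : IsSys T W 𝒜) {κ : Type} [Fintype κ] [DecidableEq κ]
    {t : (κ → Fin n ⊕ Fin w) → ℚ} (ht : IsH T W t)
    (hfix : ∀ P : Matrix (Fin n ⊕ Fin w) (Fin n ⊕ Fin w) ℂ, FxA 𝒜 P →
      pl P (fun J => (t J : ℂ)) = fun J => (t J : ℂ)) : t ∈ 𝒜 κ := by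
  classical
  obtain ⟨D, CT, CU, hT, hU, ho, hC, hQ, hQi⟩ := exists_rdata T W
  have hF := isFam h hT hU ho hC hQ hQi
  have hcast : ∀ {l : Type} (a : (l → Unit ⊕ (Fin n ⊕ Fin w)) → ℚ),
      (fun j => (((a j : ℚ) : ℝ) : ℂ)) = fun j => (a j : ℂ) := by
    intro l a
    funext j
    simp
  apply mem_of_ext h
  have h1 : (fun i => ((ext t i : ℚ) : ℝ)) ∈ BR 𝒜 κ := by
    refine mem_of_fixed hF _ ?_ ?_
    · rw [hC]
      exact fixC hT hU (der_ext ht)
    · intro g hg
      have g1 : ∀ x, g x (Sum.inl ()) = if x = Sum.inl () then 1 else 0 := by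
        intro x
        have h2 := hg Unit _ (BR_of (AA_uni h Unit))
        rw [hcast] at h2
        have h3 : (fun j => ((uni ℚ (Sum.inl ()) Unit j : ℚ) : ℂ)) =
            uni ℂ (Sum.inl () : Unit ⊕ (Fin n ⊕ Fin w)) Unit := by
          funext i
          rw [uni, uni, Rat.cast_prod]
          refine Finset.prod_congr rfl fun k _ => ?_
          split_ifs <;> simp
        rw [h3, kp_uni] at h2
        have h4 := congrFun h2 fun _ => x
        rw [uni, Fintype.prod_unique, Fintype.prod_unique] at h4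
        exact h4
      have g2 : g * fromBlocks 1 0 0 (fromBlocks (-mC T.Q) 0 0 (mC W.E)) * gᵀ =
          fromBlocks 1 0 0 (fromBlocks (-mC T.Q) 0 0 (mC W.E)) := by
        have h2 := hg (Unit ⊕ Unit) _ (BR_of (AA_inv h Unit))
        rw [hcast] at h2
        have h3 : (gQi T W).map (fun x : ℚ => (x : ℂ)) =
            fromBlocks 1 0 0 (fromBlocks (-mC T.Q) 0 0 (mC W.E)) := by
          rw [gQi]
          ext x y
          rcases x with x | x | x <;> rcases y with y | y | y <;>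
            simp [b3, mC]
        have h4 : (fun j => ((arr (kp Unit (gQi T W)) j : ℚ) : ℂ)) =
            arr (kp Unit ((gQi T W).map (fun x : ℚ => (x : ℂ)))) := by
          funext j
          rw [arr, arr, kp_apply, kp_apply, Rat.cast_prod]
          rfl
        rw [h4, h3, kp_arr, ← kp_transpose, ← kp_mul, ← kp_mul] at h2
        have h5 := congrArg mat h2
        rw [mat_arr, mat_arr] at h5
        ext i j
        have h6 := congrFun (congrFun h5 fun _ => i) fun _ => j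
        rw [kp_apply, kp_apply, Fintype.prod_unique, Fintype.prod_unique] at h6
        exact h6
      have g3 : (fromBlocks (-mC T.Q) 0 0 (mC W.E) : Matrix (Fin n ⊕ Fin w) (Fin n ⊕ Fin w) ℂ) *
          fromBlocks (-mC T.Q⁻¹) 0 0 (mC W.E⁻¹) = 1 := by
        rw [Matrix.fromBlocks_multiply, neg_mul_neg, ← mC_mul, ← mC_mul, (Q_inv T).2,
          (E_inv W).2]
        have e1 : mC (1 : Matrix (Fin n) (Fin n) ℚ) = 1 := by
          ext i j; simp [mC, Matrix.one_apply]; split_ifs <;> simp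
        have e2 : mC (1 : Matrix (Fin w) (Fin w) ℚ) = 1 := by
          ext i j; simp [mC, Matrix.one_apply]; split_ifs <;> simp
        rw [e1, e2]
        simp
      have g4 := shape g3 g1 g2
      obtain ⟨d, hd⟩ : ∃ d, d = g.toBlocks₂₂ := ⟨_, rfl⟩
      rw [← hd] at g4
      have key : ∀ {l : Type} [Fintype l] [DecidableEq l] (a : (l → Fin n ⊕ Fin w) → ℚ),
          (kp l g *ᵥ (fun j => ((ext a j : ℚ) : ℂ)) = fun j => ((ext a j : ℚ) : ℂ)) ↔
          pl dᵀ (fun J => (a J : ℂ)) = fun J => (a J : ℂ) := by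
        intro l _ _ a
        have e1 : (fun j => ((ext a j : ℚ) : ℂ)) = ext (fun J => (a J : ℂ)) :=
          (ext_map (Rat.castHom ℂ) a).symm
        rw [e1, g4, kp_ext, pl_eq, Matrix.transpose_transpose]
        constructor
        · intro e2
          funext J
          have e3 := congrFun e2 fun k => Sum.inr (J k)
          rw [ext_inr, ext_inr] at e3
          exact e3
        · intro e2
          rw [e2]
      rw [hcast]
      apply (key t).2
      apply hfix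
      intro l _ _ a ha
      apply (key a).1
      have e4 := hg l _ (BR_of (ext_mem h ha))
      rw [hcast] at e4
      exact e4
  exact descent _ h1

/-! ### The matrices which fix the polarisations -/

theorem pl_bf {P : Matrix (Fin n ⊕ Fin w) (Fin n ⊕ Fin w) ℂ}
    {M : Matrix (Fin n ⊕ Fin w) (Fin n ⊕ Fin w) ℚ}
    (h : pl P (fun J => (bf M J : ℂ)) = fun J => (bf M J : ℂ)) :
    Pᵀ * M.map (fun x : ℚ => (x : ℂ)) * P = M.map (fun x : ℚ => (x : ℂ)) := by
  ext x y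
  have h1 := congrFun h ![x, y]
  rw [pl, ← Equiv.sum_comp (finTwoArrowEquiv _).symm, Fintype.sum_prod_type] at h1
  simp only [bf, finTwoArrowEquiv_symm_apply, Fin.prod_univ_two, Matrix.cons_val_zero,
    Matrix.cons_val_one] at h1
  rw [Matrix.map_apply, ← h1, Matrix.mul_apply]
  simp only [Matrix.mul_apply, Matrix.transpose_apply, Matrix.map_apply, Finset.sum_mul]
  rw [Finset.sum_comm]
  refine Finset.sum_congr rfl fun a _ => Finset.sum_congr rfl fun b _ => ?_
  ring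

/-- the shape of a matrix which fixes the polarisations -/
theorem shape2 {α β : Type} [Fintype α] [DecidableEq α] [Fintype β] [DecidableEq β]
    {Q Q' : Matrix α α ℂ} {E E' : Matrix β β ℂ} (hQ : Q * Q' = 1) (hE : E * E' = 1)
    {P : Matrix (α ⊕ β) (α ⊕ β) ℂ}
    (h1 : Pᵀ * fromBlocks Q 0 0 0 * P = fromBlocks Q 0 0 0)
    (h2 : Pᵀ * fromBlocks 0 0 0 E * P = fromBlocks 0 0 0 E) :
    ∃ a d, P = fromBlocks a 0 0 d ∧ aᵀ * Q * a = Q ∧ dᵀ * E * d = E := by
  obtain ⟨a, b, c, d, rfl⟩ : ∃ a b c d, P = fromBlocks a b c d :=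
    ⟨_, _, _, _, (Matrix.fromBlocks_toBlocks P).symm⟩
  rw [Matrix.fromBlocks_transpose, Matrix.fromBlocks_multiply, Matrix.fromBlocks_multiply] at h1 h2
  simp only [Matrix.mul_zero, Matrix.zero_mul, add_zero, zero_add] at h1 h2
  obtain ⟨e1, e2, -, -⟩ := Matrix.fromBlocks_inj.1 h1
  obtain ⟨-, -, f3, f4⟩ := Matrix.fromBlocks_inj.1 h2
  have hQ2 : Q' * Q = 1 := mul_eq_one_comm.1 hQ
  have hE2 : E' * E = 1 := mul_eq_one_comm.1 hE
  have g1 : (Q' * aᵀ * Q) * a = 1 := by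
    calc (Q' * aᵀ * Q) * a = Q' * (aᵀ * Q * a) := by simp only [Matrix.mul_assoc]
      _ = 1 := by rw [e1, hQ2]
  have g2 : a * (Q' * aᵀ * Q) = 1 := mul_eq_one_comm.1 g1
  have hb : b = 0 := by
    calc b = (a * (Q' * aᵀ * Q)) * b := by rw [g2, Matrix.one_mul]
      _ = a * Q' * (aᵀ * Q * b) := by simp only [Matrix.mul_assoc]
      _ = 0 := by rw [e2, Matrix.mul_zero]
  have g3 : (E' * dᵀ * E) * d = 1 := by
    calc (E' * dᵀ * E) * d = E' * (dᵀ * E * d) := by simp only [Matrix.mul_assoc]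
      _ = 1 := by rw [f4, hE2]
  have g4 : d * (E' * dᵀ * E) = 1 := mul_eq_one_comm.1 g3
  have hc : c = 0 := by
    calc c = (d * (E' * dᵀ * E)) * c := by rw [g4, Matrix.one_mul]
      _ = d * E' * (dᵀ * E * c) := by simp only [Matrix.mul_assoc]
      _ = 0 := by rw [f3, Matrix.mul_zero]
  exact ⟨a, d, by rw [hb, hc], e1, f4⟩

theorem map_fb (A : Matrix (Fin n) (Fin n) ℚ) (B : Matrix (Fin w) (Fin w) ℚ) :
    (fromBlocks A 0 0 B : Matrix (Fin n ⊕ Fin w) (Fin n ⊕ Fin w) ℚ).map (fun x : ℚ => (x : ℂ)) =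
      fromBlocks (mC A) 0 0 (mC B) := by
  ext x y
  rcases x with x | x <;> rcases y with y | y <;> simp [mC]

theorem FxA.shape (h : IsSys T W 𝒜) {P : Matrix (Fin n ⊕ Fin w) (Fin n ⊕ Fin w) ℂ}
    (hP : FxA 𝒜 P) : ∃ a d, P = fromBlocks a 0 0 d ∧ aᵀ * mC T.Q * a = mC T.Q ∧
      dᵀ * mC W.E * d = mC W.E := by
  have h1 := pl_bf (hP _ _ h.polT)
  have h2 := pl_bf (hP _ _ h.polA)
  rw [map_fb, mC_zero] at h1 h2
  have e1 : mC T.Q * mC T.Q⁻¹ = 1 := by
    rw [← mC_mul, (Q_inv T).2]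
    ext i j; simp [mC, Matrix.one_apply]; split_ifs <;> simp
  have e2 : mC W.E * mC W.E⁻¹ = 1 := by
    rw [← mC_mul, (E_inv W).2]
    ext i j; simp [mC, Matrix.one_apply]; split_ifs <;> simp
  exact shape2 e1 e2 h1 h2

theorem FxA.formA {d : Matrix (Fin w) (Fin w) ℂ} {a : Matrix (Fin n) (Fin n) ℂ}
    (hP : FxA 𝒜 (fromBlocks a 0 0 d)) {M : Matrix (Fin w) (Fin w) ℚ}
    (hM : bf (fromBlocks 0 0 0 M) ∈ 𝒜 (Fin 2)) : dᵀ * mC M * d = mC M := by
  have h1 := pl_bf (hP _ _ hM)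
  rw [map_fb, Matrix.fromBlocks_transpose, Matrix.fromBlocks_multiply,
    Matrix.fromBlocks_multiply] at h1
  simp only [Matrix.mul_zero, Matrix.zero_mul, add_zero, zero_add, Matrix.transpose_zero] at h1
  exact (Matrix.fromBlocks_inj.1 h1).2.2.2

theorem FxA.formT {d : Matrix (Fin w) (Fin w) ℂ} {a : Matrix (Fin n) (Fin n) ℂ}
    (hP : FxA 𝒜 (fromBlocks a 0 0 d)) {M : Matrix (Fin n) (Fin n) ℚ}
    (hM : bf (fromBlocks M 0 0 0) ∈ 𝒜 (Fin 2)) : aᵀ * mC M * a = mC M := by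
  have h1 := pl_bf (hP _ _ hM)
  rw [map_fb, Matrix.fromBlocks_transpose, Matrix.fromBlocks_multiply,
    Matrix.fromBlocks_multiply] at h1
  simp only [Matrix.mul_zero, Matrix.zero_mul, add_zero, zero_add, Matrix.transpose_zero] at h1
  exact (Matrix.fromBlocks_inj.1 h1).1

end

end Pool.Agent.L5helper24.KM
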