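import Pool.Agent.L5helper24.KM.Struct
import Pool.Agent.L5helper24.KS.Cls

/-!
# Classes in `T ⊗ H^1 ⊗ H^1`
-/

set_option autoImplicit false
set_option linter.unusedSectionVars false

open Matrix Finset Module

namespace Pool.Agent.L5helper24.KM

open Pool.Agent Pool.Agent.W544.PG Pool.Agent.L5helper24.KS

noncomputable section

variable {n q : ℕ} {κ : Type} [Fintype κ] [DecidableEq κ]

variable {L : Submodule ℂ (Matrix (Fin n) (Fin n) ℂ × Matrix κ κ ℂ)}
    {M M' : Matrix κ κ ℂ} {Q x : Matrix (Fin n) (Fin n) ℂ} {o o' : Fin n → ℂ}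
    {v : Fin q → Fin n → ℂ} {y : Matrix κ κ ℂ}
    {R y' : Matrix κ κ ℂ} {E F : Fin q → Matrix κ κ ℂ} {s : ℂ}

theorem Img.clif (h : KM.Img L Q x o o' v y R y' E F) (hq : 0 < q) (hs : s * s = 2) :
    Clif (proj R) (gen s R E F) := by
  have : Nonempty (Fin q) := ⟨⟨0, hq⟩⟩
  exact ⟨h.rel.pp, h.rel.pgen, h.rel.genp, h.rel.gen_sq hs, h.rel.gen_anti⟩

section
variable {J : (Fin n → ℂ) →ₗ[ℂ] Matrix κ κ ℂ}

theorem Img.class_rel (h : KM.Img L Q x o o' v y R y' E F) (hfr : Fr Q x o o' v) (hq : 0 < q)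
    (hs : s * s = 2) (hJ : Eqv L J) :
    (proj R)ᵀ * J (o - o') = J (o - o') ∧ J (o - o') * proj R = J (o - o') ∧
    (∀ k, (gen s R E F k)ᵀ * J (o - o') = J (o - o') * gen s R E F k) ∧
    J (o + o') = -(J (o - o') * gen s R E F none) ∧
    ∀ i, J (v i) = -((1 / s) • (J (o - o') * gen s R E F (some i))) := by
  have hc := h.clif hq hs
  have hs0 : s ≠ 0 := by rintro rfl; norm_num at hs
  obtain ⟨m, hm⟩ : ∃ m, m = J (o - o') := ⟨_, rfl⟩
  -- the relations for `R`
  have r1 : J (o + o') = -(Rᵀ * m + m * R) := by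
    have := hJ.eq _ _ h.mR.1 (o - o')
    rw [hfr.xf, add_assoc, ← hm] at this
    exact eq_neg_of_add_eq_zero_left this
  have r2 : m = -(Rᵀ * J (o + o') + J (o + o') * R) := by
    have := hJ.eq _ _ h.mR.1 (o + o')
    rw [hfr.xe, add_assoc, ← hm] at this
    exact eq_neg_of_add_eq_zero_left this
  have r3 : ∀ i, (2 : ℂ) • J (v i) = -((E i + F i)ᵀ * m + m * (E i + F i)) := by
    intro i
    have := hJ.eq _ _ (L.add_mem (h.mE i).1 (h.mF i).1) (o - o')
    rw [hfr.af, map_smul, add_assoc, ← hm] at this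
    exact eq_neg_of_add_eq_zero_left this
  have r4 : ∀ i, m = -((E i + F i)ᵀ * J (v i) + J (v i) * (E i + F i)) := by
    intro i
    have := hJ.eq _ _ (L.add_mem (h.mE i).1 (h.mF i).1) (v i)
    rw [hfr.av, add_assoc, ← hm] at this
    exact eq_neg_of_add_eq_zero_left this
  have key : ∀ k, (4 : ℂ) • m = (proj R)ᵀ * m +
      (2 : ℂ) • ((gen s R E F k)ᵀ * m * gen s R E F k) + m * proj R := by
    intro k
    cases k with
    | none =>
      have e1 : (proj R)ᵀ = (4 : ℂ) • (Rᵀ * Rᵀ) := by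
        rw [proj, Matrix.transpose_smul, Matrix.transpose_mul]
      rw [e1, proj, gen, Matrix.transpose_smul]
      calc (4 : ℂ) • m = (4 : ℂ) • -(Rᵀ * J (o + o') + J (o + o') * R) := by rw [← r2]
        _ = _ := by
          rw [r1]
          simp only [mul_neg, neg_mul, mul_add, add_mul, smul_mul_assoc, mul_smul_comm,
            mul_assoc]
          module
    | some i =>
      obtain ⟨A, hA⟩ : ∃ A, A = E i + F i := ⟨_, rfl⟩
      have e0 : proj R = (2 : ℂ) • (A * A) := by
        rw [← hc.sq (some i), gen, smul_mul_assoc, mul_smul_comm, smul_smul, hs, hA]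
      have e1 : (proj R)ᵀ = (2 : ℂ) • (Aᵀ * Aᵀ) := by
        rw [e0, Matrix.transpose_smul, Matrix.transpose_mul]
      rw [e1, e0, gen, Matrix.transpose_smul, ← hA]
      have r3' := r3 i
      have r4' := r4 i
      rw [← hA] at r3' r4'
      calc (4 : ℂ) • m = -(2 : ℂ) • (Aᵀ * ((2 : ℂ) • J (v i)) + ((2 : ℂ) • J (v i)) * A) := by
            nth_rewrite 1 [r4']
            simp only [smul_mul_assoc, mul_smul_comm]
            module
        _ = (2 : ℂ) • (Aᵀ * Aᵀ * m) + (2 * (2 : ℂ)) • (Aᵀ * m * A) +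
              (2 : ℂ) • (m * (A * A)) := by
            rw [r3']
            simp only [mul_neg, neg_mul, mul_add, add_mul, mul_assoc]
            module
        _ = _ := by
          nth_rewrite 2 [← hs]
          simp only [smul_mul_assoc, mul_smul_comm, mul_assoc]
          module
  have h1 := fun k => core_eq (hc.ae k) (hc.sq k) hc.ee (key k)
  rw [← hm]
  refine ⟨(h1 none).1, (h1 none).2.1, fun k => (h1 k).2.2, ?_, fun i => ?_⟩
  · have h2 := (h1 none).2.2
    rw [gen, Matrix.transpose_smul, smul_mul_assoc, mul_smul_comm] at h2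
    have h3 := congrArg (fun A => (1 / 2 : ℂ) • A) h2
    simp only [smul_smul] at h3
    norm_num at h3
    rw [r1, h3, gen, mul_smul_comm]
    module
  · have h2 := (h1 (some i)).2.2
    rw [gen, Matrix.transpose_smul, smul_mul_assoc, mul_smul_comm] at h2
    have h3 := congrArg (fun A => (s⁻¹ : ℂ) • A) h2
    simp only [smul_smul, inv_mul_cancel₀ hs0, one_smul] at h3
    have h4 := r3 i
    rw [h3] at h4
    have h5 : J (v i) = (1 / 2 : ℂ) • ((2 : ℂ) • J (v i)) := by
      rw [smul_smul]; norm_num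
    rw [h5, h4, gen, mul_smul_comm, smul_smul (1 / s), one_div_mul_cancel hs0]
    module

theorem Img.J_eq (h : KM.Img L Q x o o' v y R y' E F) (hfr : Fr Q x o o' v) (hq : 0 < q)
    (hs : s * s = 2) (hJ : Eqv L J) (u : Fin n → ℂ) :
    J u = J (o - o') * dd Q o o' v s R E F u := by
  obtain ⟨-, -, -, h1, h2⟩ := h.class_rel hfr hq hs hJ
  have h3 : J o = (1 / 2 : ℂ) • J (o + o') + (1 / 2 : ℂ) • J (o - o') := by
    rw [← map_smul, ← map_smul, ← map_add]
    congr 1
    module
  have h4 : J o' = (1 / 2 : ℂ) • J (o + o') - (1 / 2 : ℂ) • J (o - o') := by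
    rw [← map_smul, ← map_smul, ← map_sub]
    congr 1
    module
  conv_lhs => rw [hfr.full u]
  rw [map_add, map_add, map_smul, map_smul, map_sum, h3, h4, h1, dd, mul_sub, mul_sub,
    mul_smul_comm, mul_smul_comm, mul_one, Finset.mul_sum, sub_eq_add_neg _ (∑ i, _),
    ← Finset.sum_neg_distrib]
  congr 1
  · module
  · refine Finset.sum_congr rfl fun i _ => ?_
    rw [map_smul, h2, mul_smul_comm]
    module

end

end

end Pool.Agent.L5helper24.KM
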