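import Pool.Agent.L5helper24.KM.Surj

/-!
# The projectors to the parts of the abelian variety on which the pieces act
-/

set_option autoImplicit false
set_option linter.unusedSectionVars false

open Matrix Finset Module

namespace Pool.Agent.L5helper24.KM

open Pool.Agent Pool.Agent.W544.PG Pool.Agent.L5helper24.KS

noncomputable section

section
variable {A ι ι₂ : Type} [Ring A] [Algebra ℂ A] {y R y' : A} {E F : ι → A}
  {R₂ y₂' : A} {E₂ F₂ : ι₂ → A}

theorem half_neg {X Y : A} (h1 : X = (1 / 2 : ℂ) • Y) (h2 : X = -((1 / 2 : ℂ) • Y)) : Y = 0 := by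
  have h3 : X = -X := by
    nth_rewrite 2 [h1]
    exact h2
  have h4 := Rel.two_cancel h3
  have h5 : Y = (2 : ℂ) • (1 / 2 : ℂ) • Y := by
    rw [smul_smul]; norm_num
  rw [h5, ← h1, h4, smul_zero]

theorem rel_orthog [Nonempty ι] [Nonempty ι₂] (h : Rel y R y' E F) (h₂ : Rel y R₂ y₂' E₂ F₂)
    (cE : ∀ i, R * E₂ i = E₂ i * R) (cF : ∀ i, R * F₂ i = F₂ i * R) : R * R₂ = 0 := by
  have hy1 : y * R = R * R := by
    rw [h.dec, add_mul, h.y'R, add_zero]
  have hy2 : R * y = R * R := by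
    rw [h.dec, mul_add, h.Ry', add_zero]
  have e1 : ∀ i, R * E₂ i = 0 := by
    intro i
    apply half_neg (X := R * R * E₂ i)
    · calc R * R * E₂ i = y * (R * E₂ i) := by rw [← hy1, mul_assoc]
        _ = (1 / 2 : ℂ) • (R * E₂ i) := by
          rw [cE, ← mul_assoc, h₂.yE, smul_mul_assoc]
    · calc R * R * E₂ i = E₂ i * R * y := by
            rw [mul_assoc, cE, ← mul_assoc, cE, mul_assoc, ← hy2, mul_assoc]
        _ = -((1 / 2 : ℂ) • (R * E₂ i)) := by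
          rw [← cE, mul_assoc, h₂.Ey, mul_neg, mul_smul_comm]
  have e2 : ∀ i, R * F₂ i = 0 := by
    intro i
    apply half_neg (X := R * R * F₂ i)
    · calc R * R * F₂ i = F₂ i * R * y := by
            rw [mul_assoc, cF, ← mul_assoc, cF, mul_assoc, ← hy2, mul_assoc]
        _ = (1 / 2 : ℂ) • (R * F₂ i) := by
          rw [← cF, mul_assoc, h₂.Fy, mul_smul_comm]
    · calc R * R * F₂ i = y * (R * F₂ i) := by rw [← hy1, mul_assoc]
        _ = -((1 / 2 : ℂ) • (R * F₂ i)) := by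
          rw [cF, ← mul_assoc, h₂.yF, neg_mul, smul_mul_assoc]
  obtain ⟨i⟩ := ‹Nonempty ι₂›
  rw [← h₂.EF i, mul_sub, ← mul_assoc, ← mul_assoc, e1, e2, zero_mul, zero_mul, sub_zero]

end

variable {n w r : ℕ} {T : HS n} {W : HW w} {c : Fin n → Fin r}

theorem LL_adj {M M' : Matrix (Fin w) (Fin w) ℂ} (left : M * M' = 1)
    (right : M' * M = 1) (hS : Mᴴ * M = SS W) : IsAdj (LL T W) M M' := by
  refine ⟨left, right, fun V hV => ?_⟩
  have h1 := LL_star hV
  have h2 : (0 : Matrix (Fin n) (Fin n) ℂ).map (starRingEnd ℂ) = 0 := by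
    ext i j; simp
  rw [h2, mul_zero, zero_mul, neg_zero] at h1
  rw [star_eq W left right hS (LL_skewW hV)]
  convert h1 using 2
  rw [cc]
  simp only [neg_smul, smul_mul_assoc, neg_mul, neg_neg]

/-- a matrix fixed by all automorphisms is rational -/
theorem exists_rat {m : ℕ} {P : Matrix (Fin m) (Fin m) ℂ} (h : ∀ σ : ℂ ≃+* ℂ, P.map σ = P) :
    ∃ P' : Matrix (Fin m) (Fin m) ℚ, P = mC P' := by
  have h1 : ∀ a b, ∃ z : ℚ, P a b = z := by
    intro a b
    by_contra hcon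
    push Not at hcon
    obtain ⟨σ, hσ⟩ := Pool.Agent.W437.HD.exists_move hcon
    exact hσ (congrFun (congrFun (h σ) a) b)
  choose f hf using h1
  exact ⟨Matrix.of f, by ext a b; rw [hf]; rfl⟩

/-- the data of a sum of pieces -/
structure Ctx (T : HS n) (c : Fin n → Fin r) (W : HW w) where
  k : Fin r → ℕ
  e : ∀ i, Fin (k i) → Fin n
  T' : ∀ i, HS (k i)
  bQ : BD c T.Q
  bx : BD c T.x
  blk : ∀ i, Blk T c i (e i) (T' i)
  surj : ∀ Z : Matrix (Fin n) (Fin n) ℂ, Zᵀ * mC T.Q + mC T.Q * Z = 0 → BD c Z →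
    ∃ V, (Z, V) ∈ LL T W
  typ : ∀ i, (((T' i).x * (T' i).x).trace = 2 ∧ 3 ≤ k i) ∨
    ∀ y : Matrix (Fin (k i)) (Fin (k i)) ℂ, yᵀ * mC (T' i).Q + mC (T' i).Q * y = 0 →
      (bk (e i) y, (0 : Matrix (Fin w) (Fin w) ℂ)) ∈ LL T W

theorem mem_LB' {k : ℕ} {e : Fin k → Fin n} {Z : Matrix (Fin k) (Fin k) ℂ}
    {V : Matrix (Fin w) (Fin w) ℂ} : (Z, V) ∈ LB T W e ↔ (bk e Z, V) ∈ LL T W := Iff.rfl

theorem mem_orth' {k : ℕ} {e : Fin k → Fin n} {Z : Matrix (Fin k) (Fin k) ℂ}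
    {V : Matrix (Fin w) (Fin w) ℂ} :
    (Z, V) ∈ orth (LB T W e) ↔ (bk e Z, V) ∈ orth (LL T W) :=
  mem_orth_LB (P := (Z, V))

variable (C : Ctx T c W)

/-- the projector to the part on which a piece acts -/
structure PD (i : Fin r) (P : Matrix (Fin w) (Fin w) ℚ) (R : Matrix (Fin w) (Fin w) ℂ) : Prop where
  ee : mC P * mC P = mC P
  eV : ∀ Z V, (Z, V) ∈ orth (LB T W (C.e i)) → mC P * V = V ∧ V * mC P = V
  ye : W.y * mC P = R
  ey : mC P * W.y = R
  mR : ((C.T' i).x, R) ∈ orth (LB T W (C.e i))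
  RR : (4 : ℂ) • (R * R) = mC P

variable {C}

theorem x_skew {m : ℕ} (T' : HS m) : T'.xᵀ * mC T'.Q + mC T'.Q * T'.x = 0 := T'.skew

/-- the projector in the case of a piece of K3 type -/
theorem pd_of_setup {i : Fin r} (U : Setup (LB T W (C.e i)) (C.T' i) W) :
    ∃ P : Matrix (Fin w) (Fin w) ℚ, mC P = U.e ∧ PD C i P U.R := by
  have hne : Nonempty (Fin (C.k i - 2)) := ⟨⟨0, U.hq⟩⟩
  have hrat : ∀ σ : ℂ ≃+* ℂ, U.e.map σ = U.e := by
    intro σ
    have hQ : (mC (C.T' i).Q).map σ = mC (C.T' i).Q := by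
      ext a b; simp [mC]
    have hfr := U.fr.map σ hQ
    have hsq : (4 : ℂ) • (W.y.map σ * W.y.map σ) = 1 := by
      have h1 := congrArg (fun A : Matrix (Fin w) (Fin w) ℂ => A.map σ) W.sq
      rw [← map_mul'']
      ext a b
      have h2 := congrFun (congrFun h1 a) b
      simp only [Matrix.map_apply, Matrix.smul_apply, smul_eq_mul, map_mul] at h2 ⊢
      have h3 : σ 4 = 4 := map_ofNat σ 4
      rw [h3] at h2
      rw [h2, Matrix.one_apply]
      split_ifs <;> simp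
    obtain ⟨R₁, y₁', E₁, F₁, h₁⟩ := U.hL.exists_img hfr hsq (U.pr.conj σ)
    have h2 := U.img.proj_eq h₁ U.hL U.fr hfr U.hq
    have h3 : ((C.T' i).x.map σ, U.R.map σ) ∈ orth (LB T W (C.e i)) := by
      apply mem_orth'.2
      have h4 := orth_map (mem_orth'.1 U.img.mR) σ
      change ((bk (C.e i) (C.T' i).x).map σ, U.R.map σ) ∈ _ at h4
      rwa [bk_map] at h4
    have h5 := U.hL.adj.unique h₁.mR h3
    rw [h5] at h2
    have h6 : (proj U.R).map σ = proj (U.R.map σ) := by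
      have h7 : U.R.map σ * U.R.map σ = (U.R * U.R).map σ := (map_mul'' σ _ _).symm
      rw [proj, proj, h7]
      ext a b
      rw [Matrix.map_apply, Matrix.smul_apply, Matrix.smul_apply, smul_eq_mul, smul_eq_mul,
        map_mul, map_ofNat, Matrix.map_apply]
    rw [Setup.e, h6, h2]
  obtain ⟨P, hP⟩ := exists_rat hrat
  refine ⟨P, hP.symm, ?_, ?_, ?_, ?_, U.img.mR, ?_⟩
  · rw [← hP]; exact U.clif.ee
  · intro Z V h
    rw [← hP]
    exact U.img.proj_mul U.hL U.fr U.hq h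
  · rw [← hP]
    calc W.y * U.e = (U.R + U.y') * proj U.R := by rw [← U.img.rel.dec]; rfl
      _ = U.R := by rw [add_mul, U.img.rel.Rp, U.img.rel.y'p, add_zero]
  · rw [← hP]
    calc U.e * W.y = proj U.R * (U.R + U.y') := by rw [← U.img.rel.dec]; rfl
      _ = U.R := by rw [mul_add, U.img.rel.pR, U.img.rel.py', add_zero]
  · rw [← hP]; rfl

theorem mC_zero {m : ℕ} : mC (0 : Matrix (Fin m) (Fin m) ℚ) = 0 := by
  ext a b; simp [mC]

/-- the projector in the other case -/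
theorem pd_zero {i : Fin r} (h : ∀ y : Matrix (Fin (C.k i)) (Fin (C.k i)) ℂ,
    yᵀ * mC (C.T' i).Q + mC (C.T' i).Q * y = 0 →
      (bk (C.e i) y, (0 : Matrix (Fin w) (Fin w) ℂ)) ∈ LL T W) : PD C i 0 0 := by
  have h0 : ∀ y : Matrix (Fin (C.k i)) (Fin (C.k i)) ℂ,
      yᵀ * mC (C.T' i).Q + mC (C.T' i).Q * y = 0 →
      (y, (0 : Matrix (Fin w) (Fin w) ℂ)) ∈ orth (LB T W (C.e i)) := by
    intro y hy
    refine ⟨mem_LB'.2 (h y hy), fun V' _ => ?_⟩
    rw [Matrix.zero_mul, Matrix.trace_zero]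
  obtain ⟨M, M', left, right, hS⟩ := exists_M W
  have hadj : IsAdj (LL T W) M M' := LL_adj left right hS
  refine ⟨?_, ?_, ?_, ?_, ?_, ?_⟩
  · rw [mC_zero, mul_zero]
  · intro Z V hZ
    have hZ' : (bk (C.e i) Z, V) ∈ LL T W := mem_LB'.1 hZ.1
    have h1 := h0 Z (of_bk_skew C.bQ (C.blk i) (LL_skew hZ'))
    have h3 : V = 0 := hadj.unique (mem_orth'.1 hZ) (mem_orth'.1 h1)
    rw [h3, mul_zero, zero_mul]
    exact ⟨rfl, rfl⟩
  · rw [mC_zero, mul_zero]
  · rw [mC_zero, zero_mul]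
  · exact h0 _ (x_skew _)
  · rw [mC_zero, mul_zero, smul_zero]

/-- pieces with different indices commute -/
theorem blocks_comm {i j : Fin r} (hij : i ≠ j) {Z : Matrix (Fin (C.k i)) (Fin (C.k i)) ℂ}
    {V : Matrix (Fin w) (Fin w) ℂ} (h : (Z, V) ∈ orth (LB T W (C.e i)))
    {Z' : Matrix (Fin (C.k j)) (Fin (C.k j)) ℂ}
    {V' : Matrix (Fin w) (Fin w) ℂ} (h' : (Z', V') ∈ orth (LB T W (C.e j))) :
    V * V' = V' * V := by
  obtain ⟨M, M', left, right, hS⟩ := exists_M W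
  have hadj : IsAdj (LL T W) M M' := LL_adj left right hS
  have h1 := orth_ideal LL_lie (mem_orth'.1 h).1 (mem_orth'.1 h')
  have h2 : (bk (C.e i) Z * bk (C.e j) Z' - bk (C.e j) Z' * bk (C.e i) Z, V * V' - V' * V) ∈
      orth (LL T W) := h1
  rw [bk_ne (C.blk i).en (C.blk j).en hij, bk_ne (C.blk j).en (C.blk i).en hij.symm,
    sub_zero] at h2
  exact sub_eq_zero.1 (hadj.eq_zero h2.1 h2.2)

theorem orth_zero {i : Fin r} {P : Matrix (Fin w) (Fin w) ℚ} {R : Matrix (Fin w) (Fin w) ℂ}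
    (h : PD C i P R) (hR : R = 0) : P = 0 := by
  have h1 := h.RR
  rw [hR, mul_zero, smul_zero] at h1
  ext a b
  have h2 := congrFun (congrFun h1 a) b
  simp only [mC, Matrix.zero_apply, Matrix.map_apply] at h2 ⊢
  exact_mod_cast h2.symm

/-- the choice of the projectors -/
theorem exists_pd (C : Ctx T c W) : ∃ (P : Fin r → Matrix (Fin w) (Fin w) ℚ)
    (R : Fin r → Matrix (Fin w) (Fin w) ℂ), (∀ i, PD C i (P i) (R i)) ∧
    (∀ i j, i ≠ j → mC (P i) * mC (P j) = 0) ∧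
    ∀ i, (∃ U : Setup (LB T W (C.e i)) (C.T' i) W, mC (P i) = U.e) ∨ P i = 0 := by
  have h0 : ∀ i, ∃ (P : Matrix (Fin w) (Fin w) ℚ) (R : Matrix (Fin w) (Fin w) ℂ), PD C i P R ∧
      ((∃ U : Setup (LB T W (C.e i)) (C.T' i) W, mC P = U.e ∧ R = U.R) ∨ P = 0) := by
    intro i
    rcases C.typ i with h | h
    · obtain ⟨U⟩ := exists_setup (LB_pr C.bQ C.bx (C.blk i) C.surj) h.1 h.2
      obtain ⟨P, h1, h2⟩ := pd_of_setup U
      exact ⟨P, U.R, h2, Or.inl ⟨U, h1, rfl⟩⟩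
    · exact ⟨0, 0, pd_zero h, Or.inr rfl⟩
  choose P R hP hU using h0
  refine ⟨P, R, hP, ?_, ?_⟩
  · intro i j hij
    rcases hU i with ⟨U, h1, h2⟩ | h1
    · rcases hU j with ⟨U', h1', h2'⟩ | h1'
      · have hne : Nonempty (Fin (C.k i - 2)) := ⟨⟨0, U.hq⟩⟩
        have hne' : Nonempty (Fin (C.k j - 2)) := ⟨⟨0, U'.hq⟩⟩
        have h3 : U.R * U'.R = 0 := rel_orthog U.img.rel U'.img.rel
          (fun a => blocks_comm hij U.img.mR (U'.img.mE a))
          (fun a => blocks_comm hij U.img.mR (U'.img.mF a))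
        rw [h1, h1', Setup.e, Setup.e, proj, proj, smul_mul_assoc, mul_smul_comm]
        have h4 : U.R * U.R * (U'.R * U'.R) = 0 := by
          rw [mul_assoc, ← mul_assoc U.R U'.R, h3, zero_mul, mul_zero]
        rw [h4, smul_zero, smul_zero]
      · rw [h1', mC_zero, mul_zero]
    · rw [h1, mC_zero, zero_mul]
  · intro i
    rcases hU i with ⟨U, h1, -⟩ | h1
    · exact Or.inl ⟨U, h1⟩
    · exact Or.inr h1

end

end Pool.Agent.L5helper24.KM
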