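import Pool.Agent.L5helper24.KM.Asm3

/-!
# The theorem for sums of pieces with small endomorphism algebras
-/

set_option autoImplicit false
set_option linter.unusedSectionVars false
set_option linter.unusedSimpArgs false

open Matrix Finset Module

namespace Pool.Agent.L5helper24.KM

open Pool.Agent Pool.Agent.W544.PG Pool.Agent.L5helper24.KS Pool.Agent.W216.PG.SOI

noncomputable section

section
variable {n w : ℕ} {T : HS n} {W : HW w}
  {L : Submodule ℂ (Matrix (Fin n) (Fin n) ℂ × Matrix (Fin w) (Fin w) ℂ)}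

/-- the unit acts trivially on the values of the classes -/
theorem Setup.J_e (U : Setup L T W) {J : (Fin n → ℂ) →ₗ[ℂ] Matrix (Fin w) (Fin w) ℂ}
    (hJ : Eqv L J) (u : Fin n → ℂ) : J u * U.e = J u := by
  have h1 := U.img.J_eq U.fr U.hq U.hs hJ u
  obtain ⟨-, h2, -, -, -⟩ := U.img.class_rel U.fr U.hq U.hs hJ
  have h3 : ∀ k, gen U.s U.R U.E U.F k * U.e = gen U.s U.R U.E U.F k := U.clif.ae
  obtain ⟨m, hm⟩ : ∃ m, m = J (U.o - star U.o) := ⟨_, rfl⟩
  have h2' : m * U.e = m := by rw [hm]; exact h2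
  rw [h1, ← hm, mul_assoc]
  rw [dd, sub_mul, sub_mul, smul_mul_assoc, one_mul, smul_mul_assoc, h3, Finset.sum_mul]
  have h4 : ∑ i, (bb (mC T.Q) (U.v i) u / U.s) • gen U.s U.R U.E U.F (some i) * U.e =
      ∑ i, (bb (mC T.Q) (U.v i) u / U.s) • gen U.s U.R U.E U.F (some i) := by
    refine Finset.sum_congr rfl fun i _ => ?_
    rw [smul_mul_assoc, h3]
  have h5 : ∀ z : ℂ, m * z • U.e = m * z • (1 : Matrix (Fin w) (Fin w) ℂ) := by
    intro z
    rw [mul_smul_comm, mul_smul_comm, h2', mul_one]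
  rw [h4, mul_sub, mul_sub, h5, mul_sub, mul_sub]

end

variable {n w r : ℕ} {T : HS n} {W : HW w} {c : Fin n → Fin r} {p q : Fin r → ℕ}
  {𝒜 : ∀ κ : Type, Submodule ℚ ((κ → Fin n ⊕ Fin w) → ℚ)}

section
variable {C : Ctx T c W} {i : Fin r} {P : Matrix (Fin w) (Fin w) ℚ}
  {R : Matrix (Fin w) (Fin w) ℂ}

theorem PD.eq_e (h : PD C i P R) (U : Setup (LB T W (C.e i)) (C.T' i) W) : mC P = U.e := by
  have h1 : R = U.R := U.hL.adj.unique h.mR U.img.mR
  rw [← h.RR, h1]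
  rfl

theorem PD.zero_of (h : PD C i P R)
    (hx : (bk (C.e i) (C.T' i).x, (0 : Matrix (Fin w) (Fin w) ℂ)) ∈ LL T W) : P = 0 := by
  obtain ⟨M, M', left, right, hS⟩ := exists_M W
  have hadj : IsAdj (LL T W) M M' := LL_adj left right hS
  have h1 : (bk (C.e i) (C.T' i).x, (0 : Matrix (Fin w) (Fin w) ℂ)) ∈ orth (LL T W) := by
    refine ⟨hx, fun V' _ => ?_⟩
    rw [Matrix.zero_mul, Matrix.trace_zero]
  exact orth_zero h (hadj.unique (mem_orth'.1 h.mR) h1)

/-- equivariant maps from a piece which does not act on the abelian variety vanish -/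
theorem J_zero (hk : 2 ≤ C.k i) (h : ∀ y : Matrix (Fin (C.k i)) (Fin (C.k i)) ℂ,
    yᵀ * mC (C.T' i).Q + mC (C.T' i).Q * y = 0 →
      (bk (C.e i) y, (0 : Matrix (Fin w) (Fin w) ℂ)) ∈ LL T W)
    {J : (Fin (C.k i) → ℂ) →ₗ[ℂ] Matrix (Fin w) (Fin w) ℂ} (hJ : Eqv (LB T W (C.e i)) J)
    (a : Fin (C.k i) → ℂ) : J a = 0 := by
  have hsym : (mC (C.T' i).Q)ᵀ = mC (C.T' i).Q := by rw [W544.PG.mC_T, (C.T' i).symm]
  obtain ⟨Q, hQ⟩ : ∃ Q, Q = mC (C.T' i).Q := ⟨_, rfl⟩
  obtain ⟨Qi, hQi⟩ : ∃ Qi, Qi = mC (C.T' i).Q⁻¹ := ⟨_, rfl⟩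
  have e1 : Q * Qi = 1 := by rw [hQ, hQi, ← mC_mul, (Q_inv (C.T' i)).2, mC1]
  have e2 : Qi * Q = 1 := mul_eq_one_comm.1 e1
  rw [← hQ] at hsym
  have h1 : ∀ a b u : Fin (C.k i) → ℂ, bb Q b u • J a = bb Q a u • J b := by
    intro a b u
    have h2 := hJ.eq _ _ (mem_LB'.2 (h (wd Q a b) (by rw [← hQ]; exact wd_skew hsym a b))) u
    rw [Matrix.transpose_zero, Matrix.zero_mul, Matrix.mul_zero, add_zero, add_zero,
      wd_mulVec hsym, map_sub, map_smul, map_smul] at h2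
    exact sub_eq_zero.1 h2
  have h3 : ∀ l : Fin (C.k i), J a = (Q *ᵥ a) l • J (Qi *ᵥ Pi.single l 1) := by
    intro l
    have h4 := h1 a (Qi *ᵥ Pi.single l 1) (Pi.single l 1)
    have h5 : bb Q (Qi *ᵥ Pi.single l 1) (Pi.single l 1) = 1 := by
      rw [bb_comm hsym, bb, Matrix.mulVec_mulVec, e1, Matrix.one_mulVec]
      simp
    have h6 : bb Q a (Pi.single l 1) = (Q *ᵥ a) l := by
      rw [bb_comm hsym, bb]
      simp
    rwa [h5, one_smul, h6] at h4
  have h7 : (C.k i : ℂ) • J a = J a := by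
    calc (C.k i : ℂ) • J a = ∑ _l : Fin (C.k i), J a := by
          rw [Finset.sum_const, Finset.card_univ, Fintype.card_fin, Nat.cast_smul_eq_nsmul]
      _ = ∑ l, (Q *ᵥ a) l • J (Qi *ᵥ Pi.single l 1) := Finset.sum_congr rfl fun l _ => h3 l
      _ = J (Qi *ᵥ ∑ l, (Q *ᵥ a) l • Pi.single l 1) := by
          rw [Matrix.mulVec_sum, map_sum]
          refine Finset.sum_congr rfl fun l _ => ?_
          rw [Matrix.mulVec_smul, map_smul]
      _ = J a := by
          have h8 : ∑ l, (Q *ᵥ a) l • (Pi.single l 1 : Fin (C.k i) → ℂ) = Q *ᵥ a := by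
            funext m
            simp [Finset.sum_apply, Pi.single_apply]
          rw [h8, Matrix.mulVec_mulVec, e2, Matrix.one_mulVec]
  have h9 : ((C.k i : ℂ) - 1) • J a = 0 := by rw [sub_smul, h7, one_smul, sub_self]
  refine (smul_eq_zero.1 h9).resolve_left ?_
  have h10 : (C.k i : ℂ) ≠ 1 := by
    have : C.k i ≠ 1 := by omega
    exact_mod_cast this
  exact sub_ne_zero.2 h10

end

/-- converse of `LL_kill` -/
theorem LL_of_kill {Z : Matrix (Fin n) (Fin n) ℂ} {V : Matrix (Fin w) (Fin w) ℂ}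
    (h : ∀ (κ : Type) [Fintype κ] [DecidableEq κ] (t : (κ → Fin n ⊕ Fin w) → ℚ), IsH T W t →
      der (fromBlocks Z 0 0 V) (fun J => (t J : ℂ)) = 0) : (Z, V) ∈ LL T W := by
  change NN 0 w Z V ∈ hX (xT T W 0)
  intro k t ht
  obtain ⟨t', ht'⟩ : ∃ t' : (Fin k → Fin n ⊕ Fin w) → ℚ,
    t' = fun J => t fun m => (fe n w).symm (J m) := ⟨_, rfl⟩
  have h0 : t = fun J => t' fun m => fe n w (J m) := by
    funext J
    rw [ht']
    simp
  have h1 : ∀ (X : Matrix (Fin n ⊕ Fin w) (Fin n ⊕ Fin w) ℂ)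
      (J : Fin k → (Fin 0 ⊕ Fin n) ⊕ Fin w), act (X.submatrix (fe n w) (fe n w)) (cx t) J =
      der X (fun J => (t' J : ℂ)) fun m => fe n w (J m) := by
    intro X J
    have h2 := act_der (fe n w) (Equiv.refl (Fin k)) X (fun J => (t' J : ℂ)) J
    refine Eq.trans ?_ h2
    congr 1
    rw [h0]
    rfl
  have h3 : IsH T W t' := by
    funext J
    have h4 := congrFun ht fun m => (fe n w).symm (J m)
    rw [xT_eq, NN_eq, h1] at h4
    have h5 : (fun m => fe n w ((fe n w).symm (J m))) = J := by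
      funext m
      simp
    rw [h5] at h4
    exact h4
  funext J
  rw [NN_eq, h1, h _ t' h3]
  rfl

theorem of_eq_bk (C : Ctx T c W) (i : Fin r) :
    (Matrix.of fun a b => if c a = i then T.x a b else 0) = bk (C.e i) (C.T' i).x := by
  have h1 : bk (C.e i) (C.T' i).x = bk (C.e i) (1 : Matrix (Fin (C.k i)) (Fin (C.k i)) ℂ) * T.x := by
    rw [bk_mul_bd (C.blk i).en C.bx, one_mul, (C.blk i).x]
  rw [h1]
  ext a b
  rw [Matrix.of_apply, Matrix.mul_apply, Finset.sum_eq_single a]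
  · rw [bk_one_apply (C.blk i).en]
    by_cases h : c a = i
    · rw [if_pos h, if_pos ⟨rfl, h⟩, one_mul]
    · rw [if_neg h, if_neg (fun h' => h h'.2), zero_mul]
  · intro x _ hx
    rw [bk_one_apply (C.blk i).en, if_neg (fun h' => hx h'.1.symm), zero_mul]
  · intro h
    exact absurd (Finset.mem_univ _) h

/-- the data for a sum of pieces -/
theorem exists_ctx (hB : T.Big c p q) (W : HW w) : ∃ C : Ctx T c W,
    (∀ i, p i = 1 → ((C.T' i).x * (C.T' i).x).trace = 2) ∧ (∀ i, 3 ≤ C.k i) ∧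
    ∀ i, 2 ≤ p i → ∀ y : Matrix (Fin (C.k i)) (Fin (C.k i)) ℂ,
      yᵀ * mC (C.T' i).Q + mC (C.T' i).Q * y = 0 →
      (bk (C.e i) y, (0 : Matrix (Fin w) (Fin w) ℂ)) ∈ LL T W := by
  choose e T' hb using fun i => exists_blk W571.PG.sub hB i
  have h1 : ∀ i, p i = 1 → ((T' i).x * (T' i).x).trace = 2 := by
    intro i hi
    rw [(hb i).trace hB, hi]
    norm_num
  have h3 : ∀ i, 3 ≤ 2 * p i + q i := by
    intro i
    rcases hB.num i with h | ⟨h0, h⟩
    · omega
    · have hlt : 2 * p i < q i := by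
        by_contra h'
        rw [Nat.sub_eq_zero_of_le (not_lt.1 h'), zero_mul] at h
        omega
      omega
  refine ⟨{ k := fun i => 2 * p i + q i, e := e, T' := T', bQ := hB.bQ, bx := hB.bx, blk := hb,
            surj := fun Z hZ hc => LL_surjB hB hZ hc, typ := ?_ }, h1, h3, ?_⟩
  · intro i
    by_cases hi : p i = 1
    · exact Or.inl ⟨h1 i hi, h3 i⟩
    · refine Or.inr fun y hy => LL_big hB ?_ (hb i) hy
      rcases hB.num i with h | ⟨h0, -⟩
      · exact absurd h.1 hi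
      · omega
  · intro i hi y hy
    exact LL_big hB hi (hb i) hy

/-- **All Hodge classes belong to the system.** -/
theorem all_hodge (hB : T.Big c p q) (hsys : IsSys T W 𝒜)
    (hpol : ∀ i, bf (fromBlocks (Qb T c i) 0 0 0) ∈ 𝒜 (Fin 2))
    (hend : ∀ D : Matrix (Fin w) (Fin w) ℚ, mC D * W.y = W.y * mC D →
      bf (fromBlocks 0 0 0 (W.E * D)) ∈ 𝒜 (Fin 2))
    (hcls : ∀ i, (∃ j : Fin n → Matrix (Fin w) (Fin w) ℚ, tri j ∈ 𝒜 (Fin 3) ∧
        (∀ a, c a ≠ i → j a = 0) ∧ j ≠ 0) ∨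
      ((2 ≤ p i ∨ ∀ (κ : Type) [Fintype κ] [DecidableEq κ] (t : (κ → Fin n ⊕ Fin w) → ℚ),
          IsH T W t → der (fromBlocks (Matrix.of fun a b => if c a = i then T.x a b else 0) 0 0 0)
            (fun J => (t J : ℂ)) = 0) ∧
        ∀ (k : ℕ) (e : Fin k → Fin n), Function.Injective e → (∀ a, c a = i ↔ ∃ l, e l = a) →
          dt w e ∈ 𝒜 (Fin k)))
    (hrest : ∀ D : Matrix (Fin w) (Fin w) ℚ, mC D * W.y = W.y * mC D →
      (∀ μ : Fin n → Matrix (Fin w) (Fin w) ℚ, IsHodgeMap T W μ → ∀ a, μ a * D = 0) →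
      ∀ (κ : Type) [Fintype κ] [DecidableEq κ] (t : (κ → Fin n ⊕ Fin w) → ℚ), IsH T W t →
        plv (fun _ => fromBlocks 0 0 0 D) t ∈ 𝒜 κ)
    {κ : Type} [Fintype κ] [DecidableEq κ] {t : (κ → Fin n ⊕ Fin w) → ℚ} (ht : IsH T W t) :
    t ∈ 𝒜 κ := by
  obtain ⟨C, hC1, hC3, hC2⟩ := exists_ctx hB W
  obtain ⟨P, R, hPD, hPo, -⟩ := exists_pd C
  -- the setups
  have hU : ∀ i, p i = 1 → Nonempty (Setup (LB T W (C.e i)) (C.T' i) W) := fun i hi =>
    exists_setup (LB_pr C.bQ C.bx (C.blk i) C.surj) (hC1 i hi) (hC3 i)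
  have hp : ∀ i, p i = 1 ∨ 2 ≤ p i := by
    intro i
    rcases hB.num i with h | ⟨h0, -⟩
    · exact Or.inl h.1
    · omega
  have heqv : ∀ {μ : Fin n → Matrix (Fin w) (Fin w) ℚ}, IsHodgeMap T W μ → ∀ i,
      Eqv (LB T W (C.e i)) (Jl fun b => μ (C.e i b)) := by
    intro μ hμ i
    refine ⟨fun Z V hZ u => ?_⟩
    have h2 := (Jl_eqv hμ).eq _ _ (mem_LB'.1 hZ) (sel (C.e i) *ᵥ u)
    rw [bk_mulVec (C.blk i).en.inj, Jl_sel, Jl_sel] at h2
    exact h2
  -- the values of the classes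
  have hval : ∀ {μ : Fin n → Matrix (Fin w) (Fin w) ℚ}, IsHodgeMap T W μ → ∀ i
      (b : Fin (C.k i)), mC (μ (C.e i b)) * mC (P i) = mC (μ (C.e i b)) := by
    intro μ hμ i b
    have h1 := heqv hμ i
    rw [← Jl_single (fun b => μ (C.e i b)) b]
    rcases hp i with hi | hi
    · obtain ⟨U⟩ := hU i hi
      rw [(hPD i).eq_e U]
      exact U.J_e h1 _
    · rw [J_zero (by have := hC3 i; omega) (hC2 i hi) h1, zero_mul]
  have hx : ∀ i, (2 ≤ p i ∨ ∀ (κ : Type) [Fintype κ] [DecidableEq κ]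
      (t : (κ → Fin n ⊕ Fin w) → ℚ), IsH T W t →
      der (fromBlocks (Matrix.of fun a b => if c a = i then T.x a b else 0) 0 0 0)
        (fun J => (t J : ℂ)) = 0) → P i = 0 := by
    intro i hi
    apply (hPD i).zero_of
    rcases hi with hi | hi
    · exact hC2 i hi _ (x_skew _)
    · rw [← of_eq_bk]
      exact LL_of_kill hi
  have H : Hyp C 𝒜 P R := by
    refine ⟨hsys, hpol, hend, hPD, hPo, ?_, ?_⟩
    · intro i
      rcases hcls i with ⟨j, h1, h2, h3⟩ | ⟨h1, h2⟩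
      · have hp1 : p i = 1 := by
          rcases hp i with hi | hi
          · exact hi
          · exfalso
            apply h3
            have h4 := hodge_tri (hsys.hodge _ _ h1)
            funext a
            by_cases ha : c a = i
            · obtain ⟨b, rfl⟩ := (C.blk i).en.surj a ha
              have h5 := J_zero (by have := hC3 i; omega) (hC2 i hi) (heqv h4 i) (Pi.single b 1)
              rw [Jl_single] at h5
              exact mC_eq_zero h5
            · exact h2 a ha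
        obtain ⟨U⟩ := hU i hp1
        exact Or.inl ⟨U, j, (hPD i).eq_e U, ⟨h1, h2, h3⟩⟩
      · refine Or.inr ⟨hx i h1, h2 _ _ (C.blk i).en.inj fun a => ⟨fun ha => ?_, ?_⟩⟩
        · exact (C.blk i).en.surj a ha
        · rintro ⟨l, rfl⟩
          exact (C.blk i).en.col l
    · intro κ _ _ t ht
      refine hrest _ ?_ ?_ κ t ht
      · rw [mC_subt, mC1, sub_mul, mul_sub, one_mul, mul_one, mC_sum, Finset.sum_mul,
          Finset.mul_sum]
        congr 1
        refine Finset.sum_congr rfl fun i _ => ?_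
        rw [(hPD i).ey, (hPD i).ye]
      · intro μ hμ a
        obtain ⟨b, hb⟩ := (C.blk (c a)).en.surj a rfl
        have h1 : mC (μ a) * mC (P (c a)) = mC (μ a) := by
          have := hval hμ (c a) b
          rwa [hb] at this
        apply mC_eq_zero
        rw [mC_mul, mC_subt, mC1, mul_sub, mul_one, mC_sum, Finset.mul_sum,
          Finset.sum_eq_single (c a), h1, sub_self]
        · intro i _ hi
          rw [← h1, mul_assoc, hPo _ _ hi.symm, mul_zero]
        · intro h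
          exact absurd (Finset.mem_univ _) h
  exact H.all ht

end

end Pool.Agent.L5helper24.KM
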