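import Pool.Agent.L5helper24.KM.Fin

/-!
# The Hodge classes fixed by a set of matrices
-/

set_option autoImplicit false
set_option linter.unusedSectionVars false
set_option linter.unusedSimpArgs false

open Matrix Finset Module

namespace Pool.Agent.L5helper24.KM

open Pool.Agent Pool.Agent.W544.PG Pool.Agent.L5helper24.KS Pool.Agent.W216.PG.SOI

noncomputable section

section forms
variable {ι κ l : Type} [Fintype ι] [DecidableEq ι] [Fintype κ] [DecidableEq κ]
  [Fintype l] [DecidableEq l]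

/-- the product of two forms -/
def ten {R : Type} [CommRing R] {ι κ l : Type} (t : (κ → ι) → R) (u : (l → ι) → R) :
    (κ ⊕ l → ι) → R :=
  fun J => (t fun k => J (Sum.inl k)) * u fun k => J (Sum.inr k)

/-- the contraction of the last two variables -/
def ctr {R : Type} [CommRing R] {ι κ : Type} [Fintype ι] (B : Matrix ι ι R)
    (t : (κ ⊕ Fin 2 → ι) → R) : (κ → ι) → R :=
  fun J => ∑ a, ∑ b, B a b * t (Sum.elim J ![a, b])

theorem pl_ten (P : Matrix ι ι ℂ) (t : (κ → ι) → ℂ) (u : (l → ι) → ℂ) :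
    pl P (ten t u) = ten (pl P t) (pl P u) := by
  funext J
  rw [pl, ten, pl, pl, ← Equiv.sum_comp (Equiv.sumArrowEquivProdArrow κ l ι).symm,
    Fintype.sum_prod_type, Finset.sum_mul_sum]
  refine Finset.sum_congr rfl fun K _ => Finset.sum_congr rfl fun L _ => ?_
  rw [Fintype.prod_sum_type]
  simp only [ten, Equiv.sumArrowEquivProdArrow, Equiv.coe_fn_symm_mk, Sum.elim_inl, Sum.elim_inr]
  ring

theorem upd_inl (J : κ ⊕ l → ι) (k : κ) (x : ι) :
    ((fun m => Function.update J (Sum.inl k) x (Sum.inl m)) =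
      Function.update (fun m => J (Sum.inl m)) k x) ∧
    ((fun m => Function.update J (Sum.inl k) x (Sum.inr m)) = fun m => J (Sum.inr m)) := by
  constructor
  · funext m
    by_cases h : m = k
    · subst h; simp
    · rw [Function.update_of_ne (fun h' => h (Sum.inl_injective h')), Function.update_of_ne h]
  · funext m
    rw [Function.update_of_ne (by simp)]

theorem upd_inr (J : κ ⊕ l → ι) (k : l) (x : ι) :
    ((fun m => Function.update J (Sum.inr k) x (Sum.inr m)) =
      Function.update (fun m => J (Sum.inr m)) k x) ∧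
    ((fun m => Function.update J (Sum.inr k) x (Sum.inl m)) = fun m => J (Sum.inl m)) := by
  constructor
  · funext m
    by_cases h : m = k
    · subst h; simp
    · rw [Function.update_of_ne (fun h' => h (Sum.inr_injective h')), Function.update_of_ne h]
  · funext m
    rw [Function.update_of_ne (by simp)]

theorem der_ten (X : Matrix ι ι ℂ) (t : (κ → ι) → ℂ) (u : (l → ι) → ℂ) :
    der X (ten t u) = ten (der X t) u + ten t (der X u) := by
  funext J
  rw [der, Fintype.sum_sum_type, Pi.add_apply]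
  simp only [ten, der]
  congr 1
  · rw [Finset.sum_mul]
    refine Finset.sum_congr rfl fun k _ => ?_
    rw [Finset.sum_mul]
    refine Finset.sum_congr rfl fun x _ => ?_
    rw [(upd_inl J k x).1, (upd_inl J k x).2]
    ring
  · rw [Finset.mul_sum]
    refine Finset.sum_congr rfl fun k _ => ?_
    rw [Finset.mul_sum]
    refine Finset.sum_congr rfl fun x _ => ?_
    rw [(upd_inr J k x).1, (upd_inr J k x).2]
    ring

/-- pairs as maps -/
def e2 (κ ι : Type) : (κ → ι) × (ι × ι) ≃ (κ ⊕ Fin 2 → ι) where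
  toFun x := Sum.elim x.1 ![x.2.1, x.2.2]
  invFun f := (fun k => f (Sum.inl k), (f (Sum.inr 0), f (Sum.inr 1)))
  left_inv _ := rfl
  right_inv f := by
    funext i
    rcases i with i | i
    · rfl
    · fin_cases i <;> rfl

theorem pl_ctr {P B : Matrix ι ι ℂ} (h : P * B * Pᵀ = B) (t : (κ ⊕ Fin 2 → ι) → ℂ) :
    pl P (ctr B t) = ctr B (pl P t) := by
  funext J
  have h1 : ∀ a b, B a b = ∑ c, ∑ d, P a c * B c d * P b d := by
    intro a b
    nth_rewrite 1 [← h]
    rw [Matrix.mul_apply]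
    simp only [Matrix.mul_apply, Matrix.transpose_apply, Finset.sum_mul]
    rw [Finset.sum_comm]
  calc pl P (ctr B t) J = ∑ K : κ → ι, ∑ a, ∑ b, ∑ c, ∑ d,
        (∏ k, P (K k) (J k)) * (P a c * B c d * P b d) * t (Sum.elim K ![a, b]) := by
        rw [pl]
        refine Finset.sum_congr rfl fun K _ => ?_
        rw [ctr, Finset.mul_sum]
        refine Finset.sum_congr rfl fun a _ => ?_
        rw [Finset.mul_sum]
        refine Finset.sum_congr rfl fun b _ => ?_
        rw [h1 a b, Finset.sum_mul, Finset.mul_sum]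
        refine Finset.sum_congr rfl fun c _ => ?_
        rw [Finset.sum_mul, Finset.mul_sum]
        refine Finset.sum_congr rfl fun d _ => ?_
        ring
    _ = ∑ c, ∑ d, ∑ K : κ → ι, ∑ a, ∑ b,
        (∏ k, P (K k) (J k)) * (P a c * B c d * P b d) * t (Sum.elim K ![a, b]) := by
        have s1 : ∀ (f : (κ → ι) → ι → ι → ι → ι → ℂ),
            ∑ K, ∑ a, ∑ b, ∑ c, ∑ d, f K a b c d = ∑ c, ∑ d, ∑ K, ∑ a, ∑ b, f K a b c d := by
          intro f
          calc ∑ K, ∑ a, ∑ b, ∑ c, ∑ d, f K a b c d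
              = ∑ K, ∑ a, ∑ c, ∑ b, ∑ d, f K a b c d :=
                Finset.sum_congr rfl fun K _ => Finset.sum_congr rfl fun a _ => Finset.sum_comm
            _ = ∑ K, ∑ c, ∑ a, ∑ b, ∑ d, f K a b c d :=
                Finset.sum_congr rfl fun K _ => Finset.sum_comm
            _ = ∑ c, ∑ K, ∑ a, ∑ b, ∑ d, f K a b c d := Finset.sum_comm
            _ = ∑ c, ∑ K, ∑ a, ∑ d, ∑ b, f K a b c d :=
                Finset.sum_congr rfl fun c _ => Finset.sum_congr rfl fun K _ =>
                  Finset.sum_congr rfl fun a _ => Finset.sum_comm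
            _ = ∑ c, ∑ K, ∑ d, ∑ a, ∑ b, f K a b c d :=
                Finset.sum_congr rfl fun c _ => Finset.sum_congr rfl fun K _ => Finset.sum_comm
            _ = ∑ c, ∑ d, ∑ K, ∑ a, ∑ b, f K a b c d :=
                Finset.sum_congr rfl fun c _ => Finset.sum_comm
        exact s1 _
    _ = ctr B (pl P t) J := by
        rw [ctr]
        refine Finset.sum_congr rfl fun c _ => Finset.sum_congr rfl fun d _ => ?_
        rw [pl, Finset.mul_sum, ← Equiv.sum_comp (e2 κ ι), Fintype.sum_prod_type]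
        refine Finset.sum_congr rfl fun K _ => ?_
        rw [Fintype.sum_prod_type]
        refine Finset.sum_congr rfl fun a _ => Finset.sum_congr rfl fun b _ => ?_
        rw [Fintype.prod_sum_type, Fin.prod_univ_two]
        simp only [e2, Equiv.coe_fn_mk, Sum.elim_inl, Sum.elim_inr, Matrix.cons_val_zero,
          Matrix.cons_val_one]
        ring

theorem der_ctr {X B : Matrix ι ι ℂ} (h : X * B + B * Xᵀ = 0) (t : (κ ⊕ Fin 2 → ι) → ℂ) :
    der X (ctr B t) = ctr B (der X t) := by
  funext J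
  have hu : ∀ (k : κ) (x a b : ι), Sum.elim (Function.update J k x) ![a, b] =
      Function.update (Sum.elim J ![a, b] : κ ⊕ Fin 2 → ι) (Sum.inl k) x := by
    intro k x a b
    funext m
    rcases m with m | m
    · by_cases hm : m = k
      · subst hm; simp
      · rw [Function.update_of_ne (fun h' => hm (Sum.inl_injective h')), Sum.elim_inl,
          Sum.elim_inl, Function.update_of_ne hm]
    · simp
  have h0 : ∀ (x a b : ι), Function.update (Sum.elim J ![a, b] : κ ⊕ Fin 2 → ι) (Sum.inr 0) x =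
      Sum.elim J ![x, b] := by
    intro x a b
    funext m
    rcases m with m | m
    · simp
    · fin_cases m
      · simp
      · simp [Function.update]
  have h1 : ∀ (x a b : ι), Function.update (Sum.elim J ![a, b] : κ ⊕ Fin 2 → ι) (Sum.inr 1) x =
      Sum.elim J ![a, x] := by
    intro x a b
    funext m
    rcases m with m | m
    · simp
    · fin_cases m
      · simp [Function.update]
      · simp
  have hz : ∀ a b, ∑ x, X a x * B x b + ∑ x, B a x * X b x = 0 := by
    intro a b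
    have := congrFun (congrFun h a) b
    rw [Matrix.add_apply, Matrix.mul_apply, Matrix.mul_apply] at this
    exact this
  calc der X (ctr B t) J = ∑ a, ∑ b, B a b * ∑ k, ∑ x, X x (J k) *
        t (Function.update (Sum.elim J ![a, b]) (Sum.inl k) x) := by
        simp only [der, ctr, Finset.mul_sum]
        have s1 : ∀ (f : κ → ι → ι → ι → ℂ),
            ∑ k, ∑ x, ∑ a, ∑ b, f k x a b = ∑ a, ∑ b, ∑ k, ∑ x, f k x a b := by
          intro f
          calc ∑ k, ∑ x, ∑ a, ∑ b, f k x a b = ∑ k, ∑ a, ∑ x, ∑ b, f k x a b :=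
                Finset.sum_congr rfl fun k _ => Finset.sum_comm
            _ = ∑ a, ∑ k, ∑ x, ∑ b, f k x a b := Finset.sum_comm
            _ = ∑ a, ∑ k, ∑ b, ∑ x, f k x a b :=
                Finset.sum_congr rfl fun a _ => Finset.sum_congr rfl fun k _ => Finset.sum_comm
            _ = ∑ a, ∑ b, ∑ k, ∑ x, f k x a b :=
                Finset.sum_congr rfl fun a _ => Finset.sum_comm
        rw [s1]
        refine Finset.sum_congr rfl fun a _ => Finset.sum_congr rfl fun b _ =>
          Finset.sum_congr rfl fun k _ => Finset.sum_congr rfl fun x _ => ?_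
        rw [hu]
        ring
    _ = ctr B (der X t) J := by
        have e1 : ∑ a, ∑ b, B a b * (∑ x, X x a * t (Sum.elim J ![x, b])) +
            ∑ a, ∑ b, B a b * (∑ x, X x b * t (Sum.elim J ![a, x])) = 0 := by
          have f1 : ∑ a, ∑ b, B a b * (∑ x, X x a * t (Sum.elim J ![x, b])) =
              ∑ a, ∑ b, (∑ x, X a x * B x b) * t (Sum.elim J ![a, b]) := by
            simp only [Finset.mul_sum, Finset.sum_mul]
            calc ∑ a, ∑ b, ∑ x, B a b * (X x a * t (Sum.elim J ![x, b]))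
                = ∑ b, ∑ a, ∑ x, B a b * (X x a * t (Sum.elim J ![x, b])) := Finset.sum_comm
              _ = ∑ b, ∑ x, ∑ a, B a b * (X x a * t (Sum.elim J ![x, b])) :=
                  Finset.sum_congr rfl fun b _ => Finset.sum_comm
              _ = ∑ x, ∑ b, ∑ a, B a b * (X x a * t (Sum.elim J ![x, b])) := Finset.sum_comm
              _ = _ := by
                  refine Finset.sum_congr rfl fun a _ => Finset.sum_congr rfl fun b _ =>
                    Finset.sum_congr rfl fun x _ => ?_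
                  ring
          have f2 : ∑ a, ∑ b, B a b * (∑ x, X x b * t (Sum.elim J ![a, x])) =
              ∑ a, ∑ b, (∑ x, B a x * X b x) * t (Sum.elim J ![a, b]) := by
            simp only [Finset.mul_sum, Finset.sum_mul]
            refine Finset.sum_congr rfl fun a _ => ?_
            rw [Finset.sum_comm]
            refine Finset.sum_congr rfl fun b _ => Finset.sum_congr rfl fun x _ => ?_
            ring
          rw [f1, f2, ← Finset.sum_add_distrib]
          refine Finset.sum_eq_zero fun a _ => ?_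
          rw [← Finset.sum_add_distrib]
          refine Finset.sum_eq_zero fun b _ => ?_
          rw [← add_mul, hz, zero_mul]
        rw [ctr]
        have e3 : ∀ a b, der X t (Sum.elim J ![a, b]) =
            (∑ k, ∑ x, X x (J k) * t (Function.update (Sum.elim J ![a, b]) (Sum.inl k) x)) +
            (∑ x, X x a * t (Sum.elim J ![x, b]) + ∑ x, X x b * t (Sum.elim J ![a, x])) := by
          intro a b
          rw [der, Fintype.sum_sum_type, Fin.sum_univ_two]
          simp only [Sum.elim_inl, Sum.elim_inr, Matrix.cons_val_zero, Matrix.cons_val_one, h0, h1]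
        simp only [e3, mul_add, Finset.sum_add_distrib]
        rw [e1, add_zero]

end forms

section cast
variable {ι κ l : Type} [Fintype ι]

theorem cast_ten (t : (κ → ι) → ℚ) (u : (l → ι) → ℚ) :
    (fun J => ((ten t u J : ℚ) : ℂ)) = ten (fun J => (t J : ℂ)) (fun J => (u J : ℂ)) := by
  funext J
  simp [ten]

theorem cast_ctr (B : Matrix ι ι ℚ) (t : (κ ⊕ Fin 2 → ι) → ℚ) :
    (fun J => ((ctr B t J : ℚ) : ℂ)) = ctr (B.map fun x : ℚ => (x : ℂ)) (fun J => (t J : ℂ)) := by
  funext J
  simp [ctr]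

end cast

variable {n w r : ℕ} {T : HS n} {W : HW w}

section hodge
variable {κ l : Type} [Fintype κ] [DecidableEq κ] [Fintype l] [DecidableEq l]

theorem isH_ten {t : (κ → Fin n ⊕ Fin w) → ℚ} {u : (l → Fin n ⊕ Fin w) → ℚ} (ht : IsH T W t)
    (hu : IsH T W u) : IsH T W (ten t u) := by
  rw [IsH, cast_ten, der_ten, ht, hu]
  funext J
  simp [ten]

theorem skew_inv {m : ℕ} {x Q Q' : Matrix (Fin m) (Fin m) ℂ} (h1 : Q' * Q = 1)
    (h : xᵀ * Q + Q * x = 0) : x * Q' + Q' * xᵀ = 0 := by
  have h2 : Q * Q' = 1 := mul_eq_one_comm.1 h1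
  calc x * Q' + Q' * xᵀ = Q' * (xᵀ * Q + Q * x) * Q' := by
        rw [mul_add, add_mul, ← mul_assoc Q' Q, h1, one_mul, mul_assoc, mul_assoc, h2, mul_one,
          add_comm]
    _ = 0 := by rw [h, mul_zero, zero_mul]

theorem isH_ctrT {t : (κ ⊕ Fin 2 → Fin n ⊕ Fin w) → ℚ} (ht : IsH T W t) :
    IsH T W (ctr (fromBlocks T.Q⁻¹ 0 0 0) t) := by
  rw [IsH, cast_ctr, der_ctr, ht]
  · funext J
    simp [ctr]
  · rw [map_fb, mC_zero, hop, Matrix.fromBlocks_transpose, Matrix.fromBlocks_multiply,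
      Matrix.fromBlocks_multiply, Matrix.fromBlocks_add]
    simp only [Matrix.mul_zero, Matrix.zero_mul, add_zero, Matrix.transpose_zero]
    rw [skew_inv QQ T.skew, Matrix.fromBlocks_zero]

theorem isH_ctrA {t : (κ ⊕ Fin 2 → Fin n ⊕ Fin w) → ℚ} (ht : IsH T W t) :
    IsH T W (ctr (fromBlocks 0 0 0 W.E⁻¹) t) := by
  rw [IsH, cast_ctr, der_ctr, ht]
  · funext J
    simp [ctr]
  · rw [map_fb, mC_zero, hop, Matrix.fromBlocks_transpose, Matrix.fromBlocks_multiply,
      Matrix.fromBlocks_multiply, Matrix.fromBlocks_add]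
    simp only [Matrix.mul_zero, Matrix.zero_mul, add_zero, zero_add, Matrix.transpose_zero]
    rw [skew_inv EE W.skew, Matrix.fromBlocks_zero]

theorem der_bf' (X : Matrix (Fin n ⊕ Fin w) (Fin n ⊕ Fin w) ℂ)
    (M : Matrix (Fin n ⊕ Fin w) (Fin n ⊕ Fin w) ℚ) (J : Fin 2 → Fin n ⊕ Fin w) :
    der X (fun J => (bf M J : ℂ)) J =
      (Xᵀ * M.map (fun x : ℚ => (x : ℂ)) + M.map (fun x : ℚ => (x : ℂ)) * X) (J 0) (J 1) := by
  rw [der, Fin.sum_univ_two, Matrix.add_apply, Matrix.mul_apply, Matrix.mul_apply]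
  simp only [bf, Matrix.transpose_apply, Matrix.map_apply]
  have e1 : ∀ x, Function.update J 0 x 0 = x ∧ Function.update J 0 x 1 = J 1 := fun x => by simp
  have e2 : ∀ x, Function.update J 1 x 0 = J 0 ∧ Function.update J 1 x 1 = x := fun x => by simp
  simp only [e1, e2]
  congr 1
  refine Finset.sum_congr rfl fun x _ => ?_
  ring

theorem pl_bf' {P : Matrix (Fin n ⊕ Fin w) (Fin n ⊕ Fin w) ℂ}
    {M : Matrix (Fin n ⊕ Fin w) (Fin n ⊕ Fin w) ℚ}
    (h : Pᵀ * M.map (fun x : ℚ => (x : ℂ)) * P = M.map (fun x : ℚ => (x : ℂ))) :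
    pl P (fun J => (bf M J : ℂ)) = fun J => (bf M J : ℂ) := by
  funext J
  have h1 := congrFun (congrFun h (J 0)) (J 1)
  rw [Matrix.map_apply] at h1
  show pl P _ J = ((M (J 0) (J 1) : ℚ) : ℂ)
  rw [← h1, pl, ← Equiv.sum_comp (finTwoArrowEquiv _).symm, Fintype.sum_prod_type,
    Matrix.mul_apply]
  simp only [bf, finTwoArrowEquiv_symm_apply, Fin.prod_univ_two, Matrix.cons_val_zero,
    Matrix.cons_val_one, Matrix.mul_apply, Matrix.transpose_apply, Matrix.map_apply,
    Finset.sum_mul]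
  rw [Finset.sum_comm]
  refine Finset.sum_congr rfl fun a _ => Finset.sum_congr rfl fun b _ => ?_
  ring

theorem isH_bfT {M : Matrix (Fin n) (Fin n) ℚ} (h : T.xᵀ * mC M + mC M * T.x = 0) :
    IsH T W (bf (fromBlocks M 0 0 0)) := by
  funext J
  rw [der_bf', map_fb, mC_zero, hop, Matrix.fromBlocks_transpose, Matrix.fromBlocks_multiply,
    Matrix.fromBlocks_multiply, Matrix.fromBlocks_add]
  simp only [Matrix.mul_zero, Matrix.zero_mul, add_zero, Matrix.transpose_zero]
  rw [h, Matrix.fromBlocks_zero]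
  rfl

theorem isH_bfA {M : Matrix (Fin w) (Fin w) ℚ} (h : W.yᵀ * mC M + mC M * W.y = 0) :
    IsH T W (bf (fromBlocks 0 0 0 M)) := by
  funext J
  rw [der_bf', map_fb, mC_zero, hop, Matrix.fromBlocks_transpose, Matrix.fromBlocks_multiply,
    Matrix.fromBlocks_multiply, Matrix.fromBlocks_add]
  simp only [Matrix.mul_zero, Matrix.zero_mul, add_zero, zero_add, Matrix.transpose_zero]
  rw [h, Matrix.fromBlocks_zero]
  rfl

theorem isH_one [IsEmpty κ] (z : ℚ) : IsH T W (fun _ : κ → Fin n ⊕ Fin w => z) := by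
  funext J
  simp [der]

end hodge

theorem pl_empty {κ : Type} [Fintype κ] [DecidableEq κ] [IsEmpty κ]
    (P : Matrix (Fin n ⊕ Fin w) (Fin n ⊕ Fin w) ℂ) (t : (κ → Fin n ⊕ Fin w) → ℂ) : pl P t = t := by
  funext J
  rw [pl, Finset.sum_eq_single J]
  · simp
  · intro K _ hK
    exact absurd (Subsingleton.elim K J) hK
  · intro h
    exact absurd (Finset.mem_univ _) h

theorem pl_rei {κ l : Type} [Fintype κ] [DecidableEq κ] [Fintype l] [DecidableEq l]
    (P : Matrix (Fin n ⊕ Fin w) (Fin n ⊕ Fin w) ℂ) (e : κ ≃ l) (t : (κ → Fin n ⊕ Fin w) → ℂ) :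
    pl P (fun J : l → Fin n ⊕ Fin w => t fun k => J (e k)) =
      fun J => pl P t fun k => J (e k) := by
  funext J
  rw [pl, pl, ← Equiv.sum_comp (Equiv.arrowCongr e (Equiv.refl _))]
  refine Finset.sum_congr rfl fun K _ => ?_
  congr 1
  · rw [← Equiv.prod_comp e]
    refine Finset.prod_congr rfl fun k _ => ?_
    simp
  · congr 1
    funext k
    simp

/-- a Hodge class fixed by a set of matrices -/
def FHp (T : HS n) (W : HW w) (PP : Set (Matrix (Fin n ⊕ Fin w) (Fin n ⊕ Fin w) ℂ)) (κ : Type)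
    (t : (κ → Fin n ⊕ Fin w) → ℚ) : Prop :=
  ∀ (_ : Fintype κ) (_ : DecidableEq κ), IsH T W t ∧
    ∀ P ∈ PP, pl P (fun J => (t J : ℂ)) = fun J => (t J : ℂ)

/-- the Hodge classes fixed by a set of matrices -/
def FH (T : HS n) (W : HW w) (PP : Set (Matrix (Fin n ⊕ Fin w) (Fin n ⊕ Fin w) ℂ)) (κ : Type) :
    Submodule ℚ ((κ → Fin n ⊕ Fin w) → ℚ) where
  carrier := {t | FHp T W PP κ t}
  add_mem' := by
    intro t u ht hu _ _
    obtain ⟨h1, h2⟩ := ht _ _
    obtain ⟨h3, h4⟩ := hu _ _
    have e1 : (fun J => (((t + u) J : ℚ) : ℂ)) = (fun J => (t J : ℂ)) + fun J => (u J : ℂ) := by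
      funext J; simp
    refine ⟨?_, fun P hP => ?_⟩
    · rw [IsH, e1]
      have h5 : der (hop T W) ((fun J => (t J : ℂ)) + fun J => (u J : ℂ)) =
          der (hop T W) (fun J => (t J : ℂ)) + der (hop T W) (fun J => (u J : ℂ)) := by
        funext J
        simp [der, mul_add, Finset.sum_add_distrib]
      rw [h5, h1, h3, add_zero]
    · rw [e1]
      have h5 : pl P ((fun J => (t J : ℂ)) + fun J => (u J : ℂ)) =
          pl P (fun J => (t J : ℂ)) + pl P (fun J => (u J : ℂ)) := by
        funext J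
        simp [pl, mul_add, Finset.sum_add_distrib]
      rw [h5, h2 P hP, h4 P hP]
  zero_mem' := by
    intro _ _
    refine ⟨isH_zero, fun P _ => ?_⟩
    funext J
    simp [pl]
  smul_mem' := by
    intro z t ht _ _
    obtain ⟨h1, h2⟩ := ht _ _
    have e1 : (fun J => (((z • t) J : ℚ) : ℂ)) = (z : ℂ) • fun J => (t J : ℂ) := by
      funext J; simp
    refine ⟨?_, fun P hP => ?_⟩
    · rw [IsH, e1]
      have h5 : der (hop T W) ((z : ℂ) • fun J => (t J : ℂ)) =
          (z : ℂ) • der (hop T W) (fun J => (t J : ℂ)) := by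
        funext J
        simp only [der, Pi.smul_apply, smul_eq_mul, Finset.mul_sum]
        refine Finset.sum_congr rfl fun k _ => Finset.sum_congr rfl fun x _ => ?_
        ring
      rw [h5, h1, smul_zero]
    · rw [e1]
      have h5 : pl P ((z : ℂ) • fun J => (t J : ℂ)) = (z : ℂ) • pl P (fun J => (t J : ℂ)) := by
        funext J
        simp only [pl, Pi.smul_apply, smul_eq_mul, Finset.mul_sum]
        refine Finset.sum_congr rfl fun K _ => ?_
        ring
      rw [h5, h2 P hP]

theorem mem_FH {PP : Set (Matrix (Fin n ⊕ Fin w) (Fin n ⊕ Fin w) ℂ)} {κ : Type} [i1 : Fintype κ]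
    [i2 : DecidableEq κ] {t : (κ → Fin n ⊕ Fin w) → ℚ} : t ∈ FH T W PP κ ↔ IsH T W t ∧
      ∀ P ∈ PP, pl P (fun J => (t J : ℂ)) = fun J => (t J : ℂ) := by
  constructor
  · intro h
    exact h i1 i2
  · intro h i3 i4
    have e1 : i1 = i3 := Subsingleton.elim _ _
    have e2 : i2 = i4 := Subsingleton.elim _ _
    subst e1
    subst e2
    exact h

theorem orth_inv {m : ℕ} {a Q Q' : Matrix (Fin m) (Fin m) ℂ} (h1 : Q' * Q = 1)
    (h : aᵀ * Q * a = Q) : a * Q' * aᵀ = Q' := by
  have h2 : (Q' * aᵀ * Q) * a = 1 := by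
    calc (Q' * aᵀ * Q) * a = Q' * (aᵀ * Q * a) := by simp only [mul_assoc]
      _ = 1 := by rw [h, h1]
  have h3 : a * (Q' * aᵀ * Q) = 1 := mul_eq_one_comm.1 h2
  calc a * Q' * aᵀ = a * (Q' * aᵀ * Q) * Q' := by
        have h4 : Q * Q' = 1 := mul_eq_one_comm.1 h1
        calc a * Q' * aᵀ = a * Q' * aᵀ * (Q * Q') := by rw [h4, mul_one]
          _ = _ := by simp only [mul_assoc]
    _ = Q' := by rw [h3, one_mul]

/-- the fixed Hodge classes form a system -/
theorem FH_sys {PP : Set (Matrix (Fin n ⊕ Fin w) (Fin n ⊕ Fin w) ℂ)}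
    (h : ∀ P ∈ PP, ∃ a d, P = fromBlocks a 0 0 d ∧ aᵀ * mC T.Q * a = mC T.Q ∧
      dᵀ * mC W.E * d = mC W.E) : IsSys T W (FH T W PP) where
  hodge κ _ _ t ht := (mem_FH.1 ht).1
  rei κ l _ _ e t ht := by
    classical
    obtain ⟨h1, h2⟩ := mem_FH.1 ht
    refine mem_FH.2 ⟨isH_rei h1 e, fun P hP => ?_⟩
    rw [pl_rei P e (fun J => (t J : ℂ)), h2 P hP]
  one := mem_FH.2 ⟨isH_one 1, fun P _ => pl_empty P _⟩
  mul κ l _ _ t u ht hu := by
    classical
    obtain ⟨h1, h2⟩ := mem_FH.1 ht
    obtain ⟨h3, h4⟩ := mem_FH.1 hu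
    refine mem_FH.2 ⟨isH_ten h1 h3, fun P hP => ?_⟩
    have e1 := cast_ten t u
    simp only [ten] at e1
    rw [e1]
    have e2 := pl_ten P (fun J => (t J : ℂ)) (fun J => (u J : ℂ))
    rw [h2 P hP, h4 P hP] at e2
    exact e2
  ctrT κ _ t ht := by
    classical
    obtain ⟨h1, h2⟩ := mem_FH.1 ht
    have e0 : (fun J : κ → Fin n ⊕ Fin w => ∑ a, ∑ b, T.Q⁻¹ a b *
        t (Sum.elim J ![Sum.inl a, Sum.inl b])) = ctr (fromBlocks T.Q⁻¹ 0 0 0) t := by
      funext J
      simp [ctr, Fintype.sum_sum_type]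
    rw [e0]
    refine mem_FH.2 ⟨isH_ctrT h1, fun P hP => ?_⟩
    obtain ⟨a, d, rfl, ha, hd⟩ := h P hP
    rw [cast_ctr, pl_ctr, h2 _ hP]
    rw [map_fb, mC_zero, Matrix.fromBlocks_transpose, Matrix.fromBlocks_multiply,
      Matrix.fromBlocks_multiply]
    simp only [Matrix.mul_zero, Matrix.zero_mul, add_zero, Matrix.transpose_zero]
    rw [orth_inv QQ ha]
  ctrA κ _ t ht := by
    classical
    obtain ⟨h1, h2⟩ := mem_FH.1 ht
    have e0 : (fun J : κ → Fin n ⊕ Fin w => ∑ a, ∑ b, W.E⁻¹ a b *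
        t (Sum.elim J ![Sum.inr a, Sum.inr b])) = ctr (fromBlocks 0 0 0 W.E⁻¹) t := by
      funext J
      simp [ctr, Fintype.sum_sum_type]
    rw [e0]
    refine mem_FH.2 ⟨isH_ctrA h1, fun P hP => ?_⟩
    obtain ⟨a, d, rfl, ha, hd⟩ := h P hP
    rw [cast_ctr, pl_ctr, h2 _ hP]
    rw [map_fb, mC_zero, Matrix.fromBlocks_transpose, Matrix.fromBlocks_multiply,
      Matrix.fromBlocks_multiply]
    simp only [Matrix.mul_zero, Matrix.zero_mul, add_zero, zero_add, Matrix.transpose_zero]
    rw [orth_inv EE hd]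
  polT := by
    refine mem_FH.2 ⟨isH_bfT T.skew, fun P hP => ?_⟩
    obtain ⟨a, d, rfl, ha, hd⟩ := h P hP
    apply pl_bf'
    rw [map_fb, mC_zero, Matrix.fromBlocks_transpose, Matrix.fromBlocks_multiply,
      Matrix.fromBlocks_multiply]
    simp only [Matrix.mul_zero, Matrix.zero_mul, add_zero, Matrix.transpose_zero]
    rw [ha]
  polA := by
    refine mem_FH.2 ⟨isH_bfA W.skew, fun P hP => ?_⟩
    obtain ⟨a, d, rfl, ha, hd⟩ := h P hP
    apply pl_bf'
    rw [map_fb, mC_zero, Matrix.fromBlocks_transpose, Matrix.fromBlocks_multiply,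
      Matrix.fromBlocks_multiply]
    simp only [Matrix.mul_zero, Matrix.zero_mul, add_zero, zero_add, Matrix.transpose_zero]
    rw [hd]

end

end Pool.Agent.L5helper24.KM
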