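import Pool.Agent.W216.PG.SOI
import Pool.Agent.W544.PG.MainP

/-!
# Forms killed by a Lie algebra are invariant under its one-parameter groups
-/

set_option autoImplicit false
set_option linter.unusedSectionVars false

open Matrix Finset Module

namespace Pool.Agent.L5helper24.KM

open Pool.Agent Pool.Agent.W544.PG Pool.Agent.W216.PG.SOI

noncomputable section

section forms
variable {ι κ : Type} [Fintype ι] [DecidableEq ι] [Fintype κ] [DecidableEq κ]

/-- action of a matrix as a derivation on forms -/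
def der (X : Matrix ι ι ℂ) (t : (κ → ι) → ℂ) : (κ → ι) → ℂ :=
  fun J => ∑ j, ∑ l, X l (J j) * t (Function.update J j l)

/-- pull-back of forms -/
def pl (P : Matrix ι ι ℂ) (t : (κ → ι) → ℂ) : (κ → ι) → ℂ :=
  fun J => ∑ K : κ → ι, (∏ j, P (K j) (J j)) * t K

theorem pl_mul (A B : Matrix ι ι ℂ) (t : (κ → ι) → ℂ) : pl (A * B) t = pl B (pl A t) := by
  funext J
  unfold pl
  simp only [Finset.mul_sum]
  rw [Finset.sum_comm]
  refine Finset.sum_congr rfl fun L _ => ?_
  simp only [← mul_assoc]
  rw [← Finset.sum_mul]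
  congr 1
  simp only [Matrix.mul_apply]
  rw [Finset.prod_univ_sum]
  refine Finset.sum_bij (fun K _ => K) ?_ ?_ ?_ ?_
  · intro K _
    exact Finset.mem_univ _
  · intro K _ K' _ h
    exact h
  · intro K _
    exact ⟨K, by simp, rfl⟩
  · intro K _
    rw [← Finset.prod_mul_distrib]
    exact Finset.prod_congr rfl fun j _ => mul_comm _ _

theorem pl_one (t : (κ → ι) → ℂ) : pl (1 : Matrix ι ι ℂ) t = t := by
  funext J
  unfold pl
  rw [Finset.sum_eq_single J]
  · rw [Finset.prod_eq_one, one_mul]
    intro j _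
    rw [Matrix.one_apply_eq]
  · intro K _ hK
    obtain ⟨j, hj⟩ := Function.ne_iff.1 hK
    rw [Finset.prod_eq_zero (Finset.mem_univ j), zero_mul]
    exact Matrix.one_apply_ne hj
  · intro h
    exact absurd (Finset.mem_univ _) h

/-- the derivative of the pull-back, algebraically -/
theorem pl_der (R Z : Matrix ι ι ℂ) (t : (κ → ι) → ℂ) (J : κ → ι) :
    ∑ K : κ → ι, (∑ i, (∏ j ∈ univ.erase i, R (K j) (J j)) * (Z * R) (K i) (J i)) * t K =
      pl R (der Z t) J := by
  unfold pl der
  simp only [Finset.mul_sum, Finset.sum_mul, Matrix.mul_apply]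
  rw [Finset.sum_comm]
  rw [Finset.sum_comm (s := (univ : Finset (κ → ι))) (t := univ)
    (f := fun K i => ∑ l, (∏ j, R (K j) (J j)) * (Z l (K i) * t (Function.update K i l)))]
  refine Finset.sum_congr rfl fun i _ => ?_
  rw [← Finset.sum_product', ← Finset.sum_product']
  let E : ((κ → ι) × ι) ≃ ((κ → ι) × ι) :=
    { toFun := fun x => (Function.update x.1 i x.2, x.1 i)
      invFun := fun x => (Function.update x.1 i x.2, x.1 i)
      left_inv := fun x => by simp
      right_inv := fun x => by simp }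
  refine Finset.sum_bij' (fun x _ => E x) (fun x _ => E.symm x) ?_ ?_ ?_ ?_ ?_
  · intro x _; simp
  · intro x _; simp
  · intro x _; exact E.symm_apply_apply x
  · intro x _; exact E.apply_symm_apply x
  · rintro ⟨K, l⟩ _
    show (∏ j ∈ univ.erase i, R (K j) (J j)) * (Z (K i) l * R l (J i)) * t K =
      (∏ j, R (Function.update K i l j) (J j)) *
        (Z (K i) (Function.update K i l i) *
          t (Function.update (Function.update K i l) i (K i)))
    rw [Function.update_self, Function.update_idem, Function.update_eq_self,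
      ← Finset.mul_prod_erase univ _ (Finset.mem_univ i), Function.update_self]
    have e : ∏ j ∈ univ.erase i, R (Function.update K i l j) (J j) =
        ∏ j ∈ univ.erase i, R (K j) (J j) := by
      refine Finset.prod_congr rfl fun j hj => ?_
      rw [Function.update_of_ne (Finset.ne_of_mem_erase hj)]
    rw [e]
    ring

/-- A flow of `X` fixes the forms killed by `X`. -/
theorem flow_fix {X : Matrix ι ι ℂ} {R : ℂ → Matrix ι ι ℂ}
    (hR : ∀ θ a b, HasDerivAt (fun θ => R θ a b) ((X * R θ) a b) θ) (h0 : R 0 = 1)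
    {t : (κ → ι) → ℂ} (ht : der X t = 0) (θ : ℂ) : pl (R θ) t = t := by
  funext J
  have hd : ∀ θ, HasDerivAt (fun θ => pl (R θ) t J) 0 θ := by
    intro θ
    have h1 : HasDerivAt (fun θ => ∑ K : κ → ι, (∏ j, R θ (K j) (J j)) * t K)
        (∑ K : κ → ι, (∑ i, (∏ j ∈ univ.erase i, R θ (K j) (J j)) *
          (X * R θ) (K i) (J i)) * t K) θ := by
      refine HasDerivAt.fun_sum fun K _ => ?_
      refine HasDerivAt.mul_const ?_ _
      have := HasDerivAt.fun_finsetProd (u := (univ : Finset κ)) (x := θ)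
        (f := fun j θ => R θ (K j) (J j)) (f' := fun j => (X * R θ) (K j) (J j))
        (fun j _ => hR θ (K j) (J j))
      simpa only [smul_eq_mul] using this
    rw [pl_der, ht] at h1
    refine h1.congr_deriv ?_
    simp [pl]
  have h2 := is_const_of_deriv_eq_zero (f := fun θ => pl (R θ) t J)
    (fun θ => (hd θ).differentiableAt) (fun θ => (hd θ).deriv) θ 0
  rw [h2, h0, pl_one]

end forms

section expo
open scoped Matrix.Norms.Operator

/-- entries of the exponential -/
theorem exp_entry {w : ℕ} (V : Matrix (Fin w) (Fin w) ℂ) (θ : ℂ) (a b : Fin w) :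
    HasDerivAt (fun θ : ℂ => NormedSpace.exp (θ • V) a b) ((V * NormedSpace.exp (θ • V)) a b) θ := by
  have h := hasDerivAt_exp_smul_const' (𝕂 := ℂ) V θ
  exact ((Matrix.entryLinearMap ℂ ℂ a b).toContinuousLinearMap.hasFDerivAt.comp_hasDerivAt θ h)

end expo

/-- the flow given by a rotation and an exponential -/
theorem exists_flow {n w : ℕ} {Z : Matrix (Fin n) (Fin n) ℂ} (V : Matrix (Fin w) (Fin w) ℂ)
    (hZ : Z * Z * Z = -Z) : ∃ h : ℂ → Matrix (Fin w) (Fin w) ℂ,
    ∀ (κ : Type) [Fintype κ] [DecidableEq κ] (t : (κ → Fin n ⊕ Fin w) → ℂ),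
      der (fromBlocks Z 0 0 V) t = 0 → ∀ θ, pl (fromBlocks (rot Z θ) 0 0 (h θ)) t = t := by
  refine ⟨fun θ => NormedSpace.exp (θ • V), fun κ _ _ t ht θ => ?_⟩
  refine flow_fix (X := fromBlocks Z 0 0 V)
    (R := fun θ => fromBlocks (rot Z θ) 0 0 (NormedSpace.exp (θ • V))) ?_ ?_ ht θ
  · intro θ a b
    rw [Matrix.fromBlocks_multiply]
    simp only [Matrix.mul_zero, Matrix.zero_mul, add_zero, zero_add]
    rcases a with a | a <;> rcases b with b | b
    · exact rot_entry_deriv hZ θ a b
    · simpa using hasDerivAt_const θ (0 : ℂ)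
    · simpa using hasDerivAt_const θ (0 : ℂ)
    · exact exp_entry V θ a b
  · rw [rot_zero, zero_smul, NormedSpace.exp_zero, Matrix.fromBlocks_one]

/-- the flow given by two rotations -/
theorem rot_flow {n w : ℕ} {Z : Matrix (Fin n) (Fin n) ℂ} {V V2 : Matrix (Fin w) (Fin w) ℂ}
    (hZ : Z * Z * Z = -Z) (hV : V2 = (2 : ℂ) • V) (hV2 : V2 * V2 * V2 = -V2)
    {κ : Type} [Fintype κ] [DecidableEq κ] {t : (κ → Fin n ⊕ Fin w) → ℂ}
    (ht : der (fromBlocks Z 0 0 V) t = 0) (θ : ℂ) :
    pl (fromBlocks (rot Z θ) 0 0 (rot V2 (θ / 2))) t = t := by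
  refine flow_fix (X := fromBlocks Z 0 0 V)
    (R := fun θ => fromBlocks (rot Z θ) 0 0 (rot V2 (θ / 2))) ?_ ?_ ht θ
  · intro θ a b
    rw [Matrix.fromBlocks_multiply]
    simp only [Matrix.mul_zero, Matrix.zero_mul, add_zero, zero_add]
    rcases a with a | a <;> rcases b with b | b
    · exact rot_entry_deriv hZ θ a b
    · simpa using hasDerivAt_const θ (0 : ℂ)
    · simpa using hasDerivAt_const θ (0 : ℂ)
    · have h1 := rot_entry_deriv hV2 (θ / 2) a b
      have h2 : HasDerivAt (fun θ : ℂ => θ / 2) (1 / 2) θ := (hasDerivAt_id θ).div_const 2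
      have h3 := h1.comp θ h2
      refine h3.congr_deriv ?_
      change (V2 * rot V2 (θ / 2)) a b * (1 / 2) = (V * rot V2 (θ / 2)) a b
      rw [hV, Matrix.smul_mul, Matrix.smul_apply, smul_eq_mul]
      ring
  · rw [rot_zero, zero_div, rot_zero, Matrix.fromBlocks_one]

/-! ### Generation of the special orthogonal group by rotations -/

/-- the group generated by the rotations -/
def RG (n : ℕ) : Submonoid (Matrix (Fin n) (Fin n) ℂ) :=
  Submonoid.closure {g | ∃ (Z : Matrix (Fin n) (Fin n) ℂ) (θ : ℂ), Zᵀ = -Z ∧ Z * Z * Z = -Z ∧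
    g = rot Z θ}

theorem RG_T {n : ℕ} {g : Matrix (Fin n) (Fin n) ℂ} (hg : g ∈ RG n) : gᵀ ∈ RG n := by
  induction hg using Submonoid.closure_induction with
  | mem x hx =>
    obtain ⟨Z, θ, h1, h2, rfl⟩ := hx
    rw [rot_t h1]
    exact Submonoid.subset_closure ⟨Z, -θ, h1, h2, rfl⟩
  | one => rw [Matrix.transpose_one]; exact Submonoid.one_mem _
  | mul x y _ _ hx hy => rw [Matrix.transpose_mul]; exact Submonoid.mul_mem _ hy hx

theorem RG_orth {n : ℕ} {g : Matrix (Fin n) (Fin n) ℂ} (hg : g ∈ RG n) :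
    gᵀ * g = 1 ∧ g.det = 1 := by
  induction hg using Submonoid.closure_induction with
  | mem x hx =>
    obtain ⟨Z, θ, h1, h2, rfl⟩ := hx
    exact ⟨rot_orth h1 h2 θ, rot_det h1 h2 θ⟩
  | one => simp
  | mul x y _ _ hx hy =>
    refine ⟨?_, by rw [Matrix.det_mul, hx.2, hy.2, one_mul]⟩
    rw [transpose_mul, mul_assoc, ← mul_assoc xᵀ, hx.1, one_mul, hy.1]

variable {n : ℕ}

/-- a rotation which maps `u` to `v` -/
theorem moveG {u v : Fin n → ℂ}
    (hu : u ⬝ᵥ u = 1) (hv : v ⬝ᵥ v = 1) (huv : (u ⬝ᵥ v) ^ 2 ≠ 1) :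
    ∃ g ∈ RG n, g *ᵥ u = v ∧ ∀ x, u ⬝ᵥ x = 0 → v ⬝ᵥ x = 0 → g *ᵥ x = x := by
  obtain ⟨c, hc⟩ : ∃ c, c = u ⬝ᵥ v := ⟨_, rfl⟩
  obtain ⟨d, hd⟩ := IsAlgClosed.exists_pow_nat_eq (1 - c ^ 2) (n := 2) (by norm_num)
  have hd0 : d ≠ 0 := by
    rintro rfl
    apply huv
    rw [← hc]
    linear_combination hd
  obtain ⟨θ, hcos, hsin⟩ := exists_angle (c := c) (d := d) (by rw [hd]; ring)
  obtain ⟨b, hb⟩ : ∃ b, b = d⁻¹ • (v - c • u) := ⟨_, rfl⟩
  have hub : u ⬝ᵥ b = 0 := by
    rw [hb, dotProduct_smul, dotProduct_sub, dotProduct_smul, hu, ← hc, smul_eq_mul, smul_eq_mul]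
    ring
  have hbb : b ⬝ᵥ b = 1 := by
    have h1 : (v - c • u) ⬝ᵥ (v - c • u) = d ^ 2 := by
      rw [sub_dotProduct, dotProduct_sub, dotProduct_sub, dotProduct_smul, dotProduct_smul,
        smul_dotProduct, smul_dotProduct, hu, hv, dotProduct_comm v u, ← hc, hd]
      simp only [smul_eq_mul]
      ring
    rw [hb, dotProduct_smul, smul_dotProduct, h1, smul_eq_mul, smul_eq_mul]
    field_simp
  have hbu : b ⬝ᵥ u = 0 := by rw [dotProduct_comm, hub]
  have hvb : v = c • u + d • b := by
    rw [hb, smul_smul, mul_inv_cancel₀ hd0, one_smul]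
    abel
  obtain ⟨Z, hZdef⟩ : ∃ Z, Z = vecMulVec b u - vecMulVec u b := ⟨_, rfl⟩
  have hZ : Zᵀ = -Z := by
    rw [hZdef, transpose_sub, transpose_vecMulVec, transpose_vecMulVec, neg_sub]
  have hZx : ∀ x, Z *ᵥ x = (u ⬝ᵥ x) • b - (b ⬝ᵥ x) • u := by
    intro x
    rw [hZdef, Matrix.sub_mulVec, vecMulVec_mulVec, vecMulVec_mulVec, op_smul_eq_smul,
      op_smul_eq_smul]
  have hZu : Z *ᵥ u = b := by rw [hZx, hu, hbu, one_smul, zero_smul, sub_zero]
  have hZb : Z *ᵥ b = -u := by rw [hZx, hub, hbb, one_smul, zero_smul, zero_sub]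
  have hZ3 : Z * Z * Z = -Z := by
    apply Matrix.toLin'.injective
    apply LinearMap.ext
    intro x
    rw [Matrix.toLin'_apply, Matrix.toLin'_apply, ← Matrix.mulVec_mulVec, ← Matrix.mulVec_mulVec,
      Matrix.neg_mulVec, hZx x, Matrix.mulVec_sub, Matrix.mulVec_smul, Matrix.mulVec_smul, hZu,
      hZb, Matrix.mulVec_sub, Matrix.mulVec_smul, Matrix.mulVec_smul, Matrix.mulVec_neg, hZu,
      hZb]
    module
  refine ⟨rot Z θ, Submonoid.subset_closure ⟨Z, θ, hZ, hZ3, rfl⟩, ?_, ?_⟩
  · unfold rot
    rw [Matrix.add_mulVec, Matrix.add_mulVec, Matrix.one_mulVec, Matrix.smul_mulVec,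
      Matrix.smul_mulVec, ← Matrix.mulVec_mulVec, hZu, hZb, hcos, hsin]
    rw [hvb]
    module
  · intro x hux hvx
    have hbx : b ⬝ᵥ x = 0 := by
      rw [hb, smul_dotProduct, sub_dotProduct, smul_dotProduct, hux, hvx]
      simp
    have hZx0 : Z *ᵥ x = 0 := by rw [hZx, hux, hbx, zero_smul, zero_smul, sub_zero]
    unfold rot
    rw [Matrix.add_mulVec, Matrix.add_mulVec, Matrix.one_mulVec, Matrix.smul_mulVec,
      Matrix.smul_mulVec, ← Matrix.mulVec_mulVec, hZx0, Matrix.mulVec_zero, smul_zero, smul_zero,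
      add_zero, add_zero]

theorem RG_of_mul {g R : Matrix (Fin n) (Fin n) ℂ} (hg : g ∈ RG n) (h : g * R ∈ RG n) :
    R ∈ RG n := by
  have h1 := Submonoid.mul_mem _ (RG_T hg) h
  rwa [← mul_assoc, (RG_orth hg).1, one_mul] at h1

theorem claimG (m : ℕ) (hm : 1 ≤ m) :
    ∀ R : Matrix (Fin n) (Fin n) ℂ, Rᵀ * R = 1 → R.det = 1 →
      (∀ i : Fin n, m ≤ (i : ℕ) → R *ᵥ e n i = e n i) → R ∈ RG n := by
  induction m, hm using Nat.le_induction with
  | base =>
    intro R hR hdet hfix
    by_cases hn : 0 < n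
    · set o : Fin n := ⟨0, hn⟩ with ho
      have hpos : ∀ i : Fin n, i ≠ o → 1 ≤ (i : ℕ) := by
        intro i hi
        by_contra h
        apply hi
        apply Fin.ext
        show (i : ℕ) = 0
        omega
      set v := R *ᵥ e n o with hv
      have hv0 : ∀ i : Fin n, i ≠ o → v i = 0 := by
        intro i hi
        have h1 := orth_dot hR (e n i) (e n o)
        rw [hfix i (hpos i hi), e_dot_e, if_neg hi, ← hv, e_dot] at h1
        exact h1
      have hRd : R = Matrix.diagonal (fun i => if i = o then v o else 1) := by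
        apply ext_e
        intro i
        funext j
        have e1 : (Matrix.diagonal (fun i => if i = o then v o else 1) *ᵥ e n i) j =
            (if j = o then v o else 1) * e n i j := by
          rw [Matrix.mulVec_diagonal]
        rw [e1]
        by_cases hi : i = o
        · subst hi
          rw [← hv]
          by_cases hj : j = o
          · subst hj
            rw [if_pos rfl]
            simp [e]
          · rw [hv0 j hj, if_neg hj, one_mul]
            simp [e, hj]
        · rw [hfix i (hpos i hi)]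
          by_cases hj : j = o
          · subst hj
            rw [if_pos rfl]
            simp [e, Ne.symm hi]
          · rw [if_neg hj, one_mul]
      have hvo : v o = 1 := by
        rw [hRd, Matrix.det_diagonal, Finset.prod_ite_eq' univ o] at hdet
        simpa using hdet
      have hR1 : R = 1 := by
        rw [hRd, hvo]
        simp
      rw [hR1]
      exact Submonoid.one_mem _
    · have hR1 : R = 1 := by
        ext i
        exact absurd i.pos hn
      rw [hR1]
      exact Submonoid.one_mem _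
  | succ m hm ih =>
    intro R hR hdet hfix
    by_cases hmn : m < n
    swap
    · exact ih R hR hdet fun i hi => absurd (lt_of_le_of_lt hi i.2) hmn
    set a : Fin n := ⟨m, hmn⟩ with ha
    set v := R *ᵥ e n a with hv
    have hvv : v ⬝ᵥ v = 1 := by
      rw [hv, orth_dot hR, e_dot_e, if_pos rfl]
    have haa : e n a ⬝ᵥ e n a = 1 := by rw [e_dot_e, if_pos rfl]
    have hvi : ∀ i : Fin n, m + 1 ≤ (i : ℕ) → v ⬝ᵥ e n i = 0 := by
      intro i hi
      have h1 := orth_dot hR (e n a) (e n i)
      rw [hfix i hi, e_dot_e, if_neg] at h1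
      · exact h1
      · intro h
        have := congrArg Fin.val h
        simp only [ha] at this
        omega
    -- it is enough to map `v` to `e a`
    have hfin : ∀ g ∈ RG n, g *ᵥ v = e n a →
        (∀ i : Fin n, m + 1 ≤ (i : ℕ) → g *ᵥ e n i = e n i) → R ∈ RG n := by
      intro g hg hgv hgi
      have hg' := RG_orth hg
      have h1 := ih (g * R) (by
          rw [transpose_mul, mul_assoc, ← mul_assoc gᵀ, hg'.1, one_mul, hR])
        (by rw [Matrix.det_mul, hg'.2, hdet, one_mul]) (by
          intro i hi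
          rw [← Matrix.mulVec_mulVec]
          rcases Nat.eq_or_lt_of_le hi with h | h
          · have hia : i = a := Fin.ext h.symm
            rw [hia, ← hv, hgv]
          · rw [hfix i h, hgi i h])
      exact RG_of_mul hg h1
    by_cases hA : (v ⬝ᵥ e n a) ^ 2 ≠ 1
    · obtain ⟨g, hg, hgv, hgx⟩ := moveG hvv haa hA
      refine hfin g hg hgv fun i hi => hgx _ (hvi i hi) ?_
      rw [e_dot_e, if_neg]
      intro h
      have := congrArg Fin.val h
      simp only [ha] at this
      omega
    · push Not at hA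
      rw [dotProduct_comm, e_dot] at hA
      -- a basis vector which is not proportional
      obtain ⟨j, hjm, hj⟩ : ∃ j : Fin n, (j : ℕ) < m ∧ v j ^ 2 ≠ 1 := by
        by_contra hcon
        push Not at hcon
        have h1 : ∑ i : Fin n, v i ^ 2 = 1 := by
          rw [← hvv]
          simp only [dotProduct, sq]
        have h2 : ∀ i : Fin n, v i ^ 2 = if (i : ℕ) < m + 1 then 1 else 0 := by
          intro i
          by_cases hi : (i : ℕ) < m + 1
          · rw [if_pos hi]
            rcases Nat.lt_succ_iff_lt_or_eq.1 hi with h | h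
            · exact hcon i h
            · have : i = a := Fin.ext h
              rw [this]
              exact hA
          · rw [if_neg hi]
            have h3 := hvi i (not_lt.1 hi)
            rw [dotProduct_comm, e_dot] at h3
            rw [h3]
            norm_num
        simp only [h2] at h1
        rw [Finset.sum_boole] at h1
        have h4 : (univ.filter fun i : Fin n => (i : ℕ) < m + 1).card = 1 := by
          exact_mod_cast h1
        obtain ⟨x, hx⟩ := Finset.card_eq_one.1 h4
        have hz : (⟨0, by omega⟩ : Fin n) ∈ univ.filter fun i : Fin n => (i : ℕ) < m + 1 := by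
          rw [Finset.mem_filter]
          exact ⟨Finset.mem_univ _, by show 0 < m + 1; omega⟩
        have hy : a ∈ univ.filter fun i : Fin n => (i : ℕ) < m + 1 := by
          rw [Finset.mem_filter]
          exact ⟨Finset.mem_univ _, by show m < m + 1; omega⟩
        rw [hx, Finset.mem_singleton] at hz hy
        have := congrArg Fin.val (hz.trans hy.symm)
        simp only [ha] at this
        omega
      have hjj : e n j ⬝ᵥ e n j = 1 := by rw [e_dot_e, if_pos rfl]
      have hja : j ≠ a := by
        intro h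
        have := congrArg Fin.val h
        simp only [ha] at this
        omega
      obtain ⟨g1, hg1, hgv1, hgx1⟩ := moveG hvv hjj (by rw [dotProduct_comm, e_dot]; exact hj)
      obtain ⟨g2, hg2, hgv2, hgx2⟩ := moveG hjj haa (by
        rw [e_dot_e, if_neg hja]; norm_num)
      refine hfin (g2 * g1) (Submonoid.mul_mem _ hg2 hg1)
        (by rw [← Matrix.mulVec_mulVec, hgv1, hgv2]) ?_
      intro i hi
      have hji : e n j ⬝ᵥ e n i = 0 := by
        rw [e_dot_e, if_neg]
        intro h
        have := congrArg Fin.val h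
        omega
      have hai : e n a ⬝ᵥ e n i = 0 := by
        rw [e_dot_e, if_neg]
        intro h
        have := congrArg Fin.val h
        simp only [ha] at this
        omega
      rw [← Matrix.mulVec_mulVec, hgx1 _ (hvi i hi) hji, hgx2 _ hji hai]

/-- The special orthogonal group is generated by rotations. -/
theorem so_gen {R : Matrix (Fin n) (Fin n) ℂ} (hR : Rᵀ * R = 1) (hdet : R.det = 1) : R ∈ RG n :=
  claimG (n + 1) (by omega) R hR hdet fun i hi => absurd i.2 (by omega)

end

end Pool.Agent.L5helper24.KM
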