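import Pool.Agent.L5helper24.KM.Trans3

/-!
# The four possibilities for a system of classes on products of `X` and `A`
-/

set_option autoImplicit false
set_option linter.unusedSectionVars false
set_option linter.unusedSimpArgs false

open Matrix Finset Module

namespace Pool.Agent.L5helper24.KM

open Pool.Agent Pool.Agent.W544.PG Pool.Agent.L5helper24.KS Pool.Agent.W216.PG.SOI

noncomputable section

variable {n w : ℕ} {T : HS n} {W : HW w}

/-- the part of a Hodge class on the abelian variety -/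
theorem isH_plvA {l : Type} [Fintype l] [DecidableEq l] {u : (l → Fin n ⊕ Fin w) → ℚ}
    (hu : IsH T W u) : IsH T W (plv (fun _ => fromBlocks 0 0 0 1) u) ∧
      ∀ J, plv (fun _ => fromBlocks 0 0 0 1) u J ≠ 0 → ∀ k, ∃ b, J k = Sum.inr b := by
  constructor
  · rw [IsH]
    have h3 : (fun J => ((plv (fun _ => fromBlocks 0 0 0 1) u J : ℚ) : ℂ)) =
        pl (fromBlocks 0 0 0 (1 : Matrix (Fin w) (Fin w) ℂ)) (fun J => (u J : ℂ)) := by
      funext J
      have h4 := congrFun (plv_map (Rat.castHom ℂ) (fun _ : l => (fromBlocks 0 0 0 1 :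
        Matrix (Fin n ⊕ Fin w) (Fin n ⊕ Fin w) ℚ)) u) J
      have h5 : (fromBlocks 0 0 0 1 : Matrix (Fin n ⊕ Fin w) (Fin n ⊕ Fin w) ℚ).map
          (Rat.castHom ℂ) = fromBlocks 0 0 0 1 := by
        rw [map_fb', mC_zero, mC1]
      simp only [h5] at h4
      exact h4.symm
    rw [h3]
    have h4 : hop T W * fromBlocks 0 0 0 1 = fromBlocks 0 0 0 1 * hop T W := by
      rw [hop, Matrix.fromBlocks_multiply, Matrix.fromBlocks_multiply]
      simp only [Matrix.mul_zero, Matrix.zero_mul, add_zero, zero_add, Matrix.mul_one,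
        Matrix.one_mul]
    rw [← pl_der_conj h4, hu, ← plL_apply, map_zero]
  · intro J hJ k
    by_contra hcon
    apply hJ
    obtain ⟨x, hx⟩ : ∃ x, J k = Sum.inl x := by
      rcases h : J k with x | x
      · exact ⟨x, rfl⟩
      · exact absurd ⟨x, h⟩ hcon
    rw [plv]
    refine Finset.sum_eq_zero fun K _ => ?_
    rw [Finset.prod_eq_zero (Finset.mem_univ k), zero_mul]
    rw [hx]
    rcases K k with y | y <;> rfl

theorem der_addX {ι κ : Type} [Fintype ι] [DecidableEq ι] [Fintype κ] [DecidableEq κ]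
    (X Y : Matrix ι ι ℂ) (t : (κ → ι) → ℂ) : der (X + Y) t = der X t + der Y t := by
  funext J
  simp only [der, Matrix.add_apply, add_mul, Finset.sum_add_distrib, Pi.add_apply]

/-- product classes are fixed by the action on the abelian variety -/
theorem sepA {κ : Type} [Fintype κ] [DecidableEq κ] {a : Matrix (Fin n) (Fin n) ℂ}
    {d : Matrix (Fin w) (Fin w) ℂ}
    (hA : ∀ (l : Type) [Fintype l] [DecidableEq l] (u : (l → Fin n ⊕ Fin w) → ℚ), IsH T W u →
      (∀ J, u J ≠ 0 → ∀ k, ∃ b, J k = Sum.inr b) →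
      pl (fromBlocks a 0 0 d) (fun J => (u J : ℂ)) = fun J => (u J : ℂ))
    {t : (κ → Fin n ⊕ Fin w) → ℚ} (ht : IsH T W t)
    (hk : der (fromBlocks T.x 0 0 0) (fun J => (t J : ℂ)) = 0) :
    pl (fromBlocks 1 0 0 d) (fun J => (t J : ℂ)) = fun J => (t J : ℂ) := by
  have hmF : (fromBlocks 0 0 0 1 : Matrix (Fin n ⊕ Fin w) (Fin n ⊕ Fin w) ℚ).map
      (Rat.castHom ℂ) = fromBlocks 0 0 0 1 := by
    rw [map_fb', mC_zero, mC1]
  have hmG : (fromBlocks 1 0 0 0 : Matrix (Fin n ⊕ Fin w) (Fin n ⊕ Fin w) ℚ).map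
      (Rat.castHom ℂ) = fromBlocks 1 0 0 0 := by
    rw [map_fb', mC_zero, mC1]
  refine mix (F := fromBlocks 0 0 0 1) (G := fromBlocks 1 0 0 0) (X := hop T W)
    (Y := fromBlocks 0 0 0 W.y) ?_ ?_ ?_ ?_ ?_ ?_ ?_ ?_
  · rw [Matrix.fromBlocks_add]
    simp
  · rw [Matrix.fromBlocks_multiply]
    simp
  · rw [Matrix.fromBlocks_multiply]
    simp
  · have h1 : der (hop T W) (fun J => (t J : ℂ)) = der (fromBlocks T.x 0 0 0)
        (fun J => (t J : ℂ)) + der (fromBlocks 0 0 0 W.y) (fun J => (t J : ℂ)) := by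
      rw [← der_addX, Matrix.fromBlocks_add, hop]
      simp only [add_zero, zero_add]
    rw [hk, zero_add] at h1
    rw [← h1]
    exact ht
  · rw [hmF, hop, Matrix.fromBlocks_multiply, Matrix.fromBlocks_multiply]
    simp
  · rw [hmG, Matrix.fromBlocks_multiply]
    simp
  · rw [hmG, Matrix.fromBlocks_multiply]
    simp
  · intro l _ _ β hβ
    obtain ⟨h1, h2⟩ := isH_plvA (T := T) (W := W) (u := β) hβ
    have h3 := hA l _ h1 h2
    have h4 : pl (fromBlocks 1 0 0 d) (fun J => ((plv (fun _ => fromBlocks 0 0 0 1) β J : ℚ) : ℂ)) =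
        pl (fromBlocks a 0 0 d) (fun J => ((plv (fun _ => fromBlocks 0 0 0 1) β J : ℚ) : ℂ)) := by
      refine pl_agree fun K hK k y => ?_
      obtain ⟨b, hb⟩ := h2 K (fun h0 => hK (by simp only [h0, Rat.cast_zero])) k
      rw [hb]
      rcases y with y | y <;> rfl
    rw [h4, h3]

/-- product classes are fixed by the special orthogonal group -/
theorem fixT {κ : Type} [Fintype κ] [DecidableEq κ] {g : Matrix (Fin n) (Fin n) ℂ}
    {h : Matrix (Fin w) (Fin w) ℂ} (hF : Fx T W (fromBlocks g 0 0 h))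
    {t : (κ → Fin n ⊕ Fin w) → ℚ} (ht : IsH T W t)
    (hk : der (fromBlocks T.x 0 0 0) (fun J => (t J : ℂ)) = 0) :
    pl (fromBlocks g 0 0 1) (fun J => (t J : ℂ)) = fun J => (t J : ℂ) := by
  have h1 := sepA (a := g) (d := h) (fun l _ _ u hu _ => hF l u hu) ht hk
  have h2 := hF κ t ht
  have h3 : (fromBlocks g 0 0 h : Matrix (Fin n ⊕ Fin w) (Fin n ⊕ Fin w) ℂ) =
      fromBlocks 1 0 0 h * fromBlocks g 0 0 1 := by
    rw [Matrix.fromBlocks_multiply]
    simp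
  rw [h3, pl_mul, h1] at h2
  exact h2

/-- the number of variables in `T` -/
def dT {κ : Type} [Fintype κ] (J : κ → Fin n ⊕ Fin w) : ℕ :=
  ∑ k, Sum.elim (fun _ => 1) (fun _ => 0) (J k)

theorem pl_neg {κ : Type} [Fintype κ] [DecidableEq κ] (t : (κ → Fin n ⊕ Fin w) → ℂ)
    (J : κ → Fin n ⊕ Fin w) :
    pl (fromBlocks (-1) 0 0 1) t J = (-1) ^ dT J * t J := by
  have hG : (fromBlocks (-1) 0 0 1 : Matrix (Fin n ⊕ Fin w) (Fin n ⊕ Fin w) ℂ) =
      Matrix.diagonal (Sum.elim (fun _ => -1) fun _ => 1) := by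
    ext x y
    rcases x with x | x <;> rcases y with y | y
    · rw [Matrix.fromBlocks_apply₁₁, Matrix.neg_apply, Matrix.one_apply, Matrix.diagonal_apply]
      by_cases hxy : x = y
      · rw [if_pos hxy, if_pos (by rw [hxy])]; rfl
      · rw [if_neg hxy, if_neg (fun h => hxy (Sum.inl_injective h)), neg_zero]
    · rw [Matrix.diagonal_apply_ne _ (by simp)]; rfl
    · rw [Matrix.diagonal_apply_ne _ (by simp)]; rfl
    · rw [Matrix.fromBlocks_apply₂₂, Matrix.one_apply, Matrix.diagonal_apply]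
      by_cases hxy : x = y
      · rw [if_pos hxy, if_pos (by rw [hxy])]; rfl
      · rw [if_neg hxy, if_neg (fun h => hxy (Sum.inr_injective h))]
  rw [hG, pl_diag, dT, ← Finset.prod_pow_eq_pow_sum]
  congr 1
  refine Finset.prod_congr rfl fun k _ => ?_
  rcases J k with x | x <;> simp

variable {c : Fin n → Fin 1} {p q : Fin 1 → ℕ}
  {𝒜 : ∀ κ : Type, Submodule ℚ ((κ → Fin n ⊕ Fin w) → ℚ)}

theorem bd1 {R : Type} [Zero R] (A : Matrix (Fin n) (Fin n) R) : BD c A :=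
  fun _ _ h => absurd (Subsingleton.elim _ _) h

/-- the special orthogonal group lifts -/
theorem lift_so (C : Ctx T c W) {g : Matrix (Fin n) (Fin n) ℂ} (hg : gᵀ * mC T.Q * g = mC T.Q)
    (hdet : (g.submatrix (C.e 0) (C.e 0)).det = 1) : ∃ h, Fx T W (fromBlocks g 0 0 h) := by
  obtain ⟨h, hh⟩ := lift_block C 0 (sub_orth (C.blk 0) (bd1 g) hg) hdet
  refine ⟨h, ?_⟩
  have h1 : bk (C.e 0) (1 : Matrix (Fin (C.k 0)) (Fin (C.k 0)) ℂ) = 1 := by
    have h2 := bk_sum_one C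
    rwa [Fin.sum_univ_one] at h2
  have h2 : bk1 (C.e 0) (g.submatrix (C.e 0) (C.e 0)) = g := by
    have h3 := bd_mul_bk (C.blk 0).en (bd1 g) (1 : Matrix (Fin (C.k 0)) (Fin (C.k 0)) ℂ)
    rw [h1, mul_one, mul_one] at h3
    rw [bk1, bk_sub, h1, ← h3]
    abel
  rw [h2] at hh
  exact hh

theorem xof : (Matrix.of fun a b => if c a = 0 then T.x a b else 0) = T.x := by
  ext a b
  rw [Matrix.of_apply, if_pos (Subsingleton.elim _ _)]

set_option maxHeartbeats 1000000 in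
/-- **The four possibilities.** -/
theorem four (hB : T.Big c p q) (hp : p 0 = 1) (hsys : IsSys T W 𝒜)
    (hA : ∀ (κ : Type) [Fintype κ] [DecidableEq κ] (t : (κ → Fin n ⊕ Fin w) → ℚ), IsH T W t →
      (∀ J, t J ≠ 0 → ∀ k, ∃ b, J k = Sum.inr b) → t ∈ 𝒜 κ)
    (hrel : (∃ j : Fin n → Matrix (Fin w) (Fin w) ℚ, IsHodgeMap T W j ∧ j ≠ 0) ∨
      ∀ (κ : Type) [Fintype κ] [DecidableEq κ] (t : (κ → Fin n ⊕ Fin w) → ℚ), IsH T W t →
        der (fromBlocks T.x 0 0 0) (fun J => (t J : ℂ)) = 0) :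
    (∀ (κ : Type) [Fintype κ] [DecidableEq κ] (t : (κ → Fin n ⊕ Fin w) → ℚ), IsH T W t →
      t ∈ 𝒜 κ) ∨
    (∀ (κ : Type) [Fintype κ] [DecidableEq κ] (t : (κ → Fin n ⊕ Fin w) → ℚ), IsH T W t →
      (t ∈ 𝒜 κ ↔ ∀ J, t J ≠ 0 → Even (dT J))) ∨
    (∀ (κ : Type) [Fintype κ] [DecidableEq κ] (t : (κ → Fin n ⊕ Fin w) → ℚ), IsH T W t →
      (t ∈ 𝒜 κ ↔ der (fromBlocks T.x 0 0 0) (fun J => (t J : ℂ)) = 0)) ∨
    (∀ (κ : Type) [Fintype κ] [DecidableEq κ] (t : (κ → Fin n ⊕ Fin w) → ℚ), IsH T W t →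
      (t ∈ 𝒜 κ ↔ ∀ g : Matrix (Fin n) (Fin n) ℂ, gᵀ * mC T.Q * g = mC T.Q →
        pl (fromBlocks g 0 0 1) (fun J => (t J : ℂ)) = fun J => (t J : ℂ))) := by
  obtain ⟨C, hC1, hC3, hC2, hC4⟩ := exists_ctx' hB W
  have hQb : Qb T c 0 = T.Q := by
    ext a b
    rw [Qb, Matrix.of_apply, if_pos (Subsingleton.elim _ _)]
  have hpol : ∀ i, bf (fromBlocks (Qb T c i) 0 0 0) ∈ 𝒜 (Fin 2) := by
    intro i
    rw [Subsingleton.elim i 0, hQb]
    exact hsys.polT
  -- the lift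
  have hlift : ∀ (a : Matrix (Fin n) (Fin n) ℂ) (d : Matrix (Fin w) (Fin w) ℂ),
      FxA 𝒜 (fromBlocks a 0 0 d) → aᵀ * mC T.Q * a = mC T.Q → dᵀ * mC W.E * d = mC W.E →
      ∃ S : Matrix (Fin n) (Fin n) ℂ, Sᵀ * mC T.Q * S = mC T.Q ∧ Fx T W (fromBlocks S 0 0 d) := by
    intro a d hP₀ ha hd
    rcases hrel with ⟨j, h1, h3⟩ | h
    · obtain ⟨d', hd'⟩ : ∃ d', d' = KE W * dᵀ * mC W.E := ⟨_, rfl⟩
      have hdd : d' * d = 1 := by
        rw [hd', mul_assoc, mul_assoc, ← mul_assoc dᵀ, hd, KE_E]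
      have hdd' : d * d' = 1 := mul_eq_one_comm.1 hdd
      have hd'o : d'ᵀ * mC W.E * d' = mC W.E := inv_orth hdd' hd
      have h2 : ∀ a, c a ≠ 0 → j a = 0 := fun a h => absurd (Subsingleton.elim _ _) h
      obtain ⟨U⟩ : Nonempty (Setup (LB T W (C.e 0)) (C.T' 0) W) :=
        exists_setup (LB_pr C.bQ C.bx (C.blk 0) C.surj) (hC1 0 hp) (hC3 0)
      obtain ⟨M, h4, h5, -, -⟩ := lift_fix U (cl_of_map h1 h2 h3 U) h2 (a := 1) hdd hd'o (by
        have h4 : qf T j ∈ 𝒜 (Fin 2 ⊕ Fin 2) := hA _ _ (qf_hodge h1) (qf_supp j)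
        have h5 : pl (fromBlocks 1 0 0 d) (fun J => (qf T j J : ℂ)) =
            fun J => (qf T j J : ℂ) := by
          have h6 : pl (fromBlocks 1 0 0 d) (fun J => (qf T j J : ℂ)) =
              pl (fromBlocks a 0 0 d) (fun J => (qf T j J : ℂ)) := by
            refine pl_agree fun K hK k y => ?_
            obtain ⟨b, hb⟩ := qf_supp (T := T) j K (fun h0 => hK (by simp [h0])) k
            rw [hb]
            rcases y with y | y <;> rfl
          rw [h6]
          exact hP₀ _ _ h4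
        have h6 : (fromBlocks 1 0 0 d * fromBlocks 1 0 0 d' :
            Matrix (Fin n ⊕ Fin w) (Fin n ⊕ Fin w) ℂ) = 1 := by
          rw [Matrix.fromBlocks_multiply]
          simp [hdd']
        have h7 := pl_mul (fromBlocks 1 0 0 d) (fromBlocks 1 0 0 d') (fun J => (qf T j J : ℂ))
        rw [h6, pl_one, h5] at h7
        exact h7.symm)
      rw [hQb] at h5
      refine ⟨M, h5, lift_all hB hsys hpol hA (C := C) hP₀ h5 (bd1 M) hd fun i => ?_⟩
      rw [Subsingleton.elim i 0]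
      exact Or.inl ⟨j, h1, h2, h3, h4⟩
    · refine ⟨1, by rw [Matrix.transpose_one, one_mul, mul_one], fun κ _ _ t ht => ?_⟩
      exact sepA (a := a) (fun l _ _ u hu hs => hP₀ _ _ (hA l u hu hs)) ht (h κ t ht)
  -- the quotient group
  obtain ⟨Γ, hΓ⟩ : ∃ Γ : Set (Matrix (Fin n) (Fin n) ℂ),
      Γ = {g | gᵀ * mC T.Q * g = mC T.Q ∧ FxA 𝒜 (fromBlocks g 0 0 1)} := ⟨_, rfl⟩
  have hmem : ∀ {κ : Type} [Fintype κ] [DecidableEq κ] {t : (κ → Fin n ⊕ Fin w) → ℚ},
      IsH T W t → (∀ g ∈ Γ, pl (fromBlocks g 0 0 1) (fun J => (t J : ℂ)) =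
        fun J => (t J : ℂ)) → t ∈ 𝒜 κ := by
    intro κ _ _ t ht hfix
    refine mem_of_fx hsys ht fun P₀ hP₀ => ?_
    obtain ⟨a, d, rfl, ha, hd⟩ := hP₀.shape hsys
    obtain ⟨S, hSo, hF⟩ := hlift a d hP₀ ha hd
    obtain ⟨g, hg⟩ : ∃ g, g = mC T.Q⁻¹ * Sᵀ * mC T.Q * a := ⟨_, rfl⟩
    have hSg : S * g = a := by
      have h1 : S * mC T.Q⁻¹ * Sᵀ = mC T.Q⁻¹ := orth_inv QQ hSo
      calc S * g = (S * mC T.Q⁻¹ * Sᵀ) * mC T.Q * a := by rw [hg]; simp only [mul_assoc]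
        _ = a := by rw [h1, QQ, one_mul]
    have hgo : gᵀ * mC T.Q * g = mC T.Q := by
      have h1 : gᵀ * (Sᵀ * mC T.Q * S) * g = mC T.Q := by
        calc gᵀ * (Sᵀ * mC T.Q * S) * g = (S * g)ᵀ * mC T.Q * (S * g) := by
              rw [Matrix.transpose_mul]; simp only [mul_assoc]
          _ = mC T.Q := by rw [hSg, ha]
      rwa [hSo] at h1
    have hPG : (fromBlocks a 0 0 d : Matrix (Fin n ⊕ Fin w) (Fin n ⊕ Fin w) ℂ) =
        fromBlocks S 0 0 d * fromBlocks g 0 0 1 := by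
      rw [Matrix.fromBlocks_multiply]
      simp [hSg]
    have hPGt : ∀ {l : Type} [Fintype l] [DecidableEq l] {u : (l → Fin n ⊕ Fin w) → ℚ},
        IsH T W u → pl (fromBlocks a 0 0 d) (fun J => (u J : ℂ)) =
          pl (fromBlocks g 0 0 1) (fun J => (u J : ℂ)) := by
      intro l _ _ u hu
      rw [hPG, pl_mul, hF l u hu]
    rw [hPGt ht]
    refine hfix g ?_
    rw [hΓ]
    refine ⟨hgo, fun l _ _ u hu => ?_⟩
    rw [← hPGt (hsys.hodge _ _ hu)]
    exact hP₀ l u hu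
  have hQdet : (mC (C.T' 0).Q).det ≠ 0 := Qdet (C.T' 0)
  have hdet : ∀ {g : Matrix (Fin n) (Fin n) ℂ}, gᵀ * mC T.Q * g = mC T.Q →
      (g.submatrix (C.e 0) (C.e 0)).det = 1 ∨ (g.submatrix (C.e 0) (C.e 0)).det = -1 :=
    fun hg => det_sq hQdet (sub_orth (C.blk 0) (bd1 _) hg)
  by_cases hcase : ∃ (κ : Type) (_ : Fintype κ) (_ : DecidableEq κ)
      (u : (κ → Fin n ⊕ Fin w) → ℚ), u ∈ 𝒜 κ ∧
        der (fromBlocks T.x 0 0 0) (fun J => (u J : ℂ)) ≠ 0
  · obtain ⟨l, i1, i2, u, hu1, hu2⟩ := hcase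
    have hpm : ∀ g ∈ Γ, g = 1 ∨ g = -1 := by
      intro g hg
      rw [hΓ] at hg
      obtain ⟨hgo, hgf⟩ := hg
      obtain ⟨g', hg'⟩ : ∃ g', g' = mC T.Q⁻¹ * gᵀ * mC T.Q := ⟨_, rfl⟩
      have hgg' : g' * g = 1 := by
        rw [hg', mul_assoc, mul_assoc, ← mul_assoc gᵀ, hgo, QQ]
      have hgg : g * g' = 1 := mul_eq_one_comm.1 hgg'
      obtain ⟨z, hz1, hz2⟩ := one_block C 0 (hC3 0) (hC4 0 hp) (hsys.hodge _ _ hu1)
        (fun _ _ _ _ _ => Subsingleton.elim _ _) (by rw [xof]; exact hu2) (bd1 g) (bd1 g') hgg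
        hgo (hgf _ _ hu1)
      have h1 : g = z • 1 := by
        have h2 := bd_mul_bk (C.blk 0).en (bd1 g) (1 : Matrix (Fin (C.k 0)) (Fin (C.k 0)) ℂ)
        have h3 : bk (C.e 0) (1 : Matrix (Fin (C.k 0)) (Fin (C.k 0)) ℂ) = 1 := by
          have h2 := bk_sum_one C
          rwa [Fin.sum_univ_one] at h2
        rw [hz1, Matrix.mul_one, bk_smul, h3, mul_one] at h2
        exact h2
      rcases hz2 with h | ⟨h, -⟩
      · exact Or.inl (by rw [h1, h, one_smul])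
      · exact Or.inr (by rw [h1, h, neg_one_smul])
    by_cases hneg : (-1 : Matrix (Fin n) (Fin n) ℂ) ∈ Γ
    · refine Or.inr (Or.inl fun κ _ _ t ht => ⟨fun h J hJ => ?_, fun h => ?_⟩)
      · rw [hΓ] at hneg
        have h1 := congrFun (hneg.2 κ t h) J
        rw [pl_neg] at h1
        have h5 : (t J : ℂ) ≠ 0 := by exact_mod_cast hJ
        have h6 : (-1 : ℂ) ^ dT J = 1 := by
          apply mul_right_cancel₀ h5
          rw [h1, one_mul]
        rcases Nat.even_or_odd (dT J) with h | h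
        · exact h
        · exfalso
          rw [h.neg_one_pow] at h6
          norm_num at h6
      · refine hmem ht fun g hg => ?_
        rcases hpm g hg with rfl | rfl
        · rw [Matrix.fromBlocks_one, pl_one]
        · funext J
          rw [pl_neg]
          by_cases hJ : t J = 0
          · rw [hJ, Rat.cast_zero, mul_zero]
          · rw [(h J hJ).neg_one_pow, one_mul]
    · refine Or.inl fun κ _ _ t ht => hmem ht fun g hg => ?_
      rcases hpm g hg with rfl | rfl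
      · rw [Matrix.fromBlocks_one, pl_one]
      · exact absurd hg hneg
  · have hkill : ∀ {κ : Type} [Fintype κ] [DecidableEq κ] {u : (κ → Fin n ⊕ Fin w) → ℚ},
        u ∈ 𝒜 κ → der (fromBlocks T.x 0 0 0) (fun J => (u J : ℂ)) = 0 := by
      intro κ i1 i2 u hu
      by_contra h
      exact hcase ⟨κ, i1, i2, u, hu, h⟩
    have hSO : ∀ {κ : Type} [Fintype κ] [DecidableEq κ] {t : (κ → Fin n ⊕ Fin w) → ℚ}
        {g : Matrix (Fin n) (Fin n) ℂ}, IsH T W t →
        der (fromBlocks T.x 0 0 0) (fun J => (t J : ℂ)) = 0 → gᵀ * mC T.Q * g = mC T.Q →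
        (g.submatrix (C.e 0) (C.e 0)).det = 1 →
        pl (fromBlocks g 0 0 1) (fun J => (t J : ℂ)) = fun J => (t J : ℂ) := by
      intro κ _ _ t g ht hk hg hd
      obtain ⟨h, hh⟩ := lift_so C hg hd
      exact fixT hh ht hk
    by_cases hd : ∃ g₀ ∈ Γ, (g₀.submatrix (C.e 0) (C.e 0)).det = -1
    · obtain ⟨g₀, hg₀, hd₀⟩ := hd
      rw [hΓ] at hg₀
      refine Or.inr (Or.inr (Or.inr fun κ _ _ t ht => ⟨fun h g hg => ?_, fun h => ?_⟩))
      · rcases hdet hg with h1 | h1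
        · exact hSO ht (hkill h) hg h1
        · obtain ⟨g', hg'⟩ : ∃ g', g' = mC T.Q⁻¹ * g₀ᵀ * mC T.Q := ⟨_, rfl⟩
          have hgg' : g' * g₀ = 1 := by
            rw [hg', mul_assoc, mul_assoc, ← mul_assoc g₀ᵀ, hg₀.1, QQ]
          have hgg : g₀ * g' = 1 := mul_eq_one_comm.1 hgg'
          have hg'o : g'ᵀ * mC T.Q * g' = mC T.Q := inv_orth hgg hg₀.1
          have h2 : (g'.submatrix (C.e 0) (C.e 0)).det = -1 := by
            have h3 := congrArg (fun A : Matrix (Fin n) (Fin n) ℂ =>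
              (A.submatrix (C.e 0) (C.e 0)).det) hgg
            rw [sub_mul2 (C.blk 0).en (bd1 g₀), Matrix.det_mul, hd₀, neg_one_mul,
              Matrix.submatrix_one _ (C.blk 0).en.inj, Matrix.det_one] at h3
            rw [← h3, neg_neg]
          have h3 : (fromBlocks g 0 0 1 : Matrix (Fin n ⊕ Fin w) (Fin n ⊕ Fin w) ℂ) =
              fromBlocks g₀ 0 0 1 * fromBlocks (g' * g) 0 0 1 := by
            rw [Matrix.fromBlocks_multiply]
            simp [← mul_assoc, hgg]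
          rw [h3, pl_mul, hg₀.2 κ t h]
          refine hSO ht (hkill h) (mul_orth hg'o hg) ?_
          rw [sub_mul2 (C.blk 0).en (bd1 g'), Matrix.det_mul, h2, h1]
          norm_num
      · refine hmem ht fun g hg => ?_
        rw [hΓ] at hg
        exact h g hg.1
    · refine Or.inr (Or.inr (Or.inl fun κ _ _ t ht => ⟨fun h => hkill h, fun h => ?_⟩))
      refine hmem ht fun g hg => ?_
      rcases hdet (by rw [hΓ] at hg; exact hg.1) with h1 | h1
      · exact hSO ht h (by rw [hΓ] at hg; exact hg.1) h1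
      · exact absurd ⟨g, hg, h1⟩ hd

end

end Pool.Agent.L5helper24.KM
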