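import Pool.Agent.L5helper24.KM.Trans3

/-!
# Transport of Hodge classes, IV: coefficients in a field which embeds into the complex numbers
-/

set_option autoImplicit false
set_option linter.unusedSectionVars false
set_option linter.unusedSimpArgs false

open Matrix Finset Module

namespace Pool.Agent.L5helper24.KM

open Pool.Agent Pool.Agent.W544.PG Pool.Agent.L5helper24.KS Pool.Agent.W216.PG.SOI

noncomputable section

variable {n w r : ℕ} {T T' : HS n} {W W' : HW w} {c : Fin n → Fin r} {p q : Fin r → ℕ}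
  {R : Type} [Field R] [CharZero R]

/-- the pull-back of a rational form under comparison matrices with coefficients in a field -/
def plR {κ : Type} [Fintype κ] [DecidableEq κ] (E : Matrix (Fin n) (Fin n) R) (V : Matrix (Fin w) (Fin w) R)
    (t : (κ → Fin n ⊕ Fin w) → ℚ) (J : κ → Fin n ⊕ Fin w) : R :=
  ∑ K : κ → Fin n ⊕ Fin w, (∏ k, (fromBlocks E 0 0 V :
    Matrix (Fin n ⊕ Fin w) (Fin n ⊕ Fin w) R) (K k) (J k)) * (t K : R)

/-- the comparison matrix of the untwisted classes -/
def PM (f : R →+* ℂ) (s : ℂ) (E : Matrix (Fin n) (Fin n) R) (V : Matrix (Fin w) (Fin w) R) :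
    Matrix (Fin n ⊕ Fin w) (Fin n ⊕ Fin w) ℂ :=
  fromBlocks (E.map f) 0 0 (s⁻¹ • V.map f)

theorem pl_PM {κ : Type} [Fintype κ] [DecidableEq κ] (f : R →+* ℂ) (s : ℂ)
    (E : Matrix (Fin n) (Fin n) R) (V : Matrix (Fin w) (Fin w) R)
    (t : (κ → Fin n ⊕ Fin w) → ℚ) (J : κ → Fin n ⊕ Fin w) :
    pl (PM f s E V) (fun J => (t J : ℂ)) J = s⁻¹ ^ dA J * f (plR E V t J) := by
  rw [PM, pl_scale, pl, plR, map_sum]
  congr 1
  refine Finset.sum_congr rfl fun K _ => ?_
  rw [map_mul, map_prod, map_ratCast]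
  congr 1
  refine Finset.prod_congr rfl fun k _ => ?_
  rcases K k with x | x <;> rcases J k with y | y <;> simp

theorem pl_PM_iff {κ : Type} [Fintype κ] [DecidableEq κ] (f : R →+* ℂ) {s : ℂ} {u : R}
    (hs : s * s = f u) (hu : u ≠ 0) (E : Matrix (Fin n) (Fin n) R) (V : Matrix (Fin w) (Fin w) R)
    {t t' : (κ → Fin n ⊕ Fin w) → ℚ} (ht : IsH T W t) :
    (pl (PM f s E V) (fun J => (t' J : ℂ)) = fun J => (t J : ℂ)) ↔
      ∀ J, plR E V t' J = u ^ (dA J / 2) * (t J : R) := by
  have hs0 : s ≠ 0 := by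
    rintro rfl
    rw [mul_zero] at hs
    exact hu (f.injective (by rw [← hs, map_zero]))
  have key : ∀ J : κ → Fin n ⊕ Fin w, f (u ^ (dA J / 2) * (t J : R)) = s ^ dA J * (t J : ℂ) := by
    intro J
    by_cases h0 : t J = 0
    · rw [h0, Rat.cast_zero, mul_zero, map_zero, Rat.cast_zero, mul_zero]
    · obtain ⟨m, hm⟩ := parity ht h0
      rw [hm, map_mul, map_pow, map_ratCast, ← hs]
      have h2 : (m + m) / 2 = m := by omega
      rw [h2, mul_pow, ← pow_add]
  constructor
  · intro h J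
    apply f.injective
    rw [key J]
    have h1 := congrFun h J
    rw [pl_PM] at h1
    rw [← h1, ← mul_assoc, ← mul_pow, mul_inv_cancel₀ hs0, one_pow, one_mul]
  · intro h
    funext J
    rw [pl_PM, h J, key J, ← mul_assoc, ← mul_pow, inv_mul_cancel₀ hs0, one_pow, one_mul]

end

end Pool.Agent.L5helper24.KM
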