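import Pool.Agent.L5helper24.KM.Four
import Pool.Agent.L5helper24.KM.Trans4

/-!
# Intersections of systems
-/

set_option autoImplicit false
set_option linter.unusedSectionVars false
set_option linter.unusedSimpArgs false

open Matrix Finset Module

namespace Pool.Agent.L5helper24.KM

open Pool.Agent Pool.Agent.W544.PG Pool.Agent.L5helper24.KS Pool.Agent.W216.PG.SOI

noncomputable section

variable {n w : ℕ} {T : HS n} {W : HW w}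

theorem IsSys.inf {I : Type} {𝒜 : ∀ κ : Type, Submodule ℚ ((κ → Fin n ⊕ Fin w) → ℚ)}
    {ℬ : I → ∀ κ : Type, Submodule ℚ ((κ → Fin n ⊕ Fin w) → ℚ)} (h : IsSys T W 𝒜)
    (h' : ∀ i, IsSys T W (ℬ i)) : IsSys T W fun κ => 𝒜 κ ⊓ ⨅ i, ℬ i κ := by
  have hm : ∀ {κ : Type} {t : (κ → Fin n ⊕ Fin w) → ℚ}, t ∈ 𝒜 κ ⊓ ⨅ i, ℬ i κ ↔
      t ∈ 𝒜 κ ∧ ∀ i, t ∈ ℬ i κ := by
    intro κ t
    rw [Submodule.mem_inf, Submodule.mem_iInf]
  refine ⟨fun κ _ _ t ht => h.hodge κ t (hm.1 ht).1, ?_, ?_, ?_, ?_, ?_, ?_, ?_⟩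
  · intro κ l _ _ e t ht
    exact hm.2 ⟨h.rei κ l e t (hm.1 ht).1, fun i => (h' i).rei κ l e t ((hm.1 ht).2 i)⟩
  · exact hm.2 ⟨h.one, fun i => (h' i).one⟩
  · intro κ l _ _ t u ht hu
    exact hm.2 ⟨h.mul κ l t u (hm.1 ht).1 (hm.1 hu).1, fun i =>
      (h' i).mul κ l t u ((hm.1 ht).2 i) ((hm.1 hu).2 i)⟩
  · intro κ _ t ht
    exact hm.2 ⟨h.ctrT κ t (hm.1 ht).1, fun i => (h' i).ctrT κ t ((hm.1 ht).2 i)⟩
  · intro κ _ t ht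
    exact hm.2 ⟨h.ctrA κ t (hm.1 ht).1, fun i => (h' i).ctrA κ t ((hm.1 ht).2 i)⟩
  · exact hm.2 ⟨h.polT, fun i => (h' i).polT⟩
  · exact hm.2 ⟨h.polA, fun i => (h' i).polA⟩

end

end Pool.Agent.L5helper24.KM
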