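import Pool.Agent.L5helper24.KM.Ctx
import Pool.Agent.L5helper24.KM.Flow

/-!
# Elements which fix all Hodge classes
-/

set_option autoImplicit false
set_option linter.unusedSectionVars false

open Matrix Finset Module

namespace Pool.Agent.L5helper24.KM

open Pool.Agent Pool.Agent.W544.PG Pool.Agent.L5helper24.KS Pool.Agent.W216.PG.SOI

noncomputable section

variable {n w r : ℕ} {T : HS n} {W : HW w} {c : Fin n → Fin r}

section
variable {ι ι' κ : Type} [Fintype ι] [DecidableEq ι] [Fintype ι'] [DecidableEq ι']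
  [Fintype κ] [DecidableEq κ]

theorem act_der {m : ℕ} (f : ι' ≃ ι) (g : κ ≃ Fin m) (X : Matrix ι ι ℂ) (t : (κ → ι) → ℂ)
    (J : Fin m → ι') : act (X.submatrix f f) (fun J => t fun k => f (J (g k))) J =
      der X t fun k => f (J (g k)) := by
  rw [act, der, ← Equiv.sum_comp g]
  refine Finset.sum_congr rfl fun k _ => ?_
  rw [← Equiv.sum_comp f]
  refine Finset.sum_congr rfl fun l _ => ?_
  rw [Matrix.submatrix_apply]
  congr 2
  funext k'
  by_cases h : k' = k
  · subst h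
    simp
  · rw [Function.update_of_ne h, Function.update_of_ne (fun h' => h (g.injective h'))]

end

/-- the Hodge operator of `T ⊕ H_1(A)` -/
def hop (T : HS n) (W : HW w) : Matrix (Fin n ⊕ Fin w) (Fin n ⊕ Fin w) ℂ :=
  fromBlocks T.x 0 0 W.y

/-- A rational multilinear form on `T ⊕ H_1(A)` is a Hodge class. -/
def IsH (T : HS n) (W : HW w) {κ : Type} [Fintype κ] [DecidableEq κ]
    (t : (κ → Fin n ⊕ Fin w) → ℚ) : Prop :=
  der (hop T W) (fun J => (t J : ℂ)) = 0

/-- the reindexing -/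
def fe (n w : ℕ) : (Fin 0 ⊕ Fin n) ⊕ Fin w ≃ Fin n ⊕ Fin w :=
  Equiv.sumCongr (Equiv.emptySum (Fin 0) (Fin n)) (Equiv.refl _)

theorem NN_eq (Z : Matrix (Fin n) (Fin n) ℂ) (V : Matrix (Fin w) (Fin w) ℂ) :
    NN 0 w Z V = (fromBlocks Z 0 0 V).submatrix (fe n w) (fe n w) := by
  ext a b
  rcases a with (a | a) | a <;> rcases b with (b | b) | b
  all_goals first | exact a.elim0 | exact b.elim0 | rfl

/-- Hodge classes are killed by the Lie algebra. -/
theorem LL_kill {κ : Type} [Fintype κ] [DecidableEq κ] {t : (κ → Fin n ⊕ Fin w) → ℚ}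
    (ht : IsH T W t) {Z : Matrix (Fin n) (Fin n) ℂ} {V : Matrix (Fin w) (Fin w) ℂ}
    (h : (Z, V) ∈ LL T W) : der (fromBlocks Z 0 0 V) (fun J => (t J : ℂ)) = 0 := by
  obtain ⟨g⟩ : Nonempty (κ ≃ Fin (Fintype.card κ)) := ⟨Fintype.equivFin κ⟩
  have h0 : NN 0 w Z V ∈ hX (xT T W 0) := h
  have h1 := h0 (Fintype.card κ) (fun J => t fun k => fe n w (J (g k))) ?_
  · funext J
    have h2 := congrFun h1 (fun m => (fe n w).symm (J (g.symm m)))
    rw [NN_eq] at h2
    have h3 := act_der (fe n w) g (fromBlocks Z 0 0 V) (fun J => (t J : ℂ))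
      (fun m => (fe n w).symm (J (g.symm m)))
    have h4 : (fun k => fe n w ((fun m => (fe n w).symm (J (g.symm m))) (g k))) = J := by
      funext k
      simp
    rw [h4] at h3
    rw [← h3]
    exact h2
  · funext J
    rw [xT_eq, NN_eq]
    have h3 := act_der (fe n w) g (fromBlocks T.x 0 0 W.y) (fun J => (t J : ℂ)) J
    have h4 := congrFun ht (fun k => fe n w (J (g k)))
    rw [Pi.zero_apply] at h4
    rw [Pi.zero_apply, ← h4]
    exact h3

/-- `P` fixes all Hodge classes. -/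
def Fx (T : HS n) (W : HW w) (P : Matrix (Fin n ⊕ Fin w) (Fin n ⊕ Fin w) ℂ) : Prop :=
  ∀ (κ : Type) [Fintype κ] [DecidableEq κ] (t : (κ → Fin n ⊕ Fin w) → ℚ), IsH T W t →
    pl P (fun J => (t J : ℂ)) = fun J => (t J : ℂ)

theorem Fx.one : Fx T W 1 := fun _ _ _ _ _ => pl_one _

theorem Fx.mul {P P' : Matrix (Fin n ⊕ Fin w) (Fin n ⊕ Fin w) ℂ} (h : Fx T W P)
    (h' : Fx T W P') : Fx T W (P * P') := by
  intro κ _ _ t ht
  rw [pl_mul, h κ t ht, h' κ t ht]

/-- the block matrix completed by the identity -/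
def bk1 {k : ℕ} (e : Fin k → Fin n) (A : Matrix (Fin k) (Fin k) ℂ) : Matrix (Fin n) (Fin n) ℂ :=
  1 + bk e (A - 1)

theorem bk1_mul {k : ℕ} {e : Fin k → Fin n} (he : Function.Injective e)
    (A B : Matrix (Fin k) (Fin k) ℂ) : bk1 e A * bk1 e B = bk1 e (A * B) := by
  rw [bk1, bk1, bk1, add_mul, mul_add, mul_add, one_mul, one_mul, mul_one, bk_mul he,
    add_assoc, ← add_assoc (bk e (B - 1)), ← bk_add, ← bk_add]
  congr 2
  rw [sub_mul, mul_sub, mul_sub, one_mul, mul_one, mul_one]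
  abel

theorem bk1_one {k : ℕ} {e : Fin k → Fin n} : bk1 e 1 = 1 := by
  rw [bk1, sub_self, bk_zero, add_zero]

theorem rot_bk {k : ℕ} {e : Fin k → Fin n} (he : Function.Injective e)
    (Z : Matrix (Fin k) (Fin k) ℂ) (θ : ℂ) : rot (bk e Z) θ = bk1 e (rot Z θ) := by
  rw [rot, bk1, rot, bk_mul he, ← bk_smul, ← bk_smul, add_assoc, ← bk_add, add_assoc]
  congr 2
  abel

theorem exists_orth (C : Ctx T c W) (i : Fin r) : ∃ g g' : Matrix (Fin (C.k i)) (Fin (C.k i)) ℂ,
    g' * g = 1 ∧ g * g' = 1 ∧ gᵀ * mC (C.T' i).Q = g' ∧ mC (C.T' i).Q * g = g'ᵀ ∧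
    g'ᵀ * g' = mC (C.T' i).Q := by
  have hdet : (mC (C.T' i).Q).det ≠ 0 := by
    rw [det_mC]
    exact_mod_cast W74.PG.det_ne (C.T' i)
  have hsym : (mC (C.T' i).Q)ᵀ = mC (C.T' i).Q := by rw [W544.PG.mC_T, (C.T' i).symm]
  obtain ⟨g, hg⟩ := W557.PG.orth (mC (C.T' i).Q) hsym hdet
  have e1 : (gᵀ * mC (C.T' i).Q) * g = 1 := hg
  have e2 : g * (gᵀ * mC (C.T' i).Q) = 1 := mul_eq_one_comm.1 e1
  have e3 : mC (C.T' i).Q * g = (gᵀ * mC (C.T' i).Q)ᵀ := by
    rw [Matrix.transpose_mul, Matrix.transpose_transpose, hsym]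
  refine ⟨g, _, e1, e2, rfl, e3, ?_⟩
  rw [← e3, mul_assoc, e2, mul_one]

/-- Elements of the special orthogonal group of a piece lift. -/
theorem lift_block (C : Ctx T c W) (i : Fin r) {A : Matrix (Fin (C.k i)) (Fin (C.k i)) ℂ}
    (hA : Aᵀ * mC (C.T' i).Q * A = mC (C.T' i).Q) (hdet : A.det = 1) :
    ∃ h : Matrix (Fin w) (Fin w) ℂ, Fx T W (fromBlocks (bk1 (C.e i) A) 0 0 h) := by
  obtain ⟨g, g', e1, e2, e3, e4, e5⟩ := exists_orth C i
  have he := (C.blk i).en.inj
  have key : ∀ R ∈ RG (C.k i), ∃ h : Matrix (Fin w) (Fin w) ℂ,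
      Fx T W (fromBlocks (bk1 (C.e i) (g * R * g')) 0 0 h) := by
    intro R hR
    induction hR using Submonoid.closure_induction with
    | mem x hx =>
      obtain ⟨Z, θ, h1, h2, rfl⟩ := hx
      have hZs : (g * Z * g')ᵀ * mC (C.T' i).Q + mC (C.T' i).Q * (g * Z * g') = 0 := by
        rw [Matrix.transpose_mul, Matrix.transpose_mul, mul_assoc g'ᵀ, mul_assoc Zᵀ, e3,
          ← mul_assoc (mC (C.T' i).Q), ← mul_assoc (mC (C.T' i).Q), e4, h1, mul_assoc g'ᵀ Z,
          ← mul_add, ← add_mul, neg_add_cancel, zero_mul, mul_zero]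
      obtain ⟨V, hV⟩ := C.surj _ (bk_skew C.bQ (C.blk i) hZs) (bk_BD (C.blk i).en _)
      have h3 : g * Z * g' * (g * Z * g') = g * (Z * Z) * g' := by
        calc g * Z * g' * (g * Z * g') = g * Z * (g' * g) * Z * g' := by simp only [mul_assoc]
          _ = _ := by rw [e1, mul_one]; simp only [mul_assoc]
      have h4 : g * Z * g' * (g * Z * g') * (g * Z * g') = -(g * Z * g') := by
        rw [h3]
        calc g * (Z * Z) * g' * (g * Z * g') = g * (Z * Z) * (g' * g) * Z * g' := by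
              simp only [mul_assoc]
          _ = g * (Z * Z * Z) * g' := by rw [e1, mul_one]; simp only [mul_assoc]
          _ = _ := by rw [h2, mul_neg, neg_mul]
      have h5 : bk (C.e i) (g * Z * g') * bk (C.e i) (g * Z * g') * bk (C.e i) (g * Z * g') =
          -bk (C.e i) (g * Z * g') := by
        rw [bk_mul he, bk_mul he, h4, ← neg_one_smul ℂ (g * Z * g'), bk_smul, neg_one_smul]
      obtain ⟨h, hh⟩ := exists_flow V h5
      refine ⟨h θ, fun κ _ _ t ht => ?_⟩
      have h6 := hh κ _ (LL_kill ht hV) θ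
      have h7 : rot (bk (C.e i) (g * Z * g')) θ = bk1 (C.e i) (g * rot Z θ * g') := by
        rw [rot_bk he]
        congr 1
        rw [rot, rot, h3, mul_add, mul_add, add_mul, add_mul, mul_one, e2, mul_smul_comm,
          mul_smul_comm, smul_mul_assoc, smul_mul_assoc]
      rw [h7] at h6
      exact h6
    | one =>
      refine ⟨1, ?_⟩
      rw [mul_one, e2, bk1_one, Matrix.fromBlocks_one]
      exact Fx.one
    | mul x y _ _ hx hy =>
      obtain ⟨h, hh⟩ := hx
      obtain ⟨h', hh'⟩ := hy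
      refine ⟨h * h', ?_⟩
      have h1 := hh.mul hh'
      rw [Matrix.fromBlocks_multiply] at h1
      simp only [Matrix.mul_zero, Matrix.zero_mul, add_zero, zero_add] at h1
      rw [bk1_mul he] at h1
      have h2 : g * x * g' * (g * y * g') = g * (x * y) * g' := by
        calc g * x * g' * (g * y * g') = g * x * (g' * g) * y * g' := by simp only [mul_assoc]
          _ = _ := by rw [e1, mul_one]; simp only [mul_assoc]
      rwa [h2] at h1
  have hR : (g' * A * g)ᵀ * (g' * A * g) = 1 := by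
    calc (g' * A * g)ᵀ * (g' * A * g) = gᵀ * (Aᵀ * (g'ᵀ * g') * A) * g := by
          rw [Matrix.transpose_mul, Matrix.transpose_mul]; simp only [mul_assoc]
      _ = 1 := by rw [e5, hA, e3, e1]
  have hR2 : (g' * A * g).det = 1 := by
    have h1 := congrArg Matrix.det e1
    rw [Matrix.det_mul, Matrix.det_one] at h1
    rw [Matrix.det_mul, Matrix.det_mul, hdet, mul_one, h1]
  obtain ⟨h, hh⟩ := key _ (so_gen hR hR2)
  refine ⟨h, ?_⟩
  have h3 : g * (g' * A * g) * g' = A := by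
    calc g * (g' * A * g) * g' = (g * g') * A * (g * g') := by simp only [mul_assoc]
      _ = A := by rw [e2, one_mul, mul_one]
  rwa [h3] at hh

set_option maxHeartbeats 400000 in
/-- The central element. -/
theorem lift_central (C : Ctx T c W) {i : Fin r} {P : Matrix (Fin w) (Fin w) ℚ}
    {R : Matrix (Fin w) (Fin w) ℂ} (h : PD C i P R) :
    Fx T W (fromBlocks 1 0 0 (1 - (2 : ℂ) • mC P)) := by
  intro κ _ _ t ht
  have he := (C.blk i).en.inj
  have h1 := (LL T W).smul_mem Complex.I (mem_orth'.1 h.mR).1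
  rw [Prod.smul_mk] at h1
  have hI : Complex.I * (Complex.I * Complex.I) = -Complex.I := by
    rw [Complex.I_mul_I]; ring
  have h2 : (Complex.I) • bk (C.e i) (C.T' i).x * ((Complex.I) • bk (C.e i) (C.T' i).x) *
      ((Complex.I) • bk (C.e i) (C.T' i).x) = -((Complex.I) • bk (C.e i) (C.T' i).x) := by
    simp only [smul_mul_assoc, mul_smul_comm, smul_smul]
    rw [bk_mul he, bk_mul he, (C.T' i).cube, hI, neg_smul]
  have hR3 : R * R * R = (1 / 4 : ℂ) • R := by
    have h3 : R * R = (1 / 4 : ℂ) • mC P := by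
      rw [← h.RR, smul_smul]; norm_num
    rw [h3, smul_mul_assoc, (h.eV _ _ h.mR).1]
  have h4 : ((2 : ℂ) • Complex.I • R) * ((2 : ℂ) • Complex.I • R) = -mC P := by
    simp only [smul_mul_assoc, mul_smul_comm, smul_smul]
    have h3 : R * R = (1 / 4 : ℂ) • mC P := by
      rw [← h.RR, smul_smul]; norm_num
    rw [h3, smul_smul]
    have : 2 * (Complex.I * (2 * Complex.I)) * (1 / 4) = -1 := by
      ring_nf
      rw [Complex.I_sq]
    have h5 : 2 * Complex.I * 2 * Complex.I * (1 / 4) = (-1 : ℂ) := by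
      rw [← this]; ring
    first
      | rw [this, neg_one_smul]
      | rw [h5, neg_one_smul]
      | (have h6 : ∀ z : ℂ, z = -1 → z • mC P = -mC P := fun z hz => by rw [hz, neg_one_smul]
         apply h6
         rw [← this]
         ring)
  have h5 : ((2 : ℂ) • Complex.I • R) * ((2 : ℂ) • Complex.I • R) * ((2 : ℂ) • Complex.I • R) =
      -((2 : ℂ) • Complex.I • R) := by
    rw [h4, neg_mul, mul_smul_comm, mul_smul_comm, (h.eV _ _ h.mR).1]
  have h6 := rot_flow (V2 := (2 : ℂ) • Complex.I • R) h2 rfl h5 (LL_kill ht h1) (2 * Real.pi)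
  have h7 : rot ((Complex.I) • bk (C.e i) (C.T' i).x) (2 * Real.pi) = 1 := by
    rw [rot, Complex.sin_two_pi, Complex.cos_two_pi]
    simp
  have h8 : rot ((2 : ℂ) • Complex.I • R) (2 * Real.pi / 2) = 1 - (2 : ℂ) • mC P := by
    have e1 : (2 * Real.pi / 2 : ℂ) = Real.pi := by ring
    rw [rot, h4, e1, Complex.sin_pi, Complex.cos_pi]
    module
  rw [h7, h8] at h6
  exact h6

end

end Pool.Agent.L5helper24.KM
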