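import Pool.Agent.L5helper24.KM.Clo2

/-!
# Multilinear expansions
-/

set_option autoImplicit false
set_option linter.unusedSectionVars false
set_option linter.unusedSimpArgs false

open Matrix Finset Module

namespace Pool.Agent.L5helper24.KM

noncomputable section

variable {ι κ : Type} [Fintype ι] [DecidableEq ι] [Fintype κ] [DecidableEq κ]
  {R S : Type} [CommRing R] [CommRing S]

/-- pull-back along a family of matrices -/
def plv (A : κ → Matrix ι ι R) (t : (κ → ι) → R) : (κ → ι) → R :=
  fun J => ∑ K : κ → ι, (∏ j, A j (K j) (J j)) * t K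

theorem plv_const (P : Matrix ι ι ℂ) (t : (κ → ι) → ℂ) : plv (fun _ => P) t = pl P t := rfl

theorem plv_mul (A B : κ → Matrix ι ι R) (t : (κ → ι) → R) :
    plv (fun k => A k * B k) t = plv B (plv A t) := by
  funext J
  unfold plv
  simp only [Finset.mul_sum]
  rw [Finset.sum_comm]
  refine Finset.sum_congr rfl fun L _ => ?_
  simp only [← mul_assoc]
  rw [← Finset.sum_mul]
  congr 1
  simp only [Matrix.mul_apply]
  rw [Finset.prod_univ_sum]
  refine Finset.sum_bij (fun K _ => K) ?_ ?_ ?_ ?_
  · intro K _
    exact Finset.mem_univ _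
  · intro K _ K' _ h
    exact h
  · intro K _
    exact ⟨K, by simp, rfl⟩
  · intro K _
    rw [← Finset.prod_mul_distrib]
    exact Finset.prod_congr rfl fun j _ => mul_comm _ _

theorem plv_one (t : (κ → ι) → R) : plv (fun _ => (1 : Matrix ι ι R)) t = t := by
  funext J
  unfold plv
  rw [Finset.sum_eq_single J]
  · rw [Finset.prod_eq_one, one_mul]
    intro j _
    exact Matrix.one_apply_eq _
  · intro K _ hK
    obtain ⟨j, hj⟩ := Function.ne_iff.1 hK
    rw [Finset.prod_eq_zero (Finset.mem_univ j), zero_mul]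
    exact Matrix.one_apply_ne hj
  · intro h
    exact absurd (Finset.mem_univ _) h

theorem plv_map (f : R →+* S) (A : κ → Matrix ι ι R) (t : (κ → ι) → R) :
    plv (fun k => (A k).map f) (fun J => f (t J)) = fun J => f (plv A t J) := by
  funext J
  unfold plv
  rw [map_sum]
  refine Finset.sum_congr rfl fun K _ => ?_
  rw [map_mul, map_prod]
  rfl

theorem plv_zero (A : κ → Matrix ι ι R) : plv A 0 = 0 := by
  funext J
  simp [plv]

theorem plv_sum {α : Type} (s : Finset α) (A : κ → Matrix ι ι R) (t : α → (κ → ι) → R) :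
    plv A (∑ a ∈ s, t a) = ∑ a ∈ s, plv A (t a) := by
  funext J
  rw [Finset.sum_apply]
  unfold plv
  rw [Finset.sum_comm]
  refine Finset.sum_congr rfl fun K _ => ?_
  rw [Finset.sum_apply, Finset.mul_sum]

theorem plv_add (A B : Matrix ι ι R) (t : (κ → ι) → R) :
    plv (fun _ => A + B) t = ∑ s : Finset κ, plv (fun k => if k ∈ s then A else B) t := by
  funext J
  rw [Finset.sum_apply]
  unfold plv
  rw [Finset.sum_comm]
  refine Finset.sum_congr rfl fun K _ => ?_
  rw [← Finset.sum_mul]
  congr 1
  simp only [Matrix.add_apply]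
  rw [Finset.prod_add, Finset.powerset_univ]
  refine Finset.sum_congr rfl fun s _ => ?_
  rw [← Finset.prod_mul_prod_compl s, Finset.compl_eq_univ_sdiff]
  congr 1
  · refine Finset.prod_congr rfl fun k hk => ?_
    rw [if_pos hk]
  · refine Finset.prod_congr rfl fun k hk => ?_
    rw [if_neg (Finset.mem_sdiff.1 hk).2]

theorem plv_upd (k : κ) (Y : Matrix ι ι R) (t : (κ → ι) → R) (J : κ → ι) :
    plv (Function.update (fun _ => 1) k Y) t J =
      ∑ l, Y l (J k) * t (Function.update J k l) := by
  unfold plv
  symm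
  refine Finset.sum_of_injOn (fun l => Function.update J k l) ?_ ?_ ?_ ?_
  · intro l _ l' _ h
    exact Function.update_injective J k h
  · intro l _
    exact Finset.mem_coe.2 (Finset.mem_univ _)
  · intro K _ hK
    have h1 : ∃ j, j ≠ k ∧ K j ≠ J j := by
      by_contra hcon
      push Not at hcon
      apply hK
      refine ⟨K k, Finset.mem_coe.2 (Finset.mem_univ _), ?_⟩
      funext j
      by_cases hj : j = k
      · subst hj
        simp
      · simp only [Function.update_of_ne hj, hcon j hj]
    obtain ⟨j, hj, hj'⟩ := h1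
    rw [Finset.prod_eq_zero (Finset.mem_univ j), zero_mul]
    rw [Function.update_of_ne hj, Matrix.one_apply_ne hj']
  · intro l _
    congr 1
    rw [← Finset.mul_prod_erase univ _ (Finset.mem_univ k), Function.update_self,
      Function.update_self, Finset.prod_eq_one, mul_one]
    intro j hj
    rw [Function.update_of_ne (Finset.ne_of_mem_erase hj),
      Function.update_of_ne (Finset.ne_of_mem_erase hj), Matrix.one_apply_eq]

/-- the derivation given by a family of matrices -/
def derv (C : κ → Matrix ι ι R) (t : (κ → ι) → R) : (κ → ι) → R :=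
  fun J => ∑ j, ∑ l, C j l (J j) * t (Function.update J j l)

theorem derv_const (X : Matrix ι ι ℂ) (t : (κ → ι) → ℂ) : derv (fun _ => X) t = der X t := rfl

theorem derv_eq (C : κ → Matrix ι ι R) (t : (κ → ι) → R) :
    derv C t = ∑ k, plv (Function.update (fun _ => 1) k (C k)) t := by
  funext J
  rw [Finset.sum_apply, derv]
  refine Finset.sum_congr rfl fun k _ => ?_
  rw [plv_upd]

theorem plv_derv {A Y C : κ → Matrix ι ι R} (h : ∀ k, Y k * A k = A k * C k)
    (t : (κ → ι) → R) : plv A (derv Y t) = derv C (plv A t) := by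
  rw [derv_eq, derv_eq, plv_sum]
  refine Finset.sum_congr rfl fun k _ => ?_
  rw [← plv_mul, ← plv_mul]
  congr 1
  funext j
  by_cases hj : j = k
  · subst hj
    rw [Function.update_self, Function.update_self, h]
  · rw [Function.update_of_ne hj, Function.update_of_ne hj, one_mul, mul_one]

/-- replacing the values on a subset -/
def mg (s : Finset κ) (J : κ → ι) (K : {k // k ∈ s} → ι) : κ → ι :=
  fun k => if h : k ∈ s then K ⟨k, h⟩ else J k

/-- fixing the variables outside a subset -/
def pe (s : Finset κ) (J : κ → ι) (u : (κ → ι) → R) : ({k // k ∈ s} → ι) → R :=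
  fun K => u (mg s J K)

theorem mg_res (s : Finset κ) (J : κ → ι) (K : {k // k ∈ s} → ι) :
    (fun k : {k // k ∈ s} => mg s J K k.1) = K := by
  funext k
  rw [mg, dif_pos k.2]

theorem mg_mg (s : Finset κ) (J : κ → ι) (K : {k // k ∈ s} → ι) : mg s (mg s J K) = mg s J := by
  funext K' k
  by_cases h : k ∈ s
  · rw [mg, dif_pos h, mg, dif_pos h]
  · rw [mg, dif_neg h, mg, dif_neg h, mg, dif_neg h]

theorem mg_self (s : Finset κ) (J : κ → ι) : mg s J (fun k => J k.1) = J := by
  funext k
  by_cases h : k ∈ s
  · rw [mg, dif_pos h]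
  · rw [mg, dif_neg h]

theorem pe_plv (s : Finset κ) (P : Matrix ι ι R) (u : (κ → ι) → R) (J : κ → ι) :
    plv (fun k => if k ∈ s then P else 1) u J = plv (fun _ => P) (pe s J u) fun k => J k.1 := by
  unfold plv
  symm
  refine Finset.sum_of_injOn (mg s J) ?_ ?_ ?_ ?_
  · intro K _ K' _ h
    rw [← mg_res s J K, ← mg_res s J K', h]
  · intro l _
    exact Finset.mem_coe.2 (Finset.mem_univ _)
  · intro K _ hK
    have h1 : ∃ j, j ∉ s ∧ K j ≠ J j := by
      by_contra hcon
      push Not at hcon
      apply hK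
      refine ⟨fun k => K k.1, Finset.mem_coe.2 (Finset.mem_univ _), ?_⟩
      funext j
      by_cases hj : j ∈ s
      · rw [mg, dif_pos hj]
      · rw [mg, dif_neg hj, hcon j hj]
    obtain ⟨j, hj, hj'⟩ := h1
    rw [Finset.prod_eq_zero (Finset.mem_univ j), zero_mul]
    show (if j ∈ s then P else 1) (K j) (J j) = 0
    rw [if_neg hj, Matrix.one_apply_ne hj']
  · intro K _
    congr 1
    rw [← Finset.prod_mul_prod_compl s, Finset.prod_eq_one (s := sᶜ), mul_one,
      ← Finset.prod_coe_sort s]
    · refine Finset.prod_congr rfl fun k _ => ?_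
      show P (K k) (J k.1) = (if k.1 ∈ s then P else 1) (mg s J K k.1) (J k.1)
      rw [if_pos k.2, mg, dif_pos k.2]
    · intro k hk
      show (if k ∈ s then P else 1) (mg s J K k) (J k) = 1
      rw [if_neg (Finset.mem_compl.1 hk), mg, dif_neg (Finset.mem_compl.1 hk),
        Matrix.one_apply_eq]

theorem pe_derv (s : Finset κ) (X : Matrix ι ι R) (u : (κ → ι) → R) (J : κ → ι) :
    derv (fun k => if k ∈ s then X else 0) u J = derv (fun _ => X) (pe s J u) fun k => J k.1 := by
  unfold derv
  rw [← Finset.sum_add_sum_compl s, Finset.sum_eq_zero (s := sᶜ), add_zero,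
    ← Finset.sum_coe_sort s]
  · refine Finset.sum_congr rfl fun k _ => Finset.sum_congr rfl fun l _ => ?_
    show (if k.1 ∈ s then X else 0) l (J k.1) * u (Function.update J k.1 l) =
      X l (J k.1) * pe s J u (Function.update (fun k : {k // k ∈ s} => J k.1) k l)
    rw [if_pos k.2, pe]
    congr 2
    funext j
    by_cases hj : j ∈ s
    · rw [mg, dif_pos hj]
      by_cases hjk : j = k.1
      · subst hjk
        rw [Function.update_self, Function.update_self]
      · rw [Function.update_of_ne hjk,
          Function.update_of_ne (fun h => hjk (congrArg Subtype.val h))]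
    · rw [mg, dif_neg hj, Function.update_of_ne (fun h => hj (by rw [h]; exact k.2))]
  · intro k hk
    refine Finset.sum_eq_zero fun l _ => ?_
    show (if k ∈ s then X else 0) l (J k) * u (Function.update J k l) = 0
    rw [if_neg (Finset.mem_compl.1 hk), Matrix.zero_apply, zero_mul]

theorem pe_derv' (s : Finset κ) (X : Matrix ι ι R) {u : (κ → ι) → R}
    (h : derv (fun k => if k ∈ s then X else 0) u = 0) (J : κ → ι) :
    derv (fun _ => X) (pe s J u) = 0 := by
  funext K
  have h1 := pe_derv s X u (mg s J K)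
  rw [h, mg_res] at h1
  have h2 : pe s (mg s J K) u = pe s J u := by
    funext K'
    rw [pe, pe, mg_mg]
  rw [h2] at h1
  exact h1.symm

theorem pe_plv' (s : Finset κ) (P : Matrix ι ι R) {u : (κ → ι) → R}
    (h : plv (fun k => if k ∈ s then P else 1) u = u) (J : κ → ι) :
    plv (fun _ => P) (pe s J u) = pe s J u := by
  funext K
  have h1 := pe_plv s P u (mg s J K)
  rw [h, mg_res] at h1
  have h2 : pe s (mg s J K) u = pe s J u := by
    funext K'
    rw [pe, pe, mg_mg]
  rw [h2] at h1
  exact h1.symm

theorem map_ite {p : Prop} [Decidable p] (f : R → S) (A B : Matrix ι ι R) :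
    (if p then A.map f else B.map f) = (if p then A else B).map f := by
  split_ifs <;> rfl

/-- **The expansion argument.** -/
theorem mix {t : (κ → ι) → ℚ} {F G : Matrix ι ι ℚ} {X Y P : Matrix ι ι ℂ} (hFG : F + G = 1)
    (hF : F * F = F) (hG : G * G = G) (hY : der Y (fun J => (t J : ℂ)) = 0)
    (hYF : Y * F.map (Rat.castHom ℂ) = F.map (Rat.castHom ℂ) * X)
    (hYG : Y * G.map (Rat.castHom ℂ) = 0) (hP : G.map (Rat.castHom ℂ) * P = G.map (Rat.castHom ℂ))
    (H : ∀ (l : Type) [Fintype l] [DecidableEq l] (β : (l → ι) → ℚ),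
      der X (fun J => (β J : ℂ)) = 0 →
      pl P (fun J => ((plv (fun _ => F) β J : ℚ) : ℂ)) =
        fun J => ((plv (fun _ => F) β J : ℚ) : ℂ)) :
    pl P (fun J => (t J : ℂ)) = fun J => (t J : ℂ) := by
  obtain ⟨cF, hcF⟩ : ∃ cF, cF = F.map (Rat.castHom ℂ) := ⟨_, rfl⟩
  obtain ⟨cG, hcG⟩ : ∃ cG, cG = G.map (Rat.castHom ℂ) := ⟨_, rfl⟩
  obtain ⟨ct, hct⟩ : ∃ ct : (κ → ι) → ℂ, ct = fun J => (t J : ℂ) := ⟨_, rfl⟩
  rw [← hcF] at hYF
  rw [← hcG] at hYG hP
  rw [← hct] at hY ⊢
  have h1 : cF + cG = 1 := by
    rw [hcF, hcG, ← Matrix.map_add _ (by simp), hFG]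
    ext i j
    rw [Matrix.map_apply, Matrix.one_apply, Matrix.one_apply]
    split_ifs <;> simp
  have h2 : P = cF * P + cG := by
    calc P = (cF + cG) * P := by rw [h1, one_mul]
      _ = _ := by rw [add_mul, hP]
  have key : ∀ s : Finset κ, plv (fun k => if k ∈ s then cF * P else cG) ct =
      plv (fun k => if k ∈ s then cF else cG) ct := by
    intro s
    obtain ⟨u, hu⟩ : ∃ u, u = plv (fun k => if k ∈ s then F else G) t := ⟨_, rfl⟩
    have hcu : plv (fun k => if k ∈ s then cF else cG) ct = fun J => (u J : ℂ) := by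
      have h3 := plv_map (Rat.castHom ℂ) (fun k => if k ∈ s then F else G) t
      rw [← hu] at h3
      have h4 : (fun k => (if k ∈ s then F else G).map (Rat.castHom ℂ)) =
          fun k => if k ∈ s then cF else cG := by
        funext k
        rw [hcF, hcG]
        split_ifs <;> rfl
      rw [h4] at h3
      rw [hct]
      exact h3
    have h5 : plv (fun k => if k ∈ s then cF * P else cG) ct =
        plv (fun k => if k ∈ s then P else 1) (fun J => (u J : ℂ)) := by
      rw [← hcu, ← plv_mul]
      congr 1
      funext k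
      split_ifs
      · rfl
      · rw [mul_one]
    rw [h5, hcu]
    funext J
    rw [pe_plv]
    have h6 : (pe s J fun J => (u J : ℂ)) = fun K => ((pe s J u K : ℚ) : ℂ) := rfl
    have h7 : plv (fun _ => F) (pe s J u) = pe s J u := by
      apply pe_plv'
      rw [hu, ← plv_mul]
      congr 1
      funext k
      split_ifs
      · exact hF
      · rw [mul_one]
    have h8 : der X (fun K => ((pe s J u K : ℚ) : ℂ)) = 0 := by
      rw [← derv_const, ← h6]
      apply pe_derv'
      rw [← hcu]
      have h9 := plv_derv (A := fun k => if k ∈ s then cF else cG) (Y := fun _ => Y)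
        (C := fun k => if k ∈ s then X else 0) (fun k => by
          split_ifs
          · exact hYF
          · rw [mul_zero, hYG]) ct
      rw [← h9, derv_const, hY, plv_zero]
    have h10 := H _ (pe s J u) h8
    rw [h7] at h10
    rw [h6, plv_const, h10]
    exact congrArg (fun J => (u J : ℂ)) (mg_self s J)
  calc pl P ct = plv (fun _ => cF * P + cG) ct := by rw [← h2]; rfl
    _ = ∑ s : Finset κ, plv (fun k => if k ∈ s then cF else cG) ct := by
      rw [plv_add]
      exact Finset.sum_congr rfl fun s _ => key s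
    _ = plv (fun _ => cF + cG) ct := (plv_add _ _ _).symm
    _ = ct := by rw [h1, plv_one]

end

end Pool.Agent.L5helper24.KM
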