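import Mathlib

/-!
# Ideals of the orthogonal Lie algebra
-/

set_option autoImplicit false
set_option linter.unusedSectionVars false
set_option linter.unusedSimpArgs false

open Matrix Finset Module

namespace Pool.Agent.L5helper24.KM

noncomputable section

variable {α : Type} [Fintype α] [DecidableEq α]

/-- the elementary skew matrices -/
def el (a b : α) : Matrix α α ℂ := Matrix.single a b 1 - Matrix.single b a 1

theorem el_T (a b : α) : (el a b)ᵀ = -el a b := by
  rw [el, Matrix.transpose_sub, Matrix.transpose_single, Matrix.transpose_single, neg_sub]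

theorem el_neg (a b : α) : el b a = -el a b := by
  rw [el, el, neg_sub]

/-- the indicator of a pair -/
def ip (a b c : α) : ℂ := if c = a ∨ c = b then 1 else 0

theorem el_mul_apply {a b : α} (hab : a ≠ b) (Z : Matrix α α ℂ) (c d : α) :
    (el a b * Z) c d = (if c = a then Z b d else 0) - if c = b then Z a d else 0 := by
  rw [el, sub_mul, Matrix.sub_apply]
  congr 1
  · by_cases h : c = a
    · subst h; simp
    · rw [if_neg h, Matrix.mul_apply]
      refine Finset.sum_eq_zero fun x _ => ?_
      rw [Matrix.single_apply_of_row_ne (Ne.symm h), zero_mul]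
  · by_cases h : c = b
    · subst h; simp
    · rw [if_neg h, Matrix.mul_apply]
      refine Finset.sum_eq_zero fun x _ => ?_
      rw [Matrix.single_apply_of_row_ne (Ne.symm h), zero_mul]

theorem mul_el_apply {a b : α} (hab : a ≠ b) (Z : Matrix α α ℂ) (c d : α) :
    (Z * el a b) c d = (if d = b then Z c a else 0) - if d = a then Z c b else 0 := by
  have h1 : Z * el a b = ((el a b)ᵀ * Zᵀ)ᵀ := by
    rw [Matrix.transpose_mul, Matrix.transpose_transpose, Matrix.transpose_transpose]
  rw [h1, Matrix.transpose_apply, el_T, Matrix.neg_mul, Matrix.neg_apply, el_mul_apply hab]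
  simp only [Matrix.transpose_apply, neg_sub]

/-- the double bracket with an elementary matrix -/
theorem dbl {a b : α} (hab : a ≠ b) {Z : Matrix α α ℂ} (hZ : Zᵀ = -Z) (c d : α) :
    -(el a b * (el a b * Z - Z * el a b) - (el a b * Z - Z * el a b) * el a b) c d =
      (ip a b c - ip a b d) * (ip a b c - ip a b d) * Z c d := by
  have hs : Z b a = -Z a b := congrFun (congrFun hZ a) b
  have hd : ∀ x, Z x x = 0 := by
    intro x
    have h1 : Z x x = -Z x x := congrFun (congrFun hZ x) x
    have h2 : (2 : ℂ) * Z x x = 0 := by linear_combination h1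
    exact (mul_eq_zero.1 h2).resolve_left (by norm_num)
  have da := hd a
  have db := hd b
  have hba : b ≠ a := hab.symm
  clear hZ hd
  rw [Matrix.sub_apply, el_mul_apply hab, mul_el_apply hab]
  simp only [Matrix.sub_apply, el_mul_apply hab, mul_el_apply hab, ip]
  rcases eq_or_ne c a with rfl | h1
  · rcases eq_or_ne d c with rfl | h3
    · simp only [if_true, if_neg hab, if_neg hba, true_or, da, db]; ring
    · rcases eq_or_ne d b with rfl | h4
      · simp only [if_true, if_neg hab, if_neg hba, true_or, or_true, da, db, hs]; ring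
      · simp only [if_true, if_neg hab, if_neg hba, if_neg h3, if_neg h4, true_or, or_true,
          h3, h4, or_self, if_false]; ring
  · rcases eq_or_ne c b with rfl | h2
    · rcases eq_or_ne d a with rfl | h3
      · simp only [if_true, if_neg hab, if_neg hba, true_or, or_true, da, db, hs]; ring
      · rcases eq_or_ne d c with rfl | h4
        · simp only [if_true, if_neg hab, if_neg hba, true_or, or_true, da, db, hs]; ring
        · simp only [if_true, if_neg hab, if_neg hba, if_neg h3, if_neg h4, true_or, or_true,
            h3, h4, or_self, if_false]; ring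
    · rcases eq_or_ne d a with rfl | h3
      · simp only [if_true, if_neg hab, if_neg hba, if_neg h1, if_neg h2, h1, h2, or_self,
          if_false, true_or]; ring
      · rcases eq_or_ne d b with rfl | h4
        · simp only [if_true, if_neg hab, if_neg hba, if_neg h1, if_neg h2, h1, h2, or_self,
            if_false, true_or, or_true]; ring
        · simp only [if_neg h1, if_neg h2, if_neg h3, if_neg h4, h1, h2, h3, h4, or_self,
            if_false]; ring

/-- the mask of an elementary matrix -/
def mk (a b c d : α) : ℂ := (ip a b c - ip a b d) * (ip a b c - ip a b d)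

theorem mask_mem {N : Submodule ℂ (Matrix α α ℂ)} (hskew : ∀ Z ∈ N, Zᵀ = -Z)
    (hid : ∀ Z ∈ N, ∀ Y : Matrix α α ℂ, Yᵀ = -Y → Y * Z - Z * Y ∈ N) {a b : α} (hab : a ≠ b)
    {Z : Matrix α α ℂ} (hZ : Z ∈ N) : Matrix.of (fun c d => mk a b c d * Z c d) ∈ N := by
  have h1 := hid _ (hid Z hZ (el a b) (el_T a b)) (el a b) (el_T a b)
  have h2 : Matrix.of (fun c d => mk a b c d * Z c d) =
      -(el a b * (el a b * Z - Z * el a b) - (el a b * Z - Z * el a b) * el a b) := by
    ext c d
    rw [Matrix.of_apply, Matrix.neg_apply]
    exact (dbl hab (hskew Z hZ) c d).symm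
  rw [h2]
  exact Submodule.neg_mem _ h1

theorem masks_mem {N : Submodule ℂ (Matrix α α ℂ)} (hskew : ∀ Z ∈ N, Zᵀ = -Z)
    (hid : ∀ Z ∈ N, ∀ Y : Matrix α α ℂ, Yᵀ = -Y → Y * Z - Z * Y ∈ N) {a b : α}
    (s : Finset α) (hs : ∀ k ∈ s, k ≠ a ∧ k ≠ b) {Z : Matrix α α ℂ} (hZ : Z ∈ N) :
    Matrix.of (fun c d => (∏ k ∈ s, (mk a k c d * mk b k c d)) * Z c d) ∈ N := by
  induction s using Finset.induction_on with
  | empty =>
    have h1 : Matrix.of (fun c d => (∏ k ∈ (∅ : Finset α), (mk a k c d * mk b k c d)) * Z c d) =
        Z := by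
      ext c d
      simp
    rw [h1]
    exact hZ
  | insert i s hi ih =>
    have h1 := ih fun k hk => hs k (Finset.mem_insert_of_mem hk)
    obtain ⟨h2, h3⟩ := hs i (Finset.mem_insert_self i s)
    have h4 := mask_mem hskew hid (Ne.symm h3) h1
    have h5 := mask_mem hskew hid (Ne.symm h2) h4
    have h6 : Matrix.of (fun c d => (∏ k ∈ insert i s, (mk a k c d * mk b k c d)) * Z c d) =
        Matrix.of (fun c d => mk a i c d * Matrix.of (fun c d => mk b i c d *
          Matrix.of (fun c d => (∏ k ∈ s, (mk a k c d * mk b k c d)) * Z c d) c d) c d) := by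
      ext c d
      simp only [Matrix.of_apply]
      rw [Finset.prod_insert hi]
      ring
    rw [h6]
    exact h5

theorem ip_left (a b : α) : ip a b a = 1 := by simp [ip]

theorem ip_right (a b : α) : ip a b b = 1 := by simp [ip]

theorem ip_ne {a b c : α} (h1 : c ≠ a) (h2 : c ≠ b) : ip a b c = 0 := by simp [ip, h1, h2]

/-- the product of the masks isolates one entry -/
theorem isolate (h4 : Fintype.card α ≠ 4) {a b : α} (hab : a ≠ b) {Z : Matrix α α ℂ}
    (hZ : Zᵀ = -Z) : Matrix.of (fun c d => (∏ k ∈ ({a, b} : Finset α)ᶜ,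
      (mk a k c d * mk b k c d)) * Z c d) = Z a b • el a b := by
  have hd : ∀ x, Z x x = 0 := by
    intro x
    have h1 : Z x x = -Z x x := congrFun (congrFun hZ x) x
    have h2 : (2 : ℂ) * Z x x = 0 := by linear_combination h1
    exact (mul_eq_zero.1 h2).resolve_left (by norm_num)
  have hba : b ≠ a := hab.symm
  have hprod : ∀ c d : α, (∀ k, k ≠ a → k ≠ b → mk a k c d = 1 ∧ mk b k c d = 1) →
      ∏ k ∈ ({a, b} : Finset α)ᶜ, (mk a k c d * mk b k c d) = 1 := by
    intro c d h
    refine Finset.prod_eq_one fun k hk => ?_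
    have hk' : k ≠ a ∧ k ≠ b := by simpa [not_or] using hk
    rw [(h k hk'.1 hk'.2).1, (h k hk'.1 hk'.2).2, mul_one]
  have hzero : ∀ c d k : α, k ≠ a → k ≠ b → (mk a k c d = 0 ∨ mk b k c d = 0) →
      ∏ k ∈ ({a, b} : Finset α)ᶜ, (mk a k c d * mk b k c d) = 0 := by
    intro c d k h1 h2 h
    refine Finset.prod_eq_zero (i := k) (by simp [h1, h2]) ?_
    rcases h with h | h <;> simp [h]
  ext c d
  rw [Matrix.of_apply, Matrix.smul_apply, smul_eq_mul]
  have hel : ∀ x y, el a b x y = (if x = a ∧ y = b then 1 else 0) - if x = b ∧ y = a then 1 else 0 := by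
    intro x y
    rw [el, Matrix.sub_apply, Matrix.single_apply, Matrix.single_apply]
    congr 1 <;> simp only [eq_comm]
  rw [hel]
  rcases eq_or_ne c d with rfl | hcd
  · rw [hd]
    have e1 : ¬ (c = a ∧ c = b) := fun h => hab (h.1.symm.trans h.2)
    have e2 : ¬ (c = b ∧ c = a) := fun h => hab (h.2.symm.trans h.1)
    rw [if_neg e1, if_neg e2]
    ring
  · rcases eq_or_ne c a with rfl | hca
    · rcases eq_or_ne d b with rfl | hdb
      · rw [hprod, if_pos ⟨rfl, rfl⟩, if_neg (fun h => hab h.1)]
        · ring
        · intro k hk1 hk2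
          constructor
          · rw [mk, ip_left, ip_ne hba (Ne.symm hk2)]; ring
          · rw [mk, ip_left, ip_ne hab (Ne.symm hk1)]; ring
      · rw [hzero c d d (Ne.symm hcd) hdb, if_neg (fun h => hdb h.2), if_neg (fun h => hab h.1)]
        · ring
        · left
          rw [mk, ip_left, ip_right]; ring
    · rcases eq_or_ne c b with rfl | hcb
      · rcases eq_or_ne d a with rfl | hda
        · rw [hprod, if_neg (fun h => hab h.1.symm), if_pos ⟨rfl, rfl⟩]
          · have h1 : Z c d = -Z d c := congrFun (congrFun hZ d) c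
            rw [h1]; ring
          · intro k hk1 hk2
            constructor
            · rw [mk, ip_left, ip_ne hba (Ne.symm hk2)]; ring
            · rw [mk, ip_left, ip_ne hab (Ne.symm hk1)]; ring
        · rw [hzero c d d hda (Ne.symm hcd), if_neg (fun h => hca h.1), if_neg (fun h => hda h.2)]
          · ring
          · right
            rw [mk, ip_left, ip_right]; ring
      · rw [if_neg (fun h => hca h.1), if_neg (fun h => hcb h.1), sub_zero, mul_zero]
        rcases eq_or_ne d a with rfl | hda
        · rw [hzero c d c hca hcb, zero_mul]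
          left
          rw [mk, ip_left, ip_right]; ring
        · rcases eq_or_ne d b with rfl | hdb
          · rw [hzero c d c hca hcb, zero_mul]
            right
            rw [mk, ip_left, ip_right]; ring
          · -- a fifth element
            have h5 : ({a, b, c, d} : Finset α).card = 4 := by
              rw [Finset.card_insert_of_notMem, Finset.card_insert_of_notMem,
                Finset.card_insert_of_notMem, Finset.card_singleton]
              · simpa using hcd
              · simp only [Finset.mem_insert, Finset.mem_singleton, not_or]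
                exact ⟨Ne.symm hcb, Ne.symm hdb⟩
              · simp only [Finset.mem_insert, Finset.mem_singleton, not_or]
                exact ⟨hab, Ne.symm hca, Ne.symm hda⟩
            obtain ⟨k, hk⟩ : ∃ k, k ∉ ({a, b, c, d} : Finset α) := by
              by_contra hcon
              simp only [not_exists, not_not] at hcon
              apply h4
              rw [← h5, ← Finset.card_univ]
              congr 1
              ext x
              simp only [Finset.mem_univ, true_iff]
              exact hcon x
            simp only [Finset.mem_insert, Finset.mem_singleton, not_or] at hk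
            rw [hzero c d k hk.1 hk.2.1, zero_mul]
            left
            rw [mk, ip_ne hca (Ne.symm hk.2.2.1), ip_ne hda (Ne.symm hk.2.2.2)]; ring

theorem el_br {a b c : α} (hab : a ≠ b) (hbc : b ≠ c) (hac : a ≠ c) :
    el a b * el b c - el b c * el a b = el a c := by
  ext x y
  rw [Matrix.sub_apply, el_mul_apply hab, mul_el_apply hab]
  have hel : ∀ u v x y : α, el u v x y = (if x = u ∧ y = v then (1 : ℂ) else 0) -
      if x = v ∧ y = u then 1 else 0 := by
    intro u v x y
    rw [el, Matrix.sub_apply, Matrix.single_apply, Matrix.single_apply]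
    congr 1 <;> simp only [eq_comm]
  simp only [hel]
  have hcb := hbc.symm
  have hba := hab.symm
  have hca := hac.symm
  by_cases h1 : x = a <;> by_cases h2 : x = b <;> by_cases h3 : x = c <;>
    by_cases h4 : y = a <;> by_cases h5 : y = b <;> by_cases h6 : y = c <;>
    simp_all

theorem exists_third (h3 : 3 ≤ Fintype.card α) (a b : α) : ∃ c, c ≠ a ∧ c ≠ b := by
  by_contra hcon
  simp only [not_exists, not_and, not_not] at hcon
  have h1 : (Finset.univ : Finset α) ⊆ {a, b} := by
    intro x _
    by_cases h : x = a
    · simp [h]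
    · simp [hcon x h]
  have h2 := Finset.card_le_card h1
  rw [Finset.card_univ] at h2
  have h3' : ({a, b} : Finset α).card ≤ 2 := Finset.card_le_two
  omega

/-- **A nonzero ideal of the orthogonal Lie algebra is everything**, except in dimension four. -/
theorem so_ideal (h3 : 3 ≤ Fintype.card α) (h4 : Fintype.card α ≠ 4)
    {N : Submodule ℂ (Matrix α α ℂ)} (hskew : ∀ Z ∈ N, Zᵀ = -Z)
    (hid : ∀ Z ∈ N, ∀ Y : Matrix α α ℂ, Yᵀ = -Y → Y * Z - Z * Y ∈ N)
    {Z : Matrix α α ℂ} (hZ : Z ∈ N) (h0 : Z ≠ 0) {Y : Matrix α α ℂ} (hY : Yᵀ = -Y) : Y ∈ N := by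
  have hd : ∀ x, Z x x = 0 := by
    intro x
    have h1 : Z x x = -Z x x := congrFun (congrFun (hskew Z hZ) x) x
    have h2 : (2 : ℂ) * Z x x = 0 := by linear_combination h1
    exact (mul_eq_zero.1 h2).resolve_left (by norm_num)
  obtain ⟨a, b, hz⟩ : ∃ a b, Z a b ≠ 0 := by
    by_contra hcon
    simp only [not_exists, not_not] at hcon
    exact h0 (by ext a b; exact hcon a b)
  have hab : a ≠ b := fun h => hz (by rw [h]; exact hd b)
  have h1 : el a b ∈ N := by
    have h2 := masks_mem hskew hid ({a, b} : Finset α)ᶜ
      (fun k hk => by simpa [not_or] using hk) hZ (a := a) (b := b)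
    rw [isolate h4 hab (hskew Z hZ)] at h2
    have h3 := Submodule.smul_mem N (Z a b)⁻¹ h2
    rwa [smul_smul, inv_mul_cancel₀ hz, one_smul] at h3
  -- moving the second index, then the first
  have mv : ∀ {a b c : α}, a ≠ b → b ≠ c → a ≠ c → el a b ∈ N → el a c ∈ N := by
    intro a b c hab hbc hac h
    have h2 := hid _ h (el b c) (el_T b c)
    have h3 := el_br hab hbc hac
    have h4 : el a c = -(el b c * el a b - el a b * el b c) := by rw [← h3, neg_sub]
    rw [h4]
    exact Submodule.neg_mem _ h2
  have fl : ∀ {a b : α}, el a b ∈ N → el b a ∈ N := by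
    intro a b h
    rw [el_neg]
    exact Submodule.neg_mem _ h
  have mv' : ∀ {a b c : α}, a ≠ b → a ≠ c → el a b ∈ N → el a c ∈ N := by
    intro a b c hab hac h
    by_cases hbc : b = c
    · rwa [← hbc]
    · exact mv hab hbc hac h
  have all : ∀ c d, c ≠ d → el c d ∈ N := by
    intro c d hcd
    obtain ⟨k, hk1, hk2⟩ := exists_third h3 a c
    have e1 : el a k ∈ N := mv' hab (Ne.symm hk1) h1
    have e2 : el k c ∈ N := mv' hk1 hk2 (fl e1)
    exact mv' (Ne.symm hk2) hcd (fl e2)
  have hsum : Y = (1 / 2 : ℂ) • ∑ c, ∑ d, Y c d • el c d := by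
    ext x y
    rw [Matrix.smul_apply, Matrix.sum_apply]
    simp only [Matrix.sum_apply, Matrix.smul_apply, el, Matrix.sub_apply, Matrix.single_apply,
      smul_eq_mul, mul_sub, mul_ite, mul_one, mul_zero, Finset.sum_sub_distrib]
    have e1 : ∑ c, ∑ d, (if c = x ∧ d = y then Y c d else 0) = Y x y := by
      rw [Finset.sum_eq_single x, Finset.sum_eq_single y]
      · simp
      · intro d _ hd
        rw [if_neg fun h => hd h.2]
      · intro h; exact absurd (Finset.mem_univ _) h
      · intro c _ hc
        exact Finset.sum_eq_zero fun d _ => if_neg fun h => hc h.1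
      · intro h; exact absurd (Finset.mem_univ _) h
    have e2 : ∑ c, ∑ d, (if d = x ∧ c = y then Y c d else 0) = Y y x := by
      rw [Finset.sum_eq_single y, Finset.sum_eq_single x]
      · simp
      · intro d _ hd
        rw [if_neg fun h => hd h.1]
      · intro h; exact absurd (Finset.mem_univ _) h
      · intro c _ hc
        exact Finset.sum_eq_zero fun d _ => if_neg fun h => hc h.2
      · intro h; exact absurd (Finset.mem_univ _) h
    rw [e1, e2]
    have e3 : Y y x = -Y x y := congrFun (congrFun hY x) y
    rw [e3]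
    ring
  rw [hsum]
  refine Submodule.smul_mem _ _ (Submodule.sum_mem _ fun c _ => Submodule.sum_mem _ fun d _ => ?_)
  by_cases hcd : c = d
  · subst hcd
    rw [el, sub_self, smul_zero]
    exact Submodule.zero_mem _
  · exact Submodule.smul_mem _ _ (all c d hcd)

/-- the commutant of the orthogonal Lie algebra -/
theorem so_comm (h3 : 3 ≤ Fintype.card α) {g : Matrix α α ℂ}
    (h : ∀ Z : Matrix α α ℂ, Zᵀ = -Z → g * Z = Z * g) : ∃ z : ℂ, g = z • 1 := by
  have key : ∀ a b, a ≠ b → ∀ c d, (if d = b then g c a else 0) - (if d = a then g c b else 0) =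
      (if c = a then g b d else 0) - if c = b then g a d else 0 := by
    intro a b hab c d
    rw [← mul_el_apply hab, ← el_mul_apply hab, h _ (el_T a b)]
  have off : ∀ c a, c ≠ a → g c a = 0 := by
    intro c a hca
    obtain ⟨b, hb1, hb2⟩ := exists_third h3 a c
    have h1 := key a b (Ne.symm hb1) c b
    rw [if_pos rfl, if_neg hb1, if_neg hca, if_neg (Ne.symm hb2)] at h1
    simpa using h1
  have dg : ∀ a b, g a a = g b b := by
    intro a b
    by_cases hab : a = b
    · rw [hab]
    · have h1 := key a b hab a b
      rw [if_pos rfl, if_neg (Ne.symm hab), if_pos rfl, if_neg hab] at h1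
      simpa using h1
  have hne : Nonempty α := Fintype.card_pos_iff.1 (by omega)
  obtain ⟨a₀⟩ := hne
  refine ⟨g a₀ a₀, ?_⟩
  ext x y
  rw [Matrix.smul_apply, Matrix.one_apply, smul_eq_mul]
  split_ifs with hxy
  · subst hxy
    rw [mul_one]
    exact dg _ _
  · rw [mul_zero]
    exact off x y hxy

end

end Pool.Agent.L5helper24.KM
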