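import Pool.Agent.L5helper24.KM.Fixed
import Pool.Agent.L5helper24.KM.So

/-!
# One class of any degree suffices, I
-/

set_option autoImplicit false
set_option linter.unusedSectionVars false
set_option linter.unusedSimpArgs false

open Matrix Finset Module

namespace Pool.Agent.L5helper24.KM

open Pool.Agent Pool.Agent.W544.PG Pool.Agent.L5helper24.KS Pool.Agent.W216.PG.SOI

noncomputable section

/-! ### The pairing of bilinear forms -/

section pairing
variable {n w : ℕ} {T : HS n} {W : HW w}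

/-- the inverse of the Riemann form -/
def KE (W : HW w) : Matrix (Fin w) (Fin w) ℂ := mC W.E⁻¹

theorem KE_E : KE W * mC W.E = 1 := EE

theorem E_KE : mC W.E * KE W = 1 := mul_eq_one_comm.1 EE

theorem KE_T : (KE W)ᵀ = -KE W := by
  calc (KE W)ᵀ = (KE W)ᵀ * (mC W.E * KE W) := by rw [E_KE, mul_one]
    _ = -((KE W)ᵀ * (mC W.E)ᵀ * KE W) := by rw [mCE_T, mul_neg, neg_mul, neg_neg, mul_assoc]
    _ = -KE W := by rw [← Matrix.transpose_mul, E_KE, Matrix.transpose_one, one_mul]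

/-- the pairing -/
def pr (W : HW w) : Matrix (Fin w) (Fin w) ℂ →ₗ[ℂ] Matrix (Fin w) (Fin w) ℂ →ₗ[ℂ] ℂ :=
  LinearMap.mk₂ ℂ (fun B B' => (KE W * B * (KE W * B'ᵀ)).trace)
    (by intro a b c; rw [mul_add, add_mul, Matrix.trace_add])
    (by intro z a b; rw [mul_smul_comm, smul_mul_assoc, Matrix.trace_smul])
    (by intro a b c; rw [Matrix.transpose_add, mul_add, mul_add, Matrix.trace_add])
    (by intro z a b; rw [Matrix.transpose_smul, mul_smul_comm, mul_smul_comm, Matrix.trace_smul])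

theorem pr_apply (B B' : Matrix (Fin w) (Fin w) ℂ) :
    pr W B B' = (KE W * B * (KE W * B'ᵀ)).trace := rfl

theorem pr_comm (B B' : Matrix (Fin w) (Fin w) ℂ) : pr W B B' = pr W B' B := by
  have h1 : (KE W * B * (KE W * B'ᵀ))ᵀ = B' * KE W * Bᵀ * KE W := by
    rw [Matrix.transpose_mul, Matrix.transpose_mul, Matrix.transpose_mul,
      Matrix.transpose_transpose, KE_T, mul_neg, mul_neg, neg_mul_neg]
    simp only [mul_assoc]
  rw [pr_apply, pr_apply, ← Matrix.trace_transpose, h1, Matrix.trace_mul_comm]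
  simp only [mul_assoc]

theorem pr_conj {d : Matrix (Fin w) (Fin w) ℂ} (hd : dᵀ * mC W.E * d = mC W.E)
    (B B' : Matrix (Fin w) (Fin w) ℂ) : pr W (dᵀ * B * d) (dᵀ * B' * d) = pr W B B' := by
  have h1 : d * KE W * dᵀ = KE W := orth_inv KE_E hd
  rw [pr_apply, pr_apply]
  calc (KE W * (dᵀ * B * d) * (KE W * (dᵀ * B' * d)ᵀ)).trace
      = (KE W * dᵀ * B * (d * KE W * dᵀ) * B'ᵀ * d).trace := by
        rw [Matrix.transpose_mul, Matrix.transpose_mul, Matrix.transpose_transpose]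
        simp only [mul_assoc]
    _ = (d * KE W * dᵀ * B * (d * KE W * dᵀ) * B'ᵀ).trace := by
        rw [Matrix.trace_mul_comm]
        simp only [mul_assoc]
    _ = _ := by rw [h1]; simp only [mul_assoc]

theorem pr_skew {V : Matrix (Fin w) (Fin w) ℂ} (hV : Vᵀ * mC W.E + mC W.E * V = 0)
    (B B' : Matrix (Fin w) (Fin w) ℂ) :
    pr W (Vᵀ * B + B * V) B' + pr W B (Vᵀ * B' + B' * V) = 0 := by
  have h1 : V * KE W + KE W * Vᵀ = 0 := skew_inv KE_E hV
  have h2 : KE W * Vᵀ = -(V * KE W) := by rw [← add_eq_zero_iff_eq_neg, add_comm]; exact h1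
  rw [pr_apply, pr_apply, Matrix.transpose_add, Matrix.transpose_mul, Matrix.transpose_mul,
    Matrix.transpose_transpose]
  have e1 : (KE W * (Vᵀ * B + B * V) * (KE W * B'ᵀ)).trace =
      -(KE W * B * (KE W * (B'ᵀ * V))).trace + (KE W * B * V * KE W * B'ᵀ).trace := by
    rw [mul_add, add_mul, Matrix.trace_add, ← mul_assoc (KE W) Vᵀ, h2]
    congr 1
    · rw [neg_mul, neg_mul, Matrix.trace_neg, neg_inj, mul_assoc V, mul_assoc V,
        Matrix.trace_mul_comm]
      simp only [mul_assoc]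
    · simp only [mul_assoc]
  have e2 : (KE W * B * (KE W * (B'ᵀ * V + Vᵀ * B'ᵀ))).trace =
      (KE W * B * (KE W * (B'ᵀ * V))).trace - (KE W * B * V * KE W * B'ᵀ).trace := by
    rw [mul_add, mul_add, Matrix.trace_add, ← mul_assoc (KE W) Vᵀ, h2, sub_eq_add_neg]
    congr 1
    rw [neg_mul, mul_neg, Matrix.trace_neg]
    simp only [mul_assoc]
  rw [e1, e2]
  ring

end pairing

/-! ### Invariant forms -/

theorem inv_form {k : ℕ} (hk : k ≠ 0) {Q Q' : Matrix (Fin k) (Fin k) ℂ} (hQ : Qᵀ = Q)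
    (hQQ : Q * Q' = 1) (β : (Fin k → ℂ) →ₗ[ℂ] (Fin k → ℂ) →ₗ[ℂ] ℂ)
    (hs : ∀ u v, β u v = β v u)
    (hinv : ∀ Z : Matrix (Fin k) (Fin k) ℂ, Zᵀ * Q + Q * Z = 0 → ∀ u v,
      β (Z *ᵥ u) v + β u (Z *ᵥ v) = 0) : ∃ z : ℂ, ∀ u v, β u v = z * bb Q u v := by
  obtain ⟨τ, hτ⟩ : ∃ τ, τ = ∑ l : Fin k, β (Pi.single l 1) (Q' *ᵥ Pi.single l 1) := ⟨_, rfl⟩
  have hk' : (k : ℂ) ≠ 0 := by exact_mod_cast hk
  refine ⟨(k : ℂ)⁻¹ * τ, fun a v => ?_⟩
  have h1 : ∀ l : Fin k, bb Q (Q' *ᵥ Pi.single l 1) (Pi.single l 1) = 1 := by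
    intro l
    rw [bb_comm hQ, bb, Matrix.mulVec_mulVec, hQQ, Matrix.one_mulVec]
    simp
  have h2 : ∀ l : Fin k, bb Q (Q' *ᵥ Pi.single l 1) v = v l := by
    intro l
    rw [bb_comm hQ, bb, Matrix.mulVec_mulVec, hQQ, Matrix.one_mulVec]
    simp
  have h3 : ∑ l : Fin k, bb Q a (Pi.single l 1) • (Q' *ᵥ Pi.single l 1) = a := by
    have e1 : ∀ l : Fin k, bb Q a (Pi.single l 1) = (Q *ᵥ a) l := by
      intro l
      rw [bb_comm hQ, bb]
      simp
    have e2 : ∑ l, (Q *ᵥ a) l • (Pi.single l 1 : Fin k → ℂ) = Q *ᵥ a := by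
      funext m
      simp [Finset.sum_apply, Pi.single_apply]
    have e3 : Q' * Q = 1 := mul_eq_one_comm.1 hQQ
    simp only [e1]
    calc ∑ l : Fin k, (Q *ᵥ a) l • (Q' *ᵥ Pi.single l 1) =
        Q' *ᵥ ∑ l, (Q *ᵥ a) l • (Pi.single l 1 : Fin k → ℂ) := by
          rw [Matrix.mulVec_sum]
          exact Finset.sum_congr rfl fun l _ => (Matrix.mulVec_smul _ _ _).symm
      _ = a := by rw [e2, Matrix.mulVec_mulVec, e3, Matrix.one_mulVec]
  have h4 : ∑ l : Fin k, v l • (Pi.single l 1 : Fin k → ℂ) = v := by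
    funext m
    simp [Finset.sum_apply, Pi.single_apply]
  have h5 : ∀ l : Fin k, β a v - bb Q a (Pi.single l 1) * β (Q' *ᵥ Pi.single l 1) v +
      (v l * β (Pi.single l 1) a - bb Q a v * β (Pi.single l 1) (Q' *ᵥ Pi.single l 1)) = 0 := by
    intro l
    have := hinv _ (wd_skew hQ a (Q' *ᵥ Pi.single l 1)) (Pi.single l 1) v
    rw [wd_mulVec hQ, wd_mulVec hQ, map_sub, LinearMap.sub_apply, map_smul, map_smul,
      map_sub, map_smul, map_smul, LinearMap.smul_apply, LinearMap.smul_apply, h1, h2, smul_eq_mul,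
      smul_eq_mul, smul_eq_mul, smul_eq_mul, one_mul] at this
    exact this
  have h6 := Finset.sum_congr rfl fun l (_ : l ∈ (univ : Finset (Fin k))) => h5 l
  rw [Finset.sum_const_zero, Finset.sum_add_distrib, Finset.sum_sub_distrib,
    Finset.sum_sub_distrib, Finset.sum_const, Finset.card_univ, Fintype.card_fin,
    ← Finset.mul_sum, ← hτ, nsmul_eq_mul] at h6
  have h7 : ∑ l : Fin k, bb Q a (Pi.single l 1) * β (Q' *ᵥ Pi.single l 1) v = β a v := by
    conv_rhs => rw [← h3]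
    rw [map_sum, LinearMap.sum_apply]
    refine Finset.sum_congr rfl fun l _ => ?_
    rw [map_smul, LinearMap.smul_apply, smul_eq_mul]
  have h8 : ∑ l : Fin k, v l * β (Pi.single l 1) a = β v a := by
    conv_rhs => rw [← h4]
    rw [map_sum, LinearMap.sum_apply]
    refine Finset.sum_congr rfl fun l _ => ?_
    rw [map_smul, LinearMap.smul_apply, smul_eq_mul]
  rw [h7, h8, hs v a] at h6
  have h9 : (k : ℂ) * β a v = bb Q a v * τ := by linear_combination h6
  calc β a v = (k : ℂ)⁻¹ * ((k : ℂ) * β a v) := by rw [← mul_assoc, inv_mul_cancel₀ hk', one_mul]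
    _ = _ := by rw [h9]; ring

/-! ### The pairing of the values of a class -/

section val
variable {n w r : ℕ} {T : HS n} {W : HW w} {c : Fin n → Fin r}

theorem Ei_eq {L : Submodule ℂ (Matrix (Fin n) (Fin n) ℂ × Matrix (Fin w) (Fin w) ℂ)}
    (U : Setup L T W) : U.Ei = KE W := by
  calc U.Ei = U.Ei * (mC W.E * KE W) := by rw [E_KE, mul_one]
    _ = KE W := by rw [← mul_assoc, U.Ei_E, one_mul]

/-- the pairing of the values is a multiple of the polarisation -/
theorem pair_val {L : Submodule ℂ (Matrix (Fin n) (Fin n) ℂ × Matrix (Fin w) (Fin w) ℂ)}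
    (U : Setup L T W) {j : Fin n → Matrix (Fin w) (Fin w) ℚ} (hc : U.Cl j) :
    ∃ z : ℂ, z ≠ 0 ∧ ∀ u v, pr W (Jl j u) (Jl j v) = z * bb (mC T.Q) u v := by
  have hn : n ≠ 0 := by have := U.hq; omega
  have hsym : (mC T.Q)ᵀ = mC T.Q := by rw [W544.PG.mC_T, T.symm]
  have hQQ : mC T.Q * mC T.Q⁻¹ = 1 := mul_eq_one_comm.1 QQ
  obtain ⟨z, hz⟩ := inv_form hn hsym hQQ ((pr W).compl₁₂ (Jl j) (Jl j))
    (fun u v => by
      rw [LinearMap.compl₁₂_apply, LinearMap.compl₁₂_apply]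
      exact pr_comm _ _)
    (fun Z hZ u v => by
      obtain ⟨V, hV⟩ := U.pr.surj Z hZ
      have h1 : Jl j (Z *ᵥ u) = -(Vᵀ * Jl j u + Jl j u * V) := by
        rw [← add_eq_zero_iff_eq_neg, ← add_assoc]
        exact hc.eqv.eq Z V hV u
      have h2 : Jl j (Z *ᵥ v) = -(Vᵀ * Jl j v + Jl j v * V) := by
        rw [← add_eq_zero_iff_eq_neg, ← add_assoc]
        exact hc.eqv.eq Z V hV v
      rw [LinearMap.compl₁₂_apply, LinearMap.compl₁₂_apply, h1, h2, map_neg, map_neg,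
        LinearMap.neg_apply, ← neg_add, pr_skew (U.pr.skewW _ hV), neg_zero])
  refine ⟨z, fun h0 => Setup.Cl.tr U hc ?_, hz⟩
  have h3 := hz (U.o - star U.o) (U.o - star U.o)
  rw [h0, zero_mul, LinearMap.compl₁₂_apply, pr_apply] at h3
  rw [Ei_eq U]
  exact h3

theorem pair_full {C : Ctx T c W} {i : Fin r} (U : Setup (LB T W (C.e i)) (C.T' i) W)
    {j : Fin n → Matrix (Fin w) (Fin w) ℚ} (hc : U.Cl fun b => j (C.e i b))
    (hs : ∀ a, c a ≠ i → j a = 0) :
    ∃ z : ℂ, z ≠ 0 ∧ ∀ a b, pr W (mC (j a)) (mC (j b)) = z * mC (Qb T c i) a b := by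
  obtain ⟨z, hz0, hz⟩ := pair_val U hc
  refine ⟨z, hz0, fun a b => ?_⟩
  by_cases ha : c a = i
  · by_cases hb : c b = i
    · obtain ⟨a', rfl⟩ := (C.blk i).en.surj a ha
      obtain ⟨b', rfl⟩ := (C.blk i).en.surj b hb
      have h1 := hz (Pi.single a' 1) (Pi.single b' 1)
      rw [Jl_single, Jl_single] at h1
      rw [h1]
      congr 1
      have h2 : bb (mC (C.T' i).Q) (Pi.single a' 1) (Pi.single b' 1) =
          mC (C.T' i).Q a' b' := by
        rw [bb, Matrix.mulVec_single_one, single_one_dotProduct]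
        rfl
      rw [h2, (C.blk i).Q]
      simp [mC, Qb, (C.blk i).en.col]
    · rw [hs b hb, mC_zero, map_zero]
      have h3 : mC (Qb T c i) a b = 0 := by
        rw [mC_Qb C.bQ, pic, Matrix.mul_diagonal, if_neg hb, mul_zero]
      rw [h3, mul_zero]
  · rw [hs a ha, mC_zero, map_zero, LinearMap.zero_apply]
    have h3 : mC (Qb T c i) a b = 0 := by
      simp [mC, Qb, ha]
    rw [h3, mul_zero]

end val

end

end Pool.Agent.L5helper24.KM
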