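import Pool.Agent.L5helper24.KM.Odd

/-!
# One class of any degree suffices, II
-/

set_option autoImplicit false
set_option linter.unusedSectionVars false
set_option linter.unusedSimpArgs false

open Matrix Finset Module

namespace Pool.Agent.L5helper24.KM

open Pool.Agent Pool.Agent.W544.PG Pool.Agent.L5helper24.KS Pool.Agent.W216.PG.SOI

noncomputable section

section lin
variable {ι κ l : Type} [Fintype ι] [DecidableEq ι] [Fintype κ] [DecidableEq κ]
  [Fintype l] [DecidableEq l]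

/-- `der` as a linear map -/
def derL (X : Matrix ι ι ℂ) : ((κ → ι) → ℂ) →ₗ[ℂ] (κ → ι) → ℂ where
  toFun t := der X t
  map_add' t u := by
    funext J
    simp [der, mul_add, Finset.sum_add_distrib]
  map_smul' z t := by
    funext J
    simp only [der, Pi.smul_apply, smul_eq_mul, Finset.mul_sum, RingHom.id_apply]
    refine Finset.sum_congr rfl fun k _ => Finset.sum_congr rfl fun x _ => ?_
    ring

/-- `pl` as a linear map -/
def plL (P : Matrix ι ι ℂ) : ((κ → ι) → ℂ) →ₗ[ℂ] (κ → ι) → ℂ where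
  toFun t := pl P t
  map_add' t u := by
    funext J
    simp [pl, mul_add, Finset.sum_add_distrib]
  map_smul' z t := by
    funext J
    simp only [pl, Pi.smul_apply, smul_eq_mul, Finset.mul_sum, RingHom.id_apply]
    refine Finset.sum_congr rfl fun K _ => ?_
    ring

theorem derL_apply (X : Matrix ι ι ℂ) (t : (κ → ι) → ℂ) : derL X t = der X t := rfl

theorem plL_apply (X : Matrix ι ι ℂ) (t : (κ → ι) → ℂ) : plL X t = pl X t := rfl

/-- pull-backs by matrices with the same rows on the support of a form agree -/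
theorem pl_agree {P P' : Matrix ι ι ℂ} {t : (κ → ι) → ℂ}
    (h : ∀ K, t K ≠ 0 → ∀ k y, P (K k) y = P' (K k) y) : pl P t = pl P' t := by
  funext J
  rw [pl, pl]
  refine Finset.sum_congr rfl fun K _ => ?_
  by_cases hK : t K = 0
  · rw [hK, mul_zero, mul_zero]
  · congr 1
    exact Finset.prod_congr rfl fun k _ => h K hK k _

/-- derivations by matrices with the same rows on the support of a form agree -/
theorem der_agree {X X' : Matrix ι ι ℂ} {t : (κ → ι) → ℂ}
    (h : ∀ K, t K ≠ 0 → ∀ k y, X (K k) y = X' (K k) y) : der X t = der X' t := by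
  funext J
  rw [der, der]
  refine Finset.sum_congr rfl fun k _ => Finset.sum_congr rfl fun x _ => ?_
  by_cases hK : t (Function.update J k x) = 0
  · rw [hK, mul_zero, mul_zero]
  · have := h _ hK k (J k)
    rw [Function.update_self] at this
    rw [this]

end lin

variable {n w r : ℕ} {T : HS n} {W : HW w} {c : Fin n → Fin r}

/-! ### The quadrilinear form of a class -/

/-- the complex bilinear form on `H_1(A)` -/
def cb (n : ℕ) {w : ℕ} (M : Matrix (Fin w) (Fin w) ℂ) : (Fin 2 → Fin n ⊕ Fin w) → ℂ :=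
  fun J => (fromBlocks 0 0 0 M : Matrix (Fin n ⊕ Fin w) (Fin n ⊕ Fin w) ℂ) (J 0) (J 1)

theorem cb_cast (M : Matrix (Fin w) (Fin w) ℚ) :
    (fun J => ((bf (fromBlocks 0 0 0 M : Matrix (Fin n ⊕ Fin w) (Fin n ⊕ Fin w) ℚ) J : ℚ) : ℂ)) =
      cb n (mC M) := by
  funext J
  have h1 := congrFun (congrFun (map_fb (0 : Matrix (Fin n) (Fin n) ℚ) M) (J 0)) (J 1)
  rw [mC_zero] at h1
  exact h1

theorem der_cb (Z : Matrix (Fin n) (Fin n) ℂ) (V M : Matrix (Fin w) (Fin w) ℂ) :
    der (fromBlocks Z 0 0 V) (cb n M) = cb n (Vᵀ * M + M * V) := by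
  funext J
  have h1 : (fromBlocks Z 0 0 V)ᵀ * fromBlocks 0 0 0 M + fromBlocks 0 0 0 M * fromBlocks Z 0 0 V =
      (fromBlocks 0 0 0 (Vᵀ * M + M * V) : Matrix (Fin n ⊕ Fin w) (Fin n ⊕ Fin w) ℂ) := by
    rw [Matrix.fromBlocks_transpose, Matrix.fromBlocks_multiply,
      Matrix.fromBlocks_multiply, Matrix.fromBlocks_add]
    simp only [Matrix.mul_zero, Matrix.zero_mul, add_zero, zero_add, Matrix.transpose_zero]
  rw [cb, ← h1, der, Fin.sum_univ_two, Matrix.add_apply, Matrix.mul_apply, Matrix.mul_apply]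
  simp only [cb, Matrix.transpose_apply]
  have e1 : ∀ x, Function.update J 0 x 0 = x ∧ Function.update J 0 x 1 = J 1 := fun x => by simp
  have e2 : ∀ x, Function.update J 1 x 0 = J 0 ∧ Function.update J 1 x 1 = x := fun x => by simp
  simp only [e1, e2]
  congr 1
  refine Finset.sum_congr rfl fun x _ => ?_
  ring

theorem pl_cb (a : Matrix (Fin n) (Fin n) ℂ) (d M : Matrix (Fin w) (Fin w) ℂ) :
    pl (fromBlocks a 0 0 d) (cb n M) = cb n (dᵀ * M * d) := by
  funext J
  have h1 : (fromBlocks a 0 0 d)ᵀ * fromBlocks 0 0 0 M * fromBlocks a 0 0 d =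
      (fromBlocks 0 0 0 (dᵀ * M * d) : Matrix (Fin n ⊕ Fin w) (Fin n ⊕ Fin w) ℂ) := by
    rw [Matrix.fromBlocks_transpose, Matrix.fromBlocks_multiply,
      Matrix.fromBlocks_multiply]
    simp only [Matrix.mul_zero, Matrix.zero_mul, add_zero, zero_add, Matrix.transpose_zero]
  rw [cb, ← h1, pl, ← Equiv.sum_comp (finTwoArrowEquiv _).symm, Fintype.sum_prod_type,
    Matrix.mul_apply]
  simp only [cb, finTwoArrowEquiv_symm_apply, Fin.prod_univ_two, Matrix.cons_val_zero,
    Matrix.cons_val_one, Matrix.mul_apply, Matrix.transpose_apply, Finset.sum_mul]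
  rw [Finset.sum_comm]
  refine Finset.sum_congr rfl fun a _ => Finset.sum_congr rfl fun b _ => ?_
  ring

/-- the quadrilinear form -/
def qf (T : HS n) (j : Fin n → Matrix (Fin w) (Fin w) ℚ) :
    (Fin 2 ⊕ Fin 2 → Fin n ⊕ Fin w) → ℚ :=
  fun J => ∑ a, ∑ b, T.Q⁻¹ a b *
    ten (bf (fromBlocks 0 0 0 (j a))) (bf (fromBlocks 0 0 0 (j b))) J

theorem qf_cast (j : Fin n → Matrix (Fin w) (Fin w) ℚ) : (fun J => ((qf T j J : ℚ) : ℂ)) =
    ∑ a, ∑ b, (mC T.Q⁻¹ a b) • ten (cb n (mC (j a))) (cb n (mC (j b))) := by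
  funext J
  simp only [qf, Finset.sum_apply, Pi.smul_apply, smul_eq_mul]
  push_cast
  refine Finset.sum_congr rfl fun a _ => Finset.sum_congr rfl fun b _ => ?_
  congr 1
  have h1 := congrFun (cast_ten (bf (fromBlocks 0 0 0 (j a) :
    Matrix (Fin n ⊕ Fin w) (Fin n ⊕ Fin w) ℚ)) (bf (fromBlocks 0 0 0 (j b) :
    Matrix (Fin n ⊕ Fin w) (Fin n ⊕ Fin w) ℚ))) J
  rw [cb_cast, cb_cast] at h1
  exact h1

/-- the quadrilinear form only involves `A` -/
theorem qf_supp (j : Fin n → Matrix (Fin w) (Fin w) ℚ) (J : Fin 2 ⊕ Fin 2 → Fin n ⊕ Fin w)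
    (hJ : qf T j J ≠ 0) (k : Fin 2 ⊕ Fin 2) : ∃ b, J k = Sum.inr b := by
  by_contra hcon
  apply hJ
  obtain ⟨x, hx⟩ : ∃ x, J k = Sum.inl x := by
    rcases h : J k with x | x
    · exact ⟨x, rfl⟩
    · exact absurd ⟨x, h⟩ hcon
  refine Finset.sum_eq_zero fun a _ => Finset.sum_eq_zero fun b _ => ?_
  have h0 : ∀ (M : Matrix (Fin w) (Fin w) ℚ) (K : Fin 2 → Fin n ⊕ Fin w) (m : Fin 2),
      K m = Sum.inl x → bf (fromBlocks 0 0 0 M) K = 0 := by
    intro M K m hm
    fin_cases m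
    · simp only [bf]
      have hm' : K 0 = Sum.inl x := hm
      rw [hm']
      rcases K 1 with y | y <;> rfl
    · simp only [bf]
      have hm' : K 1 = Sum.inl x := hm
      rw [hm']
      rcases K 0 with y | y <;> rfl
  rcases k with k | k
  · rw [ten, h0 (j a) _ k hx, zero_mul, mul_zero]
  · rw [ten, h0 (j b) _ k hx, mul_zero, mul_zero]

theorem cb_add (M N : Matrix (Fin w) (Fin w) ℂ) (J : Fin 2 → Fin n ⊕ Fin w) :
    cb n (M + N) J = cb n M J + cb n N J := by
  simp only [cb]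
  rcases J 0 with x | x <;> rcases J 1 with y | y <;> simp

theorem cb_smul (z : ℂ) (M : Matrix (Fin w) (Fin w) ℂ) (J : Fin 2 → Fin n ⊕ Fin w) :
    cb n (z • M) J = z * cb n M J := by
  simp only [cb]
  rcases J 0 with x | x <;> rcases J 1 with y | y <;> simp

theorem cb_sum {α : Type} (s : Finset α) (M : α → Matrix (Fin w) (Fin w) ℂ)
    (J : Fin 2 → Fin n ⊕ Fin w) : cb n (∑ i ∈ s, M i) J = ∑ i ∈ s, cb n (M i) J := by
  classical
  induction s using Finset.induction_on with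
  | empty =>
    simp only [Finset.sum_empty, cb]
    rcases J 0 with x | x <;> rcases J 1 with y | y <;> simp
  | insert i s hi ih => rw [Finset.sum_insert hi, Finset.sum_insert hi, cb_add, ih]

theorem qf_hodge {j : Fin n → Matrix (Fin w) (Fin w) ℚ} (hj : IsHodgeMap T W j) :
    IsH T W (qf T j) := by
  rw [IsH, qf_cast, ← derL_apply, map_sum]
  simp only [map_sum, map_smul, derL_apply, der_ten]
  rw [hop]
  simp only [der_cb]
  have h1 : ∀ a, W.yᵀ * mC (j a) + mC (j a) * W.y = -∑ s, T.x s a • mC (j s) := by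
    intro a
    rw [← add_eq_zero_iff_eq_neg, add_comm, ← add_assoc]
    exact hj a
  funext K
  obtain ⟨F, hF⟩ : ∃ F : Fin n → ℂ, F = fun a => cb n (mC (j a)) fun k => K (Sum.inl k) :=
    ⟨_, rfl⟩
  obtain ⟨G, hG⟩ : ∃ G : Fin n → ℂ, G = fun a => cb n (mC (j a)) fun k => K (Sum.inr k) :=
    ⟨_, rfl⟩
  have h2 : ∀ a (L : Fin 2 → Fin n ⊕ Fin w), cb n (W.yᵀ * mC (j a) + mC (j a) * W.y) L =
      -∑ s, T.x s a * cb n (mC (j s)) L := by
    intro a L
    rw [h1, ← neg_one_smul ℂ (∑ s, T.x s a • mC (j s)), cb_smul, cb_sum, neg_one_mul]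
    congr 1
    exact Finset.sum_congr rfl fun s _ => cb_smul _ _ _
  have hF' : ∀ a, (cb n (mC (j a)) fun k => K (Sum.inl k)) = F a := fun a => by rw [hF]
  have hG' : ∀ a, (cb n (mC (j a)) fun k => K (Sum.inr k)) = G a := fun a => by rw [hG]
  simp only [Finset.sum_apply, Pi.smul_apply, Pi.add_apply, ten, h2, smul_eq_mul, hF', hG',
    Pi.zero_apply]
  obtain ⟨q, hq⟩ : ∃ q, q = mC T.Q⁻¹ := ⟨_, rfl⟩
  have hsk : T.x * q + q * T.xᵀ = 0 := by rw [hq]; exact skew_inv QQ T.skew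
  rw [← hq]
  have f1 : ∑ a, ∑ b, q a b * ((∑ s, T.x s a * F s) * G b) =
      ∑ a, ∑ b, (T.x * q) a b * (F a * G b) := by
    simp only [Matrix.mul_apply, Finset.mul_sum, Finset.sum_mul]
    calc ∑ a, ∑ b, ∑ s, q a b * (T.x s a * F s * G b)
        = ∑ b, ∑ a, ∑ s, q a b * (T.x s a * F s * G b) := Finset.sum_comm
      _ = ∑ b, ∑ s, ∑ a, q a b * (T.x s a * F s * G b) :=
          Finset.sum_congr rfl fun b _ => Finset.sum_comm
      _ = ∑ s, ∑ b, ∑ a, q a b * (T.x s a * F s * G b) := Finset.sum_comm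
      _ = _ := by
          refine Finset.sum_congr rfl fun a _ => Finset.sum_congr rfl fun b _ =>
            Finset.sum_congr rfl fun s _ => ?_
          ring
  have f2 : ∑ a, ∑ b, q a b * (F a * (∑ s, T.x s b * G s)) =
      ∑ a, ∑ b, (q * T.xᵀ) a b * (F a * G b) := by
    simp only [Matrix.mul_apply, Matrix.transpose_apply, Finset.mul_sum, Finset.sum_mul]
    refine Finset.sum_congr rfl fun a _ => ?_
    rw [Finset.sum_comm]
    refine Finset.sum_congr rfl fun b _ => Finset.sum_congr rfl fun s _ => ?_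
    ring
  have f3 : ∑ a, ∑ b, (T.x * q) a b * (F a * G b) + ∑ a, ∑ b, (q * T.xᵀ) a b * (F a * G b) =
      0 := by
    rw [← Finset.sum_add_distrib]
    refine Finset.sum_eq_zero fun a _ => ?_
    rw [← Finset.sum_add_distrib]
    refine Finset.sum_eq_zero fun b _ => ?_
    rw [← add_mul, ← Matrix.add_apply, hsk, Matrix.zero_apply, zero_mul]
  have f4 : ∑ a, ∑ b, q a b * (-(∑ s, T.x s a * F s) * G b + F a * -(∑ s, T.x s b * G s)) =
      -(∑ a, ∑ b, q a b * ((∑ s, T.x s a * F s) * G b) +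
        ∑ a, ∑ b, q a b * (F a * (∑ s, T.x s b * G s))) := by
    have f5 : ∀ a b, q a b * (-(∑ s, T.x s a * F s) * G b + F a * -(∑ s, T.x s b * G s)) =
        -(q a b * ((∑ s, T.x s a * F s) * G b) + q a b * (F a * (∑ s, T.x s b * G s))) := by
      intro a b
      ring
    simp only [f5, Finset.sum_neg_distrib, Finset.sum_add_distrib]
  rw [f4, f1, f2, f3, neg_zero]

/-! ### Lifting the elements which fix the Hodge classes of `A` -/

theorem pr_sum (X D : Matrix (Fin w) (Fin w) ℂ) :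
    pr W X D = ∑ x, ∑ y, X x y * (KE W * Dᵀ * KE W) y x := by
  have h1 : (KE W * X * (KE W * Dᵀ)).trace = (X * (KE W * Dᵀ * KE W)).trace := by
    rw [mul_assoc, Matrix.trace_mul_comm, mul_assoc]
  rw [pr_apply, h1, Matrix.trace]
  simp only [Matrix.diag_apply, Matrix.mul_apply (M := X)]

/-- the invariance of the quadrilinear form, entrywise -/
theorem qf_entry {j : Fin n → Matrix (Fin w) (Fin w) ℚ} {a : Matrix (Fin n) (Fin n) ℂ}
    {h : Matrix (Fin w) (Fin w) ℂ}
    (hq : pl (fromBlocks a 0 0 h) (fun J => (qf T j J : ℂ)) = fun J => (qf T j J : ℂ))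
    (p q x y : Fin w) :
    ∑ a, ∑ b, mC T.Q⁻¹ a b * ((hᵀ * mC (j a) * h) p q * (hᵀ * mC (j b) * h) x y) =
      ∑ a, ∑ b, mC T.Q⁻¹ a b * (mC (j a) p q * mC (j b) x y) := by
  rw [qf_cast, ← plL_apply, map_sum] at hq
  simp only [map_sum, map_smul, plL_apply, pl_ten, pl_cb] at hq
  have h1 := congrFun hq (Sum.elim ![Sum.inr p, Sum.inr q] ![Sum.inr x, Sum.inr y])
  simp only [Finset.sum_apply, Pi.smul_apply, smul_eq_mul, ten, cb, Sum.elim_inl, Sum.elim_inr,
    Matrix.cons_val_zero, Matrix.cons_val_one, Matrix.fromBlocks_apply₂₂] at h1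
  exact h1

/-- the contraction of the invariance -/
theorem qf_contr {j : Fin n → Matrix (Fin w) (Fin w) ℚ} {a : Matrix (Fin n) (Fin n) ℂ}
    {h : Matrix (Fin w) (Fin w) ℂ}
    (hq : pl (fromBlocks a 0 0 h) (fun J => (qf T j J : ℂ)) = fun J => (qf T j J : ℂ))
    (D : Matrix (Fin w) (Fin w) ℂ) :
    ∑ a, (∑ b, mC T.Q⁻¹ a b * pr W (hᵀ * mC (j b) * h) D) • (hᵀ * mC (j a) * h) =
      ∑ a, (∑ b, mC T.Q⁻¹ a b * pr W (mC (j b)) D) • mC (j a) := by
  ext p q
  have key : ∀ (A : Fin n → Matrix (Fin w) (Fin w) ℂ),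
      (∑ a, (∑ b, mC T.Q⁻¹ a b * pr W (A b) D) • A a) p q =
        ∑ x, ∑ y, (∑ a, ∑ b, mC T.Q⁻¹ a b * (A a p q * A b x y)) *
          (KE W * Dᵀ * KE W) y x := by
    intro A
    rw [Matrix.sum_apply]
    simp only [Matrix.smul_apply, smul_eq_mul, pr_sum, Finset.mul_sum, Finset.sum_mul]
    calc ∑ a, ∑ b, ∑ x, ∑ y, mC T.Q⁻¹ a b * (A b x y * (KE W * Dᵀ * KE W) y x) * A a p q
        = ∑ a, ∑ x, ∑ b, ∑ y, mC T.Q⁻¹ a b * (A b x y * (KE W * Dᵀ * KE W) y x) * A a p q :=
          Finset.sum_congr rfl fun a _ => Finset.sum_comm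
      _ = ∑ x, ∑ a, ∑ b, ∑ y, mC T.Q⁻¹ a b * (A b x y * (KE W * Dᵀ * KE W) y x) * A a p q :=
          Finset.sum_comm
      _ = ∑ x, ∑ a, ∑ y, ∑ b, mC T.Q⁻¹ a b * (A b x y * (KE W * Dᵀ * KE W) y x) * A a p q :=
          Finset.sum_congr rfl fun x _ => Finset.sum_congr rfl fun a _ => Finset.sum_comm
      _ = ∑ x, ∑ y, ∑ a, ∑ b, mC T.Q⁻¹ a b * (A b x y * (KE W * Dᵀ * KE W) y x) * A a p q :=
          Finset.sum_congr rfl fun x _ => Finset.sum_comm
      _ = _ := by
          refine Finset.sum_congr rfl fun x _ => Finset.sum_congr rfl fun y _ =>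
            Finset.sum_congr rfl fun a _ => Finset.sum_congr rfl fun b _ => ?_
          ring
  rw [key, key]
  refine Finset.sum_congr rfl fun x _ => Finset.sum_congr rfl fun y _ => ?_
  rw [qf_entry hq]

theorem Q_pic (bQ : BD c T.Q) (i : Fin r) : pic c i * mC T.Q = mC T.Q * pic c i := by
  ext a b
  rw [pic, Matrix.mul_diagonal, Matrix.diagonal_mul]
  by_cases hab : c a = c b
  · rw [hab]; ring
  · have : mC T.Q a b = 0 := by simp [mC, bQ a b hab]
    rw [this]; ring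

theorem pic_sq (i : Fin r) : pic c i * pic c i = pic c i := by
  rw [pic, Matrix.diagonal_mul_diagonal]
  congr 1
  funext a
  split_ifs <;> simp

theorem pic_ne {i i' : Fin r} (h : i ≠ i') : pic c i * pic c i' = 0 := by
  rw [pic, pic, Matrix.diagonal_mul_diagonal]
  ext a b
  rw [Matrix.diagonal_apply]
  split_ifs with h1 h2 h3
  · exact absurd (h2.symm.trans h3) h
  all_goals simp

theorem pic_T (i : Fin r) : (pic c i)ᵀ = pic c i := by
  rw [pic, Matrix.diagonal_transpose]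

/-- **Lifting.** An element `h` preserving the Riemann form and the quadrilinear form of a class
lifts to `T_i`. -/
theorem lift_fix {C : Ctx T c W} {i : Fin r} (U : Setup (LB T W (C.e i)) (C.T' i) W)
    {j : Fin n → Matrix (Fin w) (Fin w) ℚ} (hc : U.Cl fun b => j (C.e i b))
    (hs : ∀ a, c a ≠ i → j a = 0) {a : Matrix (Fin n) (Fin n) ℂ} {h h' : Matrix (Fin w) (Fin w) ℂ}
    (hh : h' * h = 1) (hE : h'ᵀ * mC W.E * h' = mC W.E)
    (hq : pl (fromBlocks a 0 0 h') (fun J => (qf T j J : ℂ)) = fun J => (qf T j J : ℂ)) :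
    ∃ M : Matrix (Fin n) (Fin n) ℂ, (∀ s, hᵀ * (∑ b, M b s • mC (j b)) * h = mC (j s)) ∧
      Mᵀ * mC T.Q * M = mC (Qb T c i) ∧ pic c i * M = M ∧ M * pic c i = M := by
  obtain ⟨z, hz0, hz⟩ := pair_full U hc hs
  obtain ⟨J, hJ⟩ : ∃ J : Fin n → Matrix (Fin w) (Fin w) ℂ, J = fun a => mC (j a) := ⟨_, rfl⟩
  have hJa : ∀ a, mC (j a) = J a := fun a => by rw [hJ]
  have hJ0 : ∀ a, c a ≠ i → J a = 0 := fun a ha => by rw [← hJa, hs a ha, mC_zero]
  simp only [hJa] at hz ⊢
  have hcon := fun D => qf_contr (W := W) hq D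
  simp only [hJa] at hcon
  obtain ⟨N, hN⟩ : ∃ N : Matrix (Fin n) (Fin n) ℂ, N = Matrix.of fun a s =>
    z⁻¹ * ∑ b, mC T.Q⁻¹ a b * pr W (J b) (h'ᵀ * J s * h') := ⟨_, rfl⟩
  have e1 : ∀ s, h'ᵀ * J s * h' = ∑ a, N a s • J a := by
    intro s
    have h1 := hcon (h'ᵀ * J s * h')
    have h2 : ∀ a, ∑ b, mC T.Q⁻¹ a b * pr W (h'ᵀ * J b * h') (h'ᵀ * J s * h') =
        z * pic c i a s := by
      intro a
      simp only [pr_conj hE, hz]
      have h3 : (mC T.Q⁻¹ * mC (Qb T c i)) a s = pic c i a s := by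
        rw [mC_Qb C.bQ, ← mul_assoc, QQ, one_mul]
      rw [← h3, Matrix.mul_apply, Finset.mul_sum]
      refine Finset.sum_congr rfl fun b _ => ?_
      ring
    simp only [h2] at h1
    have h4 : ∑ a, (z * pic c i a s) • (h'ᵀ * J a * h') = z • (h'ᵀ * J s * h') := by
      rw [Finset.sum_eq_single s]
      · by_cases hsi : c s = i
        · rw [pic, Matrix.diagonal_apply_eq, if_pos hsi, mul_one]
        · rw [hJ0 s hsi]; simp
      · intro a _ ha
        rw [pic, Matrix.diagonal_apply_ne _ ha, mul_zero, zero_smul]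
      · intro h'; exact absurd (Finset.mem_univ _) h'
    rw [h4] at h1
    have h5 : h'ᵀ * J s * h' = z⁻¹ • (z • (h'ᵀ * J s * h')) := by
      rw [smul_smul, inv_mul_cancel₀ hz0, one_smul]
    rw [h5, h1, Finset.smul_sum]
    refine Finset.sum_congr rfl fun a _ => ?_
    rw [smul_smul, hN, Matrix.of_apply]
  -- the matrix restricted to the block
  obtain ⟨M, hM⟩ : ∃ M, M = pic c i * N * pic c i := ⟨_, rfl⟩
  have hMe : ∀ a s, M a s = if c a = i ∧ c s = i then N a s else 0 := by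
    intro a s
    rw [hM, pic, Matrix.mul_diagonal, Matrix.diagonal_mul]
    by_cases h1 : c a = i <;> by_cases h2 : c s = i <;> simp [h1, h2]
  have e2 : ∀ s, h'ᵀ * J s * h' = ∑ a, M a s • J a := by
    intro s
    by_cases hsi : c s = i
    · rw [e1]
      refine Finset.sum_congr rfl fun a _ => ?_
      by_cases hai : c a = i
      · rw [hMe, if_pos ⟨hai, hsi⟩]
      · rw [hJ0 a hai, smul_zero, smul_zero]
    · rw [hJ0 s hsi, mul_zero, zero_mul]
      refine (Finset.sum_eq_zero fun a _ => ?_).symm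
      rw [hMe, if_neg fun h => hsi h.2, zero_smul]
  have hpM : pic c i * M = M := by
    rw [hM, ← mul_assoc, ← mul_assoc, pic_sq]
  have hMp : M * pic c i = M := by
    rw [hM, mul_assoc, pic_sq]
  refine ⟨M, fun s => ?_, ?_, hpM, hMp⟩
  · rw [← e2]
    have h1 : hᵀ * h'ᵀ = 1 := by rw [← Matrix.transpose_mul, hh, Matrix.transpose_one]
    calc hᵀ * (h'ᵀ * J s * h') * h = (hᵀ * h'ᵀ) * J s * (h' * h) := by simp only [mul_assoc]
      _ = J s := by rw [h1, hh, one_mul, mul_one]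
  · have h1 : ∀ s t, pr W (h'ᵀ * J s * h') (h'ᵀ * J t * h') =
        z * (Mᵀ * mC (Qb T c i) * M) s t := by
      intro s t
      rw [e2, e2]
      simp only [map_sum, LinearMap.sum_apply, map_smul, LinearMap.smul_apply, smul_eq_mul, hz]
      simp only [Matrix.mul_apply, Matrix.transpose_apply, Finset.mul_sum, Finset.sum_mul]
      refine Finset.sum_congr rfl fun a _ => Finset.sum_congr rfl fun b _ => ?_
      ring
    have h2 : Mᵀ * mC (Qb T c i) * M = mC (Qb T c i) := by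
      ext s t
      have h3 := h1 s t
      rw [pr_conj hE, hz] at h3
      exact (mul_left_cancel₀ hz0 h3).symm
    rw [mC_Qb C.bQ, mul_assoc, mul_assoc, hpM, ← mul_assoc] at h2
    rw [h2, mC_Qb C.bQ]

end

end Pool.Agent.L5helper24.KM
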