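import Pool.Agent.L5helper24.KM.Odd2

/-!
# One class of any degree suffices, III
-/

set_option autoImplicit false
set_option linter.unusedSectionVars false
set_option linter.unusedSimpArgs false

open Matrix Finset Module

namespace Pool.Agent.L5helper24.KM

open Pool.Agent Pool.Agent.W544.PG Pool.Agent.L5helper24.KS Pool.Agent.W216.PG.SOI

noncomputable section

section lie
variable {ι κ : Type} [Fintype ι] [DecidableEq ι] [Fintype κ] [DecidableEq κ]

/-- the bracket of two derivations -/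
theorem der_br (X Y : Matrix ι ι ℂ) (t : (κ → ι) → ℂ) :
    der X (der Y t) - der Y (der X t) = der (Y * X - X * Y) t := by
  funext J
  obtain ⟨F, hF⟩ : ∃ F : Matrix ι ι ℂ → Matrix ι ι ℂ → κ → κ → ℂ, F = fun X Y k k' =>
      ∑ l, ∑ l', X l (J k) * (Y l' (Function.update J k l k') *
        t (Function.update (Function.update J k l) k' l')) := ⟨_, rfl⟩
  have h1 : ∀ X Y : Matrix ι ι ℂ, der X (der Y t) J = ∑ k, ∑ k', F X Y k k' := by
    intro X Y
    rw [der, hF]
    refine Finset.sum_congr rfl fun k _ => ?_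
    rw [Finset.sum_comm]
    refine Finset.sum_congr rfl fun l _ => ?_
    rw [der, Finset.mul_sum]
    refine Finset.sum_congr rfl fun k' _ => ?_
    rw [Finset.mul_sum]
  have h2 : ∀ k k', F X Y k k' - F Y X k' k = if k' = k then
      ∑ l, (Y * X - X * Y) l (J k) * t (Function.update J k l) else 0 := by
    intro k k'
    by_cases h : k' = k
    · subst h
      rw [if_pos rfl, hF]
      simp only [Function.update_self, Function.update_idem]
      have e1 : ∀ X Y : Matrix ι ι ℂ, ∑ l, ∑ l', X l (J k') *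
          (Y l' l * t (Function.update J k' l')) =
          ∑ l, (Y * X) l (J k') * t (Function.update J k' l) := by
        intro X Y
        rw [Finset.sum_comm]
        refine Finset.sum_congr rfl fun l' _ => ?_
        rw [Matrix.mul_apply, Finset.sum_mul]
        refine Finset.sum_congr rfl fun l _ => ?_
        ring
      rw [e1, e1, ← Finset.sum_sub_distrib]
      refine Finset.sum_congr rfl fun l _ => ?_
      rw [Matrix.sub_apply, sub_mul]
    · rw [if_neg h, hF, sub_eq_zero]
      simp only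
      rw [Finset.sum_comm]
      refine Finset.sum_congr rfl fun l' _ => Finset.sum_congr rfl fun l _ => ?_
      rw [Function.update_of_ne h, Function.update_of_ne (Ne.symm h),
        Function.update_comm h]
      ring
  rw [Pi.sub_apply, h1, h1]
  have h3 : ∑ k, ∑ k', F Y X k k' = ∑ k, ∑ k', F Y X k' k := Finset.sum_comm
  rw [h3, ← Finset.sum_sub_distrib, der]
  refine Finset.sum_congr rfl fun k _ => ?_
  rw [← Finset.sum_sub_distrib]
  simp only [h2]
  rw [Finset.sum_ite_eq' univ k, if_pos (Finset.mem_univ k)]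

/-- conjugation of a derivation -/
theorem pl_der_conj {G X X' : Matrix ι ι ℂ} (h : X * G = G * X') (t : (κ → ι) → ℂ) :
    pl G (der X t) = der X' (pl G t) := by
  rw [← plv_const, ← derv_const, ← plv_const, ← derv_const]
  exact plv_derv (fun _ => h) t

theorem der_add_mat (X Y : Matrix ι ι ℂ) (t : (κ → ι) → ℂ) :
    der (X + Y) t = der X t + der Y t := by
  funext J
  rw [Pi.add_apply, der, der, der, ← Finset.sum_add_distrib]
  refine Finset.sum_congr rfl fun k _ => ?_
  rw [← Finset.sum_add_distrib]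
  refine Finset.sum_congr rfl fun l _ => ?_
  rw [Matrix.add_apply, add_mul]

theorem der_sub_mat (X Y : Matrix ι ι ℂ) (t : (κ → ι) → ℂ) :
    der (X - Y) t = der X t - der Y t := by
  rw [eq_sub_iff_add_eq, ← der_add_mat, sub_add_cancel]

theorem pl_diag (D : ι → ℂ) (t : (κ → ι) → ℂ) (J : κ → ι) :
    pl (Matrix.diagonal D) t J = (∏ k, D (J k)) * t J := by
  rw [pl, Finset.sum_eq_single J]
  · congr 1
    exact Finset.prod_congr rfl fun k _ => Matrix.diagonal_apply_eq _ _
  · intro K _ hK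
    obtain ⟨k, hk⟩ := Function.ne_iff.1 hK
    rw [Finset.prod_eq_zero (Finset.mem_univ k), zero_mul]
    exact Matrix.diagonal_apply_ne _ hk
  · intro h
    exact absurd (Finset.mem_univ _) h

end lie

/-! ### Ideals and commutants for a general quadratic form -/

section quad
variable {k : ℕ} {Q g g' : Matrix (Fin k) (Fin k) ℂ}

theorem quad_ideal (h3 : 3 ≤ k) (h4 : k ≠ 4) (e1 : g' * g = 1) (e2 : g * g' = 1)
    (e3 : gᵀ * Q = g') (e4 : Q * g = g'ᵀ) {N : Submodule ℂ (Matrix (Fin k) (Fin k) ℂ)}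
    (hskew : ∀ Z ∈ N, Zᵀ * Q + Q * Z = 0)
    (hid : ∀ Z ∈ N, ∀ Y : Matrix (Fin k) (Fin k) ℂ, Yᵀ * Q + Q * Y = 0 → Y * Z - Z * Y ∈ N)
    {Z : Matrix (Fin k) (Fin k) ℂ} (hZ : Z ∈ N) (h0 : Z ≠ 0) {Y : Matrix (Fin k) (Fin k) ℂ}
    (hY : Yᵀ * Q + Q * Y = 0) : Y ∈ N := by
  -- transport by `Z ↦ g' Z g`
  obtain ⟨φ, hφ⟩ : ∃ φ : Matrix (Fin k) (Fin k) ℂ →ₗ[ℂ] Matrix (Fin k) (Fin k) ℂ,
      ∀ Z, φ Z = g * Z * g' :=
    ⟨(LinearMap.mulRight ℂ g').comp (LinearMap.mulLeft ℂ g), fun Z => rfl⟩
  have hφm : ∀ A B, φ (A * B) = φ A * φ B := by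
    intro A B
    rw [hφ, hφ, hφ]
    calc g * (A * B) * g' = g * A * (g' * g) * B * g' := by rw [e1, mul_one]; simp only [mul_assoc]
      _ = _ := by simp only [mul_assoc]
  have hinv : ∀ A, φ (g' * A * g) = A := by
    intro A
    rw [hφ]
    calc g * (g' * A * g) * g' = (g * g') * A * (g * g') := by simp only [mul_assoc]
      _ = A := by rw [e2, one_mul, mul_one]
  have hsk1 : ∀ A : Matrix (Fin k) (Fin k) ℂ, Aᵀ = -A → (φ A)ᵀ * Q + Q * φ A = 0 := by
    intro A hA
    rw [hφ, Matrix.transpose_mul, Matrix.transpose_mul, mul_assoc g'ᵀ, mul_assoc Aᵀ, e3,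
      ← mul_assoc Q, ← mul_assoc Q, e4, hA, mul_assoc g'ᵀ A, ← mul_add, ← add_mul,
      neg_add_cancel, zero_mul, mul_zero]
  have hsk2 : ∀ A : Matrix (Fin k) (Fin k) ℂ, Aᵀ * Q + Q * A = 0 →
      (g' * A * g)ᵀ = -(g' * A * g) := by
    intro A hA
    have h5 : gᵀ * g'ᵀ = 1 := by rw [← Matrix.transpose_mul, e1, Matrix.transpose_one]
    have h6 : g'ᵀ * g' = Q := by rw [← e4, mul_assoc, e2, mul_one]
    have h7 : gᵀ * Aᵀ * Q * g = -(gᵀ * Q * A * g) := by
      rw [mul_assoc gᵀ Aᵀ, eq_neg_of_add_eq_zero_left hA, mul_neg, neg_mul]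
      simp only [mul_assoc]
    calc (g' * A * g)ᵀ = gᵀ * Aᵀ * (g'ᵀ * (g' * g)) := by
          rw [e1, mul_one, Matrix.transpose_mul, Matrix.transpose_mul]; simp only [mul_assoc]
      _ = gᵀ * Aᵀ * Q * g := by rw [← mul_assoc g'ᵀ, h6]; simp only [mul_assoc]
      _ = -(g' * A * g) := by rw [h7, e3]
  have h5 := so_ideal (α := Fin k) (by rw [Fintype.card_fin]; exact h3)
    (by rw [Fintype.card_fin]; exact h4) (N := N.comap φ)
    (fun A hA => by
      have h6 := hsk2 _ (hskew _ hA)
      have h7 : g' * φ A * g = A := by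
        rw [hφ]
        calc g' * (g * A * g') * g = (g' * g) * A * (g' * g) := by simp only [mul_assoc]
          _ = A := by rw [e1, one_mul, mul_one]
      rwa [h7] at h6)
    (fun A hA B hB => by
      rw [Submodule.mem_comap, map_sub, hφm, hφm]
      exact hid _ hA _ (hsk1 B hB))
    (Z := g' * Z * g) (by rw [Submodule.mem_comap, hinv]; exact hZ)
    (fun h => h0 (by rw [← hinv Z, h, map_zero])) (Y := g' * Y * g) (hsk2 Y hY)
  rw [Submodule.mem_comap, hinv] at h5
  exact h5

theorem quad_comm (h3 : 3 ≤ k) (e1 : g' * g = 1) (e2 : g * g' = 1)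
    (e3 : gᵀ * Q = g') (e4 : Q * g = g'ᵀ) {a : Matrix (Fin k) (Fin k) ℂ}
    (h : ∀ Z : Matrix (Fin k) (Fin k) ℂ, Zᵀ * Q + Q * Z = 0 → a * Z = Z * a) :
    ∃ z : ℂ, a = z • 1 := by
  obtain ⟨z, hz⟩ := so_comm (α := Fin k) (by rw [Fintype.card_fin]; exact h3) (g := g' * a * g)
    (fun Z hZ => by
      have h5 : (g * Z * g')ᵀ * Q + Q * (g * Z * g') = 0 := by
        rw [Matrix.transpose_mul, Matrix.transpose_mul, mul_assoc g'ᵀ, mul_assoc Zᵀ, e3,
          ← mul_assoc Q, ← mul_assoc Q, e4, hZ, mul_assoc g'ᵀ Z, ← mul_add, ← add_mul,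
          neg_add_cancel, zero_mul, mul_zero]
      have h6 := h _ h5
      calc g' * a * g * Z = g' * (a * (g * Z * g')) * g := by
            have : g' * (a * (g * Z * g')) * g = g' * a * g * Z * (g' * g) := by
              simp only [mul_assoc]
            rw [this, e1, mul_one]
        _ = Z * (g' * a * g) := by
            rw [h6]
            have : g' * (g * Z * g' * a) * g = (g' * g) * Z * (g' * a * g) := by
              simp only [mul_assoc]
            rw [this, e1, one_mul])
  refine ⟨z, ?_⟩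
  calc a = g * (g' * a * g) * g' := by
        have : g * (g' * a * g) * g' = (g * g') * a * (g * g') := by simp only [mul_assoc]
        rw [this, e2, one_mul, mul_one]
    _ = z • 1 := by rw [hz, mul_smul_comm, mul_one, smul_mul_assoc, e2]

end quad

end

end Pool.Agent.L5helper24.KM
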