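import Pool.Agent.L5helper24.KM.Odd3

/-!
# One class of any degree suffices, IV
-/

set_option autoImplicit false
set_option linter.unusedSectionVars false
set_option linter.unusedSimpArgs false

open Matrix Finset Module

namespace Pool.Agent.L5helper24.KM

open Pool.Agent Pool.Agent.W544.PG Pool.Agent.L5helper24.KS Pool.Agent.W216.PG.SOI

noncomputable section

variable {n w r : ℕ} {T : HS n} {W : HW w} {c : Fin n → Fin r}

/-! ### Complex trilinear forms -/

/-- the trilinear form given by a family of complex bilinear forms -/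
def ctri (j : Fin n → Matrix (Fin w) (Fin w) ℂ) : (Fin 3 → Fin n ⊕ Fin w) → ℂ :=
  fun J => Sum.elim (fun a => Sum.elim (fun _ => 0)
    (fun b => Sum.elim (fun _ => 0) (fun d => j a b d) (J 2)) (J 1)) (fun _ => 0) (J 0)

theorem ctri_cast (j : Fin n → Matrix (Fin w) (Fin w) ℚ) :
    (fun J => ((tri j J : ℚ) : ℂ)) = ctri fun a => mC (j a) := by
  funext J
  simp only [tri, ctri]
  rcases J 0 with x | x
  · rcases J 1 with y | y
    · simp
    · rcases J 2 with z | z <;> simp [mC]
  · simp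

theorem ctri_ext {f : (Fin 3 → Fin n ⊕ Fin w) → ℂ} {j : Fin n → Matrix (Fin w) (Fin w) ℂ}
    (h1 : ∀ a b d, f ![Sum.inl a, Sum.inr b, Sum.inr d] = j a b d)
    (h2 : ∀ x y z, ctri (n := n) (w := w) (fun _ => Matrix.of fun _ _ => 1) ![x, y, z] = 0 →
      f ![x, y, z] = 0) : f = ctri j := by
  funext J
  have hJ : J = ![J 0, J 1, J 2] := by
    funext i; fin_cases i <;> rfl
  rw [hJ]
  obtain ⟨x, hx⟩ : ∃ x, x = J 0 := ⟨_, rfl⟩
  obtain ⟨y, hy⟩ : ∃ y, y = J 1 := ⟨_, rfl⟩
  obtain ⟨z, hz⟩ : ∃ z, z = J 2 := ⟨_, rfl⟩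
  rw [← hx, ← hy, ← hz]
  rcases x with x | x
  · rcases y with y | y
    · rw [h2 _ _ _ (by simp [ctri])]; simp [ctri]
    · rcases z with z | z
      · rw [h2 _ _ _ (by simp [ctri])]; simp [ctri]
      · rw [h1]; simp [ctri]
  · rw [h2 _ _ _ (by simp [ctri])]; simp [ctri]

theorem pl_ctri (a : Matrix (Fin n) (Fin n) ℂ) (h : Matrix (Fin w) (Fin w) ℂ)
    (j : Fin n → Matrix (Fin w) (Fin w) ℂ) : pl (fromBlocks a 0 0 h) (ctri j) =
      ctri fun s => hᵀ * (∑ b, a b s • j b) * h := by
  have key : ∀ x y z, pl (fromBlocks a 0 0 h) (ctri j) ![x, y, z] =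
      ∑ p, ∑ q, ∑ s, (fromBlocks a 0 0 h : Matrix (Fin n ⊕ Fin w) (Fin n ⊕ Fin w) ℂ) p x *
        ((fromBlocks a 0 0 h : Matrix (Fin n ⊕ Fin w) (Fin n ⊕ Fin w) ℂ) q y *
        (fromBlocks a 0 0 h : Matrix (Fin n ⊕ Fin w) (Fin n ⊕ Fin w) ℂ) s z) *
        ctri j ![p, q, s] := by
    intro x y z
    rw [pl, ← Equiv.sum_comp (e3 _)]
    simp only [Fintype.sum_prod_type, Fin.prod_univ_three, e3, Equiv.coe_fn_mk,
      Matrix.cons_val_zero, Matrix.cons_val_one, Matrix.cons_val]
    refine Finset.sum_congr rfl fun p _ => Finset.sum_congr rfl fun q _ =>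
      Finset.sum_congr rfl fun s _ => ?_
    ring
  refine ctri_ext (fun s x y => ?_) (fun x y z hxyz => ?_)
  · rw [key]
    simp only [Fintype.sum_sum_type, ctri, Matrix.cons_val_zero, Matrix.cons_val_one,
      Matrix.cons_val, Matrix.fromBlocks_apply₁₁, Matrix.fromBlocks_apply₂₁,
      Matrix.fromBlocks_apply₁₂, Matrix.fromBlocks_apply₂₂, Matrix.zero_apply, Sum.elim_inl,
      Sum.elim_inr, mul_zero, zero_mul, Finset.sum_const_zero, add_zero, zero_add]
    simp only [Matrix.mul_apply, Matrix.transpose_apply, Matrix.sum_apply, Matrix.smul_apply,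
      smul_eq_mul, Finset.sum_mul, Finset.mul_sum]
    calc ∑ b, ∑ p, ∑ q, a b s * (h p x * h q y) * j b p q
        = ∑ b, ∑ q, ∑ p, a b s * (h p x * h q y) * j b p q :=
          Finset.sum_congr rfl fun b _ => Finset.sum_comm
      _ = ∑ q, ∑ b, ∑ p, a b s * (h p x * h q y) * j b p q := Finset.sum_comm
      _ = _ := by
          refine Finset.sum_congr rfl fun q _ => Finset.sum_congr rfl fun b _ =>
            Finset.sum_congr rfl fun p _ => ?_
          ring
  · rw [key]
    refine Finset.sum_eq_zero fun p _ => Finset.sum_eq_zero fun q _ =>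
      Finset.sum_eq_zero fun s _ => ?_
    rcases x with x | x <;> rcases y with y | y <;> rcases z with z | z <;>
      rcases p with p | p <;> rcases q with q | q <;> rcases s with s | s <;>
      simp_all [ctri]

theorem der_ctri (Z : Matrix (Fin n) (Fin n) ℂ) (V : Matrix (Fin w) (Fin w) ℂ)
    (j : Fin n → Matrix (Fin w) (Fin w) ℂ) : der (fromBlocks Z 0 0 V) (ctri j) =
      ctri fun a => ∑ s, Z s a • j s + Vᵀ * j a + j a * V := by
  have u0 : ∀ x y z t : Fin n ⊕ Fin w, Function.update ![x, y, z] 0 t = ![t, y, z] := by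
    intro x y z t; funext i; fin_cases i <;> simp [Function.update]
  have u1 : ∀ x y z t : Fin n ⊕ Fin w, Function.update ![x, y, z] 1 t = ![x, t, z] := by
    intro x y z t; funext i; fin_cases i <;> simp [Function.update]
  have u2 : ∀ x y z t : Fin n ⊕ Fin w, Function.update ![x, y, z] 2 t = ![x, y, t] := by
    intro x y z t; funext i; fin_cases i <;> simp [Function.update]
  have key : ∀ x y z, der (fromBlocks Z 0 0 V) (ctri j) ![x, y, z] =
      ∑ t, (fromBlocks Z 0 0 V : Matrix (Fin n ⊕ Fin w) (Fin n ⊕ Fin w) ℂ) t x *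
        ctri j ![t, y, z] +
      ∑ t, (fromBlocks Z 0 0 V : Matrix (Fin n ⊕ Fin w) (Fin n ⊕ Fin w) ℂ) t y *
        ctri j ![x, t, z] +
      ∑ t, (fromBlocks Z 0 0 V : Matrix (Fin n ⊕ Fin w) (Fin n ⊕ Fin w) ℂ) t z *
        ctri j ![x, y, t] := by
    intro x y z
    rw [der, Fin.sum_univ_three]
    simp only [u0, u1, u2, Matrix.cons_val_zero, Matrix.cons_val_one, Matrix.cons_val]
  refine ctri_ext (fun a b d => ?_) (fun x y z hxyz => ?_)
  · rw [key]
    simp only [Fintype.sum_sum_type, ctri, Matrix.cons_val_zero, Matrix.cons_val_one,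
      Matrix.cons_val, Matrix.fromBlocks_apply₁₁, Matrix.fromBlocks_apply₂₁,
      Matrix.fromBlocks_apply₁₂, Matrix.fromBlocks_apply₂₂, Matrix.zero_apply, Sum.elim_inl,
      Sum.elim_inr, mul_zero, zero_mul, Finset.sum_const_zero, add_zero, zero_add]
    simp only [Matrix.add_apply, Matrix.mul_apply, Matrix.transpose_apply, Matrix.sum_apply,
      Matrix.smul_apply, smul_eq_mul]
    congr 1
    refine Finset.sum_congr rfl fun x _ => ?_
    ring
  · rw [key]
    rcases x with x | x <;> rcases y with y | y <;> rcases z with z | z <;>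
      simp_all [ctri, Fintype.sum_sum_type]

theorem isH_tri {j : Fin n → Matrix (Fin w) (Fin w) ℚ} (h : IsHodgeMap T W j) :
    IsH T W (tri j) := by
  rw [IsH, ctri_cast, hop, der_ctri]
  have h1 : (fun a => ∑ s, T.x s a • mC (j s) + W.yᵀ * mC (j a) + mC (j a) * W.y) =
      fun _ => 0 := by
    funext a
    exact h a
  rw [h1]
  funext J
  simp only [ctri]
  rcases J 0 with x | x
  · rcases J 1 with y | y
    · simp
    · rcases J 2 with z | z <;> simp
  · simp

/-! ### Number of arguments in a block -/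

/-- the number of arguments in a block -/
def occ {κ : Type} [Fintype κ] (c : Fin n → Fin r) (i : Fin r) (J : κ → Fin n ⊕ Fin w) : ℕ :=
  ∑ k, Sum.elim (fun a => if c a = i then 1 else 0) (fun _ => 0) (J k)

/-- **One block.** -/
theorem one_block (C : Ctx T c W) (i : Fin r) (h3 : 3 ≤ C.k i) (h4 : C.k i ≠ 4)
    {κ : Type} [Fintype κ] [DecidableEq κ] {u : (κ → Fin n ⊕ Fin w) → ℚ} (hu : IsH T W u)
    (hsupp : ∀ J, u J ≠ 0 → ∀ k a, J k = Sum.inl a → c a = i)
    (hx : der (fromBlocks (Matrix.of fun a b => if c a = i then T.x a b else 0) 0 0 0)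
      (fun J => (u J : ℂ)) ≠ 0)
    {g g' : Matrix (Fin n) (Fin n) ℂ} (hg : BD c g) (hg' : BD c g') (hgg : g * g' = 1)
    (ho : gᵀ * mC T.Q * g = mC T.Q)
    (hfix : pl (fromBlocks g 0 0 1) (fun J => (u J : ℂ)) = fun J => (u J : ℂ)) :
    ∃ z : ℂ, g.submatrix (C.e i) (C.e i) = z • 1 ∧
      (z = 1 ∨ (z = -1 ∧ ¬ ∀ J, u J ≠ 0 → Odd (occ c i J))) := by
  obtain ⟨m, m', e1, e2, e3, e4, -⟩ := exists_orth C i
  obtain ⟨uc, huc⟩ : ∃ uc : (κ → Fin n ⊕ Fin w) → ℂ, uc = fun J => (u J : ℂ) := ⟨_, rfl⟩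
  have he := (C.blk i).en.inj
  obtain ⟨a, ha⟩ : ∃ a, a = g.submatrix (C.e i) (C.e i) := ⟨_, rfl⟩
  obtain ⟨a', ha'⟩ : ∃ a', a' = g'.submatrix (C.e i) (C.e i) := ⟨_, rfl⟩
  have haa : a * a' = 1 := by
    rw [ha, ha']
    have h5 := congrArg (fun A : Matrix (Fin n) (Fin n) ℂ => A.submatrix (C.e i) (C.e i)) hgg
    rw [one_sub he] at h5
    rw [← h5, sub_eq, sub_eq, sub_eq]
    calc (sel (C.e i))ᵀ * g * sel (C.e i) * ((sel (C.e i))ᵀ * g' * sel (C.e i))
        = (sel (C.e i))ᵀ * (g * sel (C.e i)) * ((sel (C.e i))ᵀ * g' * sel (C.e i)) := by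
          simp only [Matrix.mul_assoc]
      _ = (sel (C.e i))ᵀ * g * (g' * sel (C.e i)) := by
          rw [(C.blk i).en.mul_sel hg', sub_eq]
          simp only [Matrix.mul_assoc]
      _ = _ := by simp only [Matrix.mul_assoc]
  have haa' : a' * a = 1 := mul_eq_one_comm.1 haa
  rw [← huc] at hfix hx
  rw [← ha]
  -- the ideal
  let N : Submodule ℂ (Matrix (Fin (C.k i)) (Fin (C.k i)) ℂ) :=
    { carrier := {Z | Zᵀ * mC (C.T' i).Q + mC (C.T' i).Q * Z = 0 ∧
        der (fromBlocks (bk (C.e i) Z) 0 0 0) uc = 0}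
      add_mem' := by
        rintro Z Z' ⟨h1, h2⟩ ⟨h3, h4⟩
        refine ⟨?_, ?_⟩
        · rw [Matrix.transpose_add, add_mul, mul_add, add_add_add_comm, h1, h3, add_zero]
        · rw [bk_add]
          have h5 : (fromBlocks (bk (C.e i) Z + bk (C.e i) Z') 0 0 0 :
              Matrix (Fin n ⊕ Fin w) (Fin n ⊕ Fin w) ℂ) =
              fromBlocks (bk (C.e i) Z) 0 0 0 + fromBlocks (bk (C.e i) Z') 0 0 0 := by
            rw [Matrix.fromBlocks_add]; simp
          rw [h5, der_add_mat, h2, h4, add_zero]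
      zero_mem' := by
        refine ⟨by simp, ?_⟩
        rw [bk_zero, Matrix.fromBlocks_zero]
        funext J
        simp [der]
      smul_mem' := by
        rintro z Z ⟨h1, h2⟩
        refine ⟨?_, ?_⟩
        · rw [Matrix.transpose_smul, smul_mul_assoc, mul_smul_comm, ← smul_add, h1, smul_zero]
        · rw [bk_smul]
          have h5 : (fromBlocks (z • bk (C.e i) Z) 0 0 0 :
              Matrix (Fin n ⊕ Fin w) (Fin n ⊕ Fin w) ℂ) = z • fromBlocks (bk (C.e i) Z) 0 0 0 := by
            rw [Matrix.fromBlocks_smul]; simp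
          rw [h5, der_smul, h2, smul_zero] }
  have hN : ∀ Z, Z ∈ N ↔ Zᵀ * mC (C.T' i).Q + mC (C.T' i).Q * Z = 0 ∧
      der (fromBlocks (bk (C.e i) Z) 0 0 0) uc = 0 := fun Z => Iff.rfl
  -- lifting elements of the orthogonal Lie algebra
  have hlift : ∀ Y : Matrix (Fin (C.k i)) (Fin (C.k i)) ℂ,
      Yᵀ * mC (C.T' i).Q + mC (C.T' i).Q * Y = 0 → ∃ V : Matrix (Fin w) (Fin w) ℂ,
        der (fromBlocks (bk (C.e i) Y) 0 0 V) uc = 0 := by
    intro Y hY
    obtain ⟨V, hV⟩ := C.surj _ (bk_skew C.bQ (C.blk i) hY) (bk_BD (C.blk i).en _)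
    exact ⟨V, by rw [huc]; exact LL_kill hu hV⟩
  have hskewbr : ∀ Y Z : Matrix (Fin (C.k i)) (Fin (C.k i)) ℂ,
      Yᵀ * mC (C.T' i).Q + mC (C.T' i).Q * Y = 0 → Zᵀ * mC (C.T' i).Q + mC (C.T' i).Q * Z = 0 →
      (Y * Z - Z * Y)ᵀ * mC (C.T' i).Q + mC (C.T' i).Q * (Y * Z - Z * Y) = 0 := by
    intro Y Z hY hZ
    have f1 := eq_neg_of_add_eq_zero_left hY
    have f2 := eq_neg_of_add_eq_zero_left hZ
    rw [Matrix.transpose_sub, Matrix.transpose_mul, Matrix.transpose_mul, sub_mul, mul_assoc,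
      f1, mul_neg, ← mul_assoc, f2, mul_assoc Yᵀ, f2, mul_neg, ← mul_assoc Yᵀ, f1, mul_sub]
    simp only [neg_mul, neg_neg, mul_assoc]
    abel
  by_cases hbot : N = ⊥
  · -- the commutant
    have hcomm : ∀ Y : Matrix (Fin (C.k i)) (Fin (C.k i)) ℂ,
        Yᵀ * mC (C.T' i).Q + mC (C.T' i).Q * Y = 0 → a * Y = Y * a := by
      intro Y hY
      obtain ⟨V, hV⟩ := hlift Y hY
      have h5 : fromBlocks (bk (C.e i) Y) 0 0 V * fromBlocks g 0 0 1 =
          (fromBlocks g 0 0 1 * fromBlocks (bk (C.e i) (a' * Y * a)) 0 0 V :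
            Matrix (Fin n ⊕ Fin w) (Fin n ⊕ Fin w) ℂ) := by
        rw [Matrix.fromBlocks_multiply, Matrix.fromBlocks_multiply]
        simp only [Matrix.mul_zero, Matrix.zero_mul, add_zero, zero_add, Matrix.mul_one,
          Matrix.one_mul]
        rw [bk_mul_bd (C.blk i).en hg, bd_mul_bk (C.blk i).en hg, ← ha, ← mul_assoc,
          ← mul_assoc, haa, one_mul]
      have h6 := pl_der_conj h5 uc
      rw [hV, hfix, ← plL_apply, map_zero] at h6
      have h7 : (fromBlocks (bk (C.e i) (a' * Y * a - Y)) 0 0 0 :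
          Matrix (Fin n ⊕ Fin w) (Fin n ⊕ Fin w) ℂ) =
          fromBlocks (bk (C.e i) (a' * Y * a)) 0 0 V - fromBlocks (bk (C.e i) Y) 0 0 V := by
        rw [bk_sub]
        ext x y
        rcases x with x | x <;> rcases y with y | y <;> simp
      have hao : aᵀ * mC (C.T' i).Q * a = mC (C.T' i).Q := by
        rw [ha]; exact sub_orth (C.blk i) hg ho
      have hmem : a' * Y * a - Y ∈ N := by
        rw [hN]
        refine ⟨?_, by rw [h7, der_sub_mat, ← h6, hV, sub_zero]⟩
        have g1 : aᵀ * mC (C.T' i).Q = mC (C.T' i).Q * a' := by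
          calc aᵀ * mC (C.T' i).Q = aᵀ * mC (C.T' i).Q * a * a' := by
                rw [mul_assoc _ a, haa, mul_one]
            _ = _ := by rw [hao]
        have g2 : a'ᵀ * mC (C.T' i).Q = mC (C.T' i).Q * a := by
          have h8 : a'ᵀ * aᵀ = 1 := by
            rw [← Matrix.transpose_mul, haa, Matrix.transpose_one]
          calc a'ᵀ * mC (C.T' i).Q = a'ᵀ * (aᵀ * mC (C.T' i).Q * a) := by rw [hao]
            _ = (a'ᵀ * aᵀ) * mC (C.T' i).Q * a := by simp only [mul_assoc]
            _ = _ := by rw [h8, one_mul]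
        have g3 : (a' * Y * a)ᵀ * mC (C.T' i).Q + mC (C.T' i).Q * (a' * Y * a) = 0 := by
          have f1 := eq_neg_of_add_eq_zero_left hY
          calc (a' * Y * a)ᵀ * mC (C.T' i).Q + mC (C.T' i).Q * (a' * Y * a)
              = aᵀ * (Yᵀ * (a'ᵀ * mC (C.T' i).Q)) + mC (C.T' i).Q * a' * Y * a := by
                rw [Matrix.transpose_mul, Matrix.transpose_mul]; simp only [mul_assoc]
            _ = aᵀ * (Yᵀ * mC (C.T' i).Q) * a + mC (C.T' i).Q * a' * Y * a := by
                rw [g2]; simp only [mul_assoc]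
            _ = 0 := by
                rw [f1, mul_neg, ← mul_assoc aᵀ, g1, neg_mul, neg_add_cancel]
        rw [Matrix.transpose_sub, sub_mul, mul_sub, sub_add_sub_comm, g3, hY, sub_zero]
      rw [hbot, Submodule.mem_bot, sub_eq_zero] at hmem
      calc a * Y = a * (a' * Y * a) := by rw [hmem]
        _ = Y * a := by rw [← mul_assoc, ← mul_assoc, haa, one_mul]
    obtain ⟨z, hz⟩ := quad_comm h3 e1 e2 e3 e4 hcomm
    have hao : aᵀ * mC (C.T' i).Q * a = mC (C.T' i).Q := by
      rw [ha]; exact sub_orth (C.blk i) hg ho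
    have hz2 : z * z = 1 := by
      rw [hz, Matrix.transpose_smul, Matrix.transpose_one, smul_mul_assoc, one_mul,
        smul_mul_assoc, mul_smul_comm, mul_one, smul_smul] at hao
      by_contra hne
      apply Qdet (C.T' i)
      have h8 : (z * z - 1) • mC (C.T' i).Q = 0 := by rw [sub_smul, hao, one_smul, sub_self]
      have h9 := (smul_eq_zero.1 h8).resolve_left (sub_ne_zero.2 hne)
      rw [h9]
      have : Nonempty (Fin (C.k i)) := ⟨⟨0, by omega⟩⟩
      exact Matrix.det_zero
    have hz3 : z = 1 ∨ z = -1 := by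
      have : (z - 1) * (z + 1) = 0 := by linear_combination hz2
      rcases mul_eq_zero.1 this with h | h
      · exact Or.inl (sub_eq_zero.1 h)
      · exact Or.inr (eq_neg_of_add_eq_zero_left h)
    refine ⟨z, hz, ?_⟩
    rcases hz3 with h | h
    · exact Or.inl h
    · refine Or.inr ⟨h, fun hodd => hx ?_⟩
      -- the element `-1` on odd classes
      have hrow : ∀ K, uc K ≠ 0 → ∀ k y,
          (fromBlocks g 0 0 1 : Matrix (Fin n ⊕ Fin w) (Fin n ⊕ Fin w) ℂ) (K k) y =
          (Matrix.diagonal (Sum.elim (fun _ => -1) fun _ => 1) :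
            Matrix (Fin n ⊕ Fin w) (Fin n ⊕ Fin w) ℂ) (K k) y := by
        intro K hK k y
        have hK' : u K ≠ 0 := by
          intro h0
          apply hK
          rw [huc]
          simp [h0]
        rcases hKk : K k with x | x
        · have hcx := hsupp K hK' k x hKk
          obtain ⟨b, rfl⟩ := (C.blk i).en.surj x hcx
          rcases y with y | y
          · rw [Matrix.fromBlocks_apply₁₁]
            by_cases hcy : c y = i
            · obtain ⟨b', rfl⟩ := (C.blk i).en.surj y hcy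
              have h8 : g (C.e i b) (C.e i b') = a b b' := by rw [ha]; rfl
              rw [h8, hz, h, Matrix.smul_apply, Matrix.one_apply, Matrix.diagonal_apply]
              by_cases hbb : b = b'
              · rw [if_pos hbb, if_pos (by rw [hbb])]; simp
              · rw [if_neg hbb, if_neg (fun h9 => hbb (he (Sum.inl_injective h9)))]; simp
            · rw [hg _ _ (fun h9 => hcy (h9 ▸ hcx)), Matrix.diagonal_apply_ne]
              intro h9
              exact hcy (by rw [← Sum.inl_injective h9]; exact hcx)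
          · rw [Matrix.fromBlocks_apply₁₂, Matrix.diagonal_apply_ne _ (by simp)]
            rfl
        · rcases y with y | y
          · rw [Matrix.fromBlocks_apply₂₁, Matrix.diagonal_apply_ne _ (by simp)]
            rfl
          · rw [Matrix.fromBlocks_apply₂₂, Matrix.one_apply, Matrix.diagonal_apply]
            by_cases hxy : x = y
            · rw [if_pos hxy, if_pos (by rw [hxy])]; simp
            · rw [if_neg hxy, if_neg (fun h9 => hxy (Sum.inr_injective h9))]
      have h8 := pl_agree hrow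
      rw [hfix] at h8
      have h9 : uc = 0 := by
        funext J
        have h10 := congrFun h8 J
        rw [pl_diag] at h10
        by_cases hJ : u J = 0
        · rw [huc]; simp [hJ]
        · have h11 : (∏ k, (Sum.elim (fun _ => -1) (fun _ => 1) (J k) : ℂ)) =
              (-1) ^ (occ c i J) := by
            rw [occ, ← Finset.prod_pow_eq_pow_sum]
            refine Finset.prod_congr rfl fun k _ => ?_
            rcases hJk : J k with x | x
            · simp [hsupp J hJ k x hJk]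
            · simp
          rw [h11, (hodd J hJ).neg_one_pow] at h10
          have h12 : (2 : ℂ) * uc J = 0 := by linear_combination h10
          exact (mul_eq_zero.1 h12).resolve_left (by norm_num)
      rw [h9, ← derL_apply, map_zero]
  · -- the ideal is everything
    exfalso
    obtain ⟨Z, hZ, hZ0⟩ := (Submodule.ne_bot_iff N).1 hbot
    have h5 := quad_ideal h3 h4 e1 e2 e3 e4 (N := N) (fun Z hZ => ((hN Z).1 hZ).1)
      (fun Z hZ Y hY => by
        obtain ⟨h6, h7⟩ := (hN Z).1 hZ
        rw [hN]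
        refine ⟨hskewbr Y Z hY h6, ?_⟩
        obtain ⟨V, hV⟩ := hlift Y hY
        have h8 := der_br (fromBlocks (bk (C.e i) Y) 0 0 V) (fromBlocks (bk (C.e i) Z) 0 0 0) uc
        rw [h7, hV, ← derL_apply, ← derL_apply, map_zero, map_zero, sub_zero] at h8
        have h9 : (fromBlocks (bk (C.e i) Z) 0 0 0 * fromBlocks (bk (C.e i) Y) 0 0 V -
            fromBlocks (bk (C.e i) Y) 0 0 V * fromBlocks (bk (C.e i) Z) 0 0 0 :
            Matrix (Fin n ⊕ Fin w) (Fin n ⊕ Fin w) ℂ) =
            (-1 : ℂ) • fromBlocks (bk (C.e i) (Y * Z - Z * Y)) 0 0 0 := by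
          rw [Matrix.fromBlocks_multiply, Matrix.fromBlocks_multiply, bk_mul he, bk_mul he,
            bk_sub]
          ext x y
          rcases x with x | x <;> rcases y with y | y <;> simp [bk_mul he]
        rw [h9, der_smul, neg_one_smul] at h8
        exact (neg_eq_zero.1 h8.symm)) hZ hZ0 (x_skew (C.T' i))
    apply hx
    rw [of_eq_bk C i]
    exact ((hN _).1 h5).2

end

end Pool.Agent.L5helper24.KM
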