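import Pool.Agent.L5helper24.KM.Odd4

/-!
# One class of any degree suffices, V
-/

set_option autoImplicit false
set_option linter.unusedSectionVars false
set_option linter.unusedSimpArgs false

open Matrix Finset Module

namespace Pool.Agent.L5helper24.KM

open Pool.Agent Pool.Agent.W544.PG Pool.Agent.L5helper24.KS Pool.Agent.W216.PG.SOI

noncomputable section

variable {n w r : ℕ} {T : HS n} {W : HW w} {c : Fin n → Fin r} {p q : Fin r → ℕ}

/-- the data for a sum of pieces, with the ranks -/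
theorem exists_ctx' (hB : T.Big c p q) (W : HW w) : ∃ C : Ctx T c W,
    (∀ i, p i = 1 → ((C.T' i).x * (C.T' i).x).trace = 2) ∧ (∀ i, 3 ≤ C.k i) ∧
    (∀ i, 2 ≤ p i → ∀ y : Matrix (Fin (C.k i)) (Fin (C.k i)) ℂ,
      yᵀ * mC (C.T' i).Q + mC (C.T' i).Q * y = 0 →
      (bk (C.e i) y, (0 : Matrix (Fin w) (Fin w) ℂ)) ∈ LL T W) ∧
    ∀ i, p i = 1 → C.k i ≠ 4 := by
  choose e T' hb using fun i => exists_blk W571.PG.sub hB i
  have h1 : ∀ i, p i = 1 → ((T' i).x * (T' i).x).trace = 2 := by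
    intro i hi
    rw [(hb i).trace hB, hi]
    norm_num
  have h3 : ∀ i, 3 ≤ 2 * p i + q i := by
    intro i
    rcases hB.num i with h | ⟨h0, h⟩
    · omega
    · have hlt : 2 * p i < q i := by
        by_contra h'
        rw [Nat.sub_eq_zero_of_le (not_lt.1 h'), zero_mul] at h
        omega
      omega
  refine ⟨{ k := fun i => 2 * p i + q i, e := e, T' := T', bQ := hB.bQ, bx := hB.bx, blk := hb,
            surj := fun Z hZ hc => LL_surjB hB hZ hc, typ := ?_ }, h1, h3, ?_, ?_⟩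
  · intro i
    by_cases hi : p i = 1
    · exact Or.inl ⟨h1 i hi, h3 i⟩
    · refine Or.inr fun y hy => LL_big hB ?_ (hb i) hy
      rcases hB.num i with h | ⟨h0, -⟩
      · exact absurd h.1 hi
      · omega
  · intro i hi y hy
    exact LL_big hB hi (hb i) hy
  · intro i hi
    show 2 * p i + q i ≠ 4
    rcases hB.num i with h | ⟨h0, h⟩
    · omega
    · rw [hi] at h
      intro h4
      have hq : q i = 2 := by omega
      rw [hq] at h
      norm_num at h

/-- classes of one block from Hodge maps -/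
theorem cl_of_map {C : Ctx T c W} {i : Fin r} {j : Fin n → Matrix (Fin w) (Fin w) ℚ}
    (hj : IsHodgeMap T W j) (hs : ∀ a, c a ≠ i → j a = 0) (h0 : j ≠ 0)
    (U : Setup (LB T W (C.e i)) (C.T' i) W) : U.Cl fun b => j (C.e i b) := by
  have hsys : IsSys T W (FH T W ∅) := FH_sys fun P hP => absurd hP (Set.notMem_empty P)
  refine Cb.cl hsys ⟨?_, hs, h0⟩ U
  exact mem_FH.2 ⟨isH_tri hj, fun P hP => absurd hP (Set.notMem_empty P)⟩

theorem pic_bk (C : Ctx T c W) {A : Matrix (Fin n) (Fin n) ℂ} (hA : BD c A) (i : Fin r) :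
    pic c i * A = A * pic c i := by
  ext a b
  rw [pic, Matrix.mul_diagonal, Matrix.diagonal_mul]
  by_cases hab : c a = c b
  · rw [hab]; ring
  · rw [hA a b hab]; ring

theorem sum_pic : ∑ i, pic c i = 1 := by
  ext a b
  rw [Matrix.sum_apply, Matrix.one_apply]
  by_cases hab : a = b
  · subst hab
    rw [if_pos rfl, Finset.sum_eq_single (c a)]
    · rw [pic, Matrix.diagonal_apply_eq, if_pos rfl]
    · intro i _ hi
      rw [pic, Matrix.diagonal_apply_eq, if_neg (Ne.symm hi)]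
    · intro h; exact absurd (Finset.mem_univ _) h
  · rw [if_neg hab]
    refine Finset.sum_eq_zero fun i _ => ?_
    rw [pic, Matrix.diagonal_apply_ne _ hab]

/-- one element fixing the Hodge classes of `A` and the determinants lifts to all pieces -/
theorem lift_all {𝒜 : ∀ κ : Type, Submodule ℚ ((κ → Fin n ⊕ Fin w) → ℚ)}
    (hB : T.Big c p q) (hsys : IsSys T W 𝒜)
    (hpol : ∀ i, bf (fromBlocks (Qb T c i) 0 0 0) ∈ 𝒜 (Fin 2))
    (hA : ∀ (κ : Type) [Fintype κ] [DecidableEq κ] (t : (κ → Fin n ⊕ Fin w) → ℚ), IsH T W t →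
      (∀ J, t J ≠ 0 → ∀ k, ∃ b, J k = Sum.inr b) → t ∈ 𝒜 κ)
    {C : Ctx T c W} {a S : Matrix (Fin n) (Fin n) ℂ} {d : Matrix (Fin w) (Fin w) ℂ}
    (hP : FxA 𝒜 (fromBlocks a 0 0 d)) (hS : Sᵀ * mC T.Q * S = mC T.Q) (hSb : BD c S)
    (hd : dᵀ * mC W.E * d = mC W.E)
    (hcls : ∀ i, (∃ j : Fin n → Matrix (Fin w) (Fin w) ℚ, IsHodgeMap T W j ∧
        (∀ a, c a ≠ i → j a = 0) ∧ j ≠ 0 ∧
        ∀ s, dᵀ * (∑ b, S b s • mC (j b)) * d = mC (j s)) ∨
      (((2 ≤ p i ∨ ∀ (κ : Type) [Fintype κ] [DecidableEq κ] (t : (κ → Fin n ⊕ Fin w) → ℚ),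
          IsH T W t → der (fromBlocks (Matrix.of fun a b => if c a = i then T.x a b else 0) 0 0 0)
            (fun J => (t J : ℂ)) = 0) ∧
        ∀ (k : ℕ) (e : Fin k → Fin n), Function.Injective e → (∀ a, c a = i ↔ ∃ l, e l = a) →
          dt w e ∈ 𝒜 (Fin k)) ∧ ∀ x y, c x = i → S x y = a x y)) :
    Fx T W (fromBlocks S 0 0 d) := by
  intro κ _ _ t ht
  have hFS : IsSys T W (FH T W {fromBlocks S 0 0 d}) := FH_sys fun P hP => by
    rw [Set.mem_singleton_iff] at hP
    exact ⟨S, d, hP, hS, hd⟩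
  have hmem : ∀ {l : Type} [Fintype l] [DecidableEq l] {u : (l → Fin n ⊕ Fin w) → ℚ},
      IsH T W u → pl (fromBlocks S 0 0 d) (fun J => (u J : ℂ)) = (fun J => (u J : ℂ)) →
      u ∈ FH T W {fromBlocks S 0 0 d} l := by
    intro l _ _ u h1 h2
    refine mem_FH.2 ⟨h1, fun P hP => ?_⟩
    rw [Set.mem_singleton_iff.1 hP]
    exact h2
  -- forms on `A`
  have hAf : ∀ {l : Type} [Fintype l] [DecidableEq l] {u : (l → Fin n ⊕ Fin w) → ℚ},
      IsH T W u → (∀ J, u J ≠ 0 → ∀ k, ∃ b, J k = Sum.inr b) →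
      u ∈ FH T W {fromBlocks S 0 0 d} l := by
    intro l _ _ u h1 h2
    refine hmem h1 ?_
    have h3 := hP l u (hA l u h1 h2)
    have h4 : pl (fromBlocks S 0 0 d) (fun J => (u J : ℂ)) =
        pl (fromBlocks a 0 0 d) (fun J => (u J : ℂ)) := by
      refine pl_agree fun K hK k y => ?_
      obtain ⟨b, hb⟩ := h2 K (fun h0 => hK (by simp [h0])) k
      rw [hb]
      rcases y with y | y <;> rfl
    rw [h4, h3]
  have h1 : t ∈ FH T W {fromBlocks S 0 0 d} κ := by
    refine all_hodge hB hFS ?_ ?_ ?_ ?_ ht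
    · -- the polarisations
      intro i
      refine hmem (hsys.hodge _ _ (hpol i)) (pl_bf' ?_)
      rw [map_fb, mC_zero, Matrix.fromBlocks_transpose, Matrix.fromBlocks_multiply,
        Matrix.fromBlocks_multiply]
      simp only [Matrix.mul_zero, Matrix.zero_mul, add_zero, Matrix.transpose_zero]
      rw [mC_Qb C.bQ, ← mul_assoc, mul_assoc _ (pic c i) S, pic_bk C hSb, ← mul_assoc, hS]
    · -- the endomorphisms
      intro D hD
      refine hAf (isH_bfA ?_) ?_
      · rw [KS.mC_mul, ← mul_assoc, mul_assoc (mC W.E), hD, ← mul_assoc, ← add_mul, W.skew,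
          zero_mul]
      · intro J hJ k
        by_contra hcon
        apply hJ
        obtain ⟨x, hx⟩ : ∃ x, J k = Sum.inl x := by
          rcases h : J k with x | x
          · exact ⟨x, rfl⟩
          · exact absurd ⟨x, h⟩ hcon
        simp only [bf]
        fin_cases k
        · have hx' : J 0 = Sum.inl x := hx
          rw [hx']
          rcases J 1 with y | y <;> rfl
        · have hx' : J 1 = Sum.inl x := hx
          rw [hx']
          rcases J 0 with y | y <;> rfl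
    · -- the classes
      intro i
      rcases hcls i with ⟨j, h2, h3, h4, h5⟩ | ⟨⟨h2, h3⟩, h4⟩
      · refine Or.inl ⟨j, hmem (isH_tri h2) ?_, h3, h4⟩
        rw [ctri_cast, pl_ctri]
        congr 1
        funext s
        exact h5 s
      · refine Or.inr ⟨h2, fun k e he1 he2 => ?_⟩
        have h5 := h3 k e he1 he2
        refine hmem (hsys.hodge _ _ h5) ?_
        have h6 := hP _ _ h5
        have h7 : pl (fromBlocks S 0 0 d) (fun J => (dt w e J : ℂ)) =
            pl (fromBlocks a 0 0 d) (fun J => (dt w e J : ℂ)) := by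
          refine pl_agree fun K hK m y => ?_
          -- on the support all arguments are basis vectors of the block
          obtain ⟨l, hl⟩ : ∃ l, K m = Sum.inl (e l) := by
            by_contra hcon
            apply hK
            have h8 : dt w e K = 0 := by
              rw [dt]
              refine Matrix.det_eq_zero_of_row_eq_zero m fun l => ?_
              rw [Matrix.of_apply, if_neg]
              intro h9
              exact hcon ⟨l, h9⟩
            simp [h8]
          rw [hl]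
          rcases y with y | y
          · rw [Matrix.fromBlocks_apply₁₁, Matrix.fromBlocks_apply₁₁]
            exact h4 _ _ ((he2 _).2 ⟨l, rfl⟩)
          · rfl
        rw [h7, h6]
    · -- the rest of `A`
      intro D h2 _ l _ _ u hu
      refine hAf ?_ ?_
      · rw [IsH]
        have h3 : (fun J => ((plv (fun _ => fromBlocks 0 0 0 D) u J : ℚ) : ℂ)) =
            pl (fromBlocks 0 0 0 (mC D)) (fun J => (u J : ℂ)) := by
          funext J
          have h4 := congrFun (plv_map (Rat.castHom ℂ) (fun _ : l => (fromBlocks 0 0 0 D :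
            Matrix (Fin n ⊕ Fin w) (Fin n ⊕ Fin w) ℚ)) u) J
          have h5 : (fromBlocks 0 0 0 D : Matrix (Fin n ⊕ Fin w) (Fin n ⊕ Fin w) ℚ).map
              (Rat.castHom ℂ) = fromBlocks 0 0 0 (mC D) := by
            rw [map_fb', mC_zero]
          simp only [h5] at h4
          exact h4.symm
        rw [h3]
        have h4 : hop T W * fromBlocks 0 0 0 (mC D) = fromBlocks 0 0 0 (mC D) * hop T W := by
          rw [hop, Matrix.fromBlocks_multiply, Matrix.fromBlocks_multiply]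
          simp only [Matrix.mul_zero, Matrix.zero_mul, add_zero, zero_add]
          rw [h2]
        rw [← pl_der_conj h4, hu, ← plL_apply, map_zero]
      · intro J hJ k
        by_contra hcon
        apply hJ
        obtain ⟨x, hx⟩ : ∃ x, J k = Sum.inl x := by
          rcases h : J k with x | x
          · exact ⟨x, rfl⟩
          · exact absurd ⟨x, h⟩ hcon
        rw [plv]
        refine Finset.sum_eq_zero fun K _ => ?_
        rw [Finset.prod_eq_zero (Finset.mem_univ k), zero_mul]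
        rw [hx]
        rcases K k with y | y <;> rfl
  exact (mem_FH.1 h1).2 _ (Set.mem_singleton _)

set_option maxHeartbeats 1000000 in
/-- **One class of any degree suffices**, when all Hodge classes of `A` are in the system. -/
theorem odd_all {𝒜 : ∀ κ : Type, Submodule ℚ ((κ → Fin n ⊕ Fin w) → ℚ)}
    (hB : T.Big c p q) (hsys : IsSys T W 𝒜)
    (hpol : ∀ i, bf (fromBlocks (Qb T c i) 0 0 0) ∈ 𝒜 (Fin 2))
    (hA : ∀ (κ : Type) [Fintype κ] [DecidableEq κ] (t : (κ → Fin n ⊕ Fin w) → ℚ), IsH T W t →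
      (∀ J, t J ≠ 0 → ∀ k, ∃ b, J k = Sum.inr b) → t ∈ 𝒜 κ)
    (E : Set (Fin r))
    (hcls : ∀ i, (∃ j : Fin n → Matrix (Fin w) (Fin w) ℚ, IsHodgeMap T W j ∧
        (∀ a, c a ≠ i → j a = 0) ∧ j ≠ 0 ∧
        ∃ (κ : Type) (_ : Fintype κ) (_ : DecidableEq κ) (u : (κ → Fin n ⊕ Fin w) → ℚ),
          u ∈ 𝒜 κ ∧ (∀ J, u J ≠ 0 → ∀ k a, J k = Sum.inl a → c a = i) ∧
          (i ∉ E → ∀ J, u J ≠ 0 → Odd (occ c i J)) ∧
          der (fromBlocks (Matrix.of fun a b => if c a = i then T.x a b else 0) 0 0 0)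
            (fun J => (u J : ℂ)) ≠ 0) ∨
      ((2 ≤ p i ∨ ∀ (κ : Type) [Fintype κ] [DecidableEq κ] (t : (κ → Fin n ⊕ Fin w) → ℚ),
          IsH T W t → der (fromBlocks (Matrix.of fun a b => if c a = i then T.x a b else 0) 0 0 0)
            (fun J => (t J : ℂ)) = 0) ∧
        ∀ (k : ℕ) (e : Fin k → Fin n), Function.Injective e → (∀ a, c a = i ↔ ∃ l, e l = a) →
          dt w e ∈ 𝒜 (Fin k)))
    {κ : Type} [Fintype κ] [DecidableEq κ] {t : (κ → Fin n ⊕ Fin w) → ℚ} (ht : IsH T W t)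
    (hE : ∀ J, t J ≠ 0 → ∀ i ∈ E, Even (occ c i J)) : t ∈ 𝒜 κ := by
  obtain ⟨C, hC1, hC3, hC2, hC4⟩ := exists_ctx' hB W
  have hp : ∀ i, p i = 1 ∨ 2 ≤ p i := by
    intro i
    rcases hB.num i with h | ⟨h0, -⟩
    · exact Or.inl h.1
    · omega
  refine mem_of_fx hsys ht fun P₀ hP₀ => ?_
  obtain ⟨a, d, rfl, ha, hd⟩ := hP₀.shape hsys
  have hbd : BD c a := hP₀.bd C.bQ hpol ha
  -- the inverse of `d`
  obtain ⟨d', hd'⟩ : ∃ d', d' = KE W * dᵀ * mC W.E := ⟨_, rfl⟩
  have hdd : d' * d = 1 := by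
    rw [hd', mul_assoc, mul_assoc, ← mul_assoc dᵀ, hd, KE_E]
  have hdd' : d * d' = 1 := mul_eq_one_comm.1 hdd
  have hd'o : d'ᵀ * mC W.E * d' = mC W.E := inv_orth hdd' hd
  -- the relation with a Hodge map for a block
  have hrel : ∀ i (j : Fin n → Matrix (Fin w) (Fin w) ℚ), IsHodgeMap T W j →
      (∀ a, c a ≠ i → j a = 0) → j ≠ 0 → p i = 1 := by
    intro i j h1 h2 h3
    rcases hp i with hi | hi
    · exact hi
    · exfalso
      apply h3
      have heqv : Eqv (LB T W (C.e i)) (Jl fun b => j (C.e i b)) := by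
        refine ⟨fun Z V hZ u => ?_⟩
        have h4 := (Jl_eqv h1).eq _ _ (mem_LB'.1 hZ) (sel (C.e i) *ᵥ u)
        rw [bk_mulVec (C.blk i).en.inj, Jl_sel, Jl_sel] at h4
        exact h4
      funext a
      by_cases ha : c a = i
      · obtain ⟨b, rfl⟩ := (C.blk i).en.surj a ha
        have h5 := J_zero (by have := hC3 i; omega) (hC2 i hi) heqv (Pi.single b 1)
        rw [Jl_single] at h5
        exact mC_eq_zero h5
      · exact h2 a ha
  have hlf : ∀ i (j : Fin n → Matrix (Fin w) (Fin w) ℚ), IsHodgeMap T W j →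
      (∀ a, c a ≠ i → j a = 0) → j ≠ 0 → ∃ M : Matrix (Fin n) (Fin n) ℂ,
      (∀ s, dᵀ * (∑ b, M b s • mC (j b)) * d = mC (j s)) ∧
      Mᵀ * mC T.Q * M = mC (Qb T c i) ∧ pic c i * M = M ∧ M * pic c i = M := by
    intro i j h1 h2 h3
    obtain ⟨U⟩ : Nonempty (Setup (LB T W (C.e i)) (C.T' i) W) :=
      exists_setup (LB_pr C.bQ C.bx (C.blk i) C.surj) (hC1 i (hrel i j h1 h2 h3)) (hC3 i)
    refine lift_fix U (cl_of_map h1 h2 h3 U) h2 (a := 1) hdd hd'o ?_
    have h4 : qf T j ∈ 𝒜 (Fin 2 ⊕ Fin 2) := hA _ _ (qf_hodge h1) (qf_supp j)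
    have h5 : pl (fromBlocks 1 0 0 d) (fun J => (qf T j J : ℂ)) = fun J => (qf T j J : ℂ) := by
      have h6 : pl (fromBlocks 1 0 0 d) (fun J => (qf T j J : ℂ)) =
          pl (fromBlocks a 0 0 d) (fun J => (qf T j J : ℂ)) := by
        refine pl_agree fun K hK k y => ?_
        obtain ⟨b, hb⟩ := qf_supp (T := T) j K (fun h0 => hK (by simp [h0])) k
        rw [hb]
        rcases y with y | y <;> rfl
      rw [h6]
      exact hP₀ _ _ h4
    have h6 : (fromBlocks 1 0 0 d * fromBlocks 1 0 0 d' :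
        Matrix (Fin n ⊕ Fin w) (Fin n ⊕ Fin w) ℂ) = 1 := by
      rw [Matrix.fromBlocks_multiply]
      simp [hdd']
    have h7 := pl_mul (fromBlocks 1 0 0 d) (fromBlocks 1 0 0 d') (fun J => (qf T j J : ℂ))
    rw [h6, pl_one, h5] at h7
    exact h7.symm
  -- the matrices of the blocks
  have hM : ∀ i, ∃ M : Matrix (Fin n) (Fin n) ℂ, (Mᵀ * mC T.Q * M = mC (Qb T c i) ∧
      pic c i * M = M ∧ M * pic c i = M) ∧
      ((∃ j : Fin n → Matrix (Fin w) (Fin w) ℚ, (IsHodgeMap T W j ∧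
        (∀ a, c a ≠ i → j a = 0) ∧ j ≠ 0 ∧
        ∀ s, dᵀ * (∑ b, M b s • mC (j b)) * d = mC (j s)) ∧
        ∃ (κ : Type) (_ : Fintype κ) (_ : DecidableEq κ) (u : (κ → Fin n ⊕ Fin w) → ℚ),
          u ∈ 𝒜 κ ∧ (∀ J, u J ≠ 0 → ∀ k a, J k = Sum.inl a → c a = i) ∧
          (i ∉ E → ∀ J, u J ≠ 0 → Odd (occ c i J)) ∧
          der (fromBlocks (Matrix.of fun a b => if c a = i then T.x a b else 0) 0 0 0)
            (fun J => (u J : ℂ)) ≠ 0) ∨
      (((2 ≤ p i ∨ ∀ (κ : Type) [Fintype κ] [DecidableEq κ] (t : (κ → Fin n ⊕ Fin w) → ℚ),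
          IsH T W t → der (fromBlocks (Matrix.of fun a b => if c a = i then T.x a b else 0) 0 0 0)
            (fun J => (t J : ℂ)) = 0) ∧
        ∀ (k : ℕ) (e : Fin k → Fin n), Function.Injective e → (∀ a, c a = i ↔ ∃ l, e l = a) →
          dt w e ∈ 𝒜 (Fin k)) ∧ M = a * pic c i)) := by
    intro i
    rcases hcls i with ⟨j, h1, h2, h3, hu⟩ | h
    · obtain ⟨M, h4, h5, h6, h7⟩ := hlf i j h1 h2 h3
      exact ⟨M, ⟨h5, h6, h7⟩, Or.inl ⟨j, ⟨h1, h2, h3, h4⟩, hu⟩⟩
    · refine ⟨a * pic c i, ⟨?_, ?_, ?_⟩, Or.inr ⟨h, rfl⟩⟩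
      · rw [Matrix.transpose_mul, pic_T]
        calc pic c i * aᵀ * mC T.Q * (a * pic c i) = pic c i * (aᵀ * mC T.Q * a) * pic c i := by
              simp only [mul_assoc]
          _ = mC (Qb T c i) := by
              rw [ha, Q_pic C.bQ, mul_assoc, pic_sq, mC_Qb C.bQ]
      · rw [← mul_assoc, pic_bk C hbd, mul_assoc, pic_sq]
      · rw [mul_assoc, pic_sq]
  choose M hM1 hM2 using hM
  obtain ⟨S, hS⟩ : ∃ S, S = ∑ i, M i := ⟨_, rfl⟩
  have hSM : ∀ i, pic c i * S = M i := by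
    intro i
    rw [hS, Finset.mul_sum, Finset.sum_eq_single i]
    · exact (hM1 i).2.1
    · intro i' _ hi'
      rw [← (hM1 i').2.1, ← mul_assoc, pic_ne (Ne.symm hi'), zero_mul]
    · intro h; exact absurd (Finset.mem_univ _) h
  have hMS : ∀ i, S * pic c i = M i := by
    intro i
    rw [hS, Finset.sum_mul, Finset.sum_eq_single i]
    · exact (hM1 i).2.2
    · intro i' _ hi'
      rw [← (hM1 i').2.2, mul_assoc, pic_ne hi', mul_zero]
    · intro h; exact absurd (Finset.mem_univ _) h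
  have hSrow : ∀ i x y, c x = i → S x y = M i x y := by
    intro i x y hx
    rw [← hSM i, pic, Matrix.diagonal_mul, if_pos hx, one_mul]
  have hSb : BD c S := by
    intro x y hxy
    have h1 := hSrow (c x) x y rfl
    rw [h1, ← (hM1 (c x)).2.2, pic, Matrix.mul_diagonal, if_neg (Ne.symm hxy), mul_zero]
  have hSo : Sᵀ * mC T.Q * S = mC T.Q := by
    have h1 : ∀ i, Sᵀ * mC T.Q * S * pic c i = mC (Qb T c i) := by
      intro i
      have h2 : Sᵀ * mC T.Q * S * pic c i = (M i)ᵀ * mC T.Q * M i := by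
        calc Sᵀ * mC T.Q * S * pic c i = Sᵀ * mC T.Q * (pic c i * M i) := by
              rw [mul_assoc, hMS, (hM1 i).2.1]
          _ = Sᵀ * (pic c i * mC T.Q) * M i := by
              rw [Q_pic C.bQ]; simp only [mul_assoc]
          _ = (pic c i * S)ᵀ * mC T.Q * M i := by
              rw [Matrix.transpose_mul, pic_T]; simp only [mul_assoc]
          _ = _ := by rw [hSM]
      rw [h2, (hM1 i).1]
    calc Sᵀ * mC T.Q * S = ∑ i, Sᵀ * mC T.Q * S * pic c i := by
          rw [← Finset.mul_sum, sum_pic, mul_one]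
      _ = ∑ i, mC T.Q * pic c i := Finset.sum_congr rfl fun i _ => by
          rw [h1, mC_Qb C.bQ]
      _ = mC T.Q := by rw [← Finset.mul_sum, sum_pic, mul_one]
  -- the lift
  have hF : Fx T W (fromBlocks S 0 0 d) := by
    refine lift_all hB hsys hpol hA (C := C) hP₀ hSo hSb hd fun i => ?_
    rcases hM2 i with ⟨j, ⟨h1, h2, h3, h4⟩, -⟩ | ⟨h1, h2⟩
    · refine Or.inl ⟨j, h1, h2, h3, fun s => ?_⟩
      rw [← h4 s]
      congr 2
      refine Finset.sum_congr rfl fun b _ => ?_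
      by_cases hb : c b = i
      · rw [hSrow i b s hb]
      · rw [h2 b hb, mC_zero, smul_zero, smul_zero]
    · refine Or.inr ⟨h1, fun x y hx => ?_⟩
      rw [hSrow i x y hx, h2, pic, Matrix.mul_diagonal]
      by_cases hy : c y = i
      · rw [if_pos hy, mul_one]
      · rw [if_neg hy, mul_zero, hbd x y (fun h => hy (h ▸ hx))]
  -- the quotient
  obtain ⟨g, hg⟩ : ∃ g, g = mC T.Q⁻¹ * Sᵀ * mC T.Q * a := ⟨_, rfl⟩
  have hSg : S * g = a := by
    have h1 : S * mC T.Q⁻¹ * Sᵀ = mC T.Q⁻¹ := orth_inv QQ hSo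
    calc S * g = (S * mC T.Q⁻¹ * Sᵀ) * mC T.Q * a := by rw [hg]; simp only [mul_assoc]
      _ = a := by rw [h1, QQ, one_mul]
  have hQi : BD c (mC T.Q⁻¹) := by
    intro x y hxy
    have h1 : pic c (c y) * mC T.Q⁻¹ = mC T.Q⁻¹ * pic c (c y) := by
      have h2 : mC T.Q * mC T.Q⁻¹ = 1 := mul_eq_one_comm.1 QQ
      calc pic c (c y) * mC T.Q⁻¹ = mC T.Q⁻¹ * (mC T.Q * pic c (c y)) * mC T.Q⁻¹ := by
            rw [← mul_assoc (mC T.Q⁻¹), QQ, one_mul]
        _ = mC T.Q⁻¹ * pic c (c y) * (mC T.Q * mC T.Q⁻¹) := by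
            rw [← Q_pic C.bQ]; simp only [mul_assoc]
        _ = _ := by rw [h2, mul_one]
    have h2 := congrFun (congrFun h1 x) y
    rw [pic, Matrix.mul_diagonal, Matrix.diagonal_mul, if_neg hxy, if_pos rfl, zero_mul,
      mul_one] at h2
    exact h2.symm
  have hgb : BD c g := by
    rw [hg]
    exact bd_mul (bd_mul (bd_mul hQi hSb.transpose) (BD.mC C.bQ)) hbd
  have hgo : gᵀ * mC T.Q * g = mC T.Q := by
    have h1 : gᵀ * (Sᵀ * mC T.Q * S) * g = mC T.Q := by
      calc gᵀ * (Sᵀ * mC T.Q * S) * g = (S * g)ᵀ * mC T.Q * (S * g) := by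
            rw [Matrix.transpose_mul]; simp only [mul_assoc]
        _ = mC T.Q := by rw [hSg, ha]
    rwa [hSo] at h1
  obtain ⟨g', hg'⟩ : ∃ g', g' = mC T.Q⁻¹ * gᵀ * mC T.Q := ⟨_, rfl⟩
  have hgg' : g' * g = 1 := by
    rw [hg', mul_assoc, mul_assoc, ← mul_assoc gᵀ, hgo, QQ]
  have hgg : g * g' = 1 := mul_eq_one_comm.1 hgg'
  have hg'b : BD c g' := by
    rw [hg']
    exact bd_mul (bd_mul hQi hgb.transpose) (BD.mC C.bQ)
  have hPG : (fromBlocks a 0 0 d : Matrix (Fin n ⊕ Fin w) (Fin n ⊕ Fin w) ℂ) =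
      fromBlocks S 0 0 d * fromBlocks g 0 0 1 := by
    rw [Matrix.fromBlocks_multiply]
    simp [hSg]
  have hPGt : ∀ {l : Type} [Fintype l] [DecidableEq l] {u : (l → Fin n ⊕ Fin w) → ℚ},
      IsH T W u → pl (fromBlocks a 0 0 d) (fun J => (u J : ℂ)) =
        pl (fromBlocks g 0 0 1) (fun J => (u J : ℂ)) := by
    intro l _ _ u hu
    rw [hPG, pl_mul, hF l u hu]
  -- the blocks of the quotient
  have hz : ∀ i, ∃ z : ℂ, (z = 1 ∨ (z = -1 ∧ i ∈ E)) ∧
      ∀ x y, c x = i → g x y = if x = y then z else 0 := by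
    intro i
    rcases hM2 i with ⟨j, ⟨h1, h2, h3, h4⟩, l, i1, i2, u, hu1, hu2, hu3, hu4⟩ | ⟨-, h2⟩
    · have hp1 := hrel i j h1 h2 h3
      have huH := hsys.hodge _ _ hu1
      have hfix : pl (fromBlocks g 0 0 1) (fun J => (u J : ℂ)) = fun J => (u J : ℂ) := by
        rw [← hPGt huH]
        exact hP₀ _ _ hu1
      obtain ⟨z, hz1, hz2⟩ := one_block C i (hC3 i) (hC4 i hp1) huH hu2 hu4 hgb hg'b hgg hgo hfix
      refine ⟨z, ?_, fun x y hx => ?_⟩
      · rcases hz2 with h | ⟨h, h'⟩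
        · exact Or.inl h
        · refine Or.inr ⟨h, ?_⟩
          by_contra hiE
          exact h' (hu3 hiE)
      · obtain ⟨b, rfl⟩ := (C.blk i).en.surj x hx
        by_cases hy : c y = i
        · obtain ⟨b', rfl⟩ := (C.blk i).en.surj y hy
          have h5 := congrFun (congrFun hz1 b) b'
          rw [Matrix.submatrix_apply, Matrix.smul_apply, Matrix.one_apply] at h5
          rw [h5]
          by_cases hbb : b = b'
          · rw [if_pos hbb, if_pos (by rw [hbb])]; simp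
          · rw [if_neg hbb, if_neg (fun h => hbb ((C.blk i).en.inj h))]; simp
        · rw [hgb _ _ (fun h => hy (h ▸ hx)), if_neg]
          intro h
          exact hy (by rw [← h]; exact hx)
    · refine ⟨1, Or.inl rfl, fun x y hx => ?_⟩
      have h3 : pic c i * g = pic c i := by
        have h4 : (M i)ᵀ = pic c i * Sᵀ := by
          rw [← hMS i, Matrix.transpose_mul, pic_T]
        calc pic c i * g = mC T.Q⁻¹ * (pic c i * Sᵀ) * mC T.Q * a := by
              rw [hg, ← mul_assoc, ← mul_assoc, ← mul_assoc, pic_bk C hQi]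
              simp only [mul_assoc]
          _ = mC T.Q⁻¹ * (pic c i * (aᵀ * mC T.Q * a)) := by
              rw [← h4, h2, Matrix.transpose_mul, pic_T]; simp only [mul_assoc]
          _ = pic c i := by
              rw [ha, Q_pic C.bQ, ← mul_assoc, QQ, one_mul]
      have h4 := congrFun (congrFun h3 x) y
      rw [pic, Matrix.diagonal_mul, if_pos hx, one_mul, Matrix.diagonal_apply] at h4
      rw [h4]
      by_cases hxy : x = y
      · rw [if_pos hxy, if_pos hxy, if_pos hx]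
      · rw [if_neg hxy, if_neg hxy]
  choose z hz1 hz2 using hz
  have hG : (fromBlocks g 0 0 1 : Matrix (Fin n ⊕ Fin w) (Fin n ⊕ Fin w) ℂ) =
      Matrix.diagonal (Sum.elim (fun a => z (c a)) fun _ => 1) := by
    ext x y
    rcases x with x | x <;> rcases y with y | y
    · rw [Matrix.fromBlocks_apply₁₁, hz2 (c x) x y rfl, Matrix.diagonal_apply]
      by_cases hxy : x = y
      · rw [if_pos hxy, if_pos (by rw [hxy])]; rfl
      · rw [if_neg hxy, if_neg (fun h => hxy (Sum.inl_injective h))]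
    · rw [Matrix.diagonal_apply_ne _ (by simp)]; rfl
    · rw [Matrix.diagonal_apply_ne _ (by simp)]; rfl
    · rw [Matrix.fromBlocks_apply₂₂, Matrix.one_apply, Matrix.diagonal_apply]
      by_cases hxy : x = y
      · rw [if_pos hxy, if_pos (by rw [hxy])]; rfl
      · rw [if_neg hxy, if_neg (fun h => hxy (Sum.inr_injective h))]
  rw [hPGt ht, hG]
  funext J
  rw [pl_diag]
  by_cases hJ : t J = 0
  · rw [hJ]; simp
  · have h1 : (∏ k, (Sum.elim (fun a => z (c a)) (fun _ => 1) (J k) : ℂ)) = 1 := by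
      have h2 : ∀ k, (Sum.elim (fun a => z (c a)) (fun _ => 1) (J k) : ℂ) =
          ∏ i, z i ^ (Sum.elim (fun a => if c a = i then 1 else 0) (fun _ => 0) (J k) : ℕ) := by
        intro k
        rcases J k with x | x
        · rw [Finset.prod_eq_single (c x)]
          · simp
          · intro i _ hi
            simp [Ne.symm hi]
          · intro h; exact absurd (Finset.mem_univ _) h
        · simp
      rw [Finset.prod_congr rfl fun k _ => h2 k, Finset.prod_comm]
      refine Finset.prod_eq_one fun i _ => ?_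
      rw [Finset.prod_pow_eq_pow_sum]
      change z i ^ occ c i J = 1
      rcases hz1 i with h | ⟨h, hi⟩
      · rw [h, one_pow]
      · rw [h, (hE J hJ i hi).neg_one_pow]
    rw [h1, one_mul]

end

end Pool.Agent.L5helper24.KM
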