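import Pool.Agent.L5helper24.KM.Trans2

/-!
# Transport of Hodge classes, III
-/

set_option autoImplicit false
set_option linter.unusedSectionVars false
set_option linter.unusedSimpArgs false

open Matrix Finset Module

namespace Pool.Agent.L5helper24.KM

open Pool.Agent Pool.Agent.W544.PG Pool.Agent.L5helper24.KS Pool.Agent.W216.PG.SOI

noncomputable section

variable {n w r : ℕ} {T T' : HS n} {W W' : HW w} {c : Fin n → Fin r} {p q : Fin r → ℕ}

/-- the number of variables in the abelian variety -/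
def dA {κ : Type} [Fintype κ] (J : κ → Fin n ⊕ Fin w) : ℕ :=
  ∑ k, Sum.elim (fun _ => 0) (fun _ => 1) (J k)

theorem pl_scale {κ : Type} [Fintype κ] [DecidableEq κ] (a : Matrix (Fin n) (Fin n) ℂ)
    (d : Matrix (Fin w) (Fin w) ℂ) (z : ℂ) (t : (κ → Fin n ⊕ Fin w) → ℂ) (J : κ → Fin n ⊕ Fin w) :
    pl (fromBlocks a 0 0 (z • d)) t J = z ^ dA J * pl (fromBlocks a 0 0 d) t J := by
  rw [pl, pl, Finset.mul_sum]
  refine Finset.sum_congr rfl fun K _ => ?_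
  have h1 : ∀ x y : Fin n ⊕ Fin w, (fromBlocks a 0 0 (z • d) : Matrix (Fin n ⊕ Fin w)
      (Fin n ⊕ Fin w) ℂ) x y = z ^ (Sum.elim (fun _ => 0) (fun _ => 1) y : ℕ) *
      (fromBlocks a 0 0 d : Matrix (Fin n ⊕ Fin w) (Fin n ⊕ Fin w) ℂ) x y := by
    intro x y
    rcases x with x | x <;> rcases y with y | y <;> simp
  simp only [h1]
  rw [Finset.prod_mul_distrib, Finset.prod_pow_eq_pow_sum, dA]
  ring

/-- the number of variables in the abelian variety is even -/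
theorem parity {κ : Type} [Fintype κ] [DecidableEq κ] {t : (κ → Fin n ⊕ Fin w) → ℚ}
    (ht : IsH T W t) {J : κ → Fin n ⊕ Fin w} (hJ : t J ≠ 0) : Even (dA J) := by
  have h1 : der (fromBlocks (Complex.I • T.x) 0 0 (Complex.I • W.y)) (fun J => (t J : ℂ)) = 0 := by
    have h2 : (fromBlocks (Complex.I • T.x) 0 0 (Complex.I • W.y) :
        Matrix (Fin n ⊕ Fin w) (Fin n ⊕ Fin w) ℂ) = Complex.I • hop T W := by
      rw [hop, Matrix.fromBlocks_smul, smul_zero, smul_zero]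
    rw [h2, der_smul, ht, smul_zero]
  have h2 := rot_flow (V2 := cc W) Ix3 cc_two.symm cc3 h1 Real.pi
  rw [rot_pi, rot_cc] at h2
  have h3 : pl (fromBlocks (1 : Matrix (Fin n) (Fin n) ℂ) 0 0 ((-1 : ℂ) • (1 : Matrix (Fin w) (Fin w) ℂ)))
      (fun J => (t J : ℂ)) = fun J => (t J : ℂ) := by
    have h4 : (fromBlocks (1 : Matrix (Fin n) (Fin n) ℂ) 0 0
        ((-1 : ℂ) • (1 : Matrix (Fin w) (Fin w) ℂ))) =
        fromBlocks (wT T) 0 0 (cc W) * fromBlocks (wT T) 0 0 (cc W) := by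
      rw [Matrix.fromBlocks_multiply]
      simp only [Matrix.mul_zero, Matrix.zero_mul, add_zero, zero_add]
      rw [wT_sq, cc_sq, neg_one_smul]
    rw [h4, pl_mul, h2, h2]
  have h4 := congrFun h3 J
  rw [pl_scale, Matrix.fromBlocks_one, pl_one] at h4
  have h5 : (t J : ℂ) ≠ 0 := by exact_mod_cast hJ
  have h6 : (-1 : ℂ) ^ dA J = 1 := by
    apply mul_right_cancel₀ h5
    rw [h4, one_mul]
  rcases Nat.even_or_odd (dA J) with h | h
  · exact h
  · exfalso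
    rw [h.neg_one_pow] at h6
    norm_num at h6

theorem pl_bf3 {P : Matrix (Fin n ⊕ Fin w) (Fin n ⊕ Fin w) ℂ}
    (M : Matrix (Fin n ⊕ Fin w) (Fin n ⊕ Fin w) ℚ) (J : Fin 2 → Fin n ⊕ Fin w) :
    pl P (fun J => (bf M J : ℂ)) J = (Pᵀ * M.map (fun x : ℚ => (x : ℂ)) * P) (J 0) (J 1) := by
  rw [pl, ← Equiv.sum_comp (finTwoArrowEquiv _).symm, Fintype.sum_prod_type,
    Matrix.mul_apply]
  simp only [bf, finTwoArrowEquiv_symm_apply, Fin.prod_univ_two, Matrix.cons_val_zero,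
    Matrix.cons_val_one, Matrix.mul_apply, Matrix.transpose_apply, Matrix.map_apply,
    Finset.sum_mul]
  rw [Finset.sum_comm]
  refine Finset.sum_congr rfl fun a _ => Finset.sum_congr rfl fun b _ => ?_
  ring

/-- the transport of the polarisation of the abelian variety -/
theorem exists_M {PP : Set (Matrix (Fin n ⊕ Fin w) (Fin n ⊕ Fin w) ℂ)}
    (h : ∀ P ∈ PP, ∃ a d, P = fromBlocks a 0 0 d)
    {t' : (Fin 2 → Fin n ⊕ Fin w) → ℚ} (h1 : IsH T' W' t')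
    (h2 : ∀ P ∈ PP, pl P (fun J => (t' J : ℂ)) =
      fun J => (bf (fromBlocks 0 0 0 W.E : Matrix (Fin n ⊕ Fin w) (Fin n ⊕ Fin w) ℚ) J : ℂ)) :
    ∃ M : Matrix (Fin w) (Fin w) ℚ, W'.yᵀ * mC M + mC M * W'.y = 0 ∧
      ∀ P ∈ PP, P.toBlocks₂₂ᵀ * mC M * P.toBlocks₂₂ = mC W.E := by
  obtain ⟨N, hN⟩ : ∃ N : Matrix (Fin n ⊕ Fin w) (Fin n ⊕ Fin w) ℚ,
      N = Matrix.of fun x y => t' ![x, y] := ⟨_, rfl⟩
  have hb : t' = bf N := by
    funext J
    rw [bf, hN, Matrix.of_apply]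
    congr 1
    funext k
    fin_cases k <;> rfl
  obtain ⟨A, B, C, M, rfl⟩ : ∃ A B C M, N = fromBlocks A B C M :=
    ⟨_, _, _, _, (Matrix.fromBlocks_toBlocks N).symm⟩
  have hmap : (fromBlocks A B C M).map (fun x : ℚ => (x : ℂ)) =
      fromBlocks (A.map fun x : ℚ => (x : ℂ)) (B.map fun x : ℚ => (x : ℂ))
        (C.map fun x : ℚ => (x : ℂ)) (mC M) := by
    ext x y
    rcases x with x | x <;> rcases y with y | y <;> rfl
  refine ⟨M, ?_, fun P hP => ?_⟩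
  · ext x y
    have h3 := congrFun h1 ![Sum.inr x, Sum.inr y]
    rw [hb, der_bf', hmap, hop, Matrix.fromBlocks_transpose, Matrix.fromBlocks_multiply,
      Matrix.fromBlocks_multiply, Matrix.fromBlocks_add] at h3
    simp only [Matrix.mul_zero, Matrix.zero_mul, add_zero, zero_add, Matrix.transpose_zero,
      Matrix.cons_val_zero, Matrix.cons_val_one, Matrix.fromBlocks_apply₂₂] at h3
    exact h3
  · obtain ⟨a, d, rfl⟩ := h P hP
    rw [Matrix.toBlocks_fromBlocks₂₂]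
    ext x y
    have h3 := congrFun (h2 _ hP) ![Sum.inr x, Sum.inr y]
    rw [hb, pl_bf3, hmap, Matrix.fromBlocks_transpose, Matrix.fromBlocks_multiply,
      Matrix.fromBlocks_multiply] at h3
    simp only [Matrix.mul_zero, Matrix.zero_mul, add_zero, zero_add, Matrix.transpose_zero,
      Matrix.cons_val_zero, Matrix.cons_val_one, Matrix.fromBlocks_apply₂₂, bf] at h3
    exact h3

/-- the support of the polarisation of the abelian variety -/
theorem supp_bfA {M : Matrix (Fin w) (Fin w) ℚ} (J : Fin 2 → Fin n ⊕ Fin w)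
    (hJ : bf (fromBlocks 0 0 0 M : Matrix (Fin n ⊕ Fin w) (Fin n ⊕ Fin w) ℚ) J ≠ 0) (k : Fin 2) :
    ∃ b, J k = Sum.inr b := by
  by_contra hcon
  apply hJ
  obtain ⟨x, hx⟩ : ∃ x, J k = Sum.inl x := by
    rcases h' : J k with x | x
    · exact ⟨x, rfl⟩
    · exact absurd ⟨x, h'⟩ hcon
  rw [bf]
  fin_cases k
  · simp only [Fin.zero_eta] at hx
    rw [hx]
    rcases J 1 with y | y <;> rfl
  · simp only [Fin.mk_one] at hx
    rw [hx]
    rcases J 0 with y | y <;> rfl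

/-- **Transport of all Hodge classes.** -/
theorem trans_all {PP : Set (Matrix (Fin n ⊕ Fin w) (Fin n ⊕ Fin w) ℂ)}
    (hB : T.Big c p q) (bQ' : BD c T'.Q) (bx' : BD c T'.x) (hne : PP.Nonempty)
    (hPP : ∀ P ∈ PP, ∃ a d, P = fromBlocks a 0 0 d ∧ BD c a ∧ aᵀ * mC T'.Q * a = mC T.Q)
    (hA : ∀ (κ : Type) [Fintype κ] [DecidableEq κ] (t : (κ → Fin n ⊕ Fin w) → ℚ), IsH T W t →
      (∀ J, t J ≠ 0 → ∀ k, ∃ b, J k = Sum.inr b) → t ∈ TH T T' W W' PP κ)
    (E : Set (Fin r))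
    (hcls : ∀ i, (∃ j : Fin n → Matrix (Fin w) (Fin w) ℚ, IsHodgeMap T W j ∧
        (∀ a, c a ≠ i → j a = 0) ∧ j ≠ 0 ∧
        ∃ (κ : Type) (_ : Fintype κ) (_ : DecidableEq κ) (u : (κ → Fin n ⊕ Fin w) → ℚ),
          u ∈ TH T T' W W' PP κ ∧ (∀ J, u J ≠ 0 → ∀ k a, J k = Sum.inl a → c a = i) ∧
          (i ∉ E → ∀ J, u J ≠ 0 → Odd (occ c i J)) ∧
          der (fromBlocks (Matrix.of fun a b => if c a = i then T.x a b else 0) 0 0 0)
            (fun J => (u J : ℂ)) ≠ 0) ∨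
      ((2 ≤ p i ∨ ∀ (κ : Type) [Fintype κ] [DecidableEq κ] (t : (κ → Fin n ⊕ Fin w) → ℚ),
          IsH T W t → der (fromBlocks (Matrix.of fun a b => if c a = i then T.x a b else 0) 0 0 0)
            (fun J => (t J : ℂ)) = 0) ∧
        ∀ (k : ℕ) (e : Fin k → Fin n), Enum c e i → dt w e ∈ TH T T' W W' PP (Fin k)))
    {κ : Type} [Fintype κ] [DecidableEq κ] {t : (κ → Fin n ⊕ Fin w) → ℚ} (ht : IsH T W t)
    (hE : ∀ J, t J ≠ 0 → ∀ i ∈ E, Even (occ c i J)) : t ∈ TH T T' W W' PP κ := by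
  have h1 := hA (Fin 2) (bf (fromBlocks 0 0 0 W.E)) (isH_bfA W.skew) (fun J hJ k => supp_bfA J hJ k)
  obtain ⟨-, t', h2, h3⟩ := mem_TH.1 h1
  obtain ⟨M, hM1, hM2⟩ := exists_M (fun P hP => by
    obtain ⟨a, d, h4, -⟩ := hPP P hP
    exact ⟨a, d, h4⟩) h2 h3
  have hsys : IsSys T W (TH T T' W W' PP) := TH_sys (fun P hP => by
    obtain ⟨a, d, h4, -, h5⟩ := hPP P hP
    exact ⟨a, d, h4, h5⟩) hM1 hM2 hne
  refine odd_all hB hsys (fun i => TH_pol hB.bQ bQ' hB.bx bx' hPP i) hA E (fun i => ?_) ht hE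
  rcases hcls i with h | ⟨h, h'⟩
  · exact Or.inl h
  · refine Or.inr ⟨h, fun k e he1 he2 => h' k e ⟨he1, fun j => (he2 _).2 ⟨j, rfl⟩, fun a ha => (he2 a).1 ha⟩⟩

end

end Pool.Agent.L5helper24.KM
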