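import Pool.Agent.L5helper24.KM.Lift
import Pool.Agent.N996.BP.PHS2
import Pool.Agent.N996.BP.Core

/-!
# The real data of the closure theorem
-/

set_option autoImplicit false
set_option linter.unusedSectionVars false

open Matrix Finset Module

namespace Pool.Agent.L5helper24.KM

open Pool.Agent Pool.Agent.W544.PG Pool.Agent.L5helper24.KS Pool.Agent.W216.PG.SOI
open Pool.Agent.N996.BP (RData cR exists_sqrt kp)
open Pool.Agent.N996.BP.IsPHS (cR_inj cR_dot)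

noncomputable section

variable {n w : ℕ} (T : HS n) (W : HW w)

/-- a rational matrix as a real matrix -/
def rQ {m : ℕ} (M : Matrix (Fin m) (Fin m) ℚ) : Matrix (Fin m) (Fin m) ℝ :=
  M.map fun x : ℚ => (x : ℝ)

theorem cR_rQ {m : ℕ} (M : Matrix (Fin m) (Fin m) ℚ) : cR (rQ M) = mC M := by
  ext i j
  simp [cR, rQ, mC]

theorem exists_cR {m : ℕ} {M : Matrix (Fin m) (Fin m) ℂ} (h : M.map (starRingEnd ℂ) = M) :
    ∃ M' : Matrix (Fin m) (Fin m) ℝ, cR M' = M := by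
  refine ⟨M.map Complex.re, ?_⟩
  ext i j
  have h1 := congrFun (congrFun h i) j
  exact Complex.conj_eq_iff_re.1 h1

theorem cRm {m : ℕ} (A B : Matrix (Fin m) (Fin m) ℝ) : cR (A * B) = cR A * cR B := by
  ext i j
  simp [cR, Matrix.mul_apply]

theorem cRt {m : ℕ} (A : Matrix (Fin m) (Fin m) ℝ) : cR Aᵀ = (cR A)ᵀ := rfl

theorem cR1 {m : ℕ} : cR (1 : Matrix (Fin m) (Fin m) ℝ) = 1 := by
  ext i j
  rw [cR, Matrix.map_apply, Matrix.one_apply, Matrix.one_apply]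
  split_ifs <;> simp

theorem cRn {m : ℕ} (A : Matrix (Fin m) (Fin m) ℝ) : cR (-A) = -cR A := by
  ext i j
  simp [cR]

/-- the Weil operator of `T` -/
def wT : Matrix (Fin n) (Fin n) ℂ := 1 - (2 : ℂ) • (T.x * T.x)

theorem wT_sq : wT T * wT T = 1 := by
  have h : T.x * T.x * (T.x * T.x) = T.x * T.x := by rw [← mul_assoc, T.cube]
  rw [wT, sub_mul, mul_sub, mul_sub, one_mul, one_mul, mul_one, smul_mul_assoc, mul_smul_comm, h]
  module

theorem wT_skew : (wT T)ᵀ * mC T.Q = mC T.Q * wT T := by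
  have h1 := eq_neg_of_add_eq_zero_left T.skew
  have h2 : (T.x * T.x)ᵀ * mC T.Q = mC T.Q * (T.x * T.x) := by
    rw [Matrix.transpose_mul, mul_assoc, h1, mul_neg, ← mul_assoc, h1, neg_mul, neg_neg,
      mul_assoc]
  rw [wT, Matrix.transpose_sub, Matrix.transpose_one, Matrix.transpose_smul, sub_mul, mul_sub,
    one_mul, mul_one, smul_mul_assoc, mul_smul_comm, h2]

theorem wT_conj : (wT T).map (starRingEnd ℂ) = wT T := by
  have h1 : (T.x * T.x).map (starRingEnd ℂ) = T.x * T.x := by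
    rw [Matrix.map_mul, T.real, neg_mul_neg]
  ext i j
  have h2 := congrFun (congrFun h1 i) j
  rw [Matrix.map_apply] at h2
  rw [Matrix.map_apply, wT, Matrix.sub_apply, Matrix.smul_apply, smul_eq_mul, map_sub, map_mul,
    h2, Matrix.one_apply, map_ofNat]
  split_ifs <;> simp

theorem wT_pos (v : Fin n → ℂ) (hv : v ≠ 0) :
    0 < (star v ⬝ᵥ ((-(mC T.Q * wT T)) *ᵥ v)).re := by
  have h1 := T.pos v hv
  have h2 : -(mC T.Q * wT T) = mC T.Q * ((2 : ℂ) • (T.x * T.x) - 1) := by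
    rw [wT, ← mul_neg, neg_sub]
  rwa [h2]

theorem cc_pos (v : Fin w → ℂ) (hv : v ≠ 0) :
    0 < (star v ⬝ᵥ ((mC W.E * cc W) *ᵥ v)).re := W.pos v hv

/-- a square root of a positive real matrix and of its inverse -/
theorem exists_root {m : ℕ} {S : Matrix (Fin m) (Fin m) ℝ} (hs : Sᵀ = S)
    (hp : ∀ v : Fin m → ℂ, v ≠ 0 → 0 < (star v ⬝ᵥ (cR S *ᵥ v)).re)
    {S' : Matrix (Fin m) (Fin m) ℝ} (hS : S * S' = 1) :
    ∃ M Mi : Matrix (Fin m) (Fin m) ℝ, M * Mi = 1 ∧ Mᵀ * M = S' := by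
  obtain ⟨M, Mi, h1, h2⟩ := exists_sqrt (S := S) (fun u v => by
      rw [Matrix.dotProduct_mulVec, ← Matrix.mulVec_transpose, hs, dotProduct_comm]) (fun u hu => by
      have h3 := hp (fun i => (u i : ℂ)) (fun h => hu (by
        funext i
        have := congrFun h i
        simpa using this))
      have h4 : star (fun i => (u i : ℂ)) = fun i => (u i : ℂ) := by
        funext i
        simp
      rw [h4, cR_dot, Complex.ofReal_re] at h3
      exact h3)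
  have h3 : Mi * M = 1 := mul_eq_one_comm.1 h1
  refine ⟨Miᵀ, Mᵀ, by rw [← Matrix.transpose_mul, h1, Matrix.transpose_one], ?_⟩
  rw [Matrix.transpose_transpose]
  have h4 : Mᵀ * Miᵀ = 1 := by rw [← Matrix.transpose_mul, h3, Matrix.transpose_one]
  have h5 : S * (Mi * Miᵀ) = 1 := by
    rw [← h2]
    calc Mᵀ * M * (Mi * Miᵀ) = Mᵀ * (M * Mi) * Miᵀ := by simp only [mul_assoc]
      _ = 1 := by rw [h1, mul_one, h4]
  have h6 : S' * S = 1 := mul_eq_one_comm.1 hS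
  calc Mi * Miᵀ = S' * S * (Mi * Miᵀ) := by rw [h6, one_mul]
    _ = S' := by rw [mul_assoc, h5, mul_one]

theorem Q_inv : T.Q⁻¹ * T.Q = 1 ∧ T.Q * T.Q⁻¹ = 1 := by
  have h : IsUnit T.Q.det := isUnit_iff_ne_zero.2 (W74.PG.det_ne T)
  exact ⟨Matrix.nonsing_inv_mul _ h, Matrix.mul_nonsing_inv _ h⟩

theorem E_inv : W.E⁻¹ * W.E = 1 ∧ W.E * W.E⁻¹ = 1 := by
  have h : W.E.det ≠ 0 := by
    intro h0
    obtain ⟨M, M', left, right, hS⟩ := exists_M W
    have h1 : (mC W.E).det = 0 := by rw [det_mC, h0]; simp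
    have h2 : (SS W).det = 0 := by rw [SS, Matrix.det_mul, h1, zero_mul]
    rw [← hS, Matrix.det_mul, Matrix.det_conjTranspose] at h2
    have h3 := congrArg Matrix.det left
    rw [Matrix.det_mul, Matrix.det_one] at h3
    have h4 : M.det ≠ 0 := left_ne_zero_of_mul_eq_one h3
    rcases mul_eq_zero.1 h2 with h5 | h5
    · exact h4 ((star_eq_zero).1 h5)
    · exact h4 h5
  have h' : IsUnit W.E.det := isUnit_iff_ne_zero.2 h
  exact ⟨Matrix.nonsing_inv_mul _ h', Matrix.mul_nonsing_inv _ h'⟩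

/-- three diagonal blocks -/
def b3 {R : Type} [Zero R] [One R] (A : Matrix (Fin n) (Fin n) R) (B : Matrix (Fin w) (Fin w) R) :
    Matrix (Unit ⊕ (Fin n ⊕ Fin w)) (Unit ⊕ (Fin n ⊕ Fin w)) R :=
  fromBlocks 1 0 0 (fromBlocks A 0 0 B)

theorem b3_mul {R : Type} [CommRing R] (A A' : Matrix (Fin n) (Fin n) R)
    (B B' : Matrix (Fin w) (Fin w) R) : b3 A B * b3 A' B' = b3 (A * A') (B * B') := by
  rw [b3, b3, b3, Matrix.fromBlocks_multiply, Matrix.fromBlocks_multiply]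
  simp

theorem b3_one {R : Type} [CommRing R] :
    b3 (1 : Matrix (Fin n) (Fin n) R) (1 : Matrix (Fin w) (Fin w) R) = 1 := by
  rw [b3, Matrix.fromBlocks_one, Matrix.fromBlocks_one]

theorem b3_T {R : Type} [CommRing R] (A : Matrix (Fin n) (Fin n) R)
    (B : Matrix (Fin w) (Fin w) R) : (b3 A B)ᵀ = b3 Aᵀ Bᵀ := by
  rw [b3, b3, Matrix.fromBlocks_transpose, Matrix.fromBlocks_transpose]
  simp

/-- The data of the closure theorem exist. -/
theorem exists_rdata : ∃ (D : RData (Unit ⊕ (Fin n ⊕ Fin w))) (CT : Matrix (Fin n) (Fin n) ℝ)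
    (CU : Matrix (Fin w) (Fin w) ℝ), cR CT = wT T ∧ cR CU = cc W ∧ D.o = Sum.inl () ∧
    D.C = b3 CTᵀ CUᵀ ∧ D.Q = b3 (-rQ T.Q⁻¹) (rQ W.E⁻¹) ∧ D.Qi = b3 (-rQ T.Q) (rQ W.E) := by
  obtain ⟨CT, hCT⟩ := exists_cR (wT_conj T)
  obtain ⟨CU, hCU⟩ := exists_cR (cc_conj W)
  have q1 : rQ T.Q⁻¹ * rQ T.Q = 1 := by
    apply cR_inj
    rw [cRm, cR_rQ, cR_rQ, ← mC_mul, (Q_inv T).1, cR1]
    ext i j; simp [mC, Matrix.one_apply]; split_ifs <;> simp
  have q2 : rQ W.E⁻¹ * rQ W.E = 1 := by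
    apply cR_inj
    rw [cRm, cR_rQ, cR_rQ, ← mC_mul, (E_inv W).1, cR1]
    ext i j; simp [mC, Matrix.one_apply]; split_ifs <;> simp
  have q1' : rQ T.Q * rQ T.Q⁻¹ = 1 := mul_eq_one_comm.1 q1
  have q2' : rQ W.E * rQ W.E⁻¹ = 1 := mul_eq_one_comm.1 q2
  have c1 : CT * CT = 1 := by
    apply cR_inj
    rw [cRm, hCT, wT_sq, cR1]
  have c2 : CU * CU = -1 := by
    apply cR_inj
    rw [cRm, hCU, cc_sq, cRn, cR1]
  have s1 : CTᵀ * rQ T.Q = rQ T.Q * CT := by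
    apply cR_inj
    rw [cRm, cRm, cRt, hCT, cR_rQ, wT_skew]
  have s2 : CUᵀ * rQ W.E = -(rQ W.E * CU) := by
    apply cR_inj
    rw [cRn, cRm, cRm, cRt, hCU, cR_rQ, cc_skew]
  have t1 : rQ T.Q⁻¹ * CTᵀ = CT * rQ T.Q⁻¹ := by
    calc rQ T.Q⁻¹ * CTᵀ = rQ T.Q⁻¹ * (CTᵀ * rQ T.Q) * rQ T.Q⁻¹ := by
          rw [mul_assoc, mul_assoc, q1', mul_one]
      _ = (rQ T.Q⁻¹ * rQ T.Q) * CT * rQ T.Q⁻¹ := by rw [s1]; simp only [mul_assoc]
      _ = _ := by rw [q1, one_mul]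
  have t2 : rQ W.E⁻¹ * CUᵀ = -(CU * rQ W.E⁻¹) := by
    calc rQ W.E⁻¹ * CUᵀ = rQ W.E⁻¹ * (CUᵀ * rQ W.E) * rQ W.E⁻¹ := by
          rw [mul_assoc, mul_assoc, q2', mul_one]
      _ = -((rQ W.E⁻¹ * rQ W.E) * CU * rQ W.E⁻¹) := by
          rw [s2, mul_neg, neg_mul]; simp only [mul_assoc]
      _ = _ := by rw [q2, one_mul]
  -- the positive forms
  have p1 : (-(rQ T.Q * CT))ᵀ = -(rQ T.Q * CT) := by
    have hQ : (rQ T.Q)ᵀ = rQ T.Q := by
      rw [rQ, ← Matrix.transpose_map, T.symm]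
    rw [Matrix.transpose_neg, Matrix.transpose_mul, hQ, s1]
  have p2 : (rQ W.E * CU)ᵀ = rQ W.E * CU := by
    have hE : (rQ W.E)ᵀ = -rQ W.E := by
      rw [rQ, ← Matrix.transpose_map, W.alt]
      ext i j
      simp
    rw [Matrix.transpose_mul, hE, mul_neg, s2, neg_neg]
  obtain ⟨M1, M1i, m1, m1'⟩ := exists_root p1 (fun v hv => by
      rw [cRn, cRm, cR_rQ, hCT]
      exact wT_pos T v hv) (S' := -(rQ T.Q⁻¹ * CTᵀ)) (by
      rw [neg_mul_neg, t1]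
      calc rQ T.Q * CT * (CT * rQ T.Q⁻¹) = rQ T.Q * (CT * CT) * rQ T.Q⁻¹ := by
            simp only [mul_assoc]
        _ = 1 := by rw [c1, mul_one, q1'])
  obtain ⟨M2, M2i, m2, m2'⟩ := exists_root p2 (fun v hv => by
      rw [cRm, cR_rQ, hCU]
      exact cc_pos W v hv) (S' := rQ W.E⁻¹ * CUᵀ) (by
      rw [t2, mul_neg]
      calc -(rQ W.E * CU * (CU * rQ W.E⁻¹)) = -(rQ W.E * (CU * CU) * rQ W.E⁻¹) := by
            simp only [mul_assoc]
        _ = 1 := by rw [c2, mul_neg, mul_one, neg_mul, neg_neg, q2'])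
  refine ⟨{ Q := b3 (-rQ T.Q⁻¹) (rQ W.E⁻¹), Qi := b3 (-rQ T.Q) (rQ W.E), C := b3 CTᵀ CUᵀ,
            Ci := b3 CTᵀ (-CUᵀ), M := b3 M1 M2, Mi := b3 M1i M2i, o := Sum.inl (),
            hQ := ?_, hC := ?_, hM := ?_, hS := ?_, hCQ := ?_, ho := ?_, hCo := ?_ },
    CT, CU, hCT, hCU, rfl, rfl, rfl, rfl⟩
  · rw [b3_mul, neg_mul_neg, q1, q2, b3_one]
  · rw [b3_mul, mul_neg, ← Matrix.transpose_mul, ← Matrix.transpose_mul, c1, c2,
      Matrix.transpose_one, Matrix.transpose_neg, Matrix.transpose_one, neg_neg, b3_one]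
  · rw [b3_mul, m1, m2, b3_one]
  · rw [b3_mul, b3_T, b3_mul, m1', m2', neg_mul]
  · rw [b3_T, Matrix.transpose_transpose, Matrix.transpose_transpose, b3_mul, b3_mul]
    have e1 : CT * -rQ T.Q⁻¹ * CTᵀ = -rQ T.Q⁻¹ := by
      rw [mul_assoc, neg_mul, t1, mul_neg, ← mul_assoc, c1, one_mul]
    have e2 : CU * rQ W.E⁻¹ * CUᵀ = rQ W.E⁻¹ := by
      rw [mul_assoc, t2, mul_neg, ← mul_assoc, c2, neg_mul, one_mul, neg_neg]
    rw [e1, e2]
  · simp [b3]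
  · intro i
    rcases i with i | i
    · simp [b3]
    · simp [b3]

end

end Pool.Agent.L5helper24.KM
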