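import Pool.Agent.L5helper24.KM.Cls
import Pool.Agent.L5helper24.KS.Main

/-!
# A piece of K3 type and a Hodge structure of level one, with a general Lie algebra
-/

set_option autoImplicit false
set_option linter.unusedSectionVars false

open Matrix Finset Module

namespace Pool.Agent.L5helper24.KM

open Pool.Agent Pool.Agent.W544.PG Pool.Agent.L5helper24.KS

noncomputable section

variable {n w : ℕ} {T : HS n} {W : HW w}
  {L : Submodule ℂ (Matrix (Fin n) (Fin n) ℂ × Matrix (Fin w) (Fin w) ℂ)}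

/-- The properties of the Lie algebra. -/
structure Pr (L : Submodule ℂ (Matrix (Fin n) (Fin n) ℂ × Matrix (Fin w) (Fin w) ℂ))
    (T : HS n) (W : HW w) : Prop where
  lie : IsLie L
  skew : ∀ P ∈ L, P.1ᵀ * mC T.Q + mC T.Q * P.1 = 0
  skewW : ∀ P ∈ L, P.2ᵀ * mC W.E + mC W.E * P.2 = 0
  star : ∀ V, ((0 : Matrix (Fin n) (Fin n) ℂ), V) ∈ L →
    ((0 : Matrix (Fin n) (Fin n) ℂ), cc W * V.map (starRingEnd ℂ) * cc W) ∈ L
  surj : ∀ Z : Matrix (Fin n) (Fin n) ℂ, Zᵀ * mC T.Q + mC T.Q * Z = 0 → ∃ V, (Z, V) ∈ L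
  conj : ∀ σ : ℂ ≃+* ℂ, Nz L (T.x.map σ) (W.y.map σ)

/-- the data of a Hodge structure of K3 type and a Hodge structure of level one -/
structure Setup (L : Submodule ℂ (Matrix (Fin n) (Fin n) ℂ × Matrix (Fin w) (Fin w) ℂ))
    (T : HS n) (W : HW w) where
  M : Matrix (Fin w) (Fin w) ℂ
  M' : Matrix (Fin w) (Fin w) ℂ
  o : Fin n → ℂ
  v : Fin (n - 2) → Fin n → ℂ
  R : Matrix (Fin w) (Fin w) ℂ
  y' : Matrix (Fin w) (Fin w) ℂ
  E : Fin (n - 2) → Matrix (Fin w) (Fin w) ℂ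
  F : Fin (n - 2) → Matrix (Fin w) (Fin w) ℂ
  s : ℂ
  pr : Pr L T W
  hq : 0 < n - 2
  left : M * M' = 1
  right : M' * M = 1
  hS : Mᴴ * M = SS W
  hL : Lalg L M M' (mC T.Q)
  fr : Fr (mC T.Q) T.x o (star o) v
  img : Img L (mC T.Q) T.x o (star o) v W.y R y' E F
  hs : s * s = 2

theorem lalg (hP : Pr L T W)
    {M M' : Matrix (Fin w) (Fin w) ℂ} (left : M * M' = 1)
    (right : M' * M = 1) (hS : Mᴴ * M = SS W) : Lalg L M M' (mC T.Q) where
  lie := hP.lie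
  adj := by
    refine ⟨left, right, fun V hV => ?_⟩
    have h1 := hP.star V hV
    rw [star_eq W left right hS (hP.skewW _ hV)]
    exact h1
  skew := hP.skew
  surj := hP.surj

theorem Pr.self (hP : Pr L T W) : Nz L T.x W.y := by
  have h1 := hP.conj (RingEquiv.refl ℂ)
  have h2 : T.x.map (RingEquiv.refl ℂ) = T.x := by
    ext i j
    simp
  have h3 : W.y.map (RingEquiv.refl ℂ) = W.y := by
    ext i j
    simp
  rwa [h2, h3] at h1

/-- existence of the data -/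
theorem exists_setup (hP : Pr L T W) (hx : (T.x * T.x).trace = 2) (hn : 3 ≤ n) :
    Nonempty (Setup L T W) := by
  obtain ⟨M, M', left, right, hS⟩ := exists_M W
  obtain ⟨o, v, hfr⟩ := exists_fr T hx (by omega)
  have hL := lalg hP left right hS
  obtain ⟨R, y', E, F, himg⟩ := hL.exists_img hfr W.sq hP.self
  obtain ⟨s, hs⟩ := IsAlgClosed.exists_pow_nat_eq (2 : ℂ) (n := 2) (by norm_num)
  exact ⟨⟨M, M', o, v, R, y', E, F, s, hP, by omega, left, right, hS, hL, hfr, himg,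
    by rw [← hs]; ring⟩⟩

namespace Setup

variable (U : Setup L T W)

/-- the inverse of the Riemann form -/
def Ei : Matrix (Fin w) (Fin w) ℂ := cc W * (U.M' * U.M'ᴴ)

theorem SS_inv : SS W * (U.M' * U.M'ᴴ) = 1 := by
  have h6 : U.Mᴴ * U.M'ᴴ = 1 := by
    rw [← Matrix.conjTranspose_mul, U.right, Matrix.conjTranspose_one]
  rw [← U.hS]
  calc U.Mᴴ * U.M * (U.M' * U.M'ᴴ) = U.Mᴴ * (U.M * U.M') * U.M'ᴴ := by simp only [mul_assoc]
    _ = 1 := by rw [U.left, mul_one, h6]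

theorem E_Ei : mC W.E * U.Ei = 1 := by
  rw [Ei, ← mul_assoc]
  exact U.SS_inv

theorem Ei_E : U.Ei * mC W.E = 1 := mul_eq_one_comm.1 U.E_Ei

theorem Ei_T : U.Eiᵀ = -U.Ei := by
  have h1 := congrArg Matrix.transpose U.E_Ei
  rw [Matrix.transpose_mul, mCE_T, Matrix.transpose_one, mul_neg] at h1
  calc U.Eiᵀ = U.Eiᵀ * (mC W.E * U.Ei) := by rw [U.E_Ei, mul_one]
    _ = -(-(U.Eiᵀ * mC W.E)) * U.Ei := by rw [neg_neg, mul_assoc]
    _ = -U.Ei := by rw [h1, neg_one_mul]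

/-- skewness of elements of the Lie algebra -/
theorem Ei_skew {V : Matrix (Fin w) (Fin w) ℂ} (hV : Vᵀ * mC W.E + mC W.E * V = 0) :
    U.Ei * Vᵀ = -(V * U.Ei) := by
  have h1 := eq_neg_of_add_eq_zero_left hV
  calc U.Ei * Vᵀ = U.Ei * (Vᵀ * mC W.E) * U.Ei := by
        rw [mul_assoc, mul_assoc, U.E_Ei, mul_one]
    _ = -(U.Ei * mC W.E * V * U.Ei) := by
        rw [h1, mul_neg, neg_mul]; simp only [mul_assoc]
    _ = _ := by rw [U.Ei_E, one_mul]

theorem skew_gen (k : Option (Fin (n - 2))) :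
    (gen U.s U.R U.E U.F k)ᵀ * mC W.E + mC W.E * gen U.s U.R U.E U.F k = 0 := by
  cases k with
  | none =>
    have := U.pr.skewW _ U.img.mR.1
    rw [gen, Matrix.transpose_smul, smul_mul_assoc, mul_smul_comm, ← smul_add, this, smul_zero]
  | some i =>
    have h1 := U.pr.skewW _ (U.img.mE i).1
    have h2 := U.pr.skewW _ (U.img.mF i).1
    rw [gen, Matrix.transpose_smul, smul_mul_assoc, mul_smul_comm, ← smul_add,
      Matrix.transpose_add, add_mul, mul_add, add_add_add_comm, h1, h2, add_zero, smul_zero]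

theorem Ei_gen (k : Option (Fin (n - 2))) :
    U.Ei * (gen U.s U.R U.E U.F k)ᵀ = -(gen U.s U.R U.E U.F k * U.Ei) :=
  U.Ei_skew (U.skew_gen k)

theorem Ei_proj : U.Ei * (proj U.R)ᵀ = proj U.R * U.Ei := by
  have hc := U.img.clif U.hq U.hs
  rw [← hc.sq none, Matrix.transpose_mul, ← mul_assoc, U.Ei_gen, neg_mul, mul_assoc, U.Ei_gen,
    mul_neg, neg_neg, mul_assoc]

theorem proj_E : (proj U.R)ᵀ * mC W.E = mC W.E * proj U.R := by
  calc (proj U.R)ᵀ * mC W.E = mC W.E * (U.Ei * (proj U.R)ᵀ) * mC W.E := by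
        rw [← mul_assoc, U.E_Ei, one_mul]
    _ = mC W.E * proj U.R * (U.Ei * mC W.E) := by rw [U.Ei_proj]; simp only [mul_assoc]
    _ = _ := by rw [U.Ei_E, mul_one]

/-- the element of a class -/
theorem ac_of {J : (Fin n → ℂ) →ₗ[ℂ] Matrix (Fin w) (Fin w) ℂ} (hJ : Eqv L J) :
    Ac (proj U.R) (gen U.s U.R U.E U.F) (U.Ei * J (U.o - star U.o)) := by
  obtain ⟨h1, h2, h3, -, -⟩ := U.img.class_rel U.fr U.hq U.hs hJ
  refine ⟨?_, ?_, fun k => ?_⟩
  · rw [← mul_assoc, ← U.Ei_proj, mul_assoc, h1]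
  · rw [mul_assoc, h2]
  · rw [← mul_assoc, mul_assoc, ← h3 k, ← mul_assoc, U.Ei_gen, neg_mul]

theorem y_class {J : (Fin n → ℂ) →ₗ[ℂ] Matrix (Fin w) (Fin w) ℂ} (hJ : Eqv L J) :
    (cc W)ᵀ * J (U.o - star U.o) = J (U.o - star U.o) * cc W := by
  have hne : Nonempty (Fin (n - 2)) := ⟨⟨0, U.hq⟩⟩
  obtain ⟨h1, h2, h3, -, -⟩ := U.img.class_rel U.fr U.hq U.hs hJ
  obtain ⟨m, hm⟩ : ∃ m, m = J (U.o - star U.o) := ⟨_, rfl⟩
  rw [← hm] at h1 h2 h3 ⊢
  have h4 : U.y'ᵀ * m = 0 := by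
    rw [← h1, ← mul_assoc, ← Matrix.transpose_mul, U.img.rel.py', Matrix.transpose_zero, zero_mul]
  have h5 : m * U.y' = 0 := by rw [← h2, mul_assoc, U.img.rel.py', mul_zero]
  have h6 : U.Rᵀ * m = m * U.R := by
    have h7 := h3 none
    rw [gen, Matrix.transpose_smul, smul_mul_assoc, mul_smul_comm] at h7
    have h8 := congrArg (fun A => (1 / 2 : ℂ) • A) h7
    simp only [smul_smul] at h8
    norm_num at h8
    exact h8
  rw [cc, Matrix.transpose_smul, smul_mul_assoc, mul_smul_comm, U.img.rel.dec,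
    Matrix.transpose_add, add_mul, mul_add, h4, h5, h6]

/-- **positivity** -/
theorem trace_ne {j : Fin n → Matrix (Fin w) (Fin w) ℚ} (hj : Eqv L (Jl j))
    (hj0 : Jl j (U.o - star U.o) ≠ 0) :
    (U.Ei * Jl j (U.o - star U.o) * (U.Ei * (Jl j (U.o - star U.o))ᵀ)).trace ≠ 0 := by
  have hy := U.y_class hj
  obtain ⟨m, hm⟩ : ∃ m, m = Jl j (U.o - star U.o) := ⟨_, rfl⟩
  have hH : mᴴ = -mᵀ := by
    have h1 : m.map (starRingEnd ℂ) = -m := by
      have h2 : ∀ u : Fin n → ℂ, (Jl j u).map (starRingEnd ℂ) = Jl j (star u) := by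
        intro u
        ext a b
        simp only [Jl, LinearMap.coe_mk, AddHom.coe_mk, Matrix.map_apply, Matrix.sum_apply,
          Matrix.smul_apply, smul_eq_mul, map_sum, map_mul, Pi.star_apply]
        refine Finset.sum_congr rfl fun c _ => ?_
        simp [mC]
      rw [hm, h2, ← map_neg]
      congr 1
      rw [star_sub, star_star, neg_sub]
    rw [Matrix.conjTranspose, ← Matrix.transpose_neg]
    have h3 : (mᵀ).map star = (m.map (starRingEnd ℂ))ᵀ := rfl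
    rw [h3, h1]
  rw [← hm] at hy hj0 ⊢
  intro h0
  apply hj0
  obtain ⟨Si, hSi⟩ : ∃ Si, Si = U.M' * U.M'ᴴ := ⟨_, rfl⟩
  have e1 : SS W * Si = 1 := by rw [hSi]; exact U.SS_inv
  have e2 : Si * SS W = 1 := mul_eq_one_comm.1 e1
  have e3 : (cc W)ᵀ * SS W = -(SS W * cc W) := by
    rw [SS, ← mul_assoc, cc_skew, neg_mul]
  have e4 : Si * (cc W)ᵀ = -(cc W * Si) := by
    calc Si * (cc W)ᵀ = Si * ((cc W)ᵀ * SS W) * Si := by
          rw [mul_assoc, mul_assoc, e1, mul_one]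
      _ = -((Si * SS W) * cc W * Si) := by rw [e3, mul_neg, neg_mul]; simp only [mul_assoc]
      _ = _ := by rw [e2, one_mul]
  have e5 : cc W * Si * (cc W)ᵀ = Si := by
    rw [mul_assoc, e4, mul_neg, ← mul_assoc, cc_sq, neg_one_mul, neg_neg]
  have h1 : (Si * m * (Si * mᵀ)).trace = 0 := by
    rw [← h0, Ei, ← hSi]
    calc (Si * m * (Si * mᵀ)).trace = (cc W * Si * ((cc W)ᵀ * m) * (Si * mᵀ)).trace := by
          rw [← mul_assoc (cc W * Si), e5]
      _ = _ := by rw [hy]; simp only [mul_assoc]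
  have h2 : ((U.M'ᴴ * m * U.M') * (U.M'ᴴ * m * U.M')ᴴ).trace = 0 := by
    rw [Matrix.conjTranspose_mul, Matrix.conjTranspose_mul, Matrix.conjTranspose_conjTranspose,
      hH]
    calc (U.M'ᴴ * m * U.M' * (U.M'ᴴ * (-mᵀ * U.M'))).trace
        = (U.M' * (U.M'ᴴ * m * U.M' * (U.M'ᴴ * -mᵀ))).trace := by
          rw [← mul_assoc (U.M'ᴴ) (-mᵀ), ← mul_assoc (U.M'ᴴ * m * U.M'), Matrix.trace_mul_comm]
      _ = -(Si * m * (Si * mᵀ)).trace := by
          rw [hSi, mul_neg, mul_neg, mul_neg, Matrix.trace_neg]; simp only [mul_assoc]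
      _ = 0 := by rw [h1, neg_zero]
  have h3 : U.M'ᴴ * m * U.M' = 0 := by
    open scoped ComplexOrder in
    exact Matrix.trace_mul_conjTranspose_self_eq_zero_iff.1 h2
  have h6 : U.Mᴴ * U.M'ᴴ = 1 := by
    rw [← Matrix.conjTranspose_mul, U.right, Matrix.conjTranspose_one]
  calc m = (U.Mᴴ * U.M'ᴴ) * m * (U.M' * U.M) := by rw [h6, U.right, one_mul, mul_one]
    _ = U.Mᴴ * (U.M'ᴴ * m * U.M') * U.M := by simp only [mul_assoc]
    _ = 0 := by rw [h3, mul_zero, zero_mul]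

/-- the commutant consists of complex combinations of rational Hodge endomorphisms -/
theorem cm_span {P : Matrix (Fin w) (Fin w) ℂ}
    (hP : Cm (proj U.R) (gen U.s U.R U.E U.F) P) : P ∈ Submodule.span ℂ
      {D | ∃ P : Matrix (Fin w) (Fin w) ℚ, D = mC P ∧ mC P * W.y = W.y * mC P} := by
  apply de2G
  intro σ
  have hQ : (mC T.Q).map σ = mC T.Q := by
    ext i j; simp [mC]
  have hsq : (4 : ℂ) • (W.y.map σ * W.y.map σ) = 1 := by
    have h1 := congrArg (fun A : Matrix (Fin w) (Fin w) ℂ => A.map σ) W.sq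
    rw [← Matrix.map_mul]
    ext a b
    have h2 := congrFun (congrFun h1 a) b
    simp only [Matrix.map_apply, Matrix.smul_apply, smul_eq_mul, map_mul] at h2 ⊢
    have h3 : σ 4 = 4 := map_ofNat σ 4
    rw [h3] at h2
    rw [h2, Matrix.one_apply]
    split_ifs <;> simp
  exact U.img.comm_y hsq (U.pr.conj σ) U.hL U.fr (U.fr.map σ hQ) U.hq U.hs hP.c hP.l hP.r

/-- the transposed element of the commutant -/
theorem cm_adj {P : Matrix (Fin w) (Fin w) ℂ}
    (hP : Cm (proj U.R) (gen U.s U.R U.E U.F) P) :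
    ∃ P', Cm (proj U.R) (gen U.s U.R U.E U.F) P' ∧ P'ᵀ = mC W.E * P * U.Ei := by
  refine ⟨U.Ei * Pᵀ * mC W.E, ⟨?_, ?_, fun k => ?_⟩, ?_⟩
  · rw [← mul_assoc, ← mul_assoc, ← U.Ei_proj, mul_assoc U.Ei, ← Matrix.transpose_mul, hP.r]
  · rw [mul_assoc (U.Ei * Pᵀ), ← U.proj_E, ← mul_assoc, mul_assoc U.Ei, ← Matrix.transpose_mul,
      hP.l]
  · have h1 := eq_neg_of_add_eq_zero_left (U.skew_gen k)
    have h2 : mC W.E * gen U.s U.R U.E U.F k = -((gen U.s U.R U.E U.F k)ᵀ * mC W.E) := by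
      rw [h1, neg_neg]
    rw [mul_assoc, h2, mul_neg, ← mul_assoc, mul_assoc U.Ei, ← Matrix.transpose_mul, ← hP.c,
      Matrix.transpose_mul, ← mul_assoc, U.Ei_gen, neg_mul, neg_mul, neg_neg]
    simp only [mul_assoc]
  · rw [Matrix.transpose_mul, Matrix.transpose_mul, Matrix.transpose_transpose, mCE_T, U.Ei_T,
      neg_mul, mul_neg, mul_neg, neg_neg, mul_assoc]

end Setup

end

end Pool.Agent.L5helper24.KM
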