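import Pool.Agent.L5helper24.KS.Coord
import Pool.Agent.L5helper24.KS.Alg
import Pool.Agent.L5helper24.KS.Split

/-!
# The structure of a Hodge structure of level one under the Lie algebra of a K3 type structure
-/

set_option autoImplicit false
set_option linter.unusedSectionVars false

open Matrix Finset Module

namespace Pool.Agent.L5helper24.KM

open Pool.Agent Pool.Agent.W544.PG Pool.Agent.L5helper24.KS

noncomputable section

variable {n q : ℕ} {κ : Type} [Fintype κ] [DecidableEq κ]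

/-- A Lie algebra of operators on `T ⊕ U` which is mapped onto `so(T)`. -/
structure Lalg (L : Submodule ℂ (Matrix (Fin n) (Fin n) ℂ × Matrix κ κ ℂ))
    (M M' : Matrix κ κ ℂ) (Q : Matrix (Fin n) (Fin n) ℂ) : Prop where
  lie : IsLie L
  adj : IsAdj L M M'
  skew : ∀ P ∈ L, P.1ᵀ * Q + Q * P.1 = 0
  surj : ∀ Z : Matrix (Fin n) (Fin n) ℂ, Zᵀ * Q + Q * Z = 0 → ∃ V, (Z, V) ∈ L

variable {L : Submodule ℂ (Matrix (Fin n) (Fin n) ℂ × Matrix κ κ ℂ)}
    {M M' : Matrix κ κ ℂ} {Q x : Matrix (Fin n) (Fin n) ℂ} {o o' : Fin n → ℂ}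
    {v : Fin q → Fin n → ℂ} {y : Matrix κ κ ℂ}

theorem Lalg.lift (hL : Lalg L M M' Q) {Z : Matrix (Fin n) (Fin n) ℂ}
    (hZ : Zᵀ * Q + Q * Z = 0) : ∃ V, (Z, V) ∈ orth L := by
  obtain ⟨V, hV⟩ := hL.surj Z hZ
  obtain ⟨V', -, h⟩ := hL.adj.split hV
  exact ⟨_, h⟩

/-- the images of the elements of the orthogonal Lie algebra -/
structure Img (L : Submodule ℂ (Matrix (Fin n) (Fin n) ℂ × Matrix κ κ ℂ))
    (Q x : Matrix (Fin n) (Fin n) ℂ) (o o' : Fin n → ℂ) (v : Fin q → Fin n → ℂ)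
    (y R y' : Matrix κ κ ℂ) (E F : Fin q → Matrix κ κ ℂ) : Prop where
  mR : (x, R) ∈ orth L
  mE : ∀ i, (wd Q o (v i), E i) ∈ orth L
  mF : ∀ i, (wd Q (v i) o', F i) ∈ orth L
  rel : Rel y R y' E F

/-- The pair `(x, y)` normalises the ideal `orth L`. -/
def Nz (L : Submodule ℂ (Matrix (Fin n) (Fin n) ℂ × Matrix κ κ ℂ)) (x : Matrix (Fin n) (Fin n) ℂ)
    (y : Matrix κ κ ℂ) : Prop :=
  ∀ Z V, (Z, V) ∈ orth L → (x * Z - Z * x, y * V - V * y) ∈ orth L

theorem Lalg.exists_img (hL : Lalg L M M' Q) (hfr : Fr Q x o o' v) (hy : (4 : ℂ) • (y * y) = 1)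
    (hxy : Nz L x y) : ∃ (R y' : Matrix κ κ ℂ) (E F : Fin q → Matrix κ κ ℂ),
      Img L Q x o o' v y R y' E F := by
  have hxs : xᵀ * Q + Q * x = 0 := by rw [hfr.x_eq]; exact wd_skew hfr.symm o o'
  obtain ⟨R, hR⟩ := hL.lift hxs
  obtain ⟨y', hy'⟩ : ∃ y', y' = y - R := ⟨_, rfl⟩
  have hc : ∀ Z V, (Z, V) ∈ orth L → y' * V = V * y' := by
    intro Z V h
    have h1 := hxy Z V h
    have h2 := orth_br hL.lie hR h
    have h3 := hL.adj.unique h1 h2
    rw [hy', sub_mul, mul_sub]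
    have h4 : y * V - R * V - (V * y - V * R) = (y * V - V * y) - (R * V - V * R) := by abel
    rw [← sub_eq_zero, h4, h3, sub_self]
  choose E hE using fun i => hL.lift (wd_skew hfr.symm o (v i))
  choose F hF using fun i => hL.lift (wd_skew hfr.symm (v i) o')
  refine ⟨R, y', E, F, hR, hE, hF, ?_, hy, ?_, ?_, ?_, ?_, ?_, ?_, ?_⟩
  · rw [hy', add_sub_cancel]
  · intro i
    exact hc _ _ (hE i)
  · intro i
    exact hc _ _ (hF i)
  · exact hc _ _ hR
  · intro i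
    have h1 := orth_br hL.lie hR (hE i)
    rw [hfr.x_e] at h1
    exact hL.adj.unique h1 (hE i)
  · intro i
    have h1 := orth_br hL.lie hR (hF i)
    rw [hfr.x_f] at h1
    have h2 := (orth L).neg_mem (hF i)
    exact hL.adj.unique h1 h2
  · intro i
    have h1 := orth_br hL.lie (hE i) (hF i)
    rw [hfr.e_f, if_pos rfl, one_smul, wd_self, add_zero] at h1
    exact hL.adj.unique h1 hR
  · intro i j hij
    have h1 := orth_br hL.lie (hE i) (hF j)
    have h2 := (orth L).neg_mem (orth_br hL.lie (hE j) (hF i))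
    rw [hfr.e_f, if_neg hij, zero_smul, zero_add] at h1
    rw [hfr.e_f, if_neg (Ne.symm hij), zero_smul, zero_add] at h2
    have h3 : -(wd Q (v j) (v i), E j * F i - F i * E j) =
      (wd Q (v i) (v j), -(E j * F i - F i * E j)) := by
      rw [Prod.neg_mk, wd_anti (v i) (v j), neg_neg]
    rw [h3] at h2
    exact hL.adj.unique h1 h2

variable {R y' : Matrix κ κ ℂ} {E F : Fin q → Matrix κ κ ℂ}

/-- all elements of the orthogonal Lie algebra are combinations of the standard ones -/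
theorem Img.span (h : Img L Q x o o' v y R y' E F) (hL : Lalg L M M' Q)
    (hfr : Fr Q x o o' v) (S : Submodule ℂ (Matrix κ κ ℂ)) (hR : R ∈ S) (hE : ∀ i, E i ∈ S)
    (hF : ∀ i, F i ∈ S) (hEF : ∀ i j, i ≠ j → E i * F j - F j * E i ∈ S)
    {Z : Matrix (Fin n) (Fin n) ℂ} {V : Matrix κ κ ℂ} (hZ : (Z, V) ∈ orth L) : V ∈ S := by
  let K : Submodule ℂ (Matrix (Fin n) (Fin n) ℂ) :=
    { carrier := {Z | ∃ V ∈ S, (Z, V) ∈ orth L}
      zero_mem' := ⟨0, S.zero_mem, (orth L).zero_mem⟩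
      add_mem' := by
        rintro a b ⟨V, hV, hV'⟩ ⟨W, hW, hW'⟩
        exact ⟨V + W, S.add_mem hV hW, (orth L).add_mem hV' hW'⟩
      smul_mem' := by
        rintro z a ⟨V, hV, hV'⟩
        exact ⟨z • V, S.smul_mem z hV, (orth L).smul_mem z hV'⟩ }
  have k1 : wd Q o o' ∈ K := by
    rw [← hfr.x_eq]
    exact ⟨R, hR, h.mR⟩
  have k2 : ∀ i, wd Q o (v i) ∈ K := fun i => ⟨E i, hE i, h.mE i⟩
  have k3 : ∀ i, wd Q (v i) o' ∈ K := fun i => ⟨F i, hF i, h.mF i⟩
  have k4 : ∀ i j, wd Q (v i) (v j) ∈ K := by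
    intro i j
    by_cases hij : i = j
    · rw [hij, wd_self]; exact K.zero_mem
    · refine ⟨_, hEF i j hij, ?_⟩
      have h1 := orth_br hL.lie (h.mE i) (h.mF j)
      rwa [hfr.e_f, if_neg hij, zero_smul, zero_add] at h1
  have k5 : ∀ u, wd Q u o' ∈ K := by
    intro u
    rw [hfr.full u, wd_add_left, wd_add_left, wd_smul_left, wd_smul_left, wd_self, smul_zero,
      add_zero, wd_sum_left]
    refine K.add_mem (K.smul_mem _ k1) (Submodule.sum_mem _ fun i _ => ?_)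
    rw [wd_smul_left]
    exact K.smul_mem _ (k3 i)
  have k6 : ∀ u, wd Q u o ∈ K := by
    intro u
    rw [hfr.full u, wd_add_left, wd_add_left, wd_smul_left, wd_smul_left, wd_self, smul_zero,
      zero_add, wd_sum_left]
    refine K.add_mem (K.smul_mem _ ?_) (Submodule.sum_mem _ fun i _ => ?_)
    · rw [wd_anti]; exact K.neg_mem k1
    · rw [wd_smul_left, wd_anti]
      exact K.smul_mem _ (K.neg_mem (k2 i))
  have k7 : ∀ u j, wd Q u (v j) ∈ K := by
    intro u j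
    rw [hfr.full u, wd_add_left, wd_add_left, wd_smul_left, wd_smul_left, wd_sum_left]
    refine K.add_mem (K.add_mem (K.smul_mem _ (k2 j)) (K.smul_mem _ ?_))
      (Submodule.sum_mem _ fun i _ => ?_)
    · rw [wd_anti]; exact K.neg_mem (k3 j)
    · rw [wd_smul_left]
      exact K.smul_mem _ (k4 i j)
  have hsk := hL.skew _ hZ.1
  have h2 : (2 : ℂ) • Z ∈ K := by
    rw [hfr.eq_sum hsk]
    exact K.add_mem (K.add_mem (k5 _) (k6 _)) (Submodule.sum_mem _ fun i _ => k7 _ _)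
  have h3 : Z ∈ K := by
    have := K.smul_mem (1 / 2 : ℂ) h2
    rw [smul_smul] at this
    norm_num at this
    exact this
  obtain ⟨V', hV', hV''⟩ := h3
  rw [hL.adj.unique hZ hV'']
  exact hV'

/-- the projector acts as the identity on the images -/
theorem Img.proj_mul (h : Img L Q x o o' v y R y' E F) (hL : Lalg L M M' Q)
    (hfr : Fr Q x o o' v) (hq : 0 < q) {Z : Matrix (Fin n) (Fin n) ℂ} {V : Matrix κ κ ℂ}
    (hZ : (Z, V) ∈ orth L) : proj R * V = V ∧ V * proj R = V := by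
  have : Nonempty (Fin q) := ⟨⟨0, hq⟩⟩
  let S : Submodule ℂ (Matrix κ κ ℂ) :=
    { carrier := {V | proj R * V = V ∧ V * proj R = V}
      zero_mem' := by simp
      add_mem' := by
        rintro a b ⟨h1, h2⟩ ⟨h3, h4⟩
        exact ⟨by rw [mul_add, h1, h3], by rw [add_mul, h2, h4]⟩
      smul_mem' := by
        rintro z a ⟨h1, h2⟩
        exact ⟨by rw [mul_smul_comm, h1], by rw [smul_mul_assoc, h2]⟩ }
  refine h.span hL hfr S ⟨h.rel.pR, h.rel.Rp⟩ (fun i => ⟨h.rel.pE i, h.rel.Ep i⟩)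
    (fun i => ⟨h.rel.pF i, h.rel.Fp i⟩) (fun i j _ => ⟨?_, ?_⟩) hZ
  · rw [mul_sub, ← mul_assoc, ← mul_assoc, h.rel.pE, h.rel.pF]
  · rw [sub_mul, mul_assoc, mul_assoc, h.rel.Fp, h.rel.Ep]

/-- what commutes with the generators commutes with all images -/
theorem Img.comm (h : Img L Q x o o' v y R y' E F) (hL : Lalg L M M' Q)
    (hfr : Fr Q x o o' v) {s : ℂ} (hs : s * s = 2) {P : Matrix κ κ ℂ}
    (hP : ∀ k, P * gen s R E F k = gen s R E F k * P)
    {Z : Matrix (Fin n) (Fin n) ℂ} {V : Matrix κ κ ℂ}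
    (hZ : (Z, V) ∈ orth L) : P * V = V * P := by
  let S : Submodule ℂ (Matrix κ κ ℂ) :=
    { carrier := {V | P * V = V * P}
      zero_mem' := by simp
      add_mem' := by
        intro a b h1 h3
        change P * (a + b) = (a + b) * P
        rw [mul_add, add_mul, h1, h3]
      smul_mem' := by
        intro z a h1
        change P * (z • a) = (z • a) * P
        rw [mul_smul_comm, smul_mul_assoc, h1] }
  have hE : ∀ i, P * E i = E i * P := by
    intro i
    rw [h.rel.E_eq hs i, mul_smul_comm, smul_mul_assoc, mul_add, add_mul, hP, ← mul_assoc, hP,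
      mul_assoc, hP, mul_assoc]
  have hF : ∀ i, P * F i = F i * P := by
    intro i
    rw [h.rel.F_eq hs i, mul_smul_comm, smul_mul_assoc, mul_sub, sub_mul, hP, ← mul_assoc, hP,
      mul_assoc, hP, mul_assoc]
  have hR : P * R = R * P := by
    have h1 := hP none
    rw [gen, mul_smul_comm, smul_mul_assoc] at h1
    have h2 := congrArg (fun A => (1 / 2 : ℂ) • A) h1
    simp only [smul_smul] at h2
    norm_num at h2
    exact h2
  refine h.span hL hfr S hR hE hF (fun i j _ => ?_) hZ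
  change P * _ = _ * P
  rw [mul_sub, sub_mul, ← mul_assoc, ← mul_assoc, hE, hF, mul_assoc, mul_assoc, hF, hE,
    ← mul_assoc, ← mul_assoc]

/-- The projector does not depend on the Hodge operator. -/
theorem Img.proj_eq {x₁ : Matrix (Fin n) (Fin n) ℂ} {o₁ o₁' : Fin n → ℂ}
    {v₁ : Fin q → Fin n → ℂ} {y₁ R₁ y₁' : Matrix κ κ ℂ} {E₁ F₁ : Fin q → Matrix κ κ ℂ}
    (h : Img L Q x o o' v y R y' E F) (h₁ : Img L Q x₁ o₁ o₁' v₁ y₁ R₁ y₁' E₁ F₁)
    (hL : Lalg L M M' Q) (hfr : Fr Q x o o' v) (hfr₁ : Fr Q x₁ o₁ o₁' v₁) (hq : 0 < q) :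
    proj R₁ = proj R := by
  have h1 := h.proj_mul hL hfr hq h₁.mR
  have h2 := h₁.proj_mul hL hfr₁ hq h.mR
  have h3 : proj R * proj R₁ = proj R₁ := by
    nth_rewrite 2 [proj]
    rw [mul_smul_comm, ← mul_assoc, h1.1]
    rfl
  have h4 : proj R * proj R₁ = proj R := by
    nth_rewrite 1 [proj]
    rw [smul_mul_assoc, mul_assoc, h2.2]
    rfl
  rw [← h3, h4]

/-- What commutes with the generators and is supported on the nontrivial part commutes with all
`y₁`. -/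
theorem Img.comm_y {x₁ : Matrix (Fin n) (Fin n) ℂ} {o₁ o₁' : Fin n → ℂ}
    {v₁ : Fin q → Fin n → ℂ} {y₁ : Matrix κ κ ℂ}
    (h : Img L Q x o o' v y R y' E F) (hy₁ : (4 : ℂ) • (y₁ * y₁) = 1) (hxy₁ : Nz L x₁ y₁)
    (hL : Lalg L M M' Q) (hfr : Fr Q x o o' v) (hfr₁ : Fr Q x₁ o₁ o₁' v₁) (hq : 0 < q)
    {s : ℂ} (hs : s * s = 2) {P : Matrix κ κ ℂ}
    (hP : ∀ k, P * gen s R E F k = gen s R E F k * P) (hP1 : proj R * P = P)
    (hP2 : P * proj R = P) : P * y₁ = y₁ * P := by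
  have : Nonempty (Fin q) := ⟨⟨0, hq⟩⟩
  obtain ⟨R₁, y₁', E₁, F₁, h₁⟩ := hL.exists_img hfr₁ hy₁ hxy₁
  have h2 := h.proj_eq h₁ hL hfr hfr₁ hq
  rw [h₁.rel.dec, mul_add, add_mul, h.comm hL hfr hs hP h₁.mR]
  have e1 : P * y₁' = 0 := by rw [← hP2, ← h2, mul_assoc, h₁.rel.py', mul_zero]
  have e2 : y₁' * P = 0 := by rw [← hP1, ← h2, ← mul_assoc, h₁.rel.y'p, zero_mul]
  rw [e1, e2]

end

end Pool.Agent.L5helper24.KM
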