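import Pool.Agent.L5helper24.KM.Blocks
import Pool.Agent.W637.PG.EG2

/-!
# The projection of the Lie algebra, and the pieces with larger Hodge numbers
-/

set_option autoImplicit false
set_option linter.unusedSectionVars false

open Matrix Finset Module

namespace Pool.Agent.L5helper24.KM

open Pool.Agent Pool.Agent.W544.PG Pool.Agent.L5helper24.KS

noncomputable section

variable {n w r : ℕ} {T : HS n} {W : HW w} {c : Fin n → Fin r} {p q : Fin r → ℕ}

theorem LL_form (bQ : BD c T.Q) (bx : BD c T.x) {Z : Matrix (Fin n) (Fin n) ℂ}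
    {V : Matrix (Fin w) (Fin w) ℂ} (h : (Z, V) ∈ LL T W) : BD c Z := by
  obtain ⟨Z', V', h1, h2, -⟩ := W883.PG.xdi n r w 0 T W c bQ bx _ h
  have h3 : NN 0 w Z V = NN 0 w Z' V' := h1
  rw [(NN_inj h3).1]
  exact h2

/-- The projection to the sum of the `so(T_i)` is surjective. -/
theorem LL_surjB (hB : T.Big c p q) {Z : Matrix (Fin n) (Fin n) ℂ}
    (hZ : Zᵀ * mC T.Q + mC T.Q * Z = 0) (hZc : BD c Z) : ∃ V, (Z, V) ∈ LL T W := by
  apply mainG (hh0 := hP T W 0) W571.PG.sub W589.PG.Sim.sim W756.PG.gou thtF W696.PG.de2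
    _ _ _ _ _ hB Z hZ hZc
  · rintro y ⟨V, hV⟩
    exact LL_form hB.bQ hB.bx hV
  · rintro y ⟨V, hV⟩
    exact LL_skew hV
  · rintro y ⟨V, hV⟩ z ⟨V', hV'⟩
    exact ⟨_, LL_br (P := (y, V)) (P' := (z, V')) hV hV'⟩
  · rintro y ⟨V, hV⟩
    exact ⟨_, LL_star hV⟩
  · intro σ
    exact ⟨_, LL_conj σ⟩

theorem LL_zero_br {Z Z' : Matrix (Fin n) (Fin n) ℂ} {V : Matrix (Fin w) (Fin w) ℂ}
    (h : (Z, V) ∈ LL T W) (h' : (Z', (0 : Matrix (Fin w) (Fin w) ℂ)) ∈ LL T W) :
    (Z * Z' - Z' * Z, (0 : Matrix (Fin w) (Fin w) ℂ)) ∈ LL T W := by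
  have h1 := LL_br h h'
  have h2 : (Z * Z' - Z' * Z, V * (0 : Matrix (Fin w) (Fin w) ℂ) - 0 * V) =
      (Z * Z' - Z' * Z, (0 : Matrix (Fin w) (Fin w) ℂ)) := by
    rw [mul_zero, zero_mul, sub_zero]
  exact h2 ▸ h1

/-- The pieces with `p_i ≥ 2` do not act on the abelian variety. -/
theorem LL_big (hB : T.Big c p q) {i : Fin r} (hp : 2 ≤ p i) {e : Fin (2 * p i + q i) → Fin n}
    {T' : HS (2 * p i + q i)} (b : Blk T c i e T')
    {y : Matrix (Fin (2 * p i + q i)) (Fin (2 * p i + q i)) ℂ}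
    (hy : yᵀ * mC T'.Q + mC T'.Q * y = 0) :
    (bk e y, (0 : Matrix (Fin w) (Fin w) ℂ)) ∈ LL T W := by
  have hm : 3 ≤ 2 * p i + q i ∧ 2 * p i + q i ≠ 4 := by
    rcases hB.num i with h | ⟨h0, h⟩
    · omega
    · have hlt : 2 * p i < q i := by
        by_contra h'
        rw [Nat.sub_eq_zero_of_le (not_lt.1 h'), zero_mul] at h
        omega
      omega
  let J : Submodule ℂ (Matrix (Fin (2 * p i + q i)) (Fin (2 * p i + q i)) ℂ) :=
    { carrier := {y | yᵀ * mC T'.Q + mC T'.Q * y = 0 ∧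
        (bk e y, (0 : Matrix (Fin w) (Fin w) ℂ)) ∈ LL T W}
      zero_mem' := by
        refine ⟨by simp, ?_⟩
        rw [bk_zero]
        exact (LL T W).zero_mem
      add_mem' := by
        rintro y z ⟨hy1, hy2⟩ ⟨hz1, hz2⟩
        refine ⟨?_, ?_⟩
        · rw [Matrix.transpose_add, Matrix.add_mul, Matrix.mul_add, add_add_add_comm, hy1, hz1,
            add_zero]
        · have h1 := (LL T W).add_mem hy2 hz2
          have h2 : (bk e y, (0 : Matrix (Fin w) (Fin w) ℂ)) + (bk e z, 0) =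
              (bk e (y + z), 0) := Prod.ext (bk_add y z).symm (add_zero _)
          exact h2 ▸ h1
      smul_mem' := by
        rintro z y ⟨hy1, hy2⟩
        refine ⟨?_, ?_⟩
        · rw [Matrix.transpose_smul, Matrix.smul_mul, Matrix.mul_smul, ← smul_add, hy1,
            smul_zero]
        · have h1 := (LL T W).smul_mem z hy2
          have h2 : z • (bk e y, (0 : Matrix (Fin w) (Fin w) ℂ)) =
              (bk e (z • y), 0) := Prod.ext (bk_smul z y).symm (smul_zero _)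
          exact h2 ▸ h1 }
  have hJmem : ∀ y, y ∈ J ↔ (yᵀ * mC T'.Q + mC T'.Q * y = 0 ∧
    (bk e y, (0 : Matrix (Fin w) (Fin w) ℂ)) ∈ LL T W) := fun y => Iff.rfl
  have h1 := simB T' hm.1 hm.2 J (fun y hy => hy.1) ?_ ?_ y hy
  · exact h1.2
  · intro Z hZ y hy
    rw [hJmem] at hy ⊢
    refine ⟨?_, ?_⟩
    · have h2 : Zᵀ * mC T'.Q = -(mC T'.Q * Z) := eq_neg_of_add_eq_zero_left hZ
      have h3 : yᵀ * mC T'.Q = -(mC T'.Q * y) := eq_neg_of_add_eq_zero_left hy.1
      rw [Matrix.transpose_sub, Matrix.transpose_mul, Matrix.transpose_mul, Matrix.sub_mul,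
        Matrix.mul_assoc, Matrix.mul_assoc, h2, h3, Matrix.mul_neg, Matrix.mul_neg,
        ← Matrix.mul_assoc, ← Matrix.mul_assoc, h2, h3, Matrix.mul_sub]
      simp only [Matrix.neg_mul, neg_neg, Matrix.mul_assoc]
      abel
    · obtain ⟨V, hV⟩ := LL_surjB (W := W) hB (bk_skew hB.bQ b hZ) (bk_BD b.en Z)
      have h2 := LL_zero_br hV hy.2
      rwa [bk_mul b.en.inj, bk_mul b.en.inj, ← bk_sub] at h2
  · obtain ⟨Z0, hZ0, hZs, hZb, hZx⟩ := W637.PG.eg2 n r T c i (p i) hB.bQ hB.bx (hB.tr i) hp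
    have hZc : BD c Z0 := by
      intro a a' haa'
      by_contra h
      obtain ⟨h1, h2⟩ := hZb a a' h
      exact haa' (by rw [h1, h2])
    obtain ⟨V, hV⟩ := LL_surjB (W := W) hB hZs hZc
    have hx : (T.x, W.y) ∈ LL T W := LL_self
    have h2 : ((2 : ℂ) • Z0, W.y * V - V * W.y) ∈ LL T W := by
      have h := LL_br hx hV
      have h' : (T.x * Z0 - Z0 * T.x, W.y * V - V * W.y) ∈ LL T W := h
      rwa [hZx] at h'
    have h3 : ((2 : ℂ) • (2 : ℂ) • Z0, W.y * (W.y * V - V * W.y) - (W.y * V - V * W.y) * W.y) ∈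
        LL T W := by
      have h := LL_br hx h2
      have h' : (T.x * ((2 : ℂ) • Z0) - ((2 : ℂ) • Z0) * T.x,
        W.y * (W.y * V - V * W.y) - (W.y * V - V * W.y) * W.y) ∈ LL T W := h
      rwa [Matrix.mul_smul, Matrix.smul_mul, ← smul_sub, hZx] at h'
    have h4 : ((2 : ℂ) • (2 : ℂ) • (2 : ℂ) • Z0,
        W.y * (W.y * (W.y * V - V * W.y) - (W.y * V - V * W.y) * W.y) -
        (W.y * (W.y * V - V * W.y) - (W.y * V - V * W.y) * W.y) * W.y) ∈ LL T W := by
      have h := LL_br hx h3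
      have h' : (T.x * ((2 : ℂ) • (2 : ℂ) • Z0) - ((2 : ℂ) • (2 : ℂ) • Z0) * T.x,
        W.y * (W.y * (W.y * V - V * W.y) - (W.y * V - V * W.y) * W.y) -
        (W.y * (W.y * V - V * W.y) - (W.y * V - V * W.y) * W.y) * W.y) ∈ LL T W := h
      rwa [Matrix.mul_smul, Matrix.smul_mul, ← smul_sub, Matrix.mul_smul, Matrix.smul_mul,
        ← smul_sub, hZx] at h'
    have h5 := (LL T W).sub_mem h4 h2
    rw [Prod.mk_sub_mk] at h5
    have h6 : W.y * (W.y * (W.y * V - V * W.y) - (W.y * V - V * W.y) * W.y) -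
        (W.y * (W.y * V - V * W.y) - (W.y * V - V * W.y) * W.y) * W.y -
        (W.y * V - V * W.y) = 0 := by
      have sq4 : W.y * W.y = (1 / 4 : ℂ) • 1 := by
        rw [← W.sq, smul_smul]; norm_num
      have e1 : ∀ M : Matrix (Fin w) (Fin w) ℂ, W.y * (W.y * M) = (1 / 4 : ℂ) • M := by
        intro M
        rw [← Matrix.mul_assoc, sq4, Matrix.smul_mul, Matrix.one_mul]
      simp only [Matrix.mul_sub, Matrix.sub_mul, Matrix.mul_assoc, e1, sq4, Matrix.mul_smul,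
        Matrix.smul_mul, Matrix.mul_one]
      module
    rw [h6] at h5
    have h7 : (2 : ℂ) • (2 : ℂ) • (2 : ℂ) • Z0 - (2 : ℂ) • Z0 = (6 : ℂ) • Z0 := by module
    rw [h7] at h5
    have h8 : (Z0, (0 : Matrix (Fin w) (Fin w) ℂ)) ∈ LL T W := by
      have h := (LL T W).smul_mem (1 / 6 : ℂ) h5
      have h' : (1 / 6 : ℂ) • ((6 : ℂ) • Z0, (0 : Matrix (Fin w) (Fin w) ℂ)) = (Z0, 0) := by
        rw [Prod.smul_mk, smul_smul, smul_zero]
        norm_num
      rwa [h'] at h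
    have h9 : bk e (Z0.submatrix e e) = Z0 := by
      ext a a'
      by_cases h : c a = i ∧ c a' = i
      · obtain ⟨j, rfl⟩ := b.en.surj a h.1
        obtain ⟨j', rfl⟩ := b.en.surj a' h.2
        have h10 := bk_submatrix b.en.inj (Z0.submatrix e e)
        exact congrFun (congrFun h10 j) j'
      · have h10 : Z0 a a' = 0 := by
          by_contra h11
          exact h (hZb a a' h11)
        rw [h10]
        by_contra h11
        obtain ⟨h12, h13⟩ := sel_mul_T b.en (Z0.submatrix e e) h11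
        exact h ⟨h12, h13⟩
    refine ⟨Z0.submatrix e e, ?_, ?_⟩
    · rw [hJmem]
      refine ⟨?_, ?_⟩
      · apply of_bk_skew hB.bQ b
        rw [h9]
        exact hZs
      · rw [h9]
        exact h8
    · intro h0
      apply hZ0
      rw [← h9, h0, bk_zero]

end

end Pool.Agent.L5helper24.KM
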