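import Pool.Agent.L5helper24.KM.RD

/-!
# Systems of classes
-/

set_option autoImplicit false
set_option linter.unusedSectionVars false

open Matrix Finset Module

namespace Pool.Agent.L5helper24.KM

open Pool.Agent Pool.Agent.W544.PG Pool.Agent.L5helper24.KS Pool.Agent.W216.PG.SOI
open Pool.Agent.N996.BP (RData cR exists_sqrt kp kp_apply kp_reindex kp_sum tens rei
  contr uni arr arr_elim fin_ind)

noncomputable section

variable {n w : ℕ}

/-- the bilinear form with a given matrix -/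
def bf (M : Matrix (Fin n ⊕ Fin w) (Fin n ⊕ Fin w) ℚ) : (Fin 2 → Fin n ⊕ Fin w) → ℚ :=
  fun J => M (J 0) (J 1)

/-- A system of Hodge classes (rational multilinear forms on `T ⊕ H_1(A)`, with the variables
indexed by a finite set `κ`) which is closed under permutations of the variables, products, and
contractions of two variables with the inverse of the polarisation of `T` or of `A`, and contains
the polarisations. -/
structure IsSys (T : HS n) (W : HW w)
    (𝒜 : ∀ κ : Type, Submodule ℚ ((κ → Fin n ⊕ Fin w) → ℚ)) : Prop where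
  hodge : ∀ (κ : Type) [Fintype κ] [DecidableEq κ] (t : (κ → Fin n ⊕ Fin w) → ℚ),
    t ∈ 𝒜 κ → IsH T W t
  rei : ∀ (κ l : Type) [Fintype κ] [Fintype l] (e : κ ≃ l) (t : (κ → Fin n ⊕ Fin w) → ℚ),
    t ∈ 𝒜 κ → (fun J => t fun k => J (e k)) ∈ 𝒜 l
  one : (fun _ => 1) ∈ 𝒜 (Fin 0)
  mul : ∀ (κ l : Type) [Fintype κ] [Fintype l] (t : (κ → Fin n ⊕ Fin w) → ℚ)
    (u : (l → Fin n ⊕ Fin w) → ℚ), t ∈ 𝒜 κ → u ∈ 𝒜 l →
    (fun J : κ ⊕ l → Fin n ⊕ Fin w => (t fun k => J (Sum.inl k)) * u fun k => J (Sum.inr k)) ∈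
      𝒜 (κ ⊕ l)
  ctrT : ∀ (κ : Type) [Fintype κ] (t : (κ ⊕ Fin 2 → Fin n ⊕ Fin w) → ℚ), t ∈ 𝒜 (κ ⊕ Fin 2) →
    (fun J => ∑ a, ∑ b, T.Q⁻¹ a b * t (Sum.elim J ![Sum.inl a, Sum.inl b])) ∈ 𝒜 κ
  ctrA : ∀ (κ : Type) [Fintype κ] (t : (κ ⊕ Fin 2 → Fin n ⊕ Fin w) → ℚ), t ∈ 𝒜 (κ ⊕ Fin 2) →
    (fun J => ∑ a, ∑ b, W.E⁻¹ a b * t (Sum.elim J ![Sum.inr a, Sum.inr b])) ∈ 𝒜 κ
  polT : bf (fromBlocks T.Q 0 0 0) ∈ 𝒜 (Fin 2)
  polA : bf (fromBlocks 0 0 0 W.E) ∈ 𝒜 (Fin 2)

section cmp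
variable {ι : Type} {κ l : Type} {R : Type}

open Classical in
/-- the part of an array where exactly the variables in `S` are not the unit -/
def cmp (a : (κ → Unit ⊕ ι) → R) (S : κ → Prop) : ({k // S k} → ι) → R :=
  fun J => a fun k => if h : S k then Sum.inr (J ⟨k, h⟩) else Sum.inl ()

/-- the extended system -/
def AA (𝒜 : ∀ κ : Type, Submodule ℚ ((κ → ι) → ℚ)) (κ : Type) :
    Submodule ℚ ((κ → Unit ⊕ ι) → ℚ) where
  carrier := {a | ∀ S : κ → Prop, cmp a S ∈ 𝒜 {k // S k}}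
  add_mem' {_ _} ha hb S := Submodule.add_mem _ (ha S) (hb S)
  zero_mem' _ := Submodule.zero_mem _
  smul_mem' c _ ha S := Submodule.smul_mem _ c (ha S)

end cmp

section
variable {T : HS n} {W : HW w} {𝒜 : ∀ κ : Type, Submodule ℚ ((κ → Fin n ⊕ Fin w) → ℚ)}

theorem AA_rei (h : IsSys T W 𝒜) {κ l : Type} [Fintype κ] [Fintype l] (e : κ ≃ l)
    {a : (κ → Unit ⊕ (Fin n ⊕ Fin w)) → ℚ} (ha : a ∈ AA 𝒜 κ) : rei e a ∈ AA 𝒜 l := by
  classical
  intro S
  have h1 := h.rei {k // S (e k)} {k // S k} (e.subtypeEquiv fun k => Iff.rfl) _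
    (ha fun k => S (e k))
  convert h1 using 1
  funext J
  simp only [cmp, rei]
  congr 1

theorem AA_tens (h : IsSys T W 𝒜) {κ l : Type} [Fintype κ] [Fintype l]
    {a : (κ → Unit ⊕ (Fin n ⊕ Fin w)) → ℚ} {b : (l → Unit ⊕ (Fin n ⊕ Fin w)) → ℚ}
    (ha : a ∈ AA 𝒜 κ) (hb : b ∈ AA 𝒜 l) : tens a b ∈ AA 𝒜 (κ ⊕ l) := by
  classical
  intro S
  have h0 := h.mul _ _ _ _ (ha fun k => S (Sum.inl k)) (hb fun k => S (Sum.inr k))
  have h1 := h.rei _ {k // S k} Equiv.subtypeSum.symm _ h0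
  convert h1 using 1
  funext J
  rfl

/-- the form for the contractions -/
def gQ (T : HS n) (W : HW w) : Matrix (Unit ⊕ (Fin n ⊕ Fin w)) (Unit ⊕ (Fin n ⊕ Fin w)) ℚ :=
  b3 (-T.Q⁻¹) W.E⁻¹

theorem sum3 {M : Type} [AddCommMonoid M] (f : Unit ⊕ (Fin n ⊕ Fin w) → M) :
    ∑ x, f x = f (Sum.inl ()) + (∑ a, f (Sum.inr (Sum.inl a)) + ∑ b, f (Sum.inr (Sum.inr b))) := by
  rw [Fintype.sum_sum_type, Fintype.sum_sum_type]
  simp

/-- the contraction of one pair -/
theorem AA_contr1 (h : IsSys T W 𝒜) {κ : Type} [Fintype κ] [DecidableEq κ]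
    {a : (κ ⊕ (Unit ⊕ Unit) → Unit ⊕ (Fin n ⊕ Fin w)) → ℚ} (ha : a ∈ AA 𝒜 (κ ⊕ (Unit ⊕ Unit))) :
    contr (gQ T W) a ∈ AA 𝒜 κ := by
  classical
  intro S
  -- the three parts
  let e0 : {k : κ ⊕ (Unit ⊕ Unit) // Sum.elim S (fun _ => False) k} ≃ {k // S k} :=
    { toFun := fun x => match x with
        | ⟨Sum.inl k, hk⟩ => ⟨k, hk⟩
        | ⟨Sum.inr _, hk⟩ => False.elim hk
      invFun := fun x => ⟨Sum.inl x.1, x.2⟩
      left_inv := by
        rintro ⟨k | k, hk⟩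
        · rfl
        · exact False.elim hk
      right_inv := fun x => rfl }
  let e1 : {k : κ ⊕ (Unit ⊕ Unit) // Sum.elim S (fun _ => True) k} ≃ {k // S k} ⊕ Fin 2 :=
    { toFun := fun x => match x with
        | ⟨Sum.inl k, hk⟩ => Sum.inl ⟨k, hk⟩
        | ⟨Sum.inr (Sum.inl _), _⟩ => Sum.inr 0
        | ⟨Sum.inr (Sum.inr _), _⟩ => Sum.inr 1
      invFun := Sum.elim (fun x => ⟨Sum.inl x.1, x.2⟩)
        (fun i => if i = 0 then ⟨Sum.inr (Sum.inl ()), trivial⟩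
          else ⟨Sum.inr (Sum.inr ()), trivial⟩)
      left_inv := by
        rintro ⟨k | k | k, hk⟩
        · rfl
        · rfl
        · rfl
      right_inv := by
        rintro (x | i)
        · rfl
        · fin_cases i <;> rfl }
  have p0 := h.rei _ _ e0 _ (ha (Sum.elim S fun _ => False))
  have p1 := h.rei _ _ e1 _ (ha (Sum.elim S fun _ => True))
  have p2 := h.ctrT _ _ p1
  have p3 := h.ctrA _ _ p1
  have p4 := Submodule.add_mem _ p0 (Submodule.add_mem _ (Submodule.neg_mem _ p2) p3)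
  convert p4 using 1
  funext J
  have k1 : ∀ (x y : Unit ⊕ (Fin n ⊕ Fin w)) (i : κ → Unit ⊕ (Fin n ⊕ Fin w)),
      kp Unit (gQ T W) (fun _ => x) (fun _ => y) = gQ T W x y := by
    intro x y i
    rw [kp_apply]
    simp
  obtain ⟨i, hi⟩ : ∃ i : κ → Unit ⊕ (Fin n ⊕ Fin w),
    i = fun k => if h : S k then Sum.inr (J ⟨k, h⟩) else Sum.inl () := ⟨_, rfl⟩
  have k2 : cmp (contr (gQ T W) a) S J = ∑ x, ∑ y, gQ T W x y *
      a (Sum.elim i (Sum.elim (fun _ => x) fun _ => y)) := by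
    rw [cmp, ← hi, contr, ← Equiv.sum_comp (Equiv.funUnique Unit _).symm]
    refine Finset.sum_congr rfl fun x _ => ?_
    rw [← Equiv.sum_comp (Equiv.funUnique Unit _).symm]
    refine Finset.sum_congr rfl fun y _ => ?_
    rw [← k1 x y i]
    rfl
  rw [k2]
  simp only [Pi.add_apply, Pi.neg_apply]
  have q0 : cmp a (Sum.elim S fun _ => False) (fun k => J (e0 k)) =
      a (Sum.elim i (Sum.elim (fun _ => Sum.inl ()) fun _ => Sum.inl ())) := by
    rw [cmp]
    congr 1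
    funext k
    rcases k with k | k | k
    · rw [hi]
      simp only [Sum.elim_inl]
      by_cases hk : S k
      · rw [dif_pos hk, dif_pos hk]
        rfl
      · rw [dif_neg hk, dif_neg hk]
    · simp
    · simp
  have q1 : ∀ x y : Fin n ⊕ Fin w, cmp a (Sum.elim S fun _ => True)
      (fun k => (Sum.elim J ![x, y] : {k // S k} ⊕ Fin 2 → Fin n ⊕ Fin w) (e1 k)) =
      a (Sum.elim i (Sum.elim (fun _ => Sum.inr x) fun _ => Sum.inr y)) := by
    intro x y
    rw [cmp]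
    congr 1
    funext k
    rcases k with k | k | k
    · rw [hi]
      simp only [Sum.elim_inl]
      by_cases hk : S k
      · rw [dif_pos hk, dif_pos hk]
        rfl
      · rw [dif_neg hk, dif_neg hk]
    · simp only [Sum.elim_inr, Sum.elim_inl]
      rw [dif_pos trivial]
      rfl
    · simp only [Sum.elim_inr]
      rw [dif_pos trivial]
      rfl
  rw [q0]
  simp only [q1]
  have g1 : ∀ x : Fin n ⊕ Fin w, gQ T W (Sum.inl ()) (Sum.inr x) = 0 := fun x => rfl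
  have g2 : ∀ x : Fin n ⊕ Fin w, gQ T W (Sum.inr x) (Sum.inl ()) = 0 := fun x => rfl
  have g3 : gQ T W (Sum.inl ()) (Sum.inl ()) = 1 := rfl
  have g4 : ∀ x y, gQ T W (Sum.inr (Sum.inl x)) (Sum.inr (Sum.inl y)) = -T.Q⁻¹ x y :=
    fun x y => rfl
  have g5 : ∀ x y, gQ T W (Sum.inr (Sum.inr x)) (Sum.inr (Sum.inr y)) = W.E⁻¹ x y :=
    fun x y => rfl
  have g6 : ∀ x y, gQ T W (Sum.inr (Sum.inl x)) (Sum.inr (Sum.inr y)) = 0 := fun x y => rfl
  have g7 : ∀ x y, gQ T W (Sum.inr (Sum.inr x)) (Sum.inr (Sum.inl y)) = 0 := fun x y => rfl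
  simp only [sum3, g1, g2, g3, g4, g5, g6, g7, zero_mul, Finset.sum_const_zero, add_zero,
    zero_add, one_mul, neg_mul, Finset.sum_neg_distrib]

theorem AA_contr (h : IsSys T W 𝒜) {l : Type} [Fintype l] [DecidableEq l] : ∀ {κ : Type}
    [Fintype κ] [DecidableEq κ] {a : (κ ⊕ (l ⊕ l) → Unit ⊕ (Fin n ⊕ Fin w)) → ℚ},
    a ∈ AA 𝒜 (κ ⊕ (l ⊕ l)) → contr (gQ T W) a ∈ AA 𝒜 κ := by
  refine fin_ind (P := fun l _ _ => ∀ {κ : Type} [Fintype κ] [DecidableEq κ]
    {a : (κ ⊕ (l ⊕ l) → Unit ⊕ (Fin n ⊕ Fin w)) → ℚ}, a ∈ AA 𝒜 (κ ⊕ (l ⊕ l)) →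
      contr (gQ T W) a ∈ AA 𝒜 κ) ?_ ?_ ?_ l
  · intro l l' _ _ _ _ e ih κ _ _ a ha
    have h1 := ih (AA_rei h (Equiv.sumCongr (Equiv.refl κ) (Equiv.sumCongr e.symm e.symm)) ha)
    convert h1 using 1
    ext i
    rw [contr, contr, ← Equiv.sum_comp (e.arrowCongr (Equiv.refl (Unit ⊕ (Fin n ⊕ Fin w))))]
    refine Finset.sum_congr rfl fun x _ => ?_
    rw [← Equiv.sum_comp (e.arrowCongr (Equiv.refl (Unit ⊕ (Fin n ⊕ Fin w))))]
    refine Finset.sum_congr rfl fun y _ => ?_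
    have h1 : ∀ x : l → Unit ⊕ (Fin n ⊕ Fin w),
        (e.arrowCongr (Equiv.refl (Unit ⊕ (Fin n ⊕ Fin w)))) x = x ∘ e.symm := by
      intro x; ext; simp [Equiv.arrowCongr]
    rw [h1, h1, kp_reindex e.symm, rei]
    congr 2
    ext z
    rcases z with z | z | z <;> rfl
  · intro κ _ _ a ha
    have h1 := AA_rei h (Equiv.sumEmpty κ (Fin 0 ⊕ Fin 0)) ha
    convert h1 using 1
    ext i
    rw [contr, Fintype.sum_unique, Fintype.sum_unique, kp_apply, Fintype.prod_empty, one_mul,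
      rei]
    congr 1
    ext z
    rcases z with z | z | z
    · rfl
    · exact z.elim0
    · exact z.elim0
  · intro l _ _ ih κ _ _ a ha
    let e : κ ⊕ ((l ⊕ Unit) ⊕ (l ⊕ Unit)) ≃ (κ ⊕ (l ⊕ l)) ⊕ (Unit ⊕ Unit) :=
      { toFun := Sum.elim (fun k => Sum.inl (Sum.inl k)) (Sum.elim
          (Sum.elim (fun k => Sum.inl (Sum.inr (Sum.inl k))) fun k => Sum.inr (Sum.inl k))
          (Sum.elim (fun k => Sum.inl (Sum.inr (Sum.inr k))) fun k => Sum.inr (Sum.inr k)))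
        invFun := Sum.elim (Sum.elim (fun k => Sum.inl k) (Sum.elim
          (fun k => Sum.inr (Sum.inl (Sum.inl k))) fun k => Sum.inr (Sum.inr (Sum.inl k))))
          (Sum.elim (fun k => Sum.inr (Sum.inl (Sum.inr k)))
            fun k => Sum.inr (Sum.inr (Sum.inr k)))
        left_inv := by rintro (k | (k | k) | (k | k)) <;> rfl
        right_inv := by rintro ((k | k | k) | (k | k)) <;> rfl }
    have h1 := ih (AA_contr1 h (AA_rei h e ha))
    convert h1 using 1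
    ext i
    rw [contr, contr, N996.BP.sum_sumElim]
    refine Finset.sum_congr rfl fun x _ => ?_
    have h2 : ∀ x' : Unit → Unit ⊕ (Fin n ⊕ Fin w), ∑ j' : l ⊕ Unit → Unit ⊕ (Fin n ⊕ Fin w),
        kp (l ⊕ Unit) (gQ T W) (Sum.elim x x') j' *
        a (Sum.elim i (Sum.elim (Sum.elim x x') j')) =
        ∑ y : l → Unit ⊕ (Fin n ⊕ Fin w), ∑ y' : Unit → Unit ⊕ (Fin n ⊕ Fin w),
          kp l (gQ T W) x y * (kp Unit (gQ T W) x' y' *
          a (Sum.elim i (Sum.elim (Sum.elim x x') (Sum.elim y y')))) := by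
      intro x'
      rw [N996.BP.sum_sumElim]
      refine Finset.sum_congr rfl fun y _ => Finset.sum_congr rfl fun y' _ => ?_
      rw [kp_sum, mul_assoc]
    rw [Finset.sum_congr rfl fun x' _ => h2 x', Finset.sum_comm]
    refine Finset.sum_congr rfl fun y _ => ?_
    rw [contr, Finset.mul_sum]
    refine Finset.sum_congr rfl fun x' _ => ?_
    rw [Finset.mul_sum]
    refine Finset.sum_congr rfl fun y' _ => ?_
    congr 2
    rw [rei]
    congr 1
    ext z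
    rcases z with z | (z | z) | (z | z) <;> rfl

theorem A_empty (h : IsSys T W 𝒜) {κ : Type} [Fintype κ] [IsEmpty κ] (t : (κ → Fin n ⊕ Fin w) → ℚ) :
    t ∈ 𝒜 κ := by
  have h1 := h.rei _ κ (Equiv.equivOfIsEmpty (Fin 0) κ) _ h.one
  have h2 : t = t (fun k => isEmptyElim k) • fun _ => 1 := by
    funext J
    rw [Pi.smul_apply, smul_eq_mul, mul_one]
    congr 1
    funext k
    exact isEmptyElim k
  rw [h2]
  exact Submodule.smul_mem _ _ h1

theorem AA_empty (h : IsSys T W 𝒜) {κ : Type} [Fintype κ] [IsEmpty κ]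
    (a : (κ → Unit ⊕ (Fin n ⊕ Fin w)) → ℚ) : a ∈ AA 𝒜 κ := by
  classical
  intro S
  exact A_empty h _

theorem AA_uni (h : IsSys T W 𝒜) (κ : Type) [Fintype κ] [DecidableEq κ] :
    uni ℚ (Sum.inl ()) κ ∈ AA 𝒜 κ := by
  classical
  refine fin_ind (P := fun κ _ _ => uni ℚ (Sum.inl ()) κ ∈ AA 𝒜 κ) ?_ ?_ ?_ κ
  · intro κ l _ _ _ _ e ih
    have h1 := AA_rei h e ih
    convert h1 using 1
    ext i
    rw [uni, rei, uni]
    exact (Equiv.prod_comp e fun k => if i k = Sum.inl () then (1 : ℚ) else 0).symm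
  · exact AA_empty h _
  · intro κ _ _ ih
    have h1 : uni ℚ (Sum.inl ()) Unit ∈ AA 𝒜 Unit := by
      intro S
      by_cases hS : S ()
      · have h2 : cmp (uni ℚ (Sum.inl () : Unit ⊕ (Fin n ⊕ Fin w)) Unit) S = 0 := by
          funext J
          simp [cmp, uni, hS]
        rw [h2]
        exact Submodule.zero_mem _
      · have : IsEmpty {k // S k} := ⟨fun k => hS k.2⟩
        exact A_empty h _
    have h3 := AA_tens h ih h1
    convert h3 using 1
    ext i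
    rw [uni, Fintype.prod_sum_type]
    rfl

/-- the inverse form -/
def gQi (T : HS n) (W : HW w) : Matrix (Unit ⊕ (Fin n ⊕ Fin w)) (Unit ⊕ (Fin n ⊕ Fin w)) ℚ :=
  b3 (-T.Q) W.E

theorem bf_mem (h : IsSys T W 𝒜) : bf (fromBlocks (-T.Q) 0 0 W.E) ∈ 𝒜 (Fin 2) := by
  have h1 := Submodule.add_mem _ (Submodule.neg_mem _ h.polT) h.polA
  convert h1 using 1
  funext J
  simp only [bf, Pi.add_apply, Pi.neg_apply]
  rcases J 0 with a | a <;> rcases J 1 with b | b <;> simp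

theorem AA_inv (h : IsSys T W 𝒜) (κ : Type) [Fintype κ] [DecidableEq κ] :
    arr (kp κ (gQi T W)) ∈ AA 𝒜 (κ ⊕ κ) := by
  classical
  refine fin_ind (P := fun κ _ _ => arr (kp κ (gQi T W)) ∈ AA 𝒜 (κ ⊕ κ)) ?_ ?_ ?_ κ
  · intro κ l _ _ _ _ e ih
    have h1 := AA_rei h (Equiv.sumCongr e e) ih
    convert h1 using 1
    ext i
    rw [arr, rei, arr, ← kp_reindex e]
    rfl
  · exact AA_empty h _
  · intro κ _ _ ih
    have h1 : arr (kp Unit (gQi T W)) ∈ AA 𝒜 (Unit ⊕ Unit) := by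
      intro S
      have hv : ∀ J : {k // S k} → Fin n ⊕ Fin w, cmp (arr (kp Unit (gQi T W))) S J =
          gQi T W (if h : S (Sum.inl ()) then Sum.inr (J ⟨Sum.inl (), h⟩) else Sum.inl ())
            (if h : S (Sum.inr ()) then Sum.inr (J ⟨Sum.inr (), h⟩) else Sum.inl ()) := by
        intro J
        simp [cmp, arr, kp_apply]
      by_cases h1 : S (Sum.inl ()) <;> by_cases h2 : S (Sum.inr ())
      · let e : Fin 2 ≃ {k // S k} :=
          { toFun := fun i => if i = 0 then ⟨Sum.inl (), h1⟩ else ⟨Sum.inr (), h2⟩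
            invFun := fun k => match k with
              | ⟨Sum.inl _, _⟩ => 0
              | ⟨Sum.inr _, _⟩ => 1
            left_inv := by intro i; fin_cases i <;> rfl
            right_inv := by rintro ⟨k | k, hk⟩ <;> rfl }
        have h3 := h.rei _ _ e _ (bf_mem h)
        convert h3 using 1
        funext J
        rw [hv, dif_pos h1, dif_pos h2]
        rfl
      · have h3 : cmp (arr (kp Unit (gQi T W))) S = 0 := by
          funext J
          rw [hv, dif_pos h1, dif_neg h2]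
          rfl
        rw [h3]
        exact Submodule.zero_mem _
      · have h3 : cmp (arr (kp Unit (gQi T W))) S = 0 := by
          funext J
          rw [hv, dif_neg h1, dif_pos h2]
          rfl
        rw [h3]
        exact Submodule.zero_mem _
      · have : IsEmpty {k // S k} := ⟨fun k => by
          rcases k with ⟨k | k, hk⟩
          · exact h1 hk
          · exact h2 hk⟩
        exact A_empty h _
    let e : (κ ⊕ κ) ⊕ (Unit ⊕ Unit) ≃ (κ ⊕ Unit) ⊕ (κ ⊕ Unit) :=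
      { toFun := Sum.elim (Sum.elim (fun k => Sum.inl (Sum.inl k)) fun k => Sum.inr (Sum.inl k))
          (Sum.elim (fun k => Sum.inl (Sum.inr k)) fun k => Sum.inr (Sum.inr k))
        invFun := Sum.elim (Sum.elim (fun k => Sum.inl (Sum.inl k)) fun k => Sum.inr (Sum.inl k))
          (Sum.elim (fun k => Sum.inl (Sum.inr k)) fun k => Sum.inr (Sum.inr k))
        left_inv := by rintro ((k | k) | (k | k)) <;> rfl
        right_inv := by rintro ((k | k) | (k | k)) <;> rfl }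
    have h3 := AA_rei h e (AA_tens h ih h1)
    convert h3 using 1
    ext i
    obtain ⟨i₁, i₂, rfl⟩ : ∃ i₁ i₂, i = Sum.elim i₁ i₂ := ⟨i ∘ Sum.inl, i ∘ Sum.inr, by simp⟩
    rw [arr_elim]
    have h4 : i₁ = Sum.elim (i₁ ∘ Sum.inl) (i₁ ∘ Sum.inr) := by simp
    have h5 : i₂ = Sum.elim (i₂ ∘ Sum.inl) (i₂ ∘ Sum.inr) := by simp
    conv_lhs => rw [h4, h5]
    rw [kp_sum]
    rfl

end

end

end Pool.Agent.L5helper24.KM
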