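import Pool.Agent.L5helper24.KM.Odd5

/-!
# Transport of Hodge classes
-/

set_option autoImplicit false
set_option linter.unusedSectionVars false
set_option linter.unusedSimpArgs false

open Matrix Finset Module

namespace Pool.Agent.L5helper24.KM

open Pool.Agent Pool.Agent.W544.PG Pool.Agent.L5helper24.KS Pool.Agent.W216.PG.SOI

noncomputable section

section forms
variable {ι κ l : Type} [Fintype ι] [DecidableEq ι] [Fintype κ] [DecidableEq κ]
  [Fintype l] [DecidableEq l]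

theorem pl_ctr2 {P B B' : Matrix ι ι ℂ} (h : P * B * Pᵀ = B') (t : (κ ⊕ Fin 2 → ι) → ℂ) :
    pl P (ctr B' t) = ctr B (pl P t) := by
  funext J
  have h1 : ∀ a b, B' a b = ∑ c, ∑ d, P a c * B c d * P b d := by
    intro a b
    rw [← h]
    rw [Matrix.mul_apply]
    simp only [Matrix.mul_apply, Matrix.transpose_apply, Finset.sum_mul]
    rw [Finset.sum_comm]
  calc pl P (ctr B' t) J = ∑ K : κ → ι, ∑ a, ∑ b, ∑ c, ∑ d,
        (∏ k, P (K k) (J k)) * (P a c * B c d * P b d) * t (Sum.elim K ![a, b]) := by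
        rw [pl]
        refine Finset.sum_congr rfl fun K _ => ?_
        rw [ctr, Finset.mul_sum]
        refine Finset.sum_congr rfl fun a _ => ?_
        rw [Finset.mul_sum]
        refine Finset.sum_congr rfl fun b _ => ?_
        rw [h1 a b, Finset.sum_mul, Finset.mul_sum]
        refine Finset.sum_congr rfl fun c _ => ?_
        rw [Finset.sum_mul, Finset.mul_sum]
        refine Finset.sum_congr rfl fun d _ => ?_
        ring
    _ = ∑ c, ∑ d, ∑ K : κ → ι, ∑ a, ∑ b,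
        (∏ k, P (K k) (J k)) * (P a c * B c d * P b d) * t (Sum.elim K ![a, b]) := by
        have s1 : ∀ (f : (κ → ι) → ι → ι → ι → ι → ℂ),
            ∑ K, ∑ a, ∑ b, ∑ c, ∑ d, f K a b c d = ∑ c, ∑ d, ∑ K, ∑ a, ∑ b, f K a b c d := by
          intro f
          calc ∑ K, ∑ a, ∑ b, ∑ c, ∑ d, f K a b c d
              = ∑ K, ∑ a, ∑ c, ∑ b, ∑ d, f K a b c d :=
                Finset.sum_congr rfl fun K _ => Finset.sum_congr rfl fun a _ => Finset.sum_comm
            _ = ∑ K, ∑ c, ∑ a, ∑ b, ∑ d, f K a b c d :=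
                Finset.sum_congr rfl fun K _ => Finset.sum_comm
            _ = ∑ c, ∑ K, ∑ a, ∑ b, ∑ d, f K a b c d := Finset.sum_comm
            _ = ∑ c, ∑ K, ∑ a, ∑ d, ∑ b, f K a b c d :=
                Finset.sum_congr rfl fun c _ => Finset.sum_congr rfl fun K _ =>
                  Finset.sum_congr rfl fun a _ => Finset.sum_comm
            _ = ∑ c, ∑ K, ∑ d, ∑ a, ∑ b, f K a b c d :=
                Finset.sum_congr rfl fun c _ => Finset.sum_congr rfl fun K _ => Finset.sum_comm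
            _ = ∑ c, ∑ d, ∑ K, ∑ a, ∑ b, f K a b c d :=
                Finset.sum_congr rfl fun c _ => Finset.sum_comm
        exact s1 _
    _ = ctr B (pl P t) J := by
        rw [ctr]
        refine Finset.sum_congr rfl fun c _ => Finset.sum_congr rfl fun d _ => ?_
        rw [pl, Finset.mul_sum, ← Equiv.sum_comp (e2 κ ι), Fintype.sum_prod_type]
        refine Finset.sum_congr rfl fun K _ => ?_
        rw [Fintype.sum_prod_type]
        refine Finset.sum_congr rfl fun a _ => Finset.sum_congr rfl fun b _ => ?_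
        rw [Fintype.prod_sum_type, Fin.prod_univ_two]
        simp only [e2, Equiv.coe_fn_mk, Sum.elim_inl, Sum.elim_inr, Matrix.cons_val_zero,
          Matrix.cons_val_one]
        ring

end forms

variable {n w r : ℕ} {T T' : HS n} {W W' : HW w} {c : Fin n → Fin r}

theorem pl_bf2 {P : Matrix (Fin n ⊕ Fin w) (Fin n ⊕ Fin w) ℂ}
    {M M' : Matrix (Fin n ⊕ Fin w) (Fin n ⊕ Fin w) ℚ}
    (h : Pᵀ * M'.map (fun x : ℚ => (x : ℂ)) * P = M.map (fun x : ℚ => (x : ℂ))) :
    pl P (fun J => (bf M' J : ℂ)) = fun J => (bf M J : ℂ) := by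
  funext J
  have h1 := congrFun (congrFun h (J 0)) (J 1)
  rw [Matrix.map_apply] at h1
  show pl P _ J = ((M (J 0) (J 1) : ℚ) : ℂ)
  rw [← h1, pl, ← Equiv.sum_comp (finTwoArrowEquiv _).symm, Fintype.sum_prod_type,
    Matrix.mul_apply]
  simp only [bf, finTwoArrowEquiv_symm_apply, Fin.prod_univ_two, Matrix.cons_val_zero,
    Matrix.cons_val_one, Matrix.mul_apply, Matrix.transpose_apply, Matrix.map_apply,
    Finset.sum_mul]
  rw [Finset.sum_comm]
  refine Finset.sum_congr rfl fun a _ => Finset.sum_congr rfl fun b _ => ?_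
  ring

theorem orth_inv2 {m : ℕ} {a Q Q' Qi Qi' : Matrix (Fin m) (Fin m) ℂ} (h1 : Qi * Q = 1)
    (h1' : Qi' * Q' = 1) (h : aᵀ * Q' * a = Q) : a * Qi * aᵀ = Qi' := by
  have h2 : (Qi * aᵀ * Q') * a = 1 := by
    calc (Qi * aᵀ * Q') * a = Qi * (aᵀ * Q' * a) := by simp only [mul_assoc]
      _ = 1 := by rw [h, h1]
  have h3 : a * (Qi * aᵀ * Q') = 1 := mul_eq_one_comm.1 h2
  have h4 : Q' * Qi' = 1 := mul_eq_one_comm.1 h1'
  calc a * Qi * aᵀ = a * Qi * aᵀ * (Q' * Qi') := by rw [h4, mul_one]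
    _ = a * (Qi * aᵀ * Q') * Qi' := by simp only [mul_assoc]
    _ = Qi' := by rw [h3, one_mul]

/-! ### The system of the classes which can be transported -/

/-- a Hodge class which becomes a Hodge class -/
def THp (T T' : HS n) (W W' : HW w) (PP : Set (Matrix (Fin n ⊕ Fin w) (Fin n ⊕ Fin w) ℂ))
    (κ : Type) (t : (κ → Fin n ⊕ Fin w) → ℚ) : Prop :=
  ∀ (_ : Fintype κ) (_ : DecidableEq κ), IsH T W t ∧
    ∃ t' : (κ → Fin n ⊕ Fin w) → ℚ, IsH T' W' t' ∧
      ∀ P ∈ PP, pl P (fun J => (t' J : ℂ)) = fun J => (t J : ℂ)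

theorem isH_add {κ : Type} [Fintype κ] [DecidableEq κ] {t u : (κ → Fin n ⊕ Fin w) → ℚ}
    (h1 : IsH T W t) (h3 : IsH T W u) : IsH T W (t + u) := by
  have e1 : (fun J => (((t + u) J : ℚ) : ℂ)) = (fun J => (t J : ℂ)) + fun J => (u J : ℂ) := by
    funext J; simp
  rw [IsH, e1]
  have h5 : der (hop T W) ((fun J => (t J : ℂ)) + fun J => (u J : ℂ)) =
      der (hop T W) (fun J => (t J : ℂ)) + der (hop T W) (fun J => (u J : ℂ)) := by
    funext J
    simp [der, mul_add, Finset.sum_add_distrib]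
  rw [h5, h1, h3, add_zero]

theorem isH_smul {κ : Type} [Fintype κ] [DecidableEq κ] {t : (κ → Fin n ⊕ Fin w) → ℚ} (z : ℚ)
    (h1 : IsH T W t) : IsH T W (z • t) := by
  have e1 : (fun J => (((z • t) J : ℚ) : ℂ)) = (z : ℂ) • fun J => (t J : ℂ) := by
    funext J; simp
  rw [IsH, e1]
  have h5 : der (hop T W) ((z : ℂ) • fun J => (t J : ℂ)) =
      (z : ℂ) • der (hop T W) (fun J => (t J : ℂ)) := by
    funext J
    simp only [der, Pi.smul_apply, smul_eq_mul, Finset.mul_sum]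
    refine Finset.sum_congr rfl fun k _ => Finset.sum_congr rfl fun x _ => ?_
    ring
  rw [h5, h1, smul_zero]

/-- the Hodge classes which become Hodge classes -/
def TH (T T' : HS n) (W W' : HW w) (PP : Set (Matrix (Fin n ⊕ Fin w) (Fin n ⊕ Fin w) ℂ))
    (κ : Type) : Submodule ℚ ((κ → Fin n ⊕ Fin w) → ℚ) where
  carrier := {t | THp T T' W W' PP κ t}
  add_mem' := by
    intro t u ht hu _ _
    obtain ⟨h1, t', h2, h2'⟩ := ht _ _
    obtain ⟨h3, u', h4, h4'⟩ := hu _ _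
    refine ⟨isH_add h1 h3, t' + u', isH_add h2 h4, fun P hP => ?_⟩
    have e1 : (fun J => (((t + u) J : ℚ) : ℂ)) = (fun J => (t J : ℂ)) + fun J => (u J : ℂ) := by
      funext J; simp
    have e2 : (fun J => (((t' + u') J : ℚ) : ℂ)) = (fun J => (t' J : ℂ)) + fun J => (u' J : ℂ) := by
      funext J; simp
    rw [e1, e2]
    have h5 : pl P ((fun J => (t' J : ℂ)) + fun J => (u' J : ℂ)) =
        pl P (fun J => (t' J : ℂ)) + pl P (fun J => (u' J : ℂ)) := by
      funext J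
      simp [pl, mul_add, Finset.sum_add_distrib]
    rw [h5, h2' P hP, h4' P hP]
  zero_mem' := by
    intro _ _
    refine ⟨isH_zero, 0, isH_zero, fun P _ => ?_⟩
    funext J
    simp [pl]
  smul_mem' := by
    intro z t ht _ _
    obtain ⟨h1, t', h2, h2'⟩ := ht _ _
    refine ⟨isH_smul z h1, z • t', isH_smul z h2, fun P hP => ?_⟩
    have e1 : (fun J => (((z • t) J : ℚ) : ℂ)) = (z : ℂ) • fun J => (t J : ℂ) := by
      funext J; simp
    have e2 : (fun J => (((z • t') J : ℚ) : ℂ)) = (z : ℂ) • fun J => (t' J : ℂ) := by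
      funext J; simp
    rw [e1, e2]
    have h5 : pl P ((z : ℂ) • fun J => (t' J : ℂ)) = (z : ℂ) • pl P (fun J => (t' J : ℂ)) := by
      funext J
      simp only [pl, Pi.smul_apply, smul_eq_mul, Finset.mul_sum]
      refine Finset.sum_congr rfl fun K _ => ?_
      ring
    rw [h5, h2' P hP]

theorem mem_TH {PP : Set (Matrix (Fin n ⊕ Fin w) (Fin n ⊕ Fin w) ℂ)} {κ : Type} [i1 : Fintype κ]
    [i2 : DecidableEq κ] {t : (κ → Fin n ⊕ Fin w) → ℚ} : t ∈ TH T T' W W' PP κ ↔ IsH T W t ∧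
      ∃ t' : (κ → Fin n ⊕ Fin w) → ℚ, IsH T' W' t' ∧
        ∀ P ∈ PP, pl P (fun J => (t' J : ℂ)) = fun J => (t J : ℂ) := by
  constructor
  · intro h
    exact h i1 i2
  · intro h i3 i4
    have e1 : i1 = i3 := Subsingleton.elim _ _
    have e2 : i2 = i4 := Subsingleton.elim _ _
    subst e1
    subst e2
    exact h

/-- the transported classes form a system -/
theorem TH_sys {PP : Set (Matrix (Fin n ⊕ Fin w) (Fin n ⊕ Fin w) ℂ)}
    (h : ∀ P ∈ PP, ∃ a d, P = fromBlocks a 0 0 d ∧ aᵀ * mC T'.Q * a = mC T.Q)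
    {M : Matrix (Fin w) (Fin w) ℚ} (hM1 : W'.yᵀ * mC M + mC M * W'.y = 0)
    (hM2 : ∀ P ∈ PP, P.toBlocks₂₂ᵀ * mC M * P.toBlocks₂₂ = mC W.E) (hne : PP.Nonempty) :
    IsSys T W (TH T T' W W' PP) := by
  have hMi : mC M⁻¹ * mC M = 1 := by
    obtain ⟨P, hP⟩ := hne
    have h1 := congrArg Matrix.det (hM2 P hP)
    rw [Matrix.det_mul, Matrix.det_mul] at h1
    have h2 : (mC W.E).det ≠ 0 := by
      intro h0
      have h3 := congrArg Matrix.det (EE (W := W))
      rw [Matrix.det_mul, h0, mul_zero, Matrix.det_one] at h3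
      exact zero_ne_one h3
    have h3 : (mC M).det ≠ 0 := by
      intro h0
      apply h2
      rw [← h1, h0, mul_zero, zero_mul]
    have h4 : IsUnit M.det := by
      rw [isUnit_iff_ne_zero]
      intro h0
      apply h3
      rw [det_mC, h0, Rat.cast_zero]
    rw [← mC_mul, Matrix.nonsing_inv_mul _ h4, mC1]
  have hbl : ∀ {a : Matrix (Fin n) (Fin n) ℂ} {d : Matrix (Fin w) (Fin w) ℂ},
      fromBlocks a 0 0 d ∈ PP → dᵀ * mC M * d = mC W.E := by
    intro a d h1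
    have h2 := hM2 _ h1
    rw [Matrix.toBlocks_fromBlocks₂₂] at h2
    exact h2
  refine ⟨fun κ _ _ t ht => (mem_TH.1 ht).1, ?_, ?_, ?_, ?_, ?_, ?_, ?_⟩
  · intro κ l _ _ e t ht
    classical
    obtain ⟨h1, t', h2, h3⟩ := mem_TH.1 ht
    refine mem_TH.2 ⟨isH_rei h1 e, _, isH_rei h2 e, fun P hP => ?_⟩
    rw [pl_rei P e (fun J => (t' J : ℂ)), h3 P hP]
  · exact mem_TH.2 ⟨isH_one 1, _, isH_one 1, fun P _ => pl_empty P _⟩
  · intro κ l _ _ t u ht hu
    classical
    obtain ⟨h1, t', h2, h3⟩ := mem_TH.1 ht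
    obtain ⟨h4, u', h5, h6⟩ := mem_TH.1 hu
    refine mem_TH.2 ⟨isH_ten h1 h4, _, isH_ten h2 h5, fun P hP => ?_⟩
    have e1 := cast_ten t u
    simp only [ten] at e1
    rw [e1, cast_ten]
    have e2 := pl_ten P (fun J => (t' J : ℂ)) (fun J => (u' J : ℂ))
    rw [h3 P hP, h6 P hP] at e2
    exact e2
  · intro κ _ t ht
    classical
    obtain ⟨h1, t', h2, h3⟩ := mem_TH.1 ht
    have e0 : (fun J : κ → Fin n ⊕ Fin w => ∑ a, ∑ b, T.Q⁻¹ a b *
        t (Sum.elim J ![Sum.inl a, Sum.inl b])) = ctr (fromBlocks T.Q⁻¹ 0 0 0) t := by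
      funext J
      simp [ctr, Fintype.sum_sum_type]
    rw [e0]
    refine mem_TH.2 ⟨isH_ctrT h1, ctr (fromBlocks T'.Q⁻¹ 0 0 0) t', isH_ctrT h2, fun P hP => ?_⟩
    obtain ⟨a, d, rfl, ha⟩ := h P hP
    rw [cast_ctr, cast_ctr]
    rw [pl_ctr2 (B := (fromBlocks T.Q⁻¹ 0 0 0 :
      Matrix (Fin n ⊕ Fin w) (Fin n ⊕ Fin w) ℚ).map fun x : ℚ => (x : ℂ)), h3 _ hP]
    rw [map_fb, map_fb, mC_zero, Matrix.fromBlocks_transpose, Matrix.fromBlocks_multiply,
      Matrix.fromBlocks_multiply]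
    simp only [Matrix.mul_zero, Matrix.zero_mul, add_zero, Matrix.transpose_zero]
    rw [orth_inv2 QQ QQ ha]
  · intro κ _ t ht
    classical
    obtain ⟨h1, t', h2, h3⟩ := mem_TH.1 ht
    have e0 : (fun J : κ → Fin n ⊕ Fin w => ∑ a, ∑ b, W.E⁻¹ a b *
        t (Sum.elim J ![Sum.inr a, Sum.inr b])) = ctr (fromBlocks 0 0 0 W.E⁻¹) t := by
      funext J
      simp [ctr, Fintype.sum_sum_type]
    rw [e0]
    refine mem_TH.2 ⟨isH_ctrA h1, ctr (fromBlocks 0 0 0 M⁻¹) t', ?_, fun P hP => ?_⟩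
    · rw [IsH, cast_ctr, der_ctr, h2]
      · funext J
        simp [ctr]
      · rw [map_fb, mC_zero, hop, Matrix.fromBlocks_transpose, Matrix.fromBlocks_multiply,
          Matrix.fromBlocks_multiply, Matrix.fromBlocks_add]
        simp only [Matrix.mul_zero, Matrix.zero_mul, add_zero, zero_add, Matrix.transpose_zero]
        rw [skew_inv hMi hM1, Matrix.fromBlocks_zero]
    · obtain ⟨a, d, rfl, ha⟩ := h P hP
      rw [cast_ctr, cast_ctr]
      rw [pl_ctr2 (B := (fromBlocks 0 0 0 W.E⁻¹ :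
        Matrix (Fin n ⊕ Fin w) (Fin n ⊕ Fin w) ℚ).map fun x : ℚ => (x : ℂ)), h3 _ hP]
      rw [map_fb, map_fb, mC_zero, Matrix.fromBlocks_transpose, Matrix.fromBlocks_multiply,
        Matrix.fromBlocks_multiply]
      simp only [Matrix.mul_zero, Matrix.zero_mul, add_zero, zero_add, Matrix.transpose_zero]
      rw [orth_inv2 EE hMi (hbl hP)]
  · refine mem_TH.2 ⟨isH_bfT T.skew, _, isH_bfT (T := T') (W := W') T'.skew, fun P hP => ?_⟩
    obtain ⟨a, d, rfl, ha⟩ := h P hP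
    apply pl_bf2
    rw [map_fb, map_fb, mC_zero, Matrix.fromBlocks_transpose, Matrix.fromBlocks_multiply,
      Matrix.fromBlocks_multiply]
    simp only [Matrix.mul_zero, Matrix.zero_mul, add_zero, Matrix.transpose_zero]
    rw [ha]
  · refine mem_TH.2 ⟨isH_bfA W.skew, _, isH_bfA (T := T') (W := W') hM1, fun P hP => ?_⟩
    obtain ⟨a, d, rfl, ha⟩ := h P hP
    apply pl_bf2
    rw [map_fb, map_fb, mC_zero, Matrix.fromBlocks_transpose, Matrix.fromBlocks_multiply,
      Matrix.fromBlocks_multiply]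
    simp only [Matrix.mul_zero, Matrix.zero_mul, add_zero, zero_add, Matrix.transpose_zero]
    rw [hbl hP]

/-- the polarisations of the pieces can be transported -/
theorem TH_pol {PP : Set (Matrix (Fin n ⊕ Fin w) (Fin n ⊕ Fin w) ℂ)}
    (bQ : BD c T.Q) (bQ' : BD c T'.Q) (bx : BD c T.x) (bx' : BD c T'.x)
    (h : ∀ P ∈ PP, ∃ a d, P = fromBlocks a 0 0 d ∧ BD c a ∧ aᵀ * mC T'.Q * a = mC T.Q)
    (i : Fin r) : bf (fromBlocks (Qb T c i) 0 0 0) ∈ TH T T' W W' PP (Fin 2) := by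
  have hcm : ∀ {a : Matrix (Fin n) (Fin n) ℂ}, BD c a → a * pic c i = pic c i * a := by
    intro a ha
    ext x y
    rw [pic, Matrix.mul_diagonal, Matrix.diagonal_mul]
    by_cases hxy : c x = c y
    · rw [hxy, mul_comm]
    · rw [ha x y hxy, zero_mul, mul_zero]
  have hsk : ∀ {S : HS n}, BD c S.Q → BD c S.x →
      S.xᵀ * mC (Qb S c i) + mC (Qb S c i) * S.x = 0 := by
    intro S b1 b2
    rw [mC_Qb b1, ← Matrix.mul_assoc, Matrix.mul_assoc (mC S.Q), ← hcm b2, ← Matrix.mul_assoc,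
      ← add_mul, S.skew, zero_mul]
  refine mem_TH.2 ⟨isH_bfT (hsk bQ bx), _, isH_bfT (T := T') (W := W') (hsk bQ' bx'),
    fun P hP => ?_⟩
  obtain ⟨a, d, rfl, hb, ha⟩ := h P hP
  apply pl_bf2
  rw [map_fb, map_fb, mC_zero, Matrix.fromBlocks_transpose, Matrix.fromBlocks_multiply,
    Matrix.fromBlocks_multiply]
  simp only [Matrix.mul_zero, Matrix.zero_mul, add_zero, Matrix.transpose_zero]
  congr 1
  rw [mC_Qb bQ', mC_Qb bQ, ← Matrix.mul_assoc, Matrix.mul_assoc _ (pic c i) a, ← hcm hb,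
    ← Matrix.mul_assoc, ha]

end

end Pool.Agent.L5helper24.KM
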