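import Pool.Agent.L5helper24.KM.Trans
import Pool.Agent.W435.PG.SQR

/-!
# Transport of Hodge classes, II: the determinant
-/

set_option autoImplicit false
set_option linter.unusedSectionVars false
set_option linter.unusedSimpArgs false

open Matrix Finset Module

namespace Pool.Agent.L5helper24.KM

open Pool.Agent Pool.Agent.W544.PG Pool.Agent.L5helper24.KS Pool.Agent.W216.PG.SOI

noncomputable section

/-- the sum of the determinants where one row is replaced -/
theorem sum_det_row {k : ℕ} (M V : Matrix (Fin k) (Fin k) ℂ) :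
    ∑ i, (M.updateRow i (V i)).det = (V * M.adjugate).trace := by
  rw [Matrix.trace]
  refine Finset.sum_congr rfl fun i _ => ?_
  rw [← Matrix.cramer_transpose_apply, Matrix.cramer_eq_adjugate_mulVec, ← Matrix.adjugate_transpose,
    Matrix.mulVec, dotProduct, Matrix.diag_apply, Matrix.mul_apply]
  refine Finset.sum_congr rfl fun j _ => ?_
  rw [Matrix.transpose_apply, mul_comm]

variable {n w r : ℕ} {T T' : HS n} {W W' : HW w} {c : Fin n → Fin r} {i : Fin r}

/-- the matrix of the determinant form -/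
def md {k : ℕ} {w : ℕ} (e : Fin k → Fin n) (J : Fin k → Fin n ⊕ Fin w) :
    Matrix (Fin k) (Fin k) ℂ :=
  Matrix.of fun l m : Fin k => if J l = Sum.inl (e m) then (1 : ℂ) else 0

theorem dt_cast {k : ℕ} (e : Fin k → Fin n) (J : Fin k → Fin n ⊕ Fin w) :
    (dt w e J : ℂ) = (md e J).det := by
  rw [dt, ← Rat.coe_castHom, RingHom.map_det]
  congr 1
  ext l m
  simp only [RingHom.mapMatrix_apply, Matrix.map_apply, Matrix.of_apply, md]
  split_ifs <;> simp

/-- the columns of a block matrix with respect to the determinant form -/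
theorem md_mul {k : ℕ} {e : Fin k → Fin n} (he : Enum c e i) {a : Matrix (Fin n) (Fin n) ℂ}
    (ha : BD c a) (h : Matrix (Fin w) (Fin w) ℂ) (J : Fin k → Fin n ⊕ Fin w) (l m : Fin k) :
    (fromBlocks a 0 0 h : Matrix (Fin n ⊕ Fin w) (Fin n ⊕ Fin w) ℂ) (Sum.inl (e m)) (J l) =
      (md e J * (a.submatrix e e)ᵀ) l m := by
  rw [Matrix.mul_apply]
  simp only [md, Matrix.of_apply, Matrix.transpose_apply, Matrix.submatrix_apply]
  rcases hJ : J l with x | x
  · rw [Matrix.fromBlocks_apply₁₁]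
    by_cases hx : c x = i
    · obtain ⟨j, rfl⟩ := he.surj x hx
      rw [Finset.sum_eq_single j]
      · rw [if_pos rfl, one_mul]
      · intro j' _ hj'
        rw [if_neg (fun h' => hj' (he.inj (Sum.inl_injective h')).symm), zero_mul]
      · intro h'
        exact absurd (Finset.mem_univ _) h'
    · rw [ha _ _ (by rw [he.col]; exact fun h' => hx h'.symm), Finset.sum_eq_zero]
      intro j _
      rw [if_neg, zero_mul]
      intro h'
      apply hx
      rw [Sum.inl_injective h']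
      exact he.col j
  · rw [Matrix.fromBlocks_apply₁₂, Matrix.zero_apply, Finset.sum_eq_zero]
    intro j _
    rw [if_neg (by simp), zero_mul]

/-- the determinant form under a block matrix -/
theorem pl_dt2 {k : ℕ} {e : Fin k → Fin n} (he : Enum c e i) {a : Matrix (Fin n) (Fin n) ℂ}
    (ha : BD c a) (h : Matrix (Fin w) (Fin w) ℂ) :
    pl (fromBlocks a 0 0 h) (fun J => (dt w e J : ℂ)) =
      (a.submatrix e e).det • fun J => (dt w e J : ℂ) := by
  funext J
  rw [Pi.smul_apply, smul_eq_mul, dt_cast, mul_comm, ← Matrix.det_transpose (a.submatrix e e),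
    ← Matrix.det_mul, pl]
  have h4 : ∀ K : Fin k → Fin n ⊕ Fin w, (dt w e K : ℂ) = ∑ σ : Equiv.Perm (Fin k),
      ((Equiv.Perm.sign σ : ℤ) : ℂ) * ∏ l, (if K l = Sum.inl (e (σ l)) then (1 : ℂ) else 0) := by
    intro K
    rw [dt_cast, ← Matrix.det_transpose, Matrix.det_apply']
    rfl
  simp only [h4, Finset.mul_sum]
  rw [Finset.sum_comm, ← Matrix.det_transpose, Matrix.det_apply']
  refine Finset.sum_congr rfl fun σ _ => ?_
  have h5 : ∏ l, (md e J * (a.submatrix e e)ᵀ)ᵀ (σ l) l = ∏ l, ∑ x : Fin n ⊕ Fin w,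
      (fromBlocks a 0 0 h : Matrix (Fin n ⊕ Fin w) (Fin n ⊕ Fin w) ℂ) x (J l) *
        (if x = Sum.inl (e (σ l)) then (1 : ℂ) else 0) := by
    refine Finset.prod_congr rfl fun l _ => ?_
    rw [Matrix.transpose_apply, ← md_mul he ha h, Finset.sum_eq_single (Sum.inl (e (σ l)))]
    · rw [if_pos rfl, mul_one]
    · intro x _ hx
      rw [if_neg hx, mul_zero]
    · intro h'
      exact absurd (Finset.mem_univ _) h'
  rw [h5, Finset.prod_univ_sum, Finset.mul_sum]
  refine Finset.sum_congr (by ext; simp) fun K _ => ?_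
  rw [Finset.prod_mul_distrib]
  ring

/-- the derivative of the determinant form -/
theorem der_dt {k : ℕ} {e : Fin k → Fin n} (he : Enum c e i) {a : Matrix (Fin n) (Fin n) ℂ}
    (ha : BD c a) (h : Matrix (Fin w) (Fin w) ℂ) :
    der (fromBlocks a 0 0 h) (fun J => (dt w e J : ℂ)) =
      (a.submatrix e e).trace • fun J => (dt w e J : ℂ) := by
  funext J
  rw [Pi.smul_apply, smul_eq_mul, der]
  have h1 : ∀ l : Fin k, ∑ x : Fin n ⊕ Fin w,
      (fromBlocks a 0 0 h : Matrix (Fin n ⊕ Fin w) (Fin n ⊕ Fin w) ℂ) x (J l) *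
        (dt w e (Function.update J l x) : ℂ) =
      ((md e J).updateRow l ((md e J * (a.submatrix e e)ᵀ) l)).det := by
    intro l
    have h2 : ∀ x, (dt w e (Function.update J l x) : ℂ) = ((md e J).updateRow l
        (fun m => if x = Sum.inl (e m) then (1 : ℂ) else 0)).det := by
      intro x
      rw [dt_cast]
      congr 1
      ext l' m
      by_cases hl : l' = l
      · subst hl
        rw [Matrix.updateRow_self, md, Matrix.of_apply, Function.update_self]
      · rw [Matrix.updateRow_ne hl, md, md, Matrix.of_apply, Matrix.of_apply,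
          Function.update_of_ne hl]
    simp only [h2]
    have h3 : (md e J * (a.submatrix e e)ᵀ) l = ∑ x : Fin n ⊕ Fin w,
        (fromBlocks a 0 0 h : Matrix (Fin n ⊕ Fin w) (Fin n ⊕ Fin w) ℂ) x (J l) •
          (fun m : Fin k => if x = Sum.inl (e m) then (1 : ℂ) else 0) := by
      funext m
      rw [← md_mul he ha h, Finset.sum_apply, Finset.sum_eq_single (Sum.inl (e m))]
      · rw [Pi.smul_apply, if_pos rfl, smul_eq_mul, mul_one]
      · intro x _ hx
        rw [Pi.smul_apply, if_neg hx, smul_eq_mul, mul_zero]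
      · intro h'
        exact absurd (Finset.mem_univ _) h'
    have h4 : ∀ v : Fin k → ℂ, ((md e J).updateRow l v).det =
        Matrix.cramer (md e J)ᵀ v l := fun v => (Matrix.cramer_transpose_apply _ _ _).symm
    simp only [h4]
    rw [h3, map_sum, Finset.sum_apply]
    refine Finset.sum_congr rfl fun x _ => ?_
    rw [map_smul, Pi.smul_apply, smul_eq_mul]
  simp only [h1]
  rw [sum_det_row, Matrix.trace_mul_cycle, Matrix.adjugate_mul, Matrix.smul_mul, Matrix.one_mul,
    Matrix.trace_smul, Matrix.trace_transpose, smul_eq_mul, dt_cast, mul_comm]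

/-- the trace of the Hodge operator of a block -/
theorem tr_blk (bQ : BD c T.Q) (bx : BD c T.x) {k : ℕ} {e : Fin k → Fin n} (he : Enum c e i) :
    (T.x.submatrix e e).trace = 0 := by
  obtain ⟨T'', h1, h2⟩ := W571.PG.sub n _ T e he.inj (by
    intro a b hb
    have hcb : c b ≠ i := fun h => by
      obtain ⟨j, hj⟩ := he.surj b h
      exact hb j hj
    have h3 : c (e a) ≠ c b := by
      rw [he.col]
      exact fun h => hcb h.symm
    exact ⟨bQ _ _ h3, bx _ _ h3, bx _ _ fun h => h3 h.symm⟩)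
  rw [← h2]
  have h3 : mC T''.Q⁻¹ * mC T''.Q = 1 := QQ
  have h4 : mC T''.Q * mC T''.Q⁻¹ = 1 := mul_eq_one_comm.1 h3
  have h5 := T''.skew
  have h6 : T''.x = -(mC T''.Q⁻¹ * T''.xᵀ * mC T''.Q) := by
    have h7 : mC T''.Q⁻¹ * (T''.xᵀ * mC T''.Q + mC T''.Q * T''.x) = 0 := by rw [h5, mul_zero]
    rw [mul_add, ← mul_assoc, ← mul_assoc, h3, one_mul] at h7
    exact eq_neg_of_add_eq_zero_right h7
  have h8 : T''.x.trace = -T''.x.trace := by
    nth_rewrite 1 [h6]
    rw [Matrix.trace_neg, Matrix.trace_mul_cycle, h4, one_mul, Matrix.trace_transpose]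
  have h9 : (2 : ℂ) * T''.x.trace = 0 := by linear_combination h8
  rcases mul_eq_zero.1 h9 with h | h
  · norm_num at h
  · exact h

/-- the determinant form is a Hodge class -/
theorem isH_dt (bQ : BD c T.Q) (bx : BD c T.x) {k : ℕ} {e : Fin k → Fin n} (he : Enum c e i) :
    IsH T W (dt w e) := by
  rw [IsH, hop, der_dt he bx, tr_blk bQ bx he, zero_smul]

theorem sub_mul2 {R : Type} [CommRing R] {k : ℕ} {e : Fin k → Fin n} (he : Enum c e i)
    {A B : Matrix (Fin n) (Fin n) R} (hA : BD c A) :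
    (A * B).submatrix e e = A.submatrix e e * B.submatrix e e := by
  ext a b
  rw [Matrix.submatrix_apply, Matrix.mul_apply, Matrix.mul_apply]
  simp only [Matrix.submatrix_apply]
  rw [← Finset.sum_subset (Finset.subset_univ (Finset.univ.map ⟨e, he.inj⟩)),
    Finset.sum_map]
  · rfl
  · intro x _ hx
    have hcx : c x ≠ i := by
      intro h
      obtain ⟨j, rfl⟩ := he.surj x h
      exact hx (Finset.mem_map.2 ⟨j, Finset.mem_univ _, rfl⟩)
    rw [hA _ _ (by rw [he.col]; exact fun h => hcx h.symm), zero_mul]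

/-- the determinant of a block of an isometry -/
theorem det_blk {R : Type} [CommRing R] {k : ℕ} {e : Fin k → Fin n} (he : Enum c e i)
    {A Q Q' : Matrix (Fin n) (Fin n) R} (hA : BD c A) (hQ : BD c Q')
    (h : Aᵀ * Q' * A = Q) : (A.submatrix e e).det ^ 2 * (Q'.submatrix e e).det =
      (Q.submatrix e e).det := by
  have hAt : BD c Aᵀ := fun a b hab => hA b a fun h' => hab h'.symm
  have hAQ : BD c (Aᵀ * Q') := by
    intro a b hab
    rw [Matrix.mul_apply]
    refine Finset.sum_eq_zero fun l _ => ?_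
    by_cases hl : c a = c l
    · rw [hQ l b (by rw [← hl]; exact hab), mul_zero]
    · rw [hAt a l hl, zero_mul]
  rw [← h, sub_mul2 he hAQ, sub_mul2 he hAt, Matrix.det_mul, Matrix.det_mul,
    ← Matrix.transpose_submatrix, Matrix.det_transpose]
  ring

theorem blk_det_ne (bQ : BD c T.Q) (bx : BD c T.x) {k : ℕ} {e : Fin k → Fin n}
    (he : Enum c e i) : (T.Q.submatrix e e).det ≠ 0 := by
  obtain ⟨T'', h1, h2⟩ := W571.PG.sub n _ T e he.inj (by
    intro a b hb
    have hcb : c b ≠ i := fun h => by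
      obtain ⟨j, hj⟩ := he.surj b h
      exact hb j hj
    have h3 : c (e a) ≠ c b := by
      rw [he.col]
      exact fun h => hcb h.symm
    exact ⟨bQ _ _ h3, bx _ _ h3, bx _ _ fun h => h3 h.symm⟩)
  rw [← h1]
  exact W74.PG.det_ne T''

/-- the determinant form can be transported if its multiplier is a rational number -/
theorem TH_dt {PP : Set (Matrix (Fin n ⊕ Fin w) (Fin n ⊕ Fin w) ℂ)}
    (bQ : BD c T.Q) (bQ' : BD c T'.Q) (bx : BD c T.x) (bx' : BD c T'.x)
    {k : ℕ} {e : Fin k → Fin n} (he : Enum c e i) {z : ℚ} (hz : z ≠ 0)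
    (h : ∀ P ∈ PP, ∃ a d, P = fromBlocks a 0 0 d ∧ BD c a ∧ (a.submatrix e e).det = (z : ℂ)) :
    dt w e ∈ TH T T' W W' PP (Fin k) := by
  refine mem_TH.2 ⟨isH_dt bQ bx he, z⁻¹ • dt w e, isH_smul _ (isH_dt bQ' bx' he), fun P hP => ?_⟩
  obtain ⟨a, d, rfl, ha, hd⟩ := h P hP
  have e1 : (fun J : Fin k → Fin n ⊕ Fin w => (((z⁻¹ • dt w e) J : ℚ) : ℂ)) =
      ((z⁻¹ : ℚ) : ℂ) • fun J => (dt w e J : ℂ) := by
    funext J; simp
  have h5 : pl (fromBlocks a 0 0 d) (((z⁻¹ : ℚ) : ℂ) • fun J => (dt w e J : ℂ)) =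
      ((z⁻¹ : ℚ) : ℂ) • pl (fromBlocks a 0 0 d) (fun J => (dt w e J : ℂ)) := by
    funext J
    simp only [pl, Pi.smul_apply, smul_eq_mul, Finset.mul_sum]
    refine Finset.sum_congr rfl fun K _ => ?_
    ring
  rw [e1, h5, pl_dt2 he ha, hd, smul_smul]
  have e2 : ((z⁻¹ : ℚ) : ℂ) * (z : ℂ) = 1 := by
    rw [← Rat.cast_mul, inv_mul_cancel₀ hz, Rat.cast_one]
  rw [e2, one_smul]

/-- the determinants of the blocks of the comparison isomorphisms are rational -/
theorem det_rat (bQ : BD c T.Q) (bQ' : BD c T'.Q) (bx : BD c T.x) (bx' : BD c T'.x)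
    {k : ℕ} {e : Fin k → Fin n} (he : Enum c e i)
    (E : ∀ (l : ℕ) [Fact l.Prime], Matrix (Fin n) (Fin n) ℚ_[l])
    (hE : ∀ (l : ℕ) [Fact l.Prime], BD c (E l))
    (hEQ : ∀ (l : ℕ) [Fact l.Prime], (E l)ᵀ * T'.Q.map (fun z : ℚ => (z : ℚ_[l])) * E l =
      T.Q.map (fun z : ℚ => (z : ℚ_[l]))) :
    ∃ z : ℚ, z ≠ 0 ∧ ∀ (a : Matrix (Fin n) (Fin n) ℂ), BD c a → aᵀ * mC T'.Q * a = mC T.Q →
      (a.submatrix e e).det = (z : ℂ) ∨ (a.submatrix e e).det = ((-z : ℚ) : ℂ) := by
  have hne := blk_det_ne bQ bx he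
  have hne' := blk_det_ne bQ' bx' he
  obtain ⟨z, hz⟩ := W435.PG.sqr ((T.Q.submatrix e e).det / (T'.Q.submatrix e e).det) (by
    intro l _
    refine ⟨((E l).submatrix e e).det, ?_⟩
    have h1 := det_blk he (hE l) (fun a b hab => by
      rw [Matrix.map_apply, bQ' a b hab, Rat.cast_zero]) (hEQ l)
    have h2 : ∀ Q : Matrix (Fin n) (Fin n) ℚ,
        ((Q.map (fun z : ℚ => (z : ℚ_[l]))).submatrix e e).det =
          (((Q.submatrix e e).det : ℚ) : ℚ_[l]) := by
      intro Q
      rw [← Rat.coe_castHom, RingHom.map_det]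
      rfl
    rw [h2, h2] at h1
    rw [Rat.cast_div, eq_div_iff (by exact_mod_cast hne'), h1])
  refine ⟨z, ?_, fun a ha hQ => ?_⟩
  · rintro rfl
    rw [zero_pow two_ne_zero, eq_comm, div_eq_zero_iff] at hz
    rcases hz with h | h
    · exact hne h
    · exact hne' h
  · have h1 := det_blk he ha (BD.mC bQ') hQ
    have h2 : ∀ Q : Matrix (Fin n) (Fin n) ℚ, ((mC Q).submatrix e e).det =
        (((Q.submatrix e e).det : ℚ) : ℂ) := by
      intro Q
      rw [← Rat.coe_castHom, RingHom.map_det]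
      rfl
    rw [h2, h2] at h1
    have h3 : (a.submatrix e e).det ^ 2 = (z : ℂ) ^ 2 := by
      have h4 : (((T'.Q.submatrix e e).det : ℚ) : ℂ) ≠ 0 := by exact_mod_cast hne'
      apply mul_right_cancel₀ h4
      rw [h1, ← Rat.cast_pow, hz, ← Rat.cast_mul, div_mul_cancel₀ _ hne']
    rcases sq_eq_sq_iff_eq_or_eq_neg.1 h3 with h | h
    · exact Or.inl h
    · exact Or.inr (by rw [h, Rat.cast_neg])

end

end Pool.Agent.L5helper24.KM
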